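import Pool.Agent.W_4481e3_q59.ConsumerPer

/-!
Consumer theorem, one phase `q` for the time `0`, windows starting at any phase, constants from the
period certificate.
-/

open Filter Topology Set

namespace Pool.Agent.W_4481e3_q59

open Pool.Agent.W_4481e3_q42 Pool.Agent.W_4481e3_h1 Pool.Agent.W_MP_4481e3_an
open Pool.Agent.W_MP_4481e3_an.Boot (RFam slope Rem nextC compC compK)

variable {ε : ℂ} {ρ A K : ℝ} {V : ℕ → ℝ → ℂ} {a0 : ℂ}

/-- the second order constant after `j` steps from the phase `q`, along the orbit of `w`, started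
with `κ` on the window `h` -/
noncomputable def perK (ε : ℂ) (q : ℕ) (w a : ℂ) (h κ : ℝ) (j : ℕ) : ℝ :=
  compC (fun j => cc (q + j)) (fun j => dd (q + j)) (fun j => ‖1 - 2 * cc (q + j) * ww (ε ^ 2) q w j‖)
    (fun j => ‖ww (ε ^ 2) q w j‖) (fun j => ‖ε ^ 2 - ww (ε ^ 2) q w j ^ 2‖)
    (fun j => ‖aa (ε ^ 2) q w a j‖) h κ j

/-- **Period certificate**: the slopes at the beginning and at the end of the period are at most `A`;
`β j` bounds the slopes, `κ j` the second order constants after `j < 4` steps, and the constant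
`κ 0` reproduces itself with a factor `θ`. -/
def PerQ (ε : ℂ) (q : ℕ) (A h θ : ℝ) (κ β : ℕ → ℝ) : Prop :=
  ∀ w a : ℂ, Alive ε (2 ^ q / 15) w → ‖a‖ ≤ A → ‖aa (ε ^ 2) q w a 4‖ ≤ A →
    (∀ j < 4, ‖aa (ε ^ 2) q w a j‖ ≤ β j) ∧ (∀ j, 1 ≤ j → j < 4 → perK ε q w a h (κ 0) j ≤ κ j) ∧
      perK ε q w a h (κ 0) 4 ≤ θ * κ 0

lemma compK_eq_perK (hF : Fam2 ε ρ A K V) (q i : ℕ) (h κ : ℝ) (j : ℕ) :
    compK (ε ^ 2) b15 V a0 (q + 4 * i) h κ j =
      perK ε q (V (q + 4 * i) 0) (slope (ε ^ 2) b15 V a0 (q + 4 * i)) h κ j := by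
  unfold compK perK
  have e1 : (fun j => Boot.cc b15 (q + 4 * i + j)) = fun j => cc (q + j) := by
    funext j; rw [boot_cc, cc_shift]
  have e2 : (fun j => Boot.dd b15 (q + 4 * i + j)) = fun j => dd (q + j) := by
    funext j; rw [boot_dd, dd_shift]
  have e3 : ∀ j, V (q + 4 * i + j) 0 = ww (ε ^ 2) q (V (q + 4 * i) 0) j := by
    intro j
    rw [← ww_eq hF (q + 4 * i) j, ww_shift]
  have e4 : ∀ j, slope (ε ^ 2) b15 V a0 (q + 4 * i + j) =
      aa (ε ^ 2) q (V (q + 4 * i) 0) (slope (ε ^ 2) b15 V a0 (q + 4 * i)) j := by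
    intro j
    rw [← aa_eq hF (q + 4 * i) j, aa_shift]
  have e5 : ∀ j, Boot.cc b15 (q + 4 * i + j) = cc (q + j) := fun j => congrFun e1 j
  rw [e1, e2]
  congr 1
  · funext j; rw [e5, e3]
  · funext j; rw [e3]
  · funext j; rw [e3]
  · funext j; rw [e4]

/-- **Consumer theorem.** -/
theorem no_fam2_perQ (hA : Adm ε) (hF : Fam2 ε ρ A K V) {q : ℕ} (hq : q < 4) {Λ Alo Ahi : ℝ} {m Nmax : ℕ}
    {κ τ β : ℕ → ℝ → ℝ} (hΛ : 1 < Λ) (hAlo : 0 < Alo)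
    (hc0 : ∃ B, ∀ t : ℝ, |t| ≤ ρ → ‖V 0 t - V 0 0 - a0 * t‖ ≤ B * t ^ 2)
    (hhi : ∀ᶠ i in atTop, ‖slope (ε ^ 2) b15 V a0 (q + 4 * i)‖ ≤ Ahi)
    (hlo : ∃ᶠ i in atTop, Λ * Alo ≤ ‖slope (ε ^ 2) b15 V a0 (q + 4 * i)‖)
    (hκ4 : ∀ p A, κ (p + 4) A = κ p A) (hτ4 : ∀ p A, τ (p + 4) A = τ p A) (hβ4 : ∀ p A, β (p + 4) A = β p A)
    (hκm : ∀ p A B, Alo ≤ A → A ≤ B → κ p A ≤ κ p B) (hτm : ∀ p A B, Alo ≤ A → A ≤ B → τ p B ≤ τ p A)
    (hβm : ∀ p A B, Alo ≤ A → A ≤ B → β p A ≤ β p B)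
    (hκ0 : ∀ A, Alo ≤ A → 0 < κ q A) (hτ0 : ∀ A, Alo ≤ A → 0 < τ q A)
    (hper : ∀ A, Alo ≤ A → A ≤ Ahi → ∃ θ h, 0 ≤ θ ∧ θ < 1 ∧ τ q A = 16 * h ∧
      (∀ j, 1 ≤ j → j < 4 → τ (q + j) A ≤ 2 ^ j * h) ∧
      PerQ ε q (Λ * A) h θ (fun j => κ (q + j) A) (fun j => β (q + j) A))
    (hkill : ∀ A, Alo ≤ A → A ≤ Λ * Ahi → ∃ n ≤ Nmax, KillAtQ ε m β κ τ q A 1 n) : False := by
  classical
  have hρ := hF.pos
  have hΛ0 : 0 < Λ := by linarith
  set g := Real.sqrt Λ with hg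
  have hgg : g * g = Λ := Real.mul_self_sqrt hΛ0.le
  have hg1 : 1 < g := by
    rw [hg, Real.lt_sqrt zero_le_one]; linarith
  have hg0 : 0 < g := by linarith
  set S : ℕ → ℝ := fun i => ‖slope (ε ^ 2) b15 V a0 (q + 4 * i)‖ with hS
  have hbdd : IsBoundedUnder (· ≤ ·) atTop S := ⟨Ahi, by simpa using hhi⟩
  have hcobdd : IsCoboundedUnder (· ≤ ·) atTop S :=
    IsCoboundedUnder.of_frequently_ge (Frequently.mono hlo fun k hk => hk)
  set L := limsup S atTop with hL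
  have hLlo : Λ * Alo ≤ L := le_limsup_of_frequently_le hlo hbdd
  have hLhi : L ≤ Ahi := limsup_le_of_le hcobdd hhi
  have hL0 : 0 < L := lt_of_lt_of_le (by positivity) hLlo
  set A₁ := L / g with hA₁
  have hA₁g : A₁ * g = L := by rw [hA₁, div_mul_cancel₀ _ hg0.ne']
  have hA₁0 : 0 < A₁ := by positivity
  have hA₁lo : Alo ≤ A₁ := by
    rw [hA₁, le_div_iff₀ hg0]
    refine le_trans ?_ hLlo
    rw [← hgg]
    nlinarith [mul_pos (mul_pos hAlo hg0) (sub_pos.2 hg1)]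
  have hA₁hi : A₁ ≤ Ahi := by
    rw [hA₁, div_le_iff₀ hg0]
    have : 0 < Ahi := lt_of_lt_of_le hL0 hLhi
    nlinarith
  have hΛA₁ : Λ * A₁ = g * L := by rw [← hgg, ← hA₁g]; ring
  -- eventually below `g L`, frequently above `L / g`
  have hev : ∀ᶠ i in atTop, S i < g * L :=
    eventually_lt_of_limsup_lt (by rw [← hL]; nlinarith) hbdd
  have hfr : ∃ᶠ i in atTop, A₁ < S i :=
    frequently_lt_of_lt_limsup hcobdd (by rw [← hL, ← hA₁g]; nlinarith)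
  obtain ⟨i₀', hi₀'⟩ := eventually_atTop.1 hev
  obtain ⟨θ, h, hθ0, hθ1, hτh, hτj, hP⟩ := hper A₁ hA₁lo hA₁hi
  have hτ₁ := hτ0 A₁ hA₁lo
  have hκ₁ := hκ0 A₁ hA₁lo
  have hh0 : 0 < h := by linarith
  -- a time from which the windows fit
  obtain ⟨i₀'', hi₀''⟩ : ∃ i : ℕ, 16 * h + 1 / 2 ≤ ρ * 2 ^ i := by
    obtain ⟨i, hi⟩ := pow_unbounded_of_one_lt ((16 * h + 1 / 2) / ρ) (by norm_num : (1:ℝ) < 2)
    rw [div_lt_iff₀ hρ] at hi
    exact ⟨i, by linarith⟩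
  set i₀ := max i₀' i₀'' with hi₀
  have hi₀l : i₀' ≤ i₀ := le_max_left _ _
  have hi₀r : i₀'' ≤ i₀ := le_max_right _ _
  have hwin : ∀ k ≥ q + 4 * i₀, 16 * h + 1 / 2 ≤ ρ * 2 ^ k := by
    intro k hk
    refine hi₀''.trans ?_
    have h1 : (2:ℝ) ^ i₀'' ≤ 2 ^ k := pow_le_pow_right₀ (by norm_num) (by omega)
    nlinarith
  have halive : ∀ k ≥ q + 4 * i₀, ∀ s : ℝ, |s| ≤ 16 * h → Alive ε (2 ^ k / 15 + s) (V k s) := by
    intro k hk s hs
    have hD : Dm ρ k s := by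
      unfold Dm; linarith [hwin k hk]
    exact alive_of_fam2 hF hA hD
  have halive0 : ∀ k ≥ q + 4 * i₀, Alive ε (2 ^ (k % 4) / 15) (V k 0) := by
    intro k hk
    have h1 := halive k hk 0 (by rw [abs_zero]; positivity)
    rw [add_zero] at h1
    obtain ⟨n, hn⟩ := base_mod k
    rw [← hn]
    exact Pool.Agent.W_4481e3_h1.Alive.add_int h1 n
  have halive4 : ∀ i ≥ i₀, Alive ε (2 ^ q / 15) (V (q + 4 * i) 0) := by
    intro i hi
    have h1 := halive0 (q + 4 * i) (by omega)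
    have e : (q + 4 * i) % 4 = q := by omega
    rwa [e] at h1
  have hR := rfam_of_fam2 hF
  have haa : ∀ i n, aa (ε ^ 2) q (V (q + 4 * i) 0) (slope (ε ^ 2) b15 V a0 (q + 4 * i)) n =
      slope (ε ^ 2) b15 V a0 (q + 4 * i + n) := by
    intro i n
    rw [← aa_shift (ε ^ 2) q i, aa_eq hF]
  have hsl : ∀ i ≥ i₀, ‖slope (ε ^ 2) b15 V a0 (q + 4 * i)‖ ≤ Λ * A₁ := by
    intro i hi
    rw [hΛA₁]
    exact (hi₀' i (by omega)).le
  -- what the period certificate gives at late times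
  have hPi : ∀ i ≥ i₀, (∀ j < 4, ‖slope (ε ^ 2) b15 V a0 (q + 4 * i + j)‖ ≤ β (q + j) A₁) ∧
      (∀ j, 1 ≤ j → j < 4 → compK (ε ^ 2) b15 V a0 (q + 4 * i) h (κ q A₁) j ≤ κ (q + j) A₁) ∧
      compK (ε ^ 2) b15 V a0 (q + 4 * i) h (κ q A₁) 4 ≤ θ * κ q A₁ := by
    intro i hi
    obtain ⟨p1, p2, p3⟩ := hP (V (q + 4 * i) 0) (slope (ε ^ 2) b15 V a0 (q + 4 * i)) (halive4 i hi)
      (hsl i hi) (by
        rw [haa, show q + 4 * i + 4 = q + 4 * (i + 1) by ring]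
        exact hsl (i + 1) (by omega))
    refine ⟨fun j hj => ?_, fun j h1 h2 => ?_, ?_⟩
    · rw [← haa]; exact p1 j hj
    · rw [compK_eq_perK hF]; exact p2 j h1 h2
    · rw [compK_eq_perK hF]; exact p3
  -- boot at the phase `q`
  obtain ⟨i₁, hRem⟩ := hR.boot_block (a0 := a0) (k₀ := q + 4 * i₀) (L := 4) (κ := κ q A₁)
    (τ := 16 * h) (θ := θ) (by positivity) hκ₁ (by norm_num) hθ0 hθ1
    (by linarith [hwin (q + 4 * i₀) le_rfl])
    (fun i => by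
      have e1 : q + 4 * i₀ + 4 * i = q + 4 * (i₀ + i) := by ring
      have e2 : 16 * h / 2 ^ 4 = h := by norm_num
      rw [e1, e2]
      exact (hPi (i₀ + i) (by omega)).2.2)
    (by
      obtain ⟨B, hB⟩ := hc0
      refine ⟨2 * |B|, ρ, by positivity, hρ, fun s hs => ?_⟩
      have h1 := hB s hs
      have e1 : Rem (ε ^ 2) b15 V a0 0 s = V 0 s - V 0 0 - a0 * s := rfl
      rw [e1]
      refine h1.trans ?_
      have h2 := le_abs_self B
      have h3 := sq_nonneg s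
      nlinarith)
  have hRem0 : ∀ i ≥ i₀ + i₁, ∀ s, |s| ≤ 16 * h →
      ‖Rem (ε ^ 2) b15 V a0 (q + 4 * i) s‖ ≤ κ q A₁ * s ^ 2 / 2 := by
    intro i hi s hs
    obtain ⟨t, rfl⟩ := Nat.exists_eq_add_of_le (show i₀ ≤ i by omega)
    have := hRem t (by omega) s hs
    rwa [show q + 4 * i₀ + 4 * t = q + 4 * (i₀ + t) by ring] at this
  -- all phases
  have hper4 : ∀ f : ℕ → ℝ → ℝ, (∀ p A, f (p + 4) A = f p A) → ∀ i j A, f (q + 4 * i + j) A = f (q + j) A := by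
    intro f hf i j A
    have h1 := per_mod (f := fun p => f p A) (fun p => hf p A) (q + 4 * i) j
    have h2 := per_mod (f := fun p => f p A) (fun p => hf p A) q j
    rw [h1, h2]
    congr 2
    omega
  have hdec : ∀ k ≥ q, ∃ i j, j < 4 ∧ k = q + 4 * i + j := fun k hk =>
    ⟨(k - q) / 4, (k - q) % 4, Nat.mod_lt _ (by norm_num), by omega⟩
  set I := q + 4 * (i₀ + i₁ + 1) with hI
  have hslk : ∀ k ≥ q + 4 * i₀, ‖slope (ε ^ 2) b15 V a0 k‖ ≤ β k A₁ := by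
    intro k hk
    obtain ⟨i, j, hj, rfl⟩ := hdec k (by omega)
    rw [hper4 β hβ4]
    exact (hPi i (by omega)).1 j hj
  have hτk : ∀ k ≥ q, τ k A₁ ≤ 16 * h := by
    intro k hk
    obtain ⟨i, j, hj, rfl⟩ := hdec k hk
    rw [hper4 τ hτ4]
    rcases Nat.eq_zero_or_pos j with rfl | hj0
    · rw [Nat.add_zero, hτh]
    · refine (hτj j hj0 hj).trans ?_
      have : (2:ℝ) ^ j ≤ 2 ^ 4 := pow_le_pow_right₀ (by norm_num) (by omega)
      nlinarith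
  have hRemk : ∀ k ≥ I, ∀ s, |s| ≤ τ k A₁ → ‖Rem (ε ^ 2) b15 V a0 k s‖ ≤ κ k A₁ * s ^ 2 / 2 := by
    intro k hk s hs
    obtain ⟨i, j, hj, rfl⟩ := hdec k (by omega)
    rw [hper4 τ hτ4] at hs
    rw [hper4 κ hκ4]
    rcases Nat.eq_zero_or_pos j with rfl | hj0
    · rw [Nat.add_zero] at hs ⊢
      exact hRem0 i (by omega) s (by rw [← hτh]; exact hs)
    · have h1 := hR.stepC (a0 := a0) (k := q + 4 * i) (B := κ q A₁) (h := h) hκ₁.le hh0.le
        (by linarith [hwin (q + 4 * i) (by omega)])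
        (fun s hs => hRem0 i (by omega) s (by linarith)) j s (hs.trans (hτj j hj0 hj))
      refine h1.trans ?_
      have h2 := (hPi i (by omega)).2.1 j hj0 hj
      have := mul_le_mul_of_nonneg_right h2 (sq_nonneg s)
      linarith
  -- selection of the time `0`
  obtain ⟨K0, hK0a, hK0⟩ := (hfr.and_eventually (eventually_ge_atTop (I + Nmax))).exists
  have hK0b : S K0 < g * L := hi₀' K0 (by omega)
  set A' := S K0 with hA'
  have hA'lo : Alo ≤ A' := hA₁lo.trans hK0a.le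
  have hA'hi : A' ≤ Λ * Ahi := by
    refine hK0b.le.trans ?_
    rw [← hΛA₁]
    exact mul_le_mul_of_nonneg_left hA₁hi hΛ0.le
  obtain ⟨n, hn, hkill⟩ := hkill A' hA'lo hA'hi
  obtain ⟨k, hk⟩ : ∃ k, q + 4 * K0 = k + n := ⟨q + 4 * K0 - n, by omega⟩
  have hkI : I ≤ k := by omega
  have hki₀ : q + 4 * i₀ ≤ k := by omega
  obtain ⟨j, hj, s, hs, hdead⟩ := hkill (k % 4) (V k 0) (slope (ε ^ 2) b15 V a0 k) (by omega) (by omega)
    (halive0 k hki₀)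
    (by rw [← aa_mod, aa_eq hF, ← hk, mul_one])
    (fun j _ => by
      rw [← aa_mod, aa_eq hF]
      have e5 : β (k % 4 + j) A' = β (k + j) A' :=
        (per_mod (f := fun p => β p A') (fun p => hβ4 p A') k j).symm
      rw [e5]
      exact (hslk (k + j) (by omega)).trans (hβm _ _ _ hA₁lo hK0a.le))
  rw [← ww_mod, ww_eq hF, ← aa_mod, aa_eq hF] at hdead
  have eκ : κ (k % 4 + j) A' = κ (k + j) A' := (per_mod (f := fun p => κ p A') (fun p => hκ4 p A') k j).symm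
  have eτ : τ (k % 4 + j) A' = τ (k + j) A' := (per_mod (f := fun p => τ p A') (fun p => hτ4 p A') k j).symm
  rw [eτ] at hs
  rw [eκ] at hdead
  have hs1 : |s| ≤ τ (k + j) A₁ := hs.trans (hτm _ _ _ hA₁lo hK0a.le)
  have hrem := hRemk (k + j) (by omega) s hs1
  have hal := halive (k + j) (by omega) s (hs1.trans (hτk _ (by omega)))
  -- shift of the base point
  obtain ⟨n', hn'⟩ : ∃ n' : ℤ, ((2:ℝ) ^ (k + j) / 15) + n' = 2 ^ (k % 4 + j) / 15 := by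
    obtain ⟨i, hi⟩ := base_mod k
    refine ⟨2 ^ j * i, ?_⟩
    push_cast
    rw [pow_add, pow_add]
    have : (2:ℝ) ^ j * (2 ^ k / 15 + i) = 2 ^ j * (2 ^ (k % 4) / 15) := by rw [hi]
    linarith
  have hal2 : Alive ε (2 ^ (k % 4 + j) / 15 + s) (V (k + j) s) := by
    have := Pool.Agent.W_4481e3_h1.Alive.add_int hal n'
    rwa [add_right_comm, hn'] at this
  refine hdead (V (k + j) s) ?_ hal2
  have e1 : V (k + j) s - (V (k + j) 0 + slope (ε ^ 2) b15 V a0 (k + j) * s) =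
      Rem (ε ^ 2) b15 V a0 (k + j) s := by unfold Rem; ring
  rw [e1]
  refine hrem.trans ?_
  have h5 := hκm (k + j) A₁ A' hA₁lo hK0a.le
  have h6 := mul_le_mul_of_nonneg_right h5 (sq_nonneg s)
  linarith

end Pool.Agent.W_4481e3_q59
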