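import Pool.Agent.W_MP_4481e3_an.Star

/-!
Escape to infinity when the base orbit passes near the quarter points only with doubly exponential
closeness.
-/

open MeasureTheory Filter Topology Set

namespace Pool.Agent.W_MP_4481e3_an

variable {α : ℂ} {L : ℕ}

/-- the closeness at time `k` -/
noncomputable def ek (k : ℕ) : ℝ := Real.exp (-(2 * (3 / 2 : ℝ) ^ k))

lemma ek_pos (k : ℕ) : 0 < ek k := Real.exp_pos _

lemma ek_le_one (k : ℕ) : ek k ≤ 1 := by
  unfold ek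
  rw [Real.exp_le_one_iff]
  have : 0 ≤ (3 / 2 : ℝ) ^ k := by positivity
  linarith

lemma ek_anti {j k : ℕ} (h : j ≤ k) : ek k ≤ ek j := by
  unfold ek
  apply Real.exp_le_exp.2
  have : (3 / 2 : ℝ) ^ j ≤ (3 / 2 : ℝ) ^ k := pow_le_pow_right₀ (by norm_num) h
  linarith

/-- the exceptional set -/
def badE (L : ℕ) : Set ℝ := {x | ∃ k : ℕ, (L : ℝ) ^ k * x ∈ smallCos (ek k)}

/-- growth, with doubly exponential closeness allowed -/
lemma escapeE (hα0 : α ≠ 0) (hα : ‖α‖ ≤ 1) {x : ℝ} (hx : x ∉ badE L) {z : ℂ}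
    (hz : 4 * Real.exp 4 / ‖α‖ ≤ ‖z‖) (k : ℕ) :
    4 / ‖α‖ * Real.exp (4 * (3 / 2 : ℝ) ^ k) ≤ ‖O α L k x z‖ := by
  have hα' : 0 < ‖α‖ := norm_pos_iff.2 hα0
  have he : ∀ y : ℝ, 0 ≤ y → 1 ≤ Real.exp y := fun y hy => Real.one_le_exp hy
  induction k with
  | zero =>
    simpa [div_mul_eq_mul_div] using hz
  | succ k ih =>
    rw [O_real_succ]
    set w := O α L k x z with hw
    set c := Real.cos (2 * Real.pi * ((L : ℝ) ^ k * x)) with hc
    have hck : ek k ≤ |c| := by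
      by_contra hcon
      push Not at hcon
      exact hx ⟨k, hcon⟩
    set q : ℝ := (3 / 2 : ℝ) ^ k with hq
    have hq1 : 1 ≤ q := one_le_pow₀ (by norm_num)
    have hq2 : (3 / 2 : ℝ) ^ (k + 1) = 3 / 2 * q := by rw [pow_succ]; ring
    have hw4 : 4 * Real.exp (4 * q) ≤ ‖α‖ * ‖w‖ := by
      rw [div_mul_eq_mul_div, div_le_iff₀ hα'] at ih
      linarith
    have hw2 : 4 ≤ ‖w‖ := by
      have h1 : ‖α‖ * ‖w‖ ≤ ‖w‖ := by
        have := norm_nonneg w
        nlinarith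
      have := he (4 * q) (by linarith)
      linarith
    have h5 : ‖w + α * c * w * (1 - w)‖ ≥ ‖α‖ * |c| * ‖w‖ * (‖w‖ - 1) - ‖w‖ := by
      have h6 : ‖α * c * w * (1 - w)‖ ≤ ‖w + α * c * w * (1 - w)‖ + ‖w‖ := by
        have := norm_sub_le (w + α * c * w * (1 - w)) w
        simpa using this
      have h7 : ‖α * c * w * (1 - w)‖ = ‖α‖ * |c| * ‖w‖ * ‖1 - w‖ := by
        rw [norm_mul, norm_mul, norm_mul, Complex.norm_real, Real.norm_eq_abs]
      have h8 : ‖w‖ - 1 ≤ ‖1 - w‖ := by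
        have := norm_sub_norm_le w 1
        rw [norm_one, norm_sub_rev] at this
        exact this
      have h9 : ‖α‖ * |c| * ‖w‖ * (‖w‖ - 1) ≤ ‖α‖ * |c| * ‖w‖ * ‖1 - w‖ := by gcongr
      linarith
    -- size of `‖α‖ |c| ‖w‖`
    have h10 : 4 * Real.exp (2 * q) ≤ ‖α‖ * |c| * ‖w‖ := by
      have h11 : Real.exp (-(2 * q)) * (4 * Real.exp (4 * q)) ≤ |c| * (‖α‖ * ‖w‖) := by
        have : 0 < Real.exp (-(2 * q)) := Real.exp_pos _
        exact mul_le_mul hck hw4 (by positivity) (abs_nonneg _)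
      have h12 : Real.exp (-(2 * q)) * (4 * Real.exp (4 * q)) = 4 * Real.exp (2 * q) := by
        rw [mul_left_comm, ← Real.exp_add]; congr 2; ring
      rw [h12] at h11
      linarith
    have h13 : (8:ℝ) ≤ 4 * Real.exp (2 * q) := by
      have := Real.add_one_le_exp (2 * q)
      linarith
    have h14 : ‖α‖ * |c| * ‖w‖ ^ 2 / 4 ≤ ‖w + α * c * w * (1 - w)‖ := by
      have h15 : 2 * ‖w‖ ≤ ‖α‖ * |c| * ‖w‖ ^ 2 / 4 := by
        have : 8 * ‖w‖ ≤ ‖α‖ * |c| * ‖w‖ * ‖w‖ := by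
          apply mul_le_mul_of_nonneg_right (by linarith) (norm_nonneg _)
        nlinarith
      have h16 : ‖α‖ * |c| * ‖w‖ * (‖w‖ - 1) ≥ ‖α‖ * |c| * ‖w‖ ^ 2 * (3 / 4) := by
        have h17 : 0 ≤ ‖α‖ * |c| * ‖w‖ := by positivity
        nlinarith
      have h18 : 0 ≤ ‖α‖ * |c| * ‖w‖ ^ 2 := by positivity
      linarith
    rw [hq2]
    refine le_trans ?_ h14
    have h19 : 4 * Real.exp (2 * q) * (4 * Real.exp (4 * q)) ≤ (‖α‖ * |c| * ‖w‖) * (‖α‖ * ‖w‖) :=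
      mul_le_mul h10 hw4 (by positivity) (by positivity)
    have h20 : 4 * Real.exp (2 * q) * (4 * Real.exp (4 * q)) = 16 * Real.exp (4 * (3 / 2 * q)) := by
      have : Real.exp (4 * (3 / 2 * q)) = Real.exp (2 * q) * Real.exp (4 * q) := by
        rw [← Real.exp_add]; congr 1; ring
      rw [this]; ring
    rw [h20] at h19
    rw [div_mul_eq_mul_div, div_le_iff₀ hα']
    nlinarith

lemma fall_infE (hα0 : α ≠ 0) (hα : ‖α‖ ≤ 1) {n : ℕ} {u : ℝ} {z : ℂ}
    (hx : (L:ℝ) ^ n * u ∉ badE L) (hz : 4 * Real.exp 4 / ‖α‖ ≤ ‖O α L n u z‖) : u ∈ Fall α L z := by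
  right; right
  rw [← tendsto_add_atTop_iff_nat n]
  have h1 : 0 < ‖α‖ := norm_pos_iff.2 hα0
  have h2 : Tendsto (fun k : ℕ => 4 / ‖α‖ * Real.exp (4 * (3 / 2 : ℝ) ^ k)) atTop atTop := by
    apply Tendsto.const_mul_atTop (by positivity)
    apply Real.tendsto_exp_atTop.comp
    apply Tendsto.const_mul_atTop (by norm_num)
    exact tendsto_pow_atTop_atTop_of_one_lt (by norm_num)
  refine tendsto_atTop_mono (fun k => ?_) h2
  rw [add_comm, O_shift_real]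
  exact escapeE hα0 hα hx hz k

end Pool.Agent.W_MP_4481e3_an
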