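import Pool.Agent.W_4481e3_q59.DeadC
import Pool.Agent.W_4481e3_q42.Stmt
import Pool.Agent.W_4481e3_h6.CDefs

/-!
Every point of the one sided family is alive in the sense of the certificate.
-/

open Filter Topology Set

namespace Pool.Agent.W_4481e3_h1

open Pool.Agent.W_4481e3_q42 Pool.Agent.W_MP_4481e3_an

/-- the base points -/
noncomputable def b15 (k : ℕ) : ℝ := 2 ^ k * (1 / 15)

section
variable {e : ℂ} {ρ A : ℝ} {b : ℕ → ℝ} {V : ℕ → ℝ → ℂ}

/-- Lipschitz bound on the whole window, at every time -/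
lemma Fam.lip_window (hV : Fam e ρ A b V) {K : ℝ}
    (hK : ∀ s t : ℝ, |s| ≤ ρ → |t| ≤ ρ → ‖V 0 s - V 0 t‖ ≤ K * |s - t|) (k : ℕ) :
    ∃ L, 0 < L ∧ ∀ s t : ℝ, |s| ≤ ρ * 2 ^ k → |t| ≤ ρ * 2 ^ k → ‖V k s - V k t‖ ≤ L * |s - t| := by
  induction k with
  | zero =>
    refine ⟨|K| + 1, by positivity, fun s t hs ht => ?_⟩
    rw [pow_zero, mul_one] at hs ht
    refine (hK s t hs ht).trans ?_
    have h1 := abs_nonneg (s - t)
    have h2 := le_abs_self K
    nlinarith
  | succ k ih =>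
    obtain ⟨L, hL, h⟩ := ih
    set B := Real.exp (A * (31 / 20) ^ k) with hB
    have hB0 : 0 < B := Real.exp_pos _
    have hpi := Real.pi_pos
    refine ⟨(L * (1 + 2 * B) + 2 * Real.pi * (‖e‖ + B ^ 2)) / 2, by positivity, fun s' t' hs' ht' => ?_⟩
    obtain ⟨s, rfl⟩ : ∃ s, s' = 2 * s := ⟨s' / 2, by ring⟩
    obtain ⟨t, rfl⟩ : ∃ t, t' = 2 * t := ⟨t' / 2, by ring⟩
    have hs : |s| ≤ ρ * 2 ^ k := by
      rw [abs_mul, abs_two, pow_succ] at hs'; linarith
    have ht : |t| ≤ ρ * 2 ^ k := by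
      rw [abs_mul, abs_two, pow_succ] at ht'; linarith
    have gs := hV.growth k s hs
    have gt := hV.growth k t ht
    rw [← hB] at gs gt
    rw [hV.recur k s hs, hV.recur k t ht]
    have hst := h s t hs ht
    have hc : |Real.cos (2 * Real.pi * (b k + s)) - Real.cos (2 * Real.pi * (b k + t))| ≤
        2 * Real.pi * |s - t| := by
      refine (Real.abs_cos_sub_cos_le _ _).trans (le_of_eq ?_)
      have : 2 * Real.pi * (b k + s) - 2 * Real.pi * (b k + t) = 2 * Real.pi * (s - t) := by ring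
      rw [this, abs_mul, abs_of_pos (by positivity)]
    have hc1 : |Real.cos (2 * Real.pi * (b k + t))| ≤ 1 := Real.abs_cos_le_one _
    have hid : V k s + (Real.cos (2 * Real.pi * (b k + s)) : ℂ) * (e - V k s ^ 2) -
        (V k t + (Real.cos (2 * Real.pi * (b k + t)) : ℂ) * (e - V k t ^ 2)) =
        (V k s - V k t) * (1 - (Real.cos (2 * Real.pi * (b k + t)) : ℂ) * (V k s + V k t)) +
        ((Real.cos (2 * Real.pi * (b k + s)) - Real.cos (2 * Real.pi * (b k + t)) : ℝ) : ℂ) *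
          (e - V k s ^ 2) := by
      push_cast; ring
    rw [hid]
    have n1 : ‖1 - (Real.cos (2 * Real.pi * (b k + t)) : ℂ) * (V k s + V k t)‖ ≤ 1 + 2 * B := by
      refine (norm_sub_le _ _).trans ?_
      rw [norm_one, norm_mul, Complex.norm_real, Real.norm_eq_abs]
      have : ‖V k s + V k t‖ ≤ 2 * B := (norm_add_le _ _).trans (by linarith)
      have h3 : |Real.cos (2 * Real.pi * (b k + t))| * ‖V k s + V k t‖ ≤ 1 * (2 * B) := by gcongr
      linarith
    have n2 : ‖e - V k s ^ 2‖ ≤ ‖e‖ + B ^ 2 := by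
      refine (norm_sub_le _ _).trans ?_
      rw [norm_pow]
      gcongr
    calc _ ≤ ‖V k s - V k t‖ * ‖1 - (Real.cos (2 * Real.pi * (b k + t)) : ℂ) * (V k s + V k t)‖ +
          |Real.cos (2 * Real.pi * (b k + s)) - Real.cos (2 * Real.pi * (b k + t))| * ‖e - V k s ^ 2‖ := by
          refine (norm_add_le _ _).trans ?_
          rw [norm_mul, norm_mul, Complex.norm_real, Real.norm_eq_abs]
      _ ≤ (L * |s - t|) * (1 + 2 * B) + (2 * Real.pi * |s - t|) * (‖e‖ + B ^ 2) := by gcongr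
      _ = (L * (1 + 2 * B) + 2 * Real.pi * (‖e‖ + B ^ 2)) / 2 * |2 * s - 2 * t| := by
          rw [← mul_sub, abs_mul, abs_two]; ring

/-- no convergence to `± ε` over a frozen base -/
lemma Fam.no_tendsto {ε : ℂ} (hV : Fam (ε ^ 2) ρ A b V) (hN : NearP ε ρ V) {K : ℝ}
    (hK : ∀ s t : ℝ, |s| ≤ ρ → |t| ≤ ρ → ‖V 0 s - V 0 t‖ ≤ K * |s - t|) (hA : Adm ε) {k : ℕ} {s : ℝ}
    (hs : Dm ρ k s) {c₀ : ℝ} (hc₀ : c₀ = 1 ∨ c₀ = -1 / 2) (hc : cs b k s = c₀) {ζ : ℂ}
    (hζ : ζ = ε ∨ ζ = -ε) : ¬ Tendsto (fun j => V (k + j) (2 ^ j * s)) atTop (𝓝 ζ) := by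
  have hre := hA.re
  have him := hA.im
  have hle := hA.le
  have hlt := hA.lt_half
  have hns : ‖ε‖ ^ 2 = ε.re * ε.re + ε.im * ε.im := by rw [Complex.sq_norm, Complex.normSq_apply]
  have hns1 : ‖ε‖ ^ 2 < 1 / 4 := by
    have := norm_nonneg ε
    nlinarith
  have hre2 : ε.re < 1 / 2 := (Complex.re_le_norm ε).trans_lt hlt
  have hq : ‖ε‖ ^ 2 < ε.re := by
    rw [hns]; nlinarith
  obtain ⟨R, hR, hnear⟩ := hN 1 one_pos
  have hnear' : ∀ (k : ℕ) (a : ℝ), -(ρ * 2 ^ k) ≤ a → a + 1 ≤ ρ * 2 ^ k →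
      ∃ t ∈ Icc a (a + 1), R ≤ ‖V k t - ζ‖ := by
    intro k a h1 h2
    rcases hζ with rfl | rfl
    · exact (hnear k a h1 h2).1
    · obtain ⟨t, ht, h⟩ := (hnear k a h1 h2).2
      exact ⟨t, ht, by rwa [sub_neg_eq_add]⟩
  have hζ2 : ζ ^ 2 = ε ^ 2 := by
    rcases hζ with rfl | rfl
    · rfl
    · ring
  have hfix : 2 * c₀ ^ 2 - 1 = c₀ := by
    rcases hc₀ with rfl | rfl <;> norm_num
  have hfr := fun j => hV.frozen hfix hs hc j
  have hlip : ∀ j, ∃ L h, 0 < L ∧ 0 < h ∧ ∀ t, |t| ≤ h →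
      ‖V (k + j) (2 ^ j * s + t) - V (k + j) (2 ^ j * s)‖ ≤ L * |t| := by
    intro j
    obtain ⟨L, hL, h⟩ := hV.lip_window hK (k + j)
    have h1 := (hfr j).2.1.lt
    refine ⟨L, ρ * 2 ^ (k + j) - |2 ^ j * s|, hL, by linarith, fun t ht => ?_⟩
    have h2 := h (2 ^ j * s + t) (2 ^ j * s) ((abs_add_le _ _).trans (by linarith)) h1.le
    rwa [add_sub_cancel_left] at h2
  have hrep : (1 < ‖1 - 2 * (c₀ : ℂ) * ζ‖ ∧ ‖1 - 2 * (c₀ : ℂ) * ζ‖ < 2) ∨ ‖1 - 2 * (c₀ : ℂ) * ζ‖ < 1 := by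
    have key : ∀ z : ℂ, ‖z‖ ^ 2 = z.re * z.re + z.im * z.im := fun z => by
      rw [Complex.sq_norm, Complex.normSq_apply]
    rcases hc₀ with rfl | rfl
    · rcases hζ with rfl | rfl
      · right
        apply lt_of_pow_lt_pow_left₀ 2 zero_le_one
        rw [key]
        simp only [Complex.sub_re, Complex.sub_im, Complex.mul_re, Complex.mul_im, Complex.ofReal_one,
          Complex.one_re, Complex.one_im, Complex.re_ofNat, Complex.im_ofNat]
        nlinarith
      · left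
        have e1 : (1 : ℂ) - 2 * ((1:ℝ) : ℂ) * (-ε) = 1 + 2 * ε := by push_cast; ring
        rw [e1]
        constructor
        · apply lt_of_pow_lt_pow_left₀ 2 (norm_nonneg _)
          rw [key]
          simp only [Complex.add_re, Complex.add_im, Complex.mul_re, Complex.mul_im,
            Complex.one_re, Complex.one_im, Complex.re_ofNat, Complex.im_ofNat]
          nlinarith
        · refine (norm_add_le _ _).trans_lt ?_
          rw [norm_one, norm_mul, Complex.norm_ofNat]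
          linarith
    · rcases hζ with rfl | rfl
      · left
        have e1 : (1 : ℂ) - 2 * ((-1 / 2 : ℝ) : ℂ) * ζ = 1 + ζ := by push_cast; ring
        rw [e1]
        constructor
        · apply lt_of_pow_lt_pow_left₀ 2 (norm_nonneg _)
          rw [key]
          simp only [Complex.add_re, Complex.add_im, Complex.one_re, Complex.one_im]
          nlinarith
        · refine (norm_add_le _ _).trans_lt ?_
          rw [norm_one]
          linarith
      · right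
        have e1 : (1 : ℂ) - 2 * ((-1 / 2 : ℝ) : ℂ) * (-ε) = 1 - ε := by push_cast; ring
        rw [e1]
        apply lt_of_pow_lt_pow_left₀ 2 zero_le_one
        rw [key]
        simp only [Complex.sub_re, Complex.sub_im, Complex.one_re, Complex.one_im]
        nlinarith
  rcases hrep with ⟨h1, h2⟩ | h1
  · exact hV.no_capture_rep hζ2 h1 h2 hR hnear' hs.lt (fun j => (hfr j).1) hlip
  · exact hV.no_capture hζ2 h1 hR hnear' hs.lt (fun j => (hfr j).1)

end

variable {ε : ℂ} {ρ A K : ℝ} {V : ℕ → ℝ → ℂ}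

lemma fam_of_fam2 (hF : Fam2 ε ρ A K V) : Fam (ε ^ 2) ρ A b15 V := by
  have hρ := hF.pos
  -- continuity by induction
  have hcont : ∀ k, ContinuousOn (V k) (Icc (-(ρ * 2 ^ k)) (ρ * 2 ^ k)) := by
    intro k
    induction k with
    | zero =>
      rw [pow_zero, mul_one]
      rw [Metric.continuousOn_iff]
      intro s hs δ hδ
      refine ⟨δ / (|K| + 1), by positivity, fun t ht hst => ?_⟩
      have h1 := hF.lip t s (abs_le.2 ⟨ht.1, ht.2⟩) (abs_le.2 ⟨hs.1, hs.2⟩)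
      rw [dist_eq_norm]
      rw [Real.dist_eq, lt_div_iff₀ (by positivity)] at hst
      have h2 := le_abs_self K
      have h3 := abs_nonneg (t - s)
      nlinarith
    | succ k ih =>
      have h1 : ∀ t ∈ Icc (-(ρ * 2 ^ (k + 1))) (ρ * 2 ^ (k + 1)), V (k + 1) t =
          V k (t / 2) + (Real.cos (2 * Real.pi * (2 ^ k * (1 / 15) + t / 2)) : ℂ) * (ε ^ 2 - V k (t / 2) ^ 2) := by
        intro t ht
        have h2 : |t / 2| ≤ ρ * 2 ^ k := by
          rw [abs_le]
          rw [pow_succ] at ht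
          constructor
          · linarith [ht.1]
          · linarith [ht.2]
        have h3 := hF.recur k (t / 2) h2
        rwa [mul_div_cancel₀ t (by norm_num : (2:ℝ) ≠ 0)] at h3
      apply ContinuousOn.congr _ h1
      have hm : MapsTo (fun t : ℝ => t / 2) (Icc (-(ρ * 2 ^ (k + 1))) (ρ * 2 ^ (k + 1)))
          (Icc (-(ρ * 2 ^ k)) (ρ * 2 ^ k)) := by
        intro t ht
        rw [pow_succ] at ht
        constructor
        · show -(ρ * 2 ^ k) ≤ t / 2
          linarith [ht.1]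
        · show t / 2 ≤ ρ * 2 ^ k
          linarith [ht.2]
      have h2 : ContinuousOn (fun t : ℝ => V k (t / 2)) (Icc (-(ρ * 2 ^ (k + 1))) (ρ * 2 ^ (k + 1))) :=
        ih.comp (by fun_prop) hm
      have h3 : Continuous fun t : ℝ => (Real.cos (2 * Real.pi * (2 ^ k * (1 / 15) + t / 2)) : ℂ) := by
        fun_prop
      exact h2.add (h3.continuousOn.mul (continuousOn_const.sub (h2.pow 2)))
  refine ⟨fun k => ⟨0, by unfold b15; rw [pow_succ]; push_cast; ring⟩, hcont, hF.recur, hF.growth⟩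

lemma orb_eq (hF : Fam2 ε ρ A K V) {k : ℕ} {t : ℝ} (h : Dm ρ k t) (j : ℕ) :
    Dm ρ (k + j) (2 ^ j * t) ∧ orb (ε ^ 2) (2 ^ k / 15 + t) (V k t) j = V (k + j) (2 ^ j * t) := by
  induction j with
  | zero => simpa [orb] using h
  | succ j ih =>
    obtain ⟨h1, h2⟩ := ih
    have e1 : (2:ℝ) ^ (j + 1) * t = 2 * (2 ^ j * t) := by rw [pow_succ]; ring
    refine ⟨?_, ?_⟩
    · rw [← add_assoc, e1]; exact h1.succ
    · rw [← add_assoc, e1, hF.recur _ _ h1.ok.mem, orb, h2]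
      have e2 : (2:ℝ) ^ j * (2 ^ k / 15 + t) = 2 ^ (k + j) * (1 / 15) + 2 ^ j * t := by
        rw [pow_add]; ring
      rw [e2]

lemma cs_eq (k j : ℕ) (t : ℝ) : cs b15 (k + j) (2 ^ j * t) =
    Real.cos (2 * Real.pi * (2 ^ j * (2 ^ k / 15 + t))) := by
  unfold cs b15
  congr 2
  rw [pow_add]; ring

/-- **Every point of the leaf is alive.** -/
theorem alive_of_fam2 (hF : Fam2 ε ρ A K V) (hA : Adm ε) {k : ℕ} {t : ℝ} (h : Dm ρ k t) :
    Alive ε (2 ^ k / 15 + t) (V k t) := by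
  have hV := fam_of_fam2 hF
  have hlt := hA.lt_half
  have he : ‖ε ^ 2‖ ≤ 1 / 4 := by
    rw [norm_pow]
    nlinarith [norm_nonneg ε]
  refine ⟨fun j => ?_, fun j hj => ?_, fun j n h1 h2 => ?_, fun j q hq => ?_⟩
  · rw [(orb_eq hF h j).2]
    exact (hV.bd he (orb_eq hF h j).1).le
  · rw [(orb_eq hF h j).2]
    rw [← cs_eq] at hj ⊢
    exact hV.near_disc he (orb_eq hF h j).1 hj
  · rw [(orb_eq hF h j).2, ← cs_eq]
    have e1 : b15 (k + j) + 2 ^ j * t = 2 ^ j * (2 ^ k / 15 + t) := by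
      unfold b15; rw [pow_add]; ring
    exact hV.near_half he (orb_eq hF h j).1 n (by rw [e1]; exact h1) (by rw [e1]; exact h2)
  · -- the base is frozen from the time `j` on
    have hcs : ∃ c₀ : ℝ, (c₀ = 1 ∨ c₀ = -1 / 2) ∧ cs b15 (k + j) (2 ^ j * t) = c₀ := by
      rw [cs_eq]
      have h3 : (2:ℝ) ^ j * (2 ^ k / 15 + t) = q / 3 := by linarith
      rw [h3]
      obtain ⟨m, hm⟩ : ∃ m : ℤ, q = 3 * m ∨ q = 3 * m + 1 ∨ q = 3 * m + 2 := ⟨q / 3, by omega⟩
      have hc3 : Real.cos (2 * Real.pi / 3) = -1 / 2 := by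
        have : 2 * Real.pi / 3 = Real.pi - Real.pi / 3 := by ring
        rw [this, Real.cos_pi_sub, Real.cos_pi_div_three]; norm_num
      rcases hm with rfl | rfl | rfl
      · refine ⟨1, Or.inl rfl, ?_⟩
        push_cast
        have : 2 * Real.pi * (3 * (m:ℝ) / 3) = 0 + m * (2 * Real.pi) := by ring
        rw [this, Real.cos_add_int_mul_two_pi, Real.cos_zero]
      · refine ⟨-1 / 2, Or.inr rfl, ?_⟩
        push_cast
        have : 2 * Real.pi * ((3 * (m:ℝ) + 1) / 3) = 2 * Real.pi / 3 + m * (2 * Real.pi) := by ring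
        rw [this, Real.cos_add_int_mul_two_pi, hc3]
      · refine ⟨-1 / 2, Or.inr rfl, ?_⟩
        push_cast
        have : 2 * Real.pi * ((3 * (m:ℝ) + 2) / 3) = -(2 * Real.pi / 3) + ((m + 1 : ℤ) : ℝ) * (2 * Real.pi) := by
          push_cast; ring
        rw [this, Real.cos_add_int_mul_two_pi, Real.cos_neg, hc3]
    obtain ⟨c₀, hc₀, hcs⟩ := hcs
    have key : ∀ ζ : ℂ, (ζ = ε ∨ ζ = -ε) → ¬ Tendsto (orb (ε ^ 2) (2 ^ k / 15 + t) (V k t)) atTop (𝓝 ζ) := by
      intro ζ hζ hlim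
      refine hV.no_tendsto hF.near hF.lip hA (orb_eq hF h j).1 hc₀ hcs hζ ?_
      have h4 : Tendsto (fun i : ℕ => j + i) atTop atTop :=
        tendsto_atTop_mono (fun i => Nat.le_add_left i j) tendsto_id
      refine (hlim.comp h4).congr fun i => ?_
      show orb (ε ^ 2) (2 ^ k / 15 + t) (V k t) (j + i) = _
      rw [(orb_eq hF h (j + i)).2, add_assoc]
      congr 1
      rw [pow_add]; ring
    exact ⟨key ε (Or.inl rfl), key (-ε) (Or.inr rfl)⟩

/-- aliveness only depends on the base point modulo `1` -/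
lemma orb_add_int (e : ℂ) (x : ℝ) (n : ℤ) (Z : ℂ) (j : ℕ) : orb e (x + n) Z j = orb e x Z j := by
  induction j with
  | zero => rfl
  | succ j ih =>
    rw [orb, orb, ih]
    have : 2 * Real.pi * (2 ^ j * (x + n)) = 2 * Real.pi * (2 ^ j * x) + ((2 ^ j * n : ℤ) : ℝ) * (2 * Real.pi) := by
      push_cast; ring
    rw [this, Real.cos_add_int_mul_two_pi]

lemma cos_add_int' (x : ℝ) (n : ℤ) (j : ℕ) : Real.cos (2 * Real.pi * (2 ^ j * (x + n))) =
    Real.cos (2 * Real.pi * (2 ^ j * x)) := by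
  have : 2 * Real.pi * (2 ^ j * (x + n)) = 2 * Real.pi * (2 ^ j * x) + ((2 ^ j * n : ℤ) : ℝ) * (2 * Real.pi) := by
    push_cast; ring
  rw [this, Real.cos_add_int_mul_two_pi]

lemma Alive.add_int {x : ℝ} {Z : ℂ} (h : Alive ε x Z) (n : ℤ) : Alive ε (x + n) Z := by
  have ho : orb (ε ^ 2) (x + n) Z = orb (ε ^ 2) x Z := funext fun j => orb_add_int _ _ _ _ _
  refine ⟨fun j => ?_, fun j hj => ?_, fun j m h1 h2 => ?_, fun j q hq => ?_⟩
  · rw [ho]; exact h.bd j
  · rw [ho]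
    rw [cos_add_int'] at hj ⊢
    exact h.disc j hj
  · rw [ho, cos_add_int']
    refine h.half j (m - 2 ^ j * n) ?_ ?_
    · push_cast; linarith
    · push_cast; linarith
  · rw [ho]
    refine h.nc j (q - 2 ^ j * (3 * n)) ?_
    push_cast
    linarith

end Pool.Agent.W_4481e3_h1
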