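import Pool.Agent.W_4481e3_q59.TameOfGain

/-!
The compactness core for an arbitrary set `G` of non-falling parameters.
-/

open MeasureTheory Filter Topology Set

namespace Pool.Agent.W_MP_4481e3_an

variable {α : ℂ}

/-- density point of a set, explicit form -/
def DensOf (G : Set ℝ) (u : ℝ) : Prop :=
  ∀ T > (0:ℝ), ∀ δ > (0:ℝ), ∃ n₀ : ℕ, ∀ n ≥ n₀,
    volume (Gᶜ ∩ Metric.closedBall u (T / 2 ^ n)) ≤ ENNReal.ofReal (δ / 2 ^ n)

lemma ae_densOf {G : Set ℝ} (hG : MeasurableSet G) : ∀ᵐ u : ℝ, u ∈ G → DensOf G u := by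
  have hdens := Besicovitch.ae_tendsto_measure_inter_div_of_measurableSet (volume : Measure ℝ) hG.compl
  filter_upwards [hdens] with u hlim hu T hT δ hδ
  have hind : (Gᶜ).indicator (1 : ℝ → ENNReal) u = 0 := Set.indicator_of_notMem (by simpa using hu) 1
  rw [hind] at hlim
  have hev := hlim.eventually (Iic_mem_nhds (show (0:ENNReal) < ENNReal.ofReal (δ / (2 * T)) by
    rw [ENNReal.ofReal_pos]; positivity))
  have hr : Tendsto (fun n : ℕ => T / (2:ℝ) ^ n) atTop (𝓝[>] 0) := by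
    rw [tendsto_nhdsWithin_iff]
    constructor
    · exact tendsto_const_nhds.div_atTop (tendsto_pow_atTop_atTop_of_one_lt (by norm_num))
    · exact Filter.Eventually.of_forall fun n => by
        show 0 < T / (2:ℝ) ^ n
        positivity
  have hev2 := hr.eventually hev
  rw [eventually_atTop] at hev2
  obtain ⟨n₀, hn₀⟩ := hev2
  refine ⟨n₀, fun n hn => ?_⟩
  have h3 := hn₀ n hn
  have hpos : (0:ℝ) < 2 ^ n := by positivity
  have hTL : 0 < T / (2:ℝ) ^ n := by positivity
  rw [Real.volume_closedBall, ENNReal.div_le_iff (by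
      rw [ne_eq, ENNReal.ofReal_eq_zero, not_le]; linarith) ENNReal.ofReal_ne_top,
    ← ENNReal.ofReal_mul (by positivity)] at h3
  refine h3.trans (le_of_eq ?_)
  congr 1
  field_simp

/-- **Compactness core**: for every set `G` of non-falling parameters of positive measure there is
one radius `r₀` such that positively many `u ∈ G`, all of them density points of `G`, are tame on the
disc of radius `r₀` at infinitely many times. -/
theorem tame_core (hα0 : α ≠ 0) (hα : ‖α‖ < 1) (hgain : GainStmt α) (z : ℂ) {G : Set ℝ}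
    (hGm : MeasurableSet G) (hGF : ∀ u ∈ G, u ∉ Fall α 2 z) (hG0 : 0 < volume (G ∩ Ioc 0 1)) :
    ∃ r₀ > (0:ℝ), 0 < volume ({u ∈ G | DensOf G u ∧
      ∃ᶠ n in (atTop : Filter ℕ), Tame α (leafV α z u n) r₀} ∩ Ioc 0 1) := by
  have L2 := noLoss hα0 hα
  have L3 := crudeLoss hα0 hα
  have hpi := Real.pi_pos
  -- constants
  obtain ⟨K, hK, δg, hδg, hgain⟩ := hgain 32
  have hlog3 : 0 ≤ Real.log 3 := Real.log_nonneg (by norm_num)
  have hlog81 : 0 ≤ Real.log 81 := Real.log_nonneg (by norm_num)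
  obtain ⟨K', μ, hK', hμ, hex⟩ := exists_tame K hlog3 hlog81 hG0
  set T := 2 * (K + K') * μ with hT
  set δ₁ : ℝ := min (min δg ((1 / 4) ^ (2 * T) / 64)) (1 / 500) with hδ₁
  have hδ₁0 : 0 < δ₁ := by
    rw [hδ₁]
    exact lt_min (lt_min hδg (by positivity)) (by norm_num)
  set M : ℝ := max 2 (56 / δ₁) with hM
  have hM2 : 2 ≤ M := le_max_left _ _
  have hM0 : 0 < M := by linarith
  have hM28 : 28 / M ≤ δ₁ / 2 := by
    rw [div_le_div_iff₀ hM0 (by norm_num)]
    have : 56 / δ₁ ≤ M := le_max_right _ _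
    rw [div_le_iff₀ hδ₁0] at this
    linarith
  obtain ⟨k₁, hk₁, hex⟩ := hex M hM0
  have hek : ek k₁ ≤ 1 / (2 * M) := by
    rw [le_div_iff₀ (by positivity)]
    linarith
  have hek0 := ek_pos k₁
  set x0 : ℝ := min 1 (ek k₁ / (2 * Real.pi * 2 ^ k₁)) with hx0
  have hx00 : 0 < x0 := lt_min one_pos (by positivity)
  have hx01 : x0 ≤ 1 := min_le_left _ _
  have hx02 : x0 ≤ ek k₁ / (2 * Real.pi * 2 ^ k₁) := min_le_right _ _
  obtain ⟨rg, hrg, hgain⟩ := hgain x0 hx00
  set r₀ : ℝ := min (x0 / 2 ^ (2 * T)) rg with hr₀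
  have hr₀0 : 0 < r₀ := lt_min (by positivity) hrg
  have hr₀1 : 2 ^ (2 * T) * r₀ ≤ x0 := by
    have : r₀ ≤ x0 / 2 ^ (2 * T) := min_le_left _ _
    rw [le_div_iff₀ (by positivity)] at this
    linarith
  have hr₀2 : r₀ ≤ rg := min_le_right _ _
  have hr₀3 : r₀ ≤ x0 := by
    have : (1:ℝ) ≤ 2 ^ (2 * T) := one_le_pow₀ (by norm_num)
    nlinarith
  set G' : Set ℝ := {u | u ∈ G ∧ DensPt α z u ∧ DensOf G u} with hG'
  have hGG' : volume (G \ G') = 0 := by
    refine measure_mono_null ?_ (ae_iff.1 ((ae_densPt α z).and (ae_densOf hGm)))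
    rintro u ⟨h1, h2⟩
    simp only [mem_ofPred_eq]
    exact fun h3 => h2 ⟨h1, h3.1 (hGF u h1), h3.2 h1⟩
  have hpos := hex r₀ hr₀0 (fun u n r => Tame α (leafV α z u n) r)
    (fun u n r r' _ hrr h => h.mono hrr) G' (fun u hu => hu.1) hGG' ?_
  · refine ⟨r₀, hr₀0, hpos.trans_le (measure_mono ?_)⟩
    rintro u ⟨⟨hu, hT1⟩, hu1⟩
    refine ⟨⟨hu.1, hu.2.2, ?_⟩, hu1⟩
    rw [frequently_atTop]
    intro N₀
    obtain ⟨n, h1, -, h2⟩ := hT1 N₀
    exact ⟨n, h1, h2⟩
  · intro u hu
    obtain ⟨n₀, hn₀⟩ := hu.2.1.spars hα0 hα.le hM2 hek (half_pos hδ₁0)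
    have hsp : ∀ n ≥ n₀, GoodB M k₁ (2 ^ n * u) → ∀ x, 0 < x → x ≤ x0 → Spars α (leafV α z u n) δ₁ x := by
      intro n hn hg x hx hx'
      exact (hn₀ n hn hg x hx (hx'.trans hx02)).mono (by linarith) hx.le
    have hgood : ∀ p j, j ≤ 2 * K → 2 ^ p * u ∈ Q K K' M k₁ → GoodB M k₁ (2 ^ (p + j) * u) := by
      intro p j hj hQ
      have := hQ.2 j hj
      rwa [← mul_assoc, ← pow_add, add_comm] at this
    refine ⟨n₀, ?_, ?_, ?_⟩
    · rintro n hn ⟨p, rfl, -, hQ⟩
      exact exists_tame_disc hα0 hα (hGF u hu.1) ((hgood p (2 * K) le_rfl hQ).notMem (by linarith))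
    · rintro n n' r hn ⟨p, rfl, hpd, hQ⟩ ⟨p', rfl, hpd', hQ'⟩ hlt hle hr hrr ht
      -- `p' ≥ p + 2K`
      have hpp : p + 2 * K ≤ p' := by
        obtain ⟨a, ha⟩ := hpd
        obtain ⟨a', ha'⟩ := hpd'
        have h1 : a < a' := by
          by_contra hge
          push Not at hge
          have := Nat.mul_le_mul_left (2 * (K + K')) hge
          omega
        have h2 : 2 * (K + K') * (a + 1) ≤ 2 * (K + K') * a' := Nat.mul_le_mul_left _ h1
        have h3 : 2 * (K + K') * (a + 1) = 2 * (K + K') * a + 2 * (K + K') := by ring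
        omega
      obtain ⟨k, hk⟩ := Nat.exists_eq_add_of_le hpp
      have hk2 : k ≤ 2 * T := by omega
      have h2k : (2:ℝ) ^ k ≤ 2 ^ (2 * T) := pow_le_pow_right₀ (by norm_num) hk2
      have h2kr : 2 ^ k * r ≤ x0 := by
        calc (2:ℝ) ^ k * r ≤ 2 ^ (2 * T) * r₀ := by gcongr
          _ ≤ x0 := hr₀1
      -- no loss up to time `p'`
      have t1 : Tame α (leafV α z u p') (r / 8) := by
        have := L2 _ _ k r (leafV_chain α z u (p + 2 * K)) ht hr (h2kr.trans hx01) ?_
        · rwa [← hk] at this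
        · rw [← hk]
          refine (hsp p' (by omega) (hgood p' 0 (by omega) hQ') _ (by positivity) h2kr).mono ?_ (by positivity)
          calc δ₁ ≤ (1 / 4) ^ (2 * T) / 64 := (min_le_left _ _).trans (min_le_right _ _)
            _ ≤ (1 / 4) ^ k / 64 := by
                gcongr ?_ / 64
                exact pow_le_pow_of_le_one (by norm_num) (by norm_num) hk2
      -- gain
      have t2 : Tame α (leafV α z u (p' + 2 * K)) ((32:ℕ) * (r / 8)) := by
        have hpat := hQ'.1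
        refine hgain (2 ^ p' * u) (fun i => leafV α z u (p' + i)) (3 * ⌊(2:ℝ) ^ p' * u⌋ + 1) (r / 8)
          (leafV_chain α z u p') (by omega) ?_ (by positivity) (by linarith) t1 ?_
        · have h1 : (2:ℝ) ^ p' * u - ((3 * ⌊(2:ℝ) ^ p' * u⌋ + 1 : ℤ) : ℝ) / 3 =
              Int.fract ((2:ℝ) ^ p' * u) - 1 / 3 := by
            rw [Int.fract]; push_cast; ring
          rw [h1]
          have h2 : Int.fract ((2:ℝ) ^ p' * u) ∈
            Ico (1 / 3 - 1 / 3 / 4 ^ (K + K') : ℝ) (1 / 3 + 2 / 3 / 4 ^ (K + K')) := hpat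
          have h3 : (1:ℝ) / 4 ^ (K + K') ≤ (1 / 4) ^ K := by
            rw [one_div_pow]
            apply one_div_le_one_div_of_le (by positivity)
            exact pow_le_pow_right₀ (by norm_num) (by omega)
          have h4 : (0:ℝ) < 1 / 4 ^ (K + K') := by positivity
          have h5 : (1:ℝ) / 3 / 4 ^ (K + K') = 1 / 3 * (1 / 4 ^ (K + K')) := by ring
          have h6 : (2:ℝ) / 3 / 4 ^ (K + K') = 2 / 3 * (1 / 4 ^ (K + K')) := by ring
          rw [h5, h6] at h2
          rw [abs_le]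
          constructor
          · linarith [h2.1]
          · linarith [h2.2]
        · intro i hi x hx hx'
          exact (hsp (p' + i) (by omega) (hgood p' i hi hQ') x hx hx').mono
            ((min_le_left _ _).trans (min_le_left _ _)) hx.le
      apply t2.mono
      have : Real.exp 1 ≤ 4 := by
        have := Real.exp_one_lt_d9; linarith
      push_cast
      nlinarith
    · rintro n n' r hn ⟨p, rfl, hpd, hQ⟩ ⟨p', rfl, hpd', hQ'⟩ hlt hr hrr ht
      obtain ⟨k, hk⟩ := Nat.exists_eq_add_of_le hlt.le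
      have t1 := L3 _ _ k r x0 (leafV_chain α z u (p + 2 * K)) ht hr (hrr.trans hr₀3) hx01 ?_
      · rw [← hk] at t1
        apply t1.mono
        apply le_of_eq
        have h1 : ((p' + 2 * K - (p + 2 * K) : ℕ) : ℝ) = k := by
          congr 1; omega
        rw [h1, neg_add, Real.exp_add, Real.exp_neg, Real.exp_neg, mul_comm (Real.log 3), Real.exp_nat_mul,
          Real.exp_log (by norm_num), Real.exp_log (by norm_num)]
        field_simp
      · intro x hx hx'
        rw [← hk]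
        exact (hsp (p' + 2 * K) (by omega) (hgood p' (2 * K) le_rfl hQ') x hx hx').mono (min_le_right _ _) hx.le

end Pool.Agent.W_MP_4481e3_an
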