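import Pool.Agent.W_4481e3_q59.PerSndD

/-!
Period certificate: soundness of the leaves and of the trees.
-/

namespace Pool.Agent.W_4481e3_q59.PEv

open Complex
open Pool.Agent.W_MP_4481e3_an.Ev (gd gd_true div_lower div_upper ndiv_eq pt InB)
open Pool.Agent.W_4481e3_q12.Ev (ds nrm st fid neg s0 s1 s2 s3 fg esc out stp InE Ph Al TT Rg BxE BxW
  ph0 ph1 ph2 ph3 cph s0f_sound s1f_sound s2f_sound s3f_sound esc_sound out_sound box_norm Ok half_of_dvd okb
  okb_sound cph_add)
open Pool.Agent.W_4481e3_q42 Pool.Agent.W_MP_4481e3_an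

lemma sc_fac (c : ℝ) (w : ℂ) : ‖1 - 2 * (c : ℂ) * w‖ * 16777216 = ‖16777216 - 2 * (c : ℂ) * (16777216 * w)‖ := by
  have h16 : ‖(16777216 : ℂ)‖ = 16777216 := by simp
  have : (16777216 - 2 * (c : ℂ) * (16777216 * w) : ℂ) = (1 - 2 * (c : ℂ) * w) * 16777216 := by ring
  rw [this, norm_mul, h16]

lemma sc_e (e w : ℂ) : ‖e - w ^ 2‖ * 16777216 = ‖16777216 * e - (16777216 * w) ^ 2 / 16777216‖ := by
  have h16 : ‖(16777216 : ℂ)‖ = 16777216 := by simp
  have : (16777216 * e - (16777216 * w) ^ 2 / 16777216 : ℂ) = (e - w ^ 2) * 16777216 := by ring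
  rw [this, norm_mul, h16]

lemma sc_w (w : ℂ) : ‖w‖ * 16777216 = ‖16777216 * w‖ := by
  have h16 : ‖(16777216 : ℂ)‖ = 16777216 := by simp
  rw [norm_mul, h16, mul_comm]

lemma sc_step (e w : ℂ) (c : ℝ) : 16777216 * (w + (c : ℂ) * (e - w ^ 2)) = stp c (16777216 * e) (16777216 * w) := by
  unfold stp
  ring

lemma ww_sc (e w : ℂ) (j : ℕ) : 16777216 * ww e 1 w (j + 1) =
    stp (cph (1 + j)) (16777216 * e) (16777216 * ww e 1 w j) := sc_step _ _ _

section
variable {X Y t A B r : ℕ} {e w : ℂ}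

theorem pr_sound {a0 h k0 k1 k2 k3 b1 b2 b3 : ℕ} (hX : X ≤ 4194304) (hY : Y ≤ 4194304) (ht : t ≤ 16777216)
    (hE : InE X Y t (16777216 * e)) (hW : InB A B r (16777216 * w))
    (hp : pr X Y t a0 h k0 k1 k2 k3 b1 b2 b3 A B r = true) : Per e w a0 h k0 k1 k2 k3 b1 b2 b3 := by
  have w0 : InB A B r (16777216 * ww e 1 w 0) := hW
  unfold pr s1 at hp
  obtain ⟨A1, B1, r1, h1, w1, n0, q0, z0, g0⟩ := st_sound2 ph1 hX hY ht hE w0 hp
  rw [show stp (cph 1) (16777216 * e) (16777216 * ww e 1 w 0) = 16777216 * ww e 1 w 1 from (ww_sc e w 0).symm] at w1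
  unfold pr1 s2 at h1
  obtain ⟨A2, B2, r2, h2, w2, n1, q1, z1, g1⟩ := st_sound2 ph2 hX hY ht hE w1 h1
  rw [show stp (cph 2) (16777216 * e) (16777216 * ww e 1 w 1) = 16777216 * ww e 1 w 2 from (ww_sc e w 1).symm] at w2
  unfold pr2 s3 at h2
  obtain ⟨A3, B3, r3, h3, w3, n2, q2, z2, g2⟩ := st_sound2 ph3 hX hY ht hE w2 h2
  rw [show stp (cph 3) (16777216 * e) (16777216 * ww e 1 w 2) = 16777216 * ww e 1 w 3 from (ww_sc e w 2).symm] at w3
  unfold pr3 s0 at h3
  obtain ⟨A4, B4, r4, h4, _, n3, q3, z3, g3⟩ := st_sound2 ph0 hX hY ht hE w3 h3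
  unfold pr4 at h4
  have hcc4 : cc (1 + 3) = cph 0 := cph_add 0
  have fu_s : ∀ {C r G : ℕ} {x : ℝ}, x ≤ G + 2 * C * r / 16777216 + 37 → x ≤ fu C r G := by
    intro C r G x hx
    unfold fu
    simp only [Nat.add_eq, Nat.mul_eq, ndiv_eq]
    have h1 := div_lower (2 * C * r) 16777216 (by norm_num)
    push_cast at h1 ⊢
    linarith
  refine sl8_sound (F := fun j => if j = 0 then fu 11226149 r (gg fid 11226149 6026992851877888 A B) else
      if j = 1 then fu 1753697 r1 (gg neg 1753697 941508907761664 A1 B1) else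
      if j = 2 then fu 16410594 r2 (gg neg 16410594 8810370567241728 A2 B2) else
      fu 15326749 r3 (gg fid 15326749 8228485713625088 A3 B3))
    (L := fun j => if j = 0 then 0 else
      if j = 1 then lo neg 1753697 941508907761664 A1 B1 r1 (gg neg 1753697 941508907761664 A1 B1) else
      if j = 2 then lo neg 16410594 8810370567241728 A2 B2 r2 (gg neg 16410594 8810370567241728 A2 B2) else
      lo fid 15326749 8228485713625088 A3 B3 r3 (gg fid 15326749 8228485713625088 A3 B3))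
    (W := fun j => if j = 0 then wn A B r else if j = 1 then wn A1 B1 r1 else if j = 2 then wn A2 B2 r2 else
      wn A3 B3 r3)
    (E := fun j => if j = 0 then en X Y t A B r else if j = 1 then en X Y t A1 B1 r1 else
      if j = 2 then en X Y t A2 B2 r2 else en X Y t A3 B3 r3) ?_ h4
  refine ⟨?_, ?_, ?_, ?_⟩
  · intro j hj
    unfold Le
    interval_cases j
    · rw [sc_fac]; exact fu_s (by exact_mod_cast g0)
    · rw [sc_fac]; exact fu_s (by exact_mod_cast g1)
    · rw [sc_fac]; exact fu_s (by exact_mod_cast g2)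
    · rw [sc_fac, hcc4]; exact fu_s (by exact_mod_cast g3)
  · intro j hj
    interval_cases j
    · simp only [if_true]; push_cast; positivity
    · rw [sc_fac]; exact lo_sound ph2 w1 q1 z1
    · rw [sc_fac]; exact lo_sound ph3 w2 q2 z2
    · rw [sc_fac, hcc4]; exact lo_sound ph0 w3 q3 z3
  · intro j hj
    unfold Le
    interval_cases j
    · rw [sc_w]; exact wn_sound w0
    · rw [sc_w]; exact wn_sound w1
    · rw [sc_w]; exact wn_sound w2
    · rw [sc_w]; exact wn_sound w3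
  · intro j hj
    unfold Le
    interval_cases j
    · rw [sc_e]; exact en_sound hE w0 n0
    · rw [sc_e]; exact en_sound hE w1 n1
    · rw [sc_e]; exact en_sound hE w2 n2
    · rw [sc_e]; exact en_sound hE w3 n3

end

section
variable {X Y t A B r : ℕ} {E W : ℂ}

lemma tail_sound {b : ℕ} (hX : X ≤ 4194304) (hY : Y ≤ 4194304) (ht : t ≤ 16777216)
    (hE : InE X Y t E) (hW : InB A B r W) (h : tail X Y t b A B r = true) : ¬ Al E 1 W := by
  intro hA
  match b, h with
  | 0, h =>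
    have h1 : esc 57378078 A B r = true := h
    have h2 := esc_sound hW h1
    have h3 := hA.bd
    norm_num [TT] at h3 h2
    linarith
  | 1, h =>
    have h1 : s1 X Y t (fg (esc 70967623)) A B r = true := h
    obtain ⟨A1, B1, r1, h1, w1⟩ := s1f_sound hX hY ht hE hW h1
    have h2 := esc_sound w1 h1
    have h3 := hA.step.bd
    norm_num [TT] at h3 h2
    linarith
  | 2, h =>
    have h1 : s1 X Y t (fg (s2 X Y t (fg (esc 38587597)))) A B r = true := h
    obtain ⟨A1, B1, r1, h1, w1⟩ := s1f_sound hX hY ht hE hW h1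
    obtain ⟨A2, B2, r2, h1, w2⟩ := s2f_sound hX hY ht hE w1 h1
    have h2 := esc_sound w2 h1
    have h3 := hA.step.step.bd
    norm_num [TT] at h3 h2
    linarith
  | b + 3, h =>
    have h1 : s1 X Y t (fg (s2 X Y t (fg (s3 X Y t (fg (esc 43956305)))))) A B r = true := h
    obtain ⟨A1, B1, r1, h1, w1⟩ := s1f_sound hX hY ht hE hW h1
    obtain ⟨A2, B2, r2, h1, w2⟩ := s2f_sound hX hY ht hE w1 h1
    obtain ⟨A3, B3, r3, h1, w3⟩ := s3f_sound hX hY ht hE w2 h1
    have h2 := esc_sound w3 h1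
    have h3 := hA.step.step.step.bd
    norm_num [TT] at h3 h2
    linarith

lemma iter_sound {k : ℕ → ℕ → ℕ → Bool} (hX : X ≤ 4194304) (hY : Y ≤ 4194304) (ht : t ≤ 16777216)
    (hE : InE X Y t E) (hk : ∀ {A B r : ℕ} {W : ℂ}, InB A B r W → k A B r = true → ¬ Al E 1 W)
    (j : ℕ) : ∀ {A B r : ℕ} {W : ℂ}, InB A B r W →
      (Nat.rec k (fun _ ih => per X Y t ih) j : ℕ → ℕ → ℕ → Bool) A B r = true → ¬ Al E 1 W := by
  induction j with
  | zero => intro A B r W hW h; exact hk hW h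
  | succ j ih =>
    intro A B r W hW h hA
    have h1 : s1 X Y t (fg (s2 X Y t (fg (s3 X Y t (fg (s0 X Y t (fg
      (Nat.rec k (fun _ ih => per X Y t ih) j : ℕ → ℕ → ℕ → Bool)))))))) A B r = true := h
    obtain ⟨A1, B1, r1, h1, w1⟩ := s1f_sound hX hY ht hE hW h1
    obtain ⟨A2, B2, r2, h1, w2⟩ := s2f_sound hX hY ht hE w1 h1
    obtain ⟨A3, B3, r3, h1, w3⟩ := s3f_sound hX hY ht hE w2 h1
    obtain ⟨A4, B4, r4, h1, w4⟩ := s0f_sound hX hY ht hE w3 h1
    have hA4 := hA.step.step.step.step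
    have h44 : cph (1 + 1 + 1 + 1) = cph 0 := cph_add 0
    rw [h44] at hA4
    exact ih w4 h1 hA4.add4

lemma escj_sound {j : ℕ} (hX : X ≤ 4194304) (hY : Y ≤ 4194304) (ht : t ≤ 16777216)
    (hE : InE X Y t E) (hW : InB A B r W) (h : escj X Y t j A B r = true) : ¬ Al E 1 W :=
  iter_sound hX hY ht hE (fun hW h => tail_sound hX hY ht hE hW h) _ hW h

end

/-- the statement at a point (scaled) -/
def Cl (P : ℂ → ℂ → Prop) (E W : ℂ) : Prop := Rg E → Al E 1 W → P E W

/-- soundness of a special closer -/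
def Snd (cl : ℕ → ℕ → ℕ → ℕ → ℕ → ℕ → Bool) (P : ℂ → ℂ → Prop) : Prop :=
  ∀ {X Y t A B r : ℕ} {E W : ℂ}, X ≤ 4194304 → Y ≤ 4194304 → t ≤ 16777216 → InE X Y t E → InB A B r W →
    cl X Y t A B r = true → P E W

lemma box_InE {X Y H : ℕ} {E : ℂ} (h : BxE X Y H E) :
    InE X Y (Nat.add (Nat.div (Nat.mul H 1449) 1024) 1) E := by
  unfold InE
  exact box_norm h.1 h.2

lemma box_InB {A B h : ℕ} {W : ℂ} (hb : BxW A B h W) :
    InB A B (Nat.add (Nat.div (Nat.mul h 1449) 1024) 1) W := by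
  unfold InB
  refine box_norm ?_ ?_
  · exact hb.1
  · exact hb.2

lemma chk_sound {cl : ℕ → ℕ → ℕ → ℕ → ℕ → ℕ → Bool} {P : ℂ → ℂ → Prop} (hs : Snd cl P)
    {m X Y H A B h : ℕ} (hX : X ≤ 4194304) (hY : Y ≤ 4194304) (hH : H ≤ 4194304)
    (hc : chk cl m X Y H A B h = true) {E W : ℂ} (hE : BxE X Y H E) (hW : BxW A B h W) : Cl P E W := by
  intro hR hA
  have ht : Nat.add (Nat.div (Nat.mul H 1449) 1024) 1 ≤ 16777216 := by
    simp only [Nat.add_eq, Nat.mul_eq, ndiv_eq]
    omega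
  unfold chk chk3 at hc
  cases h12 : Nat.ble 12 m with
  | false =>
    rw [h12] at hc
    exact absurd hA (escj_sound hX hY ht (box_InE hE) (box_InB hW) hc)
  | true =>
    rw [h12] at hc
    cases h13 : Nat.ble 13 m with
    | false =>
      rw [h13] at hc
      exact absurd hR (out_sound hE hc)
    | true =>
      rw [h13] at hc
      exact hs hX hY ht (box_InE hE) (box_InB hW) hc

/-- the statement on a cell -/
def Cov (P : ℂ → ℂ → Prop) (X Y H A B h : ℕ) : Prop := ∀ E W : ℂ, BxE X Y H E → BxW A B h W → Cl P E W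

section
variable {P : ℂ → ℂ → Prop}

lemma Cov.e {X Y H A B h : ℕ} (hX : H ≤ X) (hY : H ≤ Y)
    (c1 : Cov P (X - H) (Y - H) H A B h) (c2 : Cov P (X - H) (Y + H) H A B h)
    (c3 : Cov P (X + H) (Y - H) H A B h) (c4 : Cov P (X + H) (Y + H) H A B h) :
    Cov P X Y (2 * H) A B h := by
  intro E W hE hW
  have cX : ((X - H : ℕ) : ℝ) = X - H := Nat.cast_sub hX
  have cY : ((Y - H : ℕ) : ℝ) = Y - H := Nat.cast_sub hY
  obtain ⟨y1, y2⟩ := hE
  push_cast at y1 y2
  rw [abs_le] at y1 y2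
  rcases le_total E.re X with r1 | r1
  · rcases le_total E.im Y with r2 | r2
    · refine c1 E W ⟨?_, ?_⟩ hW
      · rw [cX, abs_le]; constructor <;> linarith
      · rw [cY, abs_le]; constructor <;> linarith
    · refine c2 E W ⟨?_, ?_⟩ hW
      · rw [cX, abs_le]; constructor <;> linarith
      · push_cast; rw [abs_le]; constructor <;> linarith
  · rcases le_total E.im Y with r2 | r2
    · refine c3 E W ⟨?_, ?_⟩ hW
      · push_cast; rw [abs_le]; constructor <;> linarith
      · rw [cY, abs_le]; constructor <;> linarith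
    · refine c4 E W ⟨?_, ?_⟩ hW
      · push_cast; rw [abs_le]; constructor <;> linarith
      · push_cast; rw [abs_le]; constructor <;> linarith

lemma Cov.w {X Y H A B h : ℕ} (hA : h ≤ A) (hB : h ≤ B)
    (c1 : Cov P X Y H (A - h) (B - h) h) (c2 : Cov P X Y H (A - h) (B + h) h)
    (c3 : Cov P X Y H (A + h) (B - h) h) (c4 : Cov P X Y H (A + h) (B + h) h) :
    Cov P X Y H A B (2 * h) := by
  intro E W hE hW
  have cA : ((A - h : ℕ) : ℝ) = A - h := Nat.cast_sub hA
  have cB : ((B - h : ℕ) : ℝ) = B - h := Nat.cast_sub hB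
  obtain ⟨y1, y2⟩ := hW
  push_cast at y1 y2
  rw [abs_le] at y1 y2
  rcases le_total W.re ((A:ℝ) - 536870912) with r1 | r1
  · rcases le_total W.im ((B:ℝ) - 536870912) with r2 | r2
    · refine c1 E W hE ⟨?_, ?_⟩
      · rw [cA, abs_le]; constructor <;> linarith
      · rw [cB, abs_le]; constructor <;> linarith
    · refine c2 E W hE ⟨?_, ?_⟩
      · rw [cA, abs_le]; constructor <;> linarith
      · push_cast; rw [abs_le]; constructor <;> linarith
  · rcases le_total W.im ((B:ℝ) - 536870912) with r2 | r2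
    · refine c3 E W hE ⟨?_, ?_⟩
      · push_cast; rw [abs_le]; constructor <;> linarith
      · rw [cB, abs_le]; constructor <;> linarith
    · refine c4 E W hE ⟨?_, ?_⟩
      · push_cast; rw [abs_le]; constructor <;> linarith
      · push_cast; rw [abs_le]; constructor <;> linarith

variable {cl : ℕ → ℕ → ℕ → ℕ → ℕ → ℕ → Bool}

lemma leaf_sound (hs : Snd cl P) {m X Y H A B h n : ℕ} (hX : X ≤ 4194304) (hY : Y ≤ 4194304)
    (hH : H ≤ 4194304) (hl : leaf cl m X Y H A B h n ≠ 0) : n ≠ 0 ∧ Cov P X Y H A B h := by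
  unfold leaf at hl
  cases hc : chk cl m X Y H A B h with
  | false => rw [hc] at hl; exact absurd rfl hl
  | true =>
    rw [hc] at hl
    exact ⟨hl, fun E W hE hW => chk_sound hs hX hY hH hc hE hW⟩

lemma go_zero (X Y H A B h n : ℕ) :
    go cl 0 X Y H A B h n = leaf cl (n % 16) X Y H A B h (n / 16) := rfl

lemma go_succ (d X Y H A B h n : ℕ) :
    go cl (d + 1) X Y H A B h n = nd cl (go cl d) (n % 16) X Y H A B h (n / 16) := rfl

lemma go_sound (hs : Snd cl P) (d : ℕ) : ∀ {X Y H A B h n : ℕ}, Ok d X Y H A B h →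
    go cl d X Y H A B h n ≠ 0 → n ≠ 0 ∧ Cov P X Y H A B h := by
  induction d with
  | zero =>
    intro X Y H A B h n ok hg
    rw [go_zero] at hg
    obtain ⟨h1, h2⟩ := leaf_sound hs (by have := ok.X1; omega) (by have := ok.Y1; omega)
      (by have := ok.X1; omega) hg
    exact ⟨fun h0 => h1 (by rw [h0]), h2⟩
  | succ d ih =>
    intro X Y H A B h n ok hg
    obtain ⟨eH, dH⟩ := half_of_dvd ok.dH
    obtain ⟨eh, dh⟩ := half_of_dvd ok.dh
    obtain ⟨pH, ph, X0, Y0, A0, B0, X1, Y1⟩ := ok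
    rw [go_succ] at hg
    unfold nd at hg
    suffices hh : n / 16 ≠ 0 ∧ Cov P X Y H A B h from ⟨fun h0 => hh.1 (by rw [h0]), hh.2⟩
    generalize n / 16 = n0 at hg ⊢
    cases h14 : Nat.ble 14 (n % 16) with
    | false =>
      rw [h14] at hg
      exact leaf_sound hs (by omega) (by omega) (by omega) hg
    | true =>
      rw [h14] at hg
      cases h15 : Nat.ble 15 (n % 16) with
      | false =>
        rw [h15] at hg
        have hg' : spe (go cl d) X Y ((H + 1) / 2) A B h n0 ≠ 0 := hg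
        clear hg
        unfold spe at hg'
        simp only [Nat.add_eq, Nat.sub_eq] at hg'
        set K := (H + 1) / 2 with hK
        clear_value K
        have dh' : 2 ^ d ∣ h := (pow_dvd_pow 2 (Nat.le_succ d)).trans ph
        obtain ⟨m4, c4⟩ := ih (X := X + K) (Y := Y + K) (H := K) (A := A) (B := B) (h := h)
          ⟨dH, dh', by omega, by omega, A0, B0, by omega, by omega⟩ hg'
        obtain ⟨m3, c3⟩ := ih (X := X + K) (Y := Y - K) (H := K) (A := A) (B := B) (h := h)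
          ⟨dH, dh', by omega, by omega, A0, B0, by omega, by omega⟩ m4
        obtain ⟨m2, c2⟩ := ih (X := X - K) (Y := Y + K) (H := K) (A := A) (B := B) (h := h)
          ⟨dH, dh', by omega, by omega, A0, B0, by omega, by omega⟩ m3
        obtain ⟨m1, c1⟩ := ih (X := X - K) (Y := Y - K) (H := K) (A := A) (B := B) (h := h)
          ⟨dH, dh', by omega, by omega, A0, B0, by omega, by omega⟩ m2
        refine ⟨m1, ?_⟩
        rw [eH]
        exact Cov.e (by omega) (by omega) c1 c2 c3 c4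
      | true =>
        rw [h15] at hg
        have hg' : spw (go cl d) X Y H A B ((h + 1) / 2) n0 ≠ 0 := hg
        clear hg
        unfold spw at hg'
        simp only [Nat.add_eq, Nat.sub_eq] at hg'
        set K := (h + 1) / 2 with hK
        clear_value K
        have dH' : 2 ^ d ∣ H := (pow_dvd_pow 2 (Nat.le_succ d)).trans pH
        obtain ⟨m4, c4⟩ := ih (X := X) (Y := Y) (H := H) (A := A + K) (B := B + K) (h := K)
          ⟨dH', dh, X0, Y0, by omega, by omega, X1, Y1⟩ hg'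
        obtain ⟨m3, c3⟩ := ih (X := X) (Y := Y) (H := H) (A := A + K) (B := B - K) (h := K)
          ⟨dH', dh, X0, Y0, by omega, by omega, X1, Y1⟩ m4
        obtain ⟨m2, c2⟩ := ih (X := X) (Y := Y) (H := H) (A := A - K) (B := B + K) (h := K)
          ⟨dH', dh, X0, Y0, by omega, by omega, X1, Y1⟩ m3
        obtain ⟨m1, c1⟩ := ih (X := X) (Y := Y) (H := H) (A := A - K) (B := B - K) (h := K)
          ⟨dH', dh, X0, Y0, by omega, by omega, X1, Y1⟩ m2
        refine ⟨m1, ?_⟩
        rw [eh]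
        exact Cov.w (by omega) (by omega) c1 c2 c3 c4

lemma Cov.tree (hs : Snd cl P) (d : ℕ) {X Y H A B h n : ℕ} (hb : okb d X Y H A B h = true)
    (hg : Nat.ble 1 (go cl d X Y H A B h n) = true) : Cov P X Y H A B h :=
  (go_sound hs d (okb_sound hb) (Nat.one_le_iff_ne_zero.1 (Nat.le_of_ble_eq_true hg))).2

end

/-- the period statement, scaled -/
def PP (a0 h k0 k1 k2 k3 b1 b2 b3 : ℕ) (E W : ℂ) : Prop :=
  Per (E / 16777216) (W / 16777216) a0 h k0 k1 k2 k3 b1 b2 b3

lemma clp_snd (a0 h k0 k1 k2 k3 b1 b2 b3 : ℕ) :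
    Snd (clp a0 h k0 k1 k2 k3 b1 b2 b3) (PP a0 h k0 k1 k2 k3 b1 b2 b3) := by
  intro X Y t A B r E W hX hY ht hE hW hc
  have e1 : (16777216 : ℂ) * (E / 16777216) = E := by field_simp
  have e2 : (16777216 : ℂ) * (W / 16777216) = W := by field_simp
  exact pr_sound hX hY ht (by rw [e1]; exact hE) (by rw [e2]; exact hW) hc

end Pool.Agent.W_4481e3_q59.PEv
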