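import Pool.Agent.W_4481e3_q59.Assembly
import Pool.Agent.W_4481e3_h6.LossB

/-!
`TameStmt` from `GAIN` alone.
-/

namespace Pool.Agent.W_MP_4481e3_an

variable {α : ℂ}

lemma noLoss (hα0 : α ≠ 0) (hα : ‖α‖ < 1) : NoLoss α :=
  fun _ _ _ _ hC hT hr hk hS => hC.no_loss hα0 hα.le hr hk hT hS

lemma crudeLoss (hα0 : α ≠ 0) (hα : ‖α‖ < 1) : CrudeLoss α := by
  intro b V k r x0 hC hT hr hrx hx hS
  have := hC.crude hα0 hα.le hr hrx hx hT hS
  apply this.mono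
  apply le_of_eq
  rw [one_div_pow]
  ring

theorem tameStmt_of_gain (hα0 : α ≠ 0) (hα : ‖α‖ < 1) (hgain : GainStmt α) (z : ℂ) : TameStmt α z :=
  tame_stmt hα0 hα hgain (noLoss hα0 hα) (crudeLoss hα0 hα) z

end Pool.Agent.W_MP_4481e3_an
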