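import Pool.Agent.W_4481e3_q59.Good

/-!
Assembly of the drift theorem: `GAIN`, no loss and crude loss give `TameStmt`.
-/

open MeasureTheory Filter Topology Set

namespace Pool.Agent.W_MP_4481e3_an

variable {α : ℂ}

lemma Fall_per (α z : ℂ) : Per (Fall α 2 z) := by
  intro x m
  have h : ∀ n, O α 2 n ((x + m : ℝ) : ℂ) z = O α 2 n (x : ℂ) z := by
    intro n
    push_cast
    exact O_add_int n x z m
  simp only [Fall, mem_ofPred_eq]
  push_cast at h
  simp only [Complex.ofReal_add, Complex.ofReal_intCast, h]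

/-- statement: no loss -/
def NoLoss (α : ℂ) : Prop :=
  ∀ (b : ℝ) (V : ℕ → ℂ → ℂ) (k : ℕ) (r : ℝ), Chain α b V → Tame α (V 0) r → 0 < r → 2 ^ k * r ≤ 1 →
    Spars α (V k) ((1 / 4) ^ k / 64) (2 ^ k * r) → Tame α (V k) (r / 8)

/-- statement: crude loss -/
def CrudeLoss (α : ℂ) : Prop :=
  ∀ (b : ℝ) (V : ℕ → ℂ → ℂ) (k : ℕ) (r x0 : ℝ), Chain α b V → Tame α (V 0) r → 0 < r → r ≤ x0 → x0 ≤ 1 →
    (∀ x, 0 < x → x ≤ x0 → Spars α (V k) (1 / 500) x) → Tame α (V k) (r / 3 ^ k / 81)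

lemma Spars.mono {V : ℂ → ℂ} {δ δ' x : ℝ} (h : Spars α V δ x) (hd : δ ≤ δ') (hx : 0 ≤ x) :
    Spars α V δ' x :=
  h.trans (ENNReal.ofReal_le_ofReal (mul_le_mul_of_nonneg_right hd hx))

theorem tame_stmt (hα0 : α ≠ 0) (hα : ‖α‖ < 1) (hgain : GainStmt α) (L2 : NoLoss α) (L3 : CrudeLoss α)
    (z : ℂ) : TameStmt α z := by
  intro hvol
  have hpi := Real.pi_pos
  set G : Set ℝ := (Fall α 2 z)ᶜ with hG
  have hGper : Per G := (Fall_per α z).compl
  have hGm : MeasurableSet G := (Fall_measurable z).compl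
  have hG0 : 0 < volume (G ∩ Ioc 0 1) := by
    rw [pos_iff_ne_zero]
    intro h0
    apply hvol
    have hcov : G = ⋃ j : ℤ, G ∩ Ioc (j:ℝ) (j + 1) := by
      rw [← inter_iUnion, iUnion_Ioc_intCast, inter_univ]
    rw [hcov, measure_iUnion_null_iff]
    intro j
    have := hGper.vol_Ioc hGm (j:ℝ) 0
    rw [this, zero_add]
    exact h0
  -- constants
  obtain ⟨K, hK, δg, hδg, hgain⟩ := hgain 32
  have hlog3 : 0 ≤ Real.log 3 := Real.log_nonneg (by norm_num)
  have hlog81 : 0 ≤ Real.log 81 := Real.log_nonneg (by norm_num)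
  obtain ⟨K', μ, hK', hμ, hex⟩ := exists_tame K hlog3 hlog81 hG0
  set T := 2 * (K + K') * μ with hT
  set δ₁ : ℝ := min (min δg ((1 / 4) ^ (2 * T) / 64)) (1 / 500) with hδ₁
  have hδ₁0 : 0 < δ₁ := by
    rw [hδ₁]
    exact lt_min (lt_min hδg (by positivity)) (by norm_num)
  set M : ℝ := max 2 (56 / δ₁) with hM
  have hM2 : 2 ≤ M := le_max_left _ _
  have hM0 : 0 < M := by linarith
  have hM28 : 28 / M ≤ δ₁ / 2 := by
    rw [div_le_div_iff₀ hM0 (by norm_num)]
    have : 56 / δ₁ ≤ M := le_max_right _ _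
    rw [div_le_iff₀ hδ₁0] at this
    linarith
  obtain ⟨k₁, hk₁, hex⟩ := hex M hM0
  have hek : ek k₁ ≤ 1 / (2 * M) := by
    rw [le_div_iff₀ (by positivity)]
    linarith
  have hek0 := ek_pos k₁
  set x0 : ℝ := min 1 (ek k₁ / (2 * Real.pi * 2 ^ k₁)) with hx0
  have hx00 : 0 < x0 := lt_min one_pos (by positivity)
  have hx01 : x0 ≤ 1 := min_le_left _ _
  have hx02 : x0 ≤ ek k₁ / (2 * Real.pi * 2 ^ k₁) := min_le_right _ _
  obtain ⟨rg, hrg, hgain⟩ := hgain x0 hx00
  set r₀ : ℝ := min (x0 / 2 ^ (2 * T)) rg with hr₀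
  have hr₀0 : 0 < r₀ := lt_min (by positivity) hrg
  have hr₀1 : 2 ^ (2 * T) * r₀ ≤ x0 := by
    have : r₀ ≤ x0 / 2 ^ (2 * T) := min_le_left _ _
    rw [le_div_iff₀ (by positivity)] at this
    linarith
  have hr₀2 : r₀ ≤ rg := min_le_right _ _
  have hr₀3 : r₀ ≤ x0 := by
    have : (1:ℝ) ≤ 2 ^ (2 * T) := one_le_pow₀ (by norm_num)
    nlinarith
  set G' : Set ℝ := {u | u ∉ Fall α 2 z ∧ DensPt α z u} with hG'
  have hGG' : volume (G \ G') = 0 := by
    refine measure_mono_null ?_ (ae_iff.1 (ae_densPt α z))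
    rintro u ⟨h1, h2⟩
    simp only [mem_ofPred_eq, not_forall]
    exact ⟨h1, fun h3 => h2 ⟨h1, h3⟩⟩
  have hpos := hex r₀ hr₀0 (fun u n r => Tame α (leafV α z u n) r)
    (fun u n r r' _ hrr h => h.mono hrr) G' (fun u hu => hu.1) hGG' ?_
  · obtain ⟨u, ⟨⟨hu, hT1⟩, -⟩⟩ := nonempty_of_measure_ne_zero hpos.ne'
    refine ⟨u, hu.1, ?_, r₀, hr₀0, ?_⟩
    · intro T' hT' δ hδ
      obtain ⟨n₀, hn₀⟩ := hu.2.scaled hT' (div_pos hδ hT')
      refine ⟨n₀, fun n hn => (hn₀ n hn T' hT' le_rfl).trans ?_⟩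
      apply ENNReal.ofReal_le_ofReal
      apply le_of_eq
      field_simp
    · rw [frequently_atTop]
      intro N₀
      obtain ⟨n, h1, -, h2⟩ := hT1 N₀
      exact ⟨n, h1, h2⟩
  · intro u hu
    obtain ⟨n₀, hn₀⟩ := hu.2.spars hα0 hα.le hM2 hek (half_pos hδ₁0)
    have hsp : ∀ n ≥ n₀, GoodB M k₁ (2 ^ n * u) → ∀ x, 0 < x → x ≤ x0 → Spars α (leafV α z u n) δ₁ x := by
      intro n hn hg x hx hx'
      exact (hn₀ n hn hg x hx (hx'.trans hx02)).mono (by linarith) hx.le
    have hgood : ∀ p j, j ≤ 2 * K → 2 ^ p * u ∈ Q K K' M k₁ → GoodB M k₁ (2 ^ (p + j) * u) := by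
      intro p j hj hQ
      have := hQ.2 j hj
      rwa [← mul_assoc, ← pow_add, add_comm] at this
    refine ⟨n₀, ?_, ?_, ?_⟩
    · rintro n hn ⟨p, rfl, -, hQ⟩
      exact exists_tame_disc hα0 hα hu.1 ((hgood p (2 * K) le_rfl hQ).notMem (by linarith))
    · rintro n n' r hn ⟨p, rfl, hpd, hQ⟩ ⟨p', rfl, hpd', hQ'⟩ hlt hle hr hrr ht
      -- `p' ≥ p + 2K`
      have hpp : p + 2 * K ≤ p' := by
        obtain ⟨a, ha⟩ := hpd
        obtain ⟨a', ha'⟩ := hpd'
        have h1 : a < a' := by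
          by_contra hge
          push Not at hge
          have := Nat.mul_le_mul_left (2 * (K + K')) hge
          omega
        have h2 : 2 * (K + K') * (a + 1) ≤ 2 * (K + K') * a' := Nat.mul_le_mul_left _ h1
        have h3 : 2 * (K + K') * (a + 1) = 2 * (K + K') * a + 2 * (K + K') := by ring
        omega
      obtain ⟨k, hk⟩ := Nat.exists_eq_add_of_le hpp
      have hk2 : k ≤ 2 * T := by omega
      have h2k : (2:ℝ) ^ k ≤ 2 ^ (2 * T) := pow_le_pow_right₀ (by norm_num) hk2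
      have h2kr : 2 ^ k * r ≤ x0 := by
        calc (2:ℝ) ^ k * r ≤ 2 ^ (2 * T) * r₀ := by gcongr
          _ ≤ x0 := hr₀1
      -- no loss up to time `p'`
      have t1 : Tame α (leafV α z u p') (r / 8) := by
        have := L2 _ _ k r (leafV_chain α z u (p + 2 * K)) ht hr (h2kr.trans hx01) ?_
        · rwa [← hk] at this
        · rw [← hk]
          refine (hsp p' (by omega) (hgood p' 0 (by omega) hQ') _ (by positivity) h2kr).mono ?_ (by positivity)
          calc δ₁ ≤ (1 / 4) ^ (2 * T) / 64 := (min_le_left _ _).trans (min_le_right _ _)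
            _ ≤ (1 / 4) ^ k / 64 := by
                gcongr ?_ / 64
                exact pow_le_pow_of_le_one (by norm_num) (by norm_num) hk2
      -- gain
      have t2 : Tame α (leafV α z u (p' + 2 * K)) ((32:ℕ) * (r / 8)) := by
        have hpat := hQ'.1
        refine hgain (2 ^ p' * u) (fun i => leafV α z u (p' + i)) (3 * ⌊(2:ℝ) ^ p' * u⌋ + 1) (r / 8)
          (leafV_chain α z u p') (by omega) ?_ (by positivity) (by linarith) t1 ?_
        · have h1 : (2:ℝ) ^ p' * u - ((3 * ⌊(2:ℝ) ^ p' * u⌋ + 1 : ℤ) : ℝ) / 3 =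
              Int.fract ((2:ℝ) ^ p' * u) - 1 / 3 := by
            rw [Int.fract]; push_cast; ring
          rw [h1]
          have h2 : Int.fract ((2:ℝ) ^ p' * u) ∈
            Ico (1 / 3 - 1 / 3 / 4 ^ (K + K') : ℝ) (1 / 3 + 2 / 3 / 4 ^ (K + K')) := hpat
          have h3 : (1:ℝ) / 4 ^ (K + K') ≤ (1 / 4) ^ K := by
            rw [one_div_pow]
            apply one_div_le_one_div_of_le (by positivity)
            exact pow_le_pow_right₀ (by norm_num) (by omega)
          have h4 : (0:ℝ) < 1 / 4 ^ (K + K') := by positivity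
          have h5 : (1:ℝ) / 3 / 4 ^ (K + K') = 1 / 3 * (1 / 4 ^ (K + K')) := by ring
          have h6 : (2:ℝ) / 3 / 4 ^ (K + K') = 2 / 3 * (1 / 4 ^ (K + K')) := by ring
          rw [h5, h6] at h2
          rw [abs_le]
          constructor
          · linarith [h2.1]
          · linarith [h2.2]
        · intro i hi x hx hx'
          exact (hsp (p' + i) (by omega) (hgood p' i hi hQ') x hx hx').mono
            ((min_le_left _ _).trans (min_le_left _ _)) hx.le
      apply t2.mono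
      have : Real.exp 1 ≤ 4 := by
        have := Real.exp_one_lt_d9; linarith
      push_cast
      nlinarith
    · rintro n n' r hn ⟨p, rfl, hpd, hQ⟩ ⟨p', rfl, hpd', hQ'⟩ hlt hr hrr ht
      obtain ⟨k, hk⟩ := Nat.exists_eq_add_of_le hlt.le
      have t1 := L3 _ _ k r x0 (leafV_chain α z u (p + 2 * K)) ht hr (hrr.trans hr₀3) hx01 ?_
      · rw [← hk] at t1
        apply t1.mono
        apply le_of_eq
        have h1 : ((p' + 2 * K - (p + 2 * K) : ℕ) : ℝ) = k := by
          congr 1; omega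
        rw [h1, neg_add, Real.exp_add, Real.exp_neg, Real.exp_neg, mul_comm (Real.log 3), Real.exp_nat_mul,
          Real.exp_log (by norm_num), Real.exp_log (by norm_num)]
        field_simp
      · intro x hx hx'
        rw [← hk]
        exact (hsp (p' + 2 * K) (by omega) (hgood p' (2 * K) le_rfl hQ') x hx hx').mono (min_le_right _ _) hx.le

end Pool.Agent.W_MP_4481e3_an
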