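import Pool.Agent.W_4481e3_q59.Dens

/-!
The blocks `(01)^m` and their measure.
-/

open MeasureTheory Filter Topology Set

namespace Pool.Agent.W_MP_4481e3_an

/-- base points whose binary digits begin with `(01)^m` -/
def Pat (m : ℕ) : Set ℝ :=
  {b | Int.fract b ∈ Ico (1 / 3 - 1 / 3 / 4 ^ m : ℝ) (1 / 3 + 2 / 3 / 4 ^ m)}

lemma Pat_per (m : ℕ) : Per (Pat m) := by
  intro x k
  simp [Pat]

lemma Pat_measurable (m : ℕ) : MeasurableSet (Pat m) :=
  measurable_fract measurableSet_Ico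

lemma ck_add_int (k : ℕ) (b : ℝ) (j : ℤ) : ck k (b + j) = ck k b := by
  unfold ck
  have : 2 * Real.pi * (2 ^ k * (b + j)) = 2 * Real.pi * (2 ^ k * b) + ((2 ^ k * j : ℤ) : ℝ) * (2 * Real.pi) := by
    push_cast; ring
  rw [this, Real.cos_add_int_mul_two_pi]

lemma ck_fract (k : ℕ) (b : ℝ) : ck k (Int.fract b) = ck k b := by
  have : Int.fract b = b + ((-⌊b⌋ : ℤ) : ℝ) := by
    rw [Int.fract]; push_cast; ring
  rw [this, ck_add_int]

lemma ck_third (k : ℕ) : ck k (1 / 3) = 1 / 2 := by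
  have hmod : ∃ j : ℤ, (2:ℝ) ^ k * (1 / 3) = 1 / 3 + j ∨ (2:ℝ) ^ k * (1 / 3) = 2 / 3 + j := by
    induction k with
    | zero => exact ⟨0, Or.inl (by simp)⟩
    | succ k ih =>
      obtain ⟨j, h | h⟩ := ih
      · refine ⟨2 * j, Or.inr ?_⟩
        rw [pow_succ, show (2:ℝ) ^ k * 2 * (1 / 3) = 2 * (2 ^ k * (1 / 3)) by ring, h]
        push_cast; ring
      · refine ⟨2 * j + 1, Or.inl ?_⟩
        rw [pow_succ, show (2:ℝ) ^ k * 2 * (1 / 3) = 2 * (2 ^ k * (1 / 3)) by ring, h]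
        push_cast; ring
  unfold ck
  have h1 : Real.cos (2 * Real.pi * (1 / 3)) = -(1 / 2) := by
    rw [show 2 * Real.pi * (1 / 3) = Real.pi - Real.pi / 3 by ring, Real.cos_pi_sub,
      Real.cos_pi_div_three]
  have h2 : Real.cos (2 * Real.pi * (2 / 3)) = -(1 / 2) := by
    rw [show 2 * Real.pi * (2 / 3) = Real.pi / 3 + Real.pi by ring, Real.cos_add_pi,
      Real.cos_pi_div_three]
  obtain ⟨j, h | h⟩ := hmod
  · rw [h, mul_add, mul_comm (2 * Real.pi) (j:ℝ), Real.cos_add_int_mul_two_pi, h1]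
    norm_num [abs_of_pos]
  · rw [h, mul_add, mul_comm (2 * Real.pi) (j:ℝ), Real.cos_add_int_mul_two_pi, h2]
    norm_num [abs_of_pos]

/-- inside the block the cosines are not small -/
lemma Pat.ck_ge {m : ℕ} {b : ℝ} (hb : b ∈ Pat m) {k : ℕ} (hk : k + 6 ≤ 2 * m) : 2 / 5 ≤ ck k b := by
  have hpi := Real.pi_lt_d2
  have hpi0 := Real.pi_pos
  have h1 := ck_lip k (Int.fract b) (1 / 3)
  rw [ck_third, ck_fract] at h1
  obtain ⟨h2, h3⟩ := hb
  have h4 : (0:ℝ) < 4 ^ m := by positivity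
  have h5 : |Int.fract b - 1 / 3| ≤ 2 / 3 / 4 ^ m := by
    have : (1:ℝ) / 3 / 4 ^ m ≤ 2 / 3 / 4 ^ m := by gcongr; norm_num
    rw [abs_le]; constructor <;> linarith
  have h6 : (2:ℝ) ^ k ≤ 4 ^ m / 64 := by
    rw [le_div_iff₀ (by norm_num)]
    calc (2:ℝ) ^ k * 64 = 2 ^ (k + 6) := by rw [pow_add]; norm_num
      _ ≤ 2 ^ (2 * m) := pow_le_pow_right₀ (by norm_num) hk
      _ = 4 ^ m := by rw [pow_mul]; norm_num
  have h7 : 2 * Real.pi * 2 ^ k * |Int.fract b - 1 / 3| ≤ 2 * 3.15 * (4 ^ m / 64) * (2 / 3 / 4 ^ m) := by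
    gcongr
  have h8 : 2 * 3.15 * ((4:ℝ) ^ m / 64) * (2 / 3 / 4 ^ m) = 2 * 3.15 / 64 * (2 / 3) := by
    field_simp
  rw [h8] at h7
  have h9 := (abs_le.1 (h1.trans h7)).1
  norm_num at h9 ⊢
  linarith

lemma two_ek_le (k : ℕ) : 2 * ek k ≤ 2 / 5 := by
  have h1 := ek_anti (Nat.zero_le k)
  have h2 : ek 0 ≤ 1 / 5 := by
    unfold ek
    rw [pow_zero, mul_one, Real.exp_neg, inv_le_comm₀ (Real.exp_pos _) (by norm_num)]
    have h3 := Real.exp_one_gt_d9
    have h4 : Real.exp 2 = Real.exp 1 * Real.exp 1 := by rw [← Real.exp_add]; norm_num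
    rw [h4]
    nlinarith
  linarith

/-- the ok set: a block `(01)^(K+K')` with good base points along the first `2K` times -/
def Q (K K' : ℕ) (M : ℝ) (k₁ : ℕ) : Set ℝ :=
  {b | b ∈ Pat (K + K') ∧ ∀ j ≤ 2 * K, GoodB M k₁ (2 ^ j * b)}

lemma GoodB_add_int {M : ℝ} {k₁ : ℕ} {b : ℝ} (j : ℤ) : GoodB M k₁ (b + j) ↔ GoodB M k₁ b := by
  constructor
  · rintro ⟨h1, h2⟩
    exact ⟨fun k hk => by have := h1 k hk; rwa [ck_add_int] at this,
      fun k hk => by have := h2 k hk; rwa [ck_add_int] at this⟩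
  · rintro ⟨h1, h2⟩
    exact ⟨fun k hk => by rw [ck_add_int]; exact h1 k hk, fun k hk => by rw [ck_add_int]; exact h2 k hk⟩

lemma Q_per (K K' : ℕ) (M : ℝ) (k₁ : ℕ) : Per (Q K K' M k₁) := by
  intro x k
  unfold Q
  simp only [mem_ofPred_eq]
  have h1 : ∀ j : ℕ, GoodB M k₁ (2 ^ j * (x + k)) ↔ GoodB M k₁ (2 ^ j * x) := by
    intro j
    rw [mul_add, show (2:ℝ) ^ j * (k:ℝ) = ((2 ^ j * k : ℤ) : ℝ) by push_cast; ring, GoodB_add_int]
  simp only [h1, Pat_per (K + K') x k]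

lemma ck_continuous (k : ℕ) : Continuous (ck k) :=
  (Real.continuous_cos.comp (by fun_prop)).abs

lemma GoodB_measurable (M : ℝ) (k₁ : ℕ) : MeasurableSet {b | GoodB M k₁ b} := by
  have : {b | GoodB M k₁ b} = (⋂ k, ⋂ (_ : k < k₁), {b | 2 * ek k ≤ ck k b}) ∩
      ⋂ k, ⋂ (_ : k₁ ≤ k), {b | M * ek k ≤ ck k b} := by
    ext b
    simp only [mem_ofPred_eq, mem_inter_iff, mem_iInter]
    exact ⟨fun h => ⟨h.lo, h.hi⟩, fun h => ⟨h.1, h.2⟩⟩
  rw [this]
  refine MeasurableSet.inter ?_ ?_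
  · exact MeasurableSet.iInter fun k => MeasurableSet.iInter fun _ =>
      measurableSet_le measurable_const (ck_continuous k).measurable
  · exact MeasurableSet.iInter fun k => MeasurableSet.iInter fun _ =>
      measurableSet_le measurable_const (ck_continuous k).measurable

lemma Q_measurable (K K' : ℕ) (M : ℝ) (k₁ : ℕ) : MeasurableSet (Q K K' M k₁) := by
  have : Q K K' M k₁ = Pat (K + K') ∩ ⋂ j, ⋂ (_ : j ≤ 2 * K), {b | GoodB M k₁ (2 ^ j * b)} := by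
    ext b
    simp only [Q, mem_ofPred_eq, mem_inter_iff, mem_iInter]
  rw [this]
  exact (Pat_measurable _).inter (MeasurableSet.iInter fun j => MeasurableSet.iInter fun _ =>
    (measurable_const_mul ((2:ℝ) ^ j)) (GoodB_measurable M k₁))

/-! ### measures -/

/-- the unit interval part of the block set is an interval -/
lemma Pat_inter_subset (m : ℕ) (hm : 1 ≤ m) :
    Pat m ∩ Ioc 0 1 = Ico (1 / 3 - 1 / 3 / 4 ^ m : ℝ) (1 / 3 + 2 / 3 / 4 ^ m) := by
  have h4 : (4:ℝ) ≤ 4 ^ m := by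
    calc (4:ℝ) = 4 ^ 1 := by norm_num
      _ ≤ 4 ^ m := pow_le_pow_right₀ (by norm_num) hm
  have h40 : (0:ℝ) < 4 ^ m := by positivity
  have h1 : (1:ℝ) / 3 / 4 ^ m ≤ 1 / 12 := by
    rw [div_le_iff₀ h40]; linarith
  have h2 : (2:ℝ) / 3 / 4 ^ m ≤ 1 / 6 := by
    rw [div_le_iff₀ h40]; linarith
  ext x
  simp only [Pat, mem_inter_iff, mem_ofPred_eq, mem_Ico, mem_Ioc]
  constructor
  · rintro ⟨⟨h3, h4⟩, h5, h6⟩
    have h7 : x < 1 := by
      rcases eq_or_lt_of_le h6 with h | h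
      · rw [h, Int.fract_one] at h3; linarith
      · exact h
    rw [Int.fract_eq_self.2 ⟨h5.le, h7⟩] at h3 h4
    exact ⟨h3, h4⟩
  · rintro ⟨h3, h4⟩
    have h5 : 0 < x := by linarith
    have h6 : x < 1 := by linarith
    rw [Int.fract_eq_self.2 ⟨h5.le, h6⟩]
    exact ⟨⟨h3, h4⟩, h5, h6.le⟩

/-- probability of one bad event inside the block -/
lemma vol_bad_event (m j k : ℕ) (hm : 1 ≤ m) {η : ℝ} (hη : 0 ≤ η) (hη2 : η ≤ 2 / 5) :
    volume ({b | ck k (2 ^ j * b) < η} ∩ (Pat m ∩ Ioc 0 1)) ≤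
      ENNReal.ofReal (if k + j + 6 ≤ 2 * m then 0 else 33 / 4 ^ m * η) := by
  split_ifs with hkj
  · rw [ENNReal.ofReal_zero, nonpos_iff_eq_zero]
    have : {b | ck k (2 ^ j * b) < η} ∩ (Pat m ∩ Ioc 0 1) = ∅ := by
      rw [eq_empty_iff_forall_notMem]
      rintro b ⟨h1, h2, h3⟩
      simp only [mem_ofPred_eq] at h1
      rw [← ck_add] at h1
      have := Pat.ck_ge h2 hkj
      linarith
    rw [this, measure_empty]
  · have h40 : (0:ℝ) < 4 ^ m := by positivity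
    rw [Pat_inter_subset m hm]
    have hsub : {b | ck k (2 ^ j * b) < η} ∩ Ico (1 / 3 - 1 / 3 / 4 ^ m : ℝ) (1 / 3 + 2 / 3 / 4 ^ m) ⊆
        {x | (2:ℝ) ^ (k + j) * x ∈ smallCos η} ∩
          Icc ((1 / 3 + 1 / 6 / 4 ^ m) - 1 / 2 / 4 ^ m) ((1 / 3 + 1 / 6 / 4 ^ m) + 1 / 2 / 4 ^ m) := by
      rintro b ⟨h1, h2, h3⟩
      refine ⟨?_, ?_, ?_⟩
      · simp only [mem_ofPred_eq] at h1
        rw [← ck_add] at h1
        exact h1
      · have : (1 / 3 + 1 / 6 / 4 ^ m : ℝ) - 1 / 2 / 4 ^ m = 1 / 3 - 1 / 3 / 4 ^ m := by ring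
        rw [this]; exact h2
      · have : (1 / 3 + 1 / 6 / 4 ^ m : ℝ) + 1 / 2 / 4 ^ m = 1 / 3 + 2 / 3 / 4 ^ m := by ring
        rw [this]; exact h3.le
    refine (measure_mono hsub).trans ((vol_scaled hη _ _ (by positivity)).trans ?_)
    apply ENNReal.ofReal_le_ofReal
    have h5 : (1 / 2 : ℝ) ^ (k + j) ≤ 32 / 4 ^ m := by
      have h6 : 2 * m ≤ k + j + 5 := by omega
      have h7 : (4:ℝ) ^ m ≤ 2 ^ (k + j) * 32 := by
        calc (4:ℝ) ^ m = 2 ^ (2 * m) := by rw [pow_mul]; norm_num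
          _ ≤ 2 ^ (k + j + 5) := pow_le_pow_right₀ (by norm_num) h6
          _ = 2 ^ (k + j) * 32 := by rw [pow_add]; norm_num
      rw [le_div_iff₀ h40, one_div, inv_pow, inv_mul_le_iff₀ (by positivity)]
      exact h7
    calc η * (2 * (1 / 2 / 4 ^ m) + (1 / 2) ^ (k + j)) ≤ η * (2 * (1 / 2 / 4 ^ m) + 32 / 4 ^ m) := by gcongr
      _ = 33 / 4 ^ m * η := by ring

lemma sum_geo {c : ℝ} (hc : 0 ≤ c) {f : ℕ → ENNReal} (h : ∀ i, f i ≤ ENNReal.ofReal (c * (1 / 2) ^ i)) :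
    ∑' i, f i ≤ ENNReal.ofReal (2 * c) := by
  refine (ENNReal.tsum_le_tsum h).trans ?_
  have hsum : HasSum (fun i : ℕ => c * (1 / 2 : ℝ) ^ i) (c * 2) := hasSum_geometric_two.mul_left _
  rw [← ENNReal.ofReal_tsum_of_nonneg (fun i => by positivity) hsum.summable, hsum.tsum_eq, mul_comm]

/-- probability that a time in the first part of the block is not good -/
lemma vol_notGood {K K' : ℕ} (hK' : 3 ≤ K') {M : ℝ} (hM : 0 ≤ M) {k₁ : ℕ} (hk : M * ek k₁ ≤ 2 / 5)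
    {j : ℕ} (hj : j ≤ 2 * K) :
    volume ({b | ¬ GoodB M k₁ (2 ^ j * b)} ∩ (Pat (K + K') ∩ Ioc 0 1)) ≤
      ENNReal.ofReal (33 / 4 ^ (K + K') * (4 * ek (2 * K' - 5) + 2 * (M * ek k₁))) := by
  set m := K + K' with hm
  set k₀ := 2 * K' - 5 with hk₀
  set P := Pat m ∩ Ioc (0:ℝ) 1 with hP
  have h4 : (0:ℝ) < 4 ^ m := by positivity
  have hsub : {b | ¬ GoodB M k₁ (2 ^ j * b)} ∩ P ⊆
      (⋃ i, {b | ck (k₀ + i) (2 ^ j * b) < 2 * ek (k₀ + i)} ∩ P) ∪
      (⋃ i, {b | ck (k₁ + i) (2 ^ j * b) < M * ek (k₁ + i)} ∩ P) := by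
    rintro b ⟨h1, h2⟩
    by_contra hcon
    rw [mem_union, not_or] at hcon
    obtain ⟨h3, h5⟩ := hcon
    apply h1
    constructor
    · intro k hkk
      by_contra hlt
      push Not at hlt
      rcases lt_or_ge k k₀ with h6 | h6
      · have h7 : 2 / 5 ≤ ck (k + j) b := Pat.ck_ge h2.1 (by omega)
        rw [ck_add] at h7
        have := two_ek_le k
        linarith
      · apply h3
        rw [mem_iUnion]
        refine ⟨k - k₀, ?_, h2⟩
        rw [Nat.add_sub_cancel' h6]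
        exact hlt
    · intro k hkk
      by_contra hlt
      push Not at hlt
      apply h5
      rw [mem_iUnion]
      refine ⟨k - k₁, ?_, h2⟩
      rw [Nat.add_sub_cancel' hkk]
      exact hlt
  refine (measure_mono hsub).trans ((measure_union_le _ _).trans ?_)
  have hA : volume (⋃ i, {b | ck (k₀ + i) (2 ^ j * b) < 2 * ek (k₀ + i)} ∩ P) ≤
      ENNReal.ofReal (2 * (33 / 4 ^ m * (2 * ek k₀))) := by
    refine (measure_iUnion_le _).trans (sum_geo (by have := (ek_pos k₀).le; positivity) fun i => ?_)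
    refine (vol_bad_event m j (k₀ + i) (by omega) (by have := (ek_pos (k₀ + i)).le; positivity)
      (two_ek_le _)).trans ?_
    apply ENNReal.ofReal_le_ofReal
    have h6 := ek_half k₀ i
    have h7 := (ek_pos k₀).le
    split_ifs
    · positivity
    · calc 33 / 4 ^ m * (2 * ek (k₀ + i)) ≤ 33 / 4 ^ m * (2 * (ek k₀ * (1 / 2) ^ i)) := by gcongr
        _ = 33 / 4 ^ m * (2 * ek k₀) * (1 / 2) ^ i := by ring
  have hB : volume (⋃ i, {b | ck (k₁ + i) (2 ^ j * b) < M * ek (k₁ + i)} ∩ P) ≤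
      ENNReal.ofReal (2 * (33 / 4 ^ m * (M * ek k₁))) := by
    refine (measure_iUnion_le _).trans (sum_geo (by have := (ek_pos k₁).le; positivity) fun i => ?_)
    have h8 : M * ek (k₁ + i) ≤ M * ek k₁ := by
      have := ek_anti (Nat.le_add_right k₁ i)
      gcongr
    refine (vol_bad_event m j (k₁ + i) (by omega) (by have := (ek_pos (k₁ + i)).le; positivity)
      (h8.trans hk)).trans ?_
    apply ENNReal.ofReal_le_ofReal
    have h6 := ek_half k₁ i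
    have h7 := (ek_pos k₁).le
    split_ifs
    · positivity
    · calc 33 / 4 ^ m * (M * ek (k₁ + i)) ≤ 33 / 4 ^ m * (M * (ek k₁ * (1 / 2) ^ i)) := by gcongr
        _ = 33 / 4 ^ m * (M * ek k₁) * (1 / 2) ^ i := by ring
  refine (add_le_add hA hB).trans ?_
  have h7 := (ek_pos k₀).le
  have h9 := (ek_pos k₁).le
  rw [← ENNReal.ofReal_add (by positivity) (by positivity)]
  apply ENNReal.ofReal_le_ofReal
  apply le_of_eq; ring

/-- probability that a block is present but not ok -/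
lemma vol_Pat_diff_Q {K K' : ℕ} (hK' : 3 ≤ K') {M : ℝ} (hM : 0 ≤ M) {k₁ : ℕ} (hk : M * ek k₁ ≤ 2 / 5) :
    volume ((Pat (K + K') \ Q K K' M k₁) ∩ Ioc 0 1) ≤
      ENNReal.ofReal ((2 * K + 1) * (33 / 4 ^ (K + K') * (4 * ek (2 * K' - 5) + 2 * (M * ek k₁)))) := by
  have hsub : (Pat (K + K') \ Q K K' M k₁) ∩ Ioc 0 1 ⊆
      ⋃ j ∈ Finset.range (2 * K + 1), ({b | ¬ GoodB M k₁ (2 ^ j * b)} ∩ (Pat (K + K') ∩ Ioc 0 1)) := by
    rintro b ⟨⟨h1, h2⟩, h3⟩
    have : ∃ j ≤ 2 * K, ¬ GoodB M k₁ (2 ^ j * b) := by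
      by_contra hcon
      push Not at hcon
      exact h2 ⟨h1, hcon⟩
    obtain ⟨j, hj, h4⟩ := this
    rw [mem_iUnion₂]
    exact ⟨j, Finset.mem_range.2 (by omega), h4, h1, h3⟩
  refine (measure_mono hsub).trans ((measure_biUnion_finset_le _ _).trans ?_)
  refine (Finset.sum_le_sum fun j hj => vol_notGood hK' hM hk
    (by have := Finset.mem_range.1 hj; omega)).trans ?_
  rw [Finset.sum_const, Finset.card_range, nsmul_eq_mul]
  have e1 : ((2 * K + 1 : ℕ) : ENNReal) = ENNReal.ofReal (2 * K + 1) := by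
    rw [← ENNReal.ofReal_natCast]
    push_cast; rfl
  rw [e1, ← ENNReal.ofReal_mul (by positivity)]

/-- base points without an aligned block among `μ` positions -/
def NoPat (m μ : ℕ) : Set ℝ := {b | ∀ i < μ, (((4 ^ m) ^ i : ℕ) : ℝ) * b ∉ Pat m}

lemma NoPat_per (m μ : ℕ) : Per (NoPat m μ) := by
  intro x k
  simp only [NoPat, mem_ofPred_eq]
  exact forall_congr' fun i => forall_congr' fun _ => not_congr ((Pat_per m).scale _ x k)

lemma NoPat_measurable (m μ : ℕ) : MeasurableSet (NoPat m μ) := by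
  have : NoPat m μ = ⋂ i, ⋂ (_ : i < μ), {b | (((4 ^ m) ^ i : ℕ) : ℝ) * b ∈ Pat m}ᶜ := by
    ext b; simp [NoPat]
  rw [this]
  exact MeasurableSet.iInter fun i => MeasurableSet.iInter fun _ =>
    ((measurable_const_mul _) (Pat_measurable m)).compl

end Pool.Agent.W_MP_4481e3_an
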