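import Mathlib

/-!
Second order control of a one sided family of real leaves (`L = 2`).
-/

open Filter Topology Set

namespace Pool.Agent.W_MP_4481e3_an.Boot

/-- one sided family of real leaves over the base points `b k` -/
structure RFam (e : ℂ) (b : ℕ → ℝ) (ρ : ℝ) (V : ℕ → ℝ → ℂ) : Prop where
  pos : 0 < ρ
  recur : ∀ (k : ℕ) (t : ℝ), |t| ≤ ρ * 2 ^ k → V (k + 1) (2 * t) =
    V k t + (Real.cos (2 * Real.pi * (b k + t)) : ℂ) * (e - V k t ^ 2)

/-- cosine at the centre -/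
noncomputable def cc (b : ℕ → ℝ) (k : ℕ) : ℝ := Real.cos (2 * Real.pi * b k)

/-- its derivative -/
noncomputable def dd (b : ℕ → ℝ) (k : ℕ) : ℝ := -(2 * Real.pi * Real.sin (2 * Real.pi * b k))

/-- slopes at the centre -/
noncomputable def slope (e : ℂ) (b : ℕ → ℝ) (V : ℕ → ℝ → ℂ) (a0 : ℂ) : ℕ → ℂ
  | 0 => a0
  | k + 1 => ((1 - 2 * cc b k * V k 0) * slope e b V a0 k + dd b k * (e - V k 0 ^ 2)) / 2

/-- first order remainder -/
noncomputable def Rem (e : ℂ) (b : ℕ → ℝ) (V : ℕ → ℝ → ℂ) (a0 : ℂ) (k : ℕ) (s : ℝ) : ℂ :=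
  V k s - V k 0 - slope e b V a0 k * s

/-- Taylor remainder of the cosine -/
lemma cos_taylor (b s : ℝ) : |Real.cos (2 * Real.pi * (b + s)) - Real.cos (2 * Real.pi * b) +
    2 * Real.pi * Real.sin (2 * Real.pi * b) * s| ≤ 2 * Real.pi ^ 2 * s ^ 2 := by
  -- `g x = cos (B + x) - cos B + sin B * x`, `|g x| ≤ x^2/2`
  set B := 2 * Real.pi * b with hB
  set x := 2 * Real.pi * s with hx
  have e1 : 2 * Real.pi * (b + s) = B + x := by rw [hB, hx]; ring
  have e2 : 2 * Real.pi * Real.sin B * s = Real.sin B * x := by rw [hx]; ring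
  have e3 : 2 * Real.pi ^ 2 * s ^ 2 = x ^ 2 / 2 := by rw [hx]; ring
  rw [e1, e2, e3]
  -- reduce to nonnegative `x`
  have key : ∀ B x : ℝ, 0 ≤ x → |Real.cos (B + x) - Real.cos B + Real.sin B * x| ≤ x ^ 2 / 2 := by
    intro B x hx
    have h1 : ∀ y, 0 ≤ y → |Real.sin (B + y) - Real.sin B| ≤ y := by
      intro y hy
      have := Real.abs_sin_sub_sin_le (B + y) B
      simpa [abs_of_nonneg hy] using this
    have hmono : ∀ σ : ℝ, (σ = 1 ∨ σ = -1) →
        σ * (Real.cos (B + x) - Real.cos B + Real.sin B * x) ≤ x ^ 2 / 2 := by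
      intro σ hσ
      set g : ℝ → ℝ := fun y => y ^ 2 / 2 - σ * (Real.cos (B + y) - Real.cos B + Real.sin B * y) with hg
      have hd : ∀ y, HasDerivAt g (y - σ * (-Real.sin (B + y) + Real.sin B)) y := by
        intro y
        have h1 : HasDerivAt (fun y : ℝ => Real.cos (B + y)) (-Real.sin (B + y)) y := by
          have := ((hasDerivAt_id y).const_add B).cos
          simpa using this
        have h2 : HasDerivAt (fun y : ℝ => y ^ 2 / 2) y y := by
          have := (hasDerivAt_pow 2 y).div_const 2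
          simpa using this
        have h3 : HasDerivAt (fun y : ℝ => Real.sin B * y) (Real.sin B) y := by
          simpa using (hasDerivAt_id y).const_mul (Real.sin B)
        have h4 := h2.sub (((h1.sub_const (Real.cos B)).add h3).const_mul σ)
        exact h4
      have hmon : MonotoneOn g (Ici 0) := by
        apply monotoneOn_of_deriv_nonneg (convex_Ici 0)
        · exact fun y _ => (hd y).continuousAt.continuousWithinAt
        · exact fun y _ => (hd y).differentiableAt.differentiableWithinAt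
        · intro y hy
          rw [interior_Ici] at hy
          rw [(hd y).deriv]
          have := h1 y (le_of_lt hy)
          rw [abs_le] at this
          rcases hσ with rfl | rfl
          · linarith [this.1, this.2]
          · linarith [this.1, this.2]
      have h0 : g 0 ≤ g x := hmon (by simp) (by simpa using hx) hx
      have h00 : g 0 = 0 := by simp [hg]
      rw [h00] at h0
      simp only [hg] at h0
      linarith
    rw [abs_le]
    constructor
    · have := hmono (-1) (Or.inr rfl); linarith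
    · have := hmono 1 (Or.inl rfl); linarith
  rcases le_total 0 x with h | h
  · exact key B x h
  · have := key (-B) (-x) (by linarith)
    have e4 : Real.cos (-B + -x) = Real.cos (B + x) := by rw [← Real.cos_neg]; congr 1; ring
    rw [e4, Real.cos_neg, Real.sin_neg] at this
    have e5 : -Real.sin B * -x = Real.sin B * x := by ring
    have e6 : (-x) ^ 2 / 2 = x ^ 2 / 2 := by ring
    rwa [e5, e6] at this

variable {e : ℂ} {b : ℕ → ℝ} {ρ : ℝ} {V : ℕ → ℝ → ℂ} {a0 : ℂ}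

/-- the one step map of the second order bounds -/
noncomputable def nextB (c d F w E l h B : ℝ) : ℝ :=
  F * B / 4 + |c| * l ^ 2 / 2 + w * |d| * l + |d| * h * l ^ 2 / 2 +
    Real.pi ^ 2 * (E + 2 * w * l * h + l ^ 2 * h ^ 2)

lemma nextB_mono {c d F w E l h B l' h' B' : ℝ} (hF : 0 ≤ F) (hw : 0 ≤ w) (hl : 0 ≤ l) (hh : 0 ≤ h)
    (hll : l ≤ l') (hhh : h ≤ h') (hBB : B ≤ B') : nextB c d F w E l h B ≤ nextB c d F w E l' h' B' := by
  unfold nextB
  have h1 : 0 ≤ |c| := abs_nonneg _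
  have h2 : 0 ≤ |d| := abs_nonneg _
  have hl' : 0 ≤ l' := hl.trans hll
  have hh' : 0 ≤ h' := hh.trans hhh
  gcongr

/-- **One step** of the second order bound. -/
theorem RFam.step (hV : RFam e b ρ V) {k : ℕ} {B h a w F E : ℝ} (hB : 0 ≤ B)
    (ha : ‖slope e b V a0 k‖ ≤ a) (hw : ‖V k 0‖ ≤ w) (hF : ‖1 - 2 * cc b k * V k 0‖ ≤ F)
    (hE : ‖e - V k 0 ^ 2‖ ≤ E) (hh : h ≤ ρ * 2 ^ k)
    (hR : ∀ s, |s| ≤ h → ‖Rem e b V a0 k s‖ ≤ B * s ^ 2 / 2) :
    ∀ s, |s| ≤ 2 * h → ‖Rem e b V a0 (k + 1) s‖ ≤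
      nextB (cc b k) (dd b k) F w E (a + B * h / 2) h B * s ^ 2 / 2 := by
  intro s' hs'
  obtain ⟨s, rfl⟩ : ∃ s, s' = 2 * s := ⟨s' / 2, by ring⟩
  have hs : |s| ≤ h := by
    rw [abs_mul, abs_two] at hs'; linarith
  have hh0 : 0 ≤ h := (abs_nonneg s).trans hs
  have ha0 : 0 ≤ a := (norm_nonneg _).trans ha
  have hw0 : 0 ≤ w := (norm_nonneg _).trans hw
  have hF0 : 0 ≤ F := (norm_nonneg _).trans hF
  have hE0 : 0 ≤ E := (norm_nonneg _).trans hE
  have hs2 : |s| ^ 2 = s ^ 2 := sq_abs s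
  set A := slope e b V a0 k with hA
  set W := V k 0 with hW
  set R := Rem e b V a0 k s with hRdef
  set c := cc b k with hc
  set d := dd b k with hd
  set δ : ℂ := A * s + R with hδ
  set q : ℝ := Real.cos (2 * Real.pi * (b k + s)) - c - d * s with hq
  have hVs : V k s = W + δ := by
    rw [hδ, hRdef, Rem]; ring
  have hq1 : |q| ≤ 2 * Real.pi ^ 2 * s ^ 2 := by
    have := cos_taylor (b k) s
    rw [hq, hc, hd, cc, dd]
    convert this using 2
    ring
  have hr := hV.recur k s (hs.trans hh)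
  have hr0 := hV.recur k 0 (by rw [abs_zero]; exact hh0.trans hh)
  rw [mul_zero, add_zero] at hr0
  have hcos : (Real.cos (2 * Real.pi * (b k + s)) : ℂ) = c + d * s + q := by
    rw [hq]; push_cast; ring
  have hid : Rem e b V a0 (k + 1) (2 * s) = (1 - 2 * c * W) * R - c * δ ^ 2 - 2 * W * d * s * δ -
      d * s * δ ^ 2 + q * (e - V k s ^ 2) := by
    have hr0' : V (k + 1) 0 = W + (c : ℂ) * (e - W ^ 2) := by
      rw [hr0, hc, cc]
    rw [Rem, hr, hr0', slope, ← hA, ← hW, ← hc, ← hd, hcos, hVs]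
    have : R = δ - A * s := by rw [hδ]; ring
    rw [this]
    push_cast
    ring
  set l := a + B * h / 2 with hl
  have hl0 : 0 ≤ l := by positivity
  have hRb : ‖R‖ ≤ B * s ^ 2 / 2 := hR s hs
  have hδb : ‖δ‖ ≤ l * |s| := by
    calc ‖δ‖ ≤ ‖A * s‖ + ‖R‖ := norm_add_le _ _
      _ ≤ a * |s| + B * s ^ 2 / 2 := by
          rw [norm_mul, Complex.norm_real, Real.norm_eq_abs]
          gcongr
      _ = a * |s| + B * (|s| * |s|) / 2 := by rw [← hs2]; ring
      _ ≤ a * |s| + B * (h * |s|) / 2 := by gcongr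
      _ = l * |s| := by rw [hl]; ring
  have hδh : ‖δ‖ ≤ l * h := hδb.trans (by gcongr)
  have hEV : ‖e - V k s ^ 2‖ ≤ E + 2 * w * l * h + l ^ 2 * h ^ 2 := by
    have : e - V k s ^ 2 = (e - W ^ 2) - 2 * W * δ - δ ^ 2 := by rw [hVs]; ring
    rw [this]
    calc ‖(e - W ^ 2) - 2 * W * δ - δ ^ 2‖ ≤ ‖e - W ^ 2‖ + ‖2 * W * δ‖ + ‖δ ^ 2‖ :=
          (norm_sub_le _ _).trans (by gcongr; exact norm_sub_le _ _)
      _ = ‖e - W ^ 2‖ + 2 * ‖W‖ * ‖δ‖ + ‖δ‖ ^ 2 := by
          rw [norm_mul, norm_mul, norm_pow]; norm_num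
      _ ≤ E + 2 * w * (l * h) + (l * h) ^ 2 := by gcongr
      _ = _ := by ring
  have n1 : ‖(1 - 2 * c * W) * R‖ ≤ F * (B * s ^ 2 / 2) := by
    rw [norm_mul]; gcongr
  have n2 : ‖(c : ℂ) * δ ^ 2‖ ≤ |c| * (l ^ 2 * s ^ 2) := by
    rw [norm_mul, norm_pow, Complex.norm_real, Real.norm_eq_abs]
    calc |c| * ‖δ‖ ^ 2 ≤ |c| * (l * |s|) ^ 2 := by gcongr
      _ = |c| * (l ^ 2 * s ^ 2) := by rw [mul_pow, hs2]
  have n3 : ‖2 * W * d * s * δ‖ ≤ 2 * w * |d| * (l * s ^ 2) := by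
    rw [norm_mul, norm_mul, norm_mul, norm_mul, Complex.norm_real, Complex.norm_real, Real.norm_eq_abs,
      Real.norm_eq_abs, Complex.norm_ofNat]
    calc 2 * ‖W‖ * |d| * |s| * ‖δ‖ ≤ 2 * w * |d| * |s| * (l * |s|) := by gcongr
      _ = 2 * w * |d| * (l * s ^ 2) := by rw [← hs2]; ring
  have n4 : ‖(d : ℂ) * s * δ ^ 2‖ ≤ |d| * h * (l ^ 2 * s ^ 2) := by
    rw [norm_mul, norm_mul, norm_pow, Complex.norm_real, Complex.norm_real, Real.norm_eq_abs,
      Real.norm_eq_abs]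
    calc |d| * |s| * ‖δ‖ ^ 2 ≤ |d| * h * (l * |s|) ^ 2 := by gcongr
      _ = |d| * h * (l ^ 2 * s ^ 2) := by rw [mul_pow, hs2]
  have n5 : ‖(q : ℂ) * (e - V k s ^ 2)‖ ≤ 2 * Real.pi ^ 2 * s ^ 2 * (E + 2 * w * l * h + l ^ 2 * h ^ 2) := by
    rw [norm_mul, Complex.norm_real, Real.norm_eq_abs]
    gcongr
  rw [hid]
  calc ‖(1 - 2 * c * W) * R - c * δ ^ 2 - 2 * W * d * s * δ - d * s * δ ^ 2 + q * (e - V k s ^ 2)‖
      ≤ ‖(1 - 2 * c * W) * R‖ + ‖(c : ℂ) * δ ^ 2‖ + ‖2 * W * d * s * δ‖ + ‖(d : ℂ) * s * δ ^ 2‖ +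
        ‖(q : ℂ) * (e - V k s ^ 2)‖ := by
        refine (norm_add_le _ _).trans ?_
        gcongr
        refine (norm_sub_le _ _).trans ?_
        gcongr
        refine (norm_sub_le _ _).trans ?_
        gcongr
        exact norm_sub_le _ _
    _ ≤ F * (B * s ^ 2 / 2) + |c| * (l ^ 2 * s ^ 2) + 2 * w * |d| * (l * s ^ 2) +
        |d| * h * (l ^ 2 * s ^ 2) + 2 * Real.pi ^ 2 * s ^ 2 * (E + 2 * w * l * h + l ^ 2 * h ^ 2) := by
        gcongr
    _ = nextB c d F w E l h B * (2 * s) ^ 2 / 2 := by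
        unfold nextB; ring

end Pool.Agent.W_MP_4481e3_an.Boot
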