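import Pool.Agent.W_4481e3_q59.BootB

/-!
Bootstrapping of the second order bound, windows depending on the time.
-/

open Filter Topology Set

namespace Pool.Agent.W_MP_4481e3_an.Boot

variable {e : ℂ} {b : ℕ → ℝ} {ρ : ℝ} {V : ℕ → ℝ → ℂ} {a0 : ℂ}

/-- **Bootstrapping**: the second order bound reaches every strict super-solution. -/
theorem RFam.boot2 (hV : RFam e b ρ V) {k₀ : ℕ} {abar wbar F Ebar κ τ : ℕ → ℝ} {τmin τmax θ κmin : ℝ}
    (hτ : 0 < τmin) (hτmin : ∀ k ≥ k₀, τmin ≤ τ k) (hτmax : ∀ k ≥ k₀, τ k ≤ τmax)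
    (hτ2 : ∀ k ≥ k₀, τ (k + 1) ≤ 2 * τ k)
    (hθ0 : 0 ≤ θ) (hθ1 : θ < 1) (hρ : τmax ≤ ρ * 2 ^ k₀)
    (ha : ∀ k ≥ k₀, ‖slope e b V a0 k‖ ≤ abar k) (hw : ∀ k ≥ k₀, ‖V k 0‖ ≤ wbar k)
    (hF : ∀ k ≥ k₀, ‖1 - 2 * cc b k * V k 0‖ ≤ F k) (hE : ∀ k ≥ k₀, ‖e - V k 0 ^ 2‖ ≤ Ebar k)
    (hκ0 : 0 < κmin) (hκ : ∀ k ≥ k₀, κmin ≤ κ k)
    (hsup : ∀ k ≥ k₀, nextB (cc b k) (dd b k) (F k) (wbar k) (Ebar k) (abar k + κ k * τ k / 2) (τ k) (κ k) ≤
      θ * κ (k + 1))
    (h0 : ∃ B h, 0 ≤ B ∧ 0 < h ∧ ∀ s, |s| ≤ h → ‖Rem e b V a0 0 s‖ ≤ B * s ^ 2 / 2) :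
    ∃ k₁ ≥ k₀, ∀ k ≥ k₁, ∀ s, |s| ≤ τ k → ‖Rem e b V a0 k s‖ ≤ κ k * s ^ 2 / 2 := by
  have hρ0 := hV.pos
  -- the step in ratio form
  have hstep : ∀ k ≥ k₀, ∀ r h, 1 ≤ r → 0 < h → r * h ≤ τ k →
      (∀ s, |s| ≤ h → ‖Rem e b V a0 k s‖ ≤ r * κ k * s ^ 2 / 2) →
      ∀ s, |s| ≤ 2 * h → ‖Rem e b V a0 (k + 1) s‖ ≤ (θ * r) * κ (k + 1) * s ^ 2 / 2 := by
    intro k hk r h hr hh hrh hR s hs
    have hκk := hκ k hk
    have hκk0 : 0 < κ k := by linarith
    have ha0 : 0 ≤ abar k := (norm_nonneg _).trans (ha k hk)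
    have hw0 : 0 ≤ wbar k := (norm_nonneg _).trans (hw k hk)
    have hF0 : 0 ≤ F k := (norm_nonneg _).trans (hF k hk)
    have hE0 : 0 ≤ Ebar k := (norm_nonneg _).trans (hE k hk)
    have hτk := hτmin k hk
    have hτk0 : 0 < τ k := by linarith
    have hhτ : h ≤ τ k := by nlinarith
    have hhρ : h ≤ ρ * 2 ^ k := by
      refine hhτ.trans ((hτmax k hk).trans (hρ.trans ?_))
      gcongr
      · norm_num
    have h1 := hV.step (B := r * κ k) (by positivity) (ha k hk) (hw k hk) (hF k hk) (hE k hk) hhρ hR s hs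
    refine h1.trans ?_
    have h2 : nextB (cc b k) (dd b k) (F k) (wbar k) (Ebar k) (abar k + r * κ k * h / 2) h (r * κ k) ≤
        nextB (cc b k) (dd b k) (F k) (wbar k) (Ebar k) (abar k + κ k * τ k / 2) (τ k) (r * κ k) := by
      apply nextB_mono hF0 hw0 (by positivity) hh.le _ hhτ le_rfl
      nlinarith
    have h3 : nextB (cc b k) (dd b k) (F k) (wbar k) (Ebar k) (abar k + κ k * τ k / 2) (τ k) (r * κ k) =
        nextB (cc b k) (dd b k) (F k) (wbar k) (Ebar k) (abar k + κ k * τ k / 2) (τ k) (κ k) +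
          (r - 1) * (F k * κ k / 4) := by
      unfold nextB; ring
    have h4 : F k * κ k / 4 ≤ nextB (cc b k) (dd b k) (F k) (wbar k) (Ebar k) (abar k + κ k * τ k / 2) (τ k) (κ k) := by
      unfold nextB
      have : 0 ≤ |cc b k| * (abar k + κ k * τ k / 2) ^ 2 / 2 + wbar k * |dd b k| * (abar k + κ k * τ k / 2) +
        |dd b k| * τ k * (abar k + κ k * τ k / 2) ^ 2 / 2 +
        Real.pi ^ 2 * (Ebar k + 2 * wbar k * (abar k + κ k * τ k / 2) * τ k + (abar k + κ k * τ k / 2) ^ 2 * τ k ^ 2) := by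
        positivity
      linarith
    have h5 := hsup k hk
    have h6 : (r - 1) * (F k * κ k / 4) ≤ (r - 1) * (θ * κ (k + 1)) :=
      mul_le_mul_of_nonneg_left (h4.trans h5) (by linarith)
    have h7 : nextB (cc b k) (dd b k) (F k) (wbar k) (Ebar k) (abar k + r * κ k * h / 2) h (r * κ k) ≤
        θ * r * κ (k + 1) := by
      refine h2.trans (h3.le.trans ?_)
      linarith
    have h8 : 0 ≤ s ^ 2 := sq_nonneg s
    have h9 := mul_le_mul_of_nonneg_right h7 h8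
    linarith
  -- start
  obtain ⟨B, h, hB, hh, hR⟩ := hV.exists_C11 (a0 := a0) h0 k₀
  set r₀ : ℝ := max 1 (B / κmin) with hr₀
  have hr1 : 1 ≤ r₀ := le_max_left _ _
  have hrB : B ≤ r₀ * κmin := by
    have : B / κmin ≤ r₀ := le_max_right _ _
    rwa [div_le_iff₀ hκ0] at this
  -- first phase
  have hph1 : ∀ n : ℕ, ∃ h, 0 < h ∧ max 1 (θ ^ n * r₀) * h ≤ τmin ∧
      ∀ s, |s| ≤ h → ‖Rem e b V a0 (k₀ + n) s‖ ≤ max 1 (θ ^ n * r₀) * κ (k₀ + n) * s ^ 2 / 2 := by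
    intro n
    induction n with
    | zero =>
      refine ⟨min h (τmin / r₀), lt_min hh (by positivity), ?_, ?_⟩
      · rw [pow_zero, one_mul, max_eq_right hr1]
        have : min h (τmin / r₀) ≤ τmin / r₀ := min_le_right _ _
        rw [le_div_iff₀ (by linarith)] at this
        linarith
      · intro s hs
        rw [pow_zero, one_mul, max_eq_right hr1, add_zero]
        refine (hR s (hs.trans (min_le_left _ _))).trans ?_
        have h1 : B ≤ r₀ * κ k₀ := hrB.trans (by gcongr; exact hκ k₀ le_rfl)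
        have := mul_le_mul_of_nonneg_right h1 (sq_nonneg s)
        linarith
    | succ n ih =>
      obtain ⟨h, hh, hrh, hR⟩ := ih
      have h1 := hstep (k₀ + n) (by omega) _ h (le_max_left _ _) hh (hrh.trans (hτmin _ (by omega))) hR
      have hle : θ * max 1 (θ ^ n * r₀) ≤ max 1 (θ ^ (n + 1) * r₀) := by
        rw [mul_max_of_nonneg _ _ hθ0]
        apply max_le_max (by linarith) (le_of_eq (by ring))
      have hle2 : max 1 (θ ^ (n + 1) * r₀) ≤ max 1 (θ ^ n * r₀) := by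
        apply max_le_max le_rfl
        have : 0 ≤ θ ^ n * r₀ := by positivity
        rw [pow_succ]
        nlinarith
      refine ⟨h, hh, ?_, ?_⟩
      · calc _ ≤ max 1 (θ ^ n * r₀) * h := by gcongr
          _ ≤ τmin := hrh
      · intro s hs
        have h2 := h1 s (by linarith)
        rw [← add_assoc]
        refine h2.trans ?_
        have hκn := hκ (k₀ + n + 1) (by omega)
        have h3 : θ * max 1 (θ ^ n * r₀) * κ (k₀ + n + 1) ≤ max 1 (θ ^ (n + 1) * r₀) * κ (k₀ + n + 1) := by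
          apply mul_le_mul_of_nonneg_right hle; linarith
        have := mul_le_mul_of_nonneg_right h3 (sq_nonneg s)
        linarith
  obtain ⟨n, hn⟩ : ∃ n : ℕ, θ ^ n * r₀ ≤ 1 := by
    have ht : Tendsto (fun n : ℕ => θ ^ n * r₀) atTop (𝓝 (0 * r₀)) :=
      (tendsto_pow_atTop_nhds_zero_of_lt_one hθ0 hθ1).mul_const r₀
    rw [zero_mul] at ht
    exact ((ht.eventually (Iic_mem_nhds (show (0:ℝ) < 1 by norm_num)))).exists
  obtain ⟨h₁, hh₁, hrh₁, hR₁⟩ := hph1 n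
  rw [max_eq_left hn] at hrh₁ hR₁
  -- second phase
  have hh₁τ : ∀ k ≥ k₀, h₁ ≤ τ k := fun k hk => by
    have := hτmin k hk
    linarith
  have hph2 : ∀ m : ℕ, ∀ s, |s| ≤ min (2 ^ m * h₁) (τ (k₀ + n + m)) →
      ‖Rem e b V a0 (k₀ + n + m) s‖ ≤ 1 * κ (k₀ + n + m) * s ^ 2 / 2 := by
    intro m
    induction m with
    | zero =>
      intro s hs
      apply hR₁
      rw [pow_zero, one_mul] at hs
      exact hs.trans (min_le_left _ _)
    | succ m ih =>
      intro s hs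
      have hτm := hτmin (k₀ + n + m) (by omega)
      have h1 := hstep (k₀ + n + m) (by omega) 1 (min (2 ^ m * h₁) (τ (k₀ + n + m))) le_rfl
        (lt_min (by positivity) (by linarith))
        (by rw [one_mul]; exact min_le_right _ _) ih s ?_
      · rw [← add_assoc]
        refine h1.trans ?_
        have hκn := hκ (k₀ + n + m + 1) (by omega)
        have h3 : θ * 1 * κ (k₀ + n + m + 1) ≤ 1 * κ (k₀ + n + m + 1) := by
          apply mul_le_mul_of_nonneg_right _ (by linarith); linarith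
        have := mul_le_mul_of_nonneg_right h3 (sq_nonneg s)
        linarith
      · refine hs.trans ?_
        rw [mul_min_of_nonneg _ _ (by norm_num : (0:ℝ) ≤ 2)]
        apply min_le_min
        · rw [pow_succ]; linarith
        · rw [← add_assoc]
          exact hτ2 _ (by omega)
  obtain ⟨m₀, hm₀⟩ : ∃ m : ℕ, τmax ≤ 2 ^ m * h₁ := by
    obtain ⟨m, hm⟩ := pow_unbounded_of_one_lt (τmax / h₁) (by norm_num : (1:ℝ) < 2)
    refine ⟨m, ?_⟩
    rw [div_lt_iff₀ hh₁] at hm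
    exact hm.le
  refine ⟨k₀ + n + m₀, by omega, fun k hk s hs => ?_⟩
  obtain ⟨m, rfl⟩ := Nat.exists_eq_add_of_le hk
  have h1 := hph2 (m₀ + m) s (by
    rw [← add_assoc]
    refine hs.trans (le_min ?_ le_rfl)
    refine (hτmax _ (by omega)).trans (hm₀.trans ?_)
    gcongr
    · norm_num
    · omega)
  rw [← add_assoc, one_mul] at h1
  exact h1

end Pool.Agent.W_MP_4481e3_an.Boot
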