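import Pool.Agent.W_4481e3_q59.BootB

/-!
Sharper second order bound (the second derivative of the cosine is of the size of the cosine) and its
bootstrapping, windows depending on the time.
-/

open Filter Topology Set

namespace Pool.Agent.W_MP_4481e3_an.Boot

/-- Taylor remainder of the cosine, third order form -/
lemma cos_taylor3 (b s : ℝ) : |Real.cos (2 * Real.pi * (b + s)) - Real.cos (2 * Real.pi * b) +
    2 * Real.pi * Real.sin (2 * Real.pi * b) * s| ≤
      2 * Real.pi ^ 2 * s ^ 2 * (|Real.cos (2 * Real.pi * b)| + 21 / 10 * |s|) := by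
  set B := 2 * Real.pi * b with hB
  set x := 2 * Real.pi * s with hx
  have hpi := Real.pi_pos
  have hpi2 := Real.pi_lt_d2
  have e1 : 2 * Real.pi * (b + s) = B + x := by rw [hB, hx]; ring
  have e2 : 2 * Real.pi * Real.sin B * s = Real.sin B * x := by rw [hx]; ring
  rw [e1, e2, Real.cos_add]
  have e3 : Real.cos B * Real.cos x - Real.sin B * Real.sin x - Real.cos B + Real.sin B * x =
      -(Real.cos B * (1 - Real.cos x)) + Real.sin B * (x - Real.sin x) := by ring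
  rw [e3]
  have h1 : 0 ≤ 1 - Real.cos x := by linarith [Real.cos_le_one x]
  have h2 : 1 - Real.cos x ≤ x ^ 2 / 2 := by linarith [Real.one_sub_sq_div_two_le_cos (x := x)]
  have h3 : |x - Real.sin x| ≤ |x| ^ 3 / 6 := by
    have key : ∀ y : ℝ, 0 ≤ y → |y - Real.sin y| ≤ y ^ 3 / 6 := by
      intro y hy
      have hs : Real.sin y ≤ y := Real.sin_le hy
      rw [abs_of_nonneg (by linarith)]
      -- `y - y^3/6 ≤ sin y`
      set g : ℝ → ℝ := fun y => y ^ 3 / 6 - (y - Real.sin y) with hg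
      have hd : ∀ y, HasDerivAt g (3 * y ^ 2 / 6 - (1 - Real.cos y)) y := by
        intro y
        have d1 : HasDerivAt (fun y : ℝ => y ^ 3 / 6) (3 * y ^ 2 / 6) y := by
          have := (hasDerivAt_pow 3 y).div_const 6
          simpa using this
        have d2 : HasDerivAt (fun y : ℝ => y - Real.sin y) (1 - Real.cos y) y :=
          (hasDerivAt_id y).sub (Real.hasDerivAt_sin y)
        exact d1.sub d2
      have hmon : MonotoneOn g (Ici 0) := by
        apply monotoneOn_of_deriv_nonneg (convex_Ici 0)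
        · exact fun y _ => (hd y).continuousAt.continuousWithinAt
        · exact fun y _ => (hd y).differentiableAt.differentiableWithinAt
        · intro y _
          rw [(hd y).deriv]
          linarith [Real.one_sub_sq_div_two_le_cos (x := y)]
      have h0 : g 0 ≤ g y := hmon (by simp) (by simpa using hy) hy
      have h00 : g 0 = 0 := by simp [hg]
      rw [h00] at h0
      simp only [hg] at h0
      linarith
    rcases le_total 0 x with h | h
    · rw [abs_of_nonneg h]; exact key x h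
    · have := key (-x) (by linarith)
      rw [Real.sin_neg] at this
      rw [abs_of_nonpos h]
      have e4 : |(-x) - -Real.sin x| = |x - Real.sin x| := by
        rw [← abs_neg]; congr 1; ring
      rwa [e4] at this
  calc |-(Real.cos B * (1 - Real.cos x)) + Real.sin B * (x - Real.sin x)|
      ≤ |Real.cos B| * (1 - Real.cos x) + |Real.sin B| * |x - Real.sin x| := by
        refine (abs_add_le _ _).trans ?_
        rw [abs_neg, abs_mul, abs_mul, abs_of_nonneg h1]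
    _ ≤ |Real.cos B| * (x ^ 2 / 2) + 1 * (|x| ^ 3 / 6) := by
        gcongr
        exact Real.abs_sin_le_one _
    _ ≤ 2 * Real.pi ^ 2 * s ^ 2 * (|Real.cos B| + 21 / 10 * |s|) := by
        have h4 : |x| = 2 * Real.pi * |s| := by rw [hx, abs_mul, abs_of_pos (by positivity)]
        have h5 : x ^ 2 = 4 * Real.pi ^ 2 * s ^ 2 := by rw [hx]; ring
        have h6 : |s| ^ 2 = s ^ 2 := sq_abs s
        have h7 : |x| ^ 3 / 6 = 2 * Real.pi ^ 2 * s ^ 2 * (2 * Real.pi / 3 * |s|) := by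
          rw [h4, ← h6]; ring
        rw [h5, h7]
        have h8 : 2 * Real.pi / 3 * |s| ≤ 21 / 10 * |s| := by
          apply mul_le_mul_of_nonneg_right _ (abs_nonneg s)
          linarith
        have h9 : 0 ≤ 2 * Real.pi ^ 2 * s ^ 2 := by positivity
        nlinarith

variable {e : ℂ} {b : ℕ → ℝ} {ρ : ℝ} {V : ℕ → ℝ → ℂ} {a0 : ℂ}

/-- the one step map of the second order bounds -/
noncomputable def nextC (c d F w E l h B : ℝ) : ℝ :=
  F * B / 4 + |c| * l ^ 2 / 2 + w * |d| * l + |d| * h * l ^ 2 / 2 +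
    Real.pi ^ 2 * (|c| + 21 / 10 * h) * (E + 2 * w * l * h + l ^ 2 * h ^ 2)

lemma nextC_mono {c d F w E l h B l' h' B' : ℝ} (hF : 0 ≤ F) (hw : 0 ≤ w) (hE : 0 ≤ E) (hl : 0 ≤ l) (hh : 0 ≤ h)
    (hll : l ≤ l') (hhh : h ≤ h') (hBB : B ≤ B') : nextC c d F w E l h B ≤ nextC c d F w E l' h' B' := by
  unfold nextC
  have h1 : 0 ≤ |c| := abs_nonneg _
  have h2 : 0 ≤ |d| := abs_nonneg _
  have hl' : 0 ≤ l' := hl.trans hll
  have hh' : 0 ≤ h' := hh.trans hhh
  gcongr

/-- **One step** of the second order bound. -/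
theorem RFam.step3 (hV : RFam e b ρ V) {k : ℕ} {B h a w F E : ℝ} (hB : 0 ≤ B)
    (ha : ‖slope e b V a0 k‖ ≤ a) (hw : ‖V k 0‖ ≤ w) (hF : ‖1 - 2 * cc b k * V k 0‖ ≤ F)
    (hE : ‖e - V k 0 ^ 2‖ ≤ E) (hh : h ≤ ρ * 2 ^ k)
    (hR : ∀ s, |s| ≤ h → ‖Rem e b V a0 k s‖ ≤ B * s ^ 2 / 2) :
    ∀ s, |s| ≤ 2 * h → ‖Rem e b V a0 (k + 1) s‖ ≤
      nextC (cc b k) (dd b k) F w E (a + B * h / 2) h B * s ^ 2 / 2 := by
  intro s' hs'
  obtain ⟨s, rfl⟩ : ∃ s, s' = 2 * s := ⟨s' / 2, by ring⟩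
  have hs : |s| ≤ h := by
    rw [abs_mul, abs_two] at hs'; linarith
  have hh0 : 0 ≤ h := (abs_nonneg s).trans hs
  have ha0 : 0 ≤ a := (norm_nonneg _).trans ha
  have hw0 : 0 ≤ w := (norm_nonneg _).trans hw
  have hF0 : 0 ≤ F := (norm_nonneg _).trans hF
  have hE0 : 0 ≤ E := (norm_nonneg _).trans hE
  have hs2 : |s| ^ 2 = s ^ 2 := sq_abs s
  set A := slope e b V a0 k with hA
  set W := V k 0 with hW
  set R := Rem e b V a0 k s with hRdef
  set c := cc b k with hc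
  set d := dd b k with hd
  set δ : ℂ := A * s + R with hδ
  set q : ℝ := Real.cos (2 * Real.pi * (b k + s)) - c - d * s with hq
  have hVs : V k s = W + δ := by
    rw [hδ, hRdef, Rem]; ring
  have hq1 : |q| ≤ 2 * Real.pi ^ 2 * s ^ 2 * (|c| + 21 / 10 * h) := by
    have := cos_taylor3 (b k) s
    rw [hq, hc, hd, cc, dd]
    have e0 : Real.cos (2 * Real.pi * (b k + s)) - Real.cos (2 * Real.pi * b k) -
        -(2 * Real.pi * Real.sin (2 * Real.pi * b k)) * s = Real.cos (2 * Real.pi * (b k + s)) -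
        Real.cos (2 * Real.pi * b k) + 2 * Real.pi * Real.sin (2 * Real.pi * b k) * s := by ring
    rw [e0]
    refine this.trans ?_
    have hpi := Real.pi_pos
    gcongr
  have hr := hV.recur k s (hs.trans hh)
  have hr0 := hV.recur k 0 (by rw [abs_zero]; exact hh0.trans hh)
  rw [mul_zero, add_zero] at hr0
  have hcos : (Real.cos (2 * Real.pi * (b k + s)) : ℂ) = c + d * s + q := by
    rw [hq]; push_cast; ring
  have hid : Rem e b V a0 (k + 1) (2 * s) = (1 - 2 * c * W) * R - c * δ ^ 2 - 2 * W * d * s * δ -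
      d * s * δ ^ 2 + q * (e - V k s ^ 2) := by
    have hr0' : V (k + 1) 0 = W + (c : ℂ) * (e - W ^ 2) := by
      rw [hr0, hc, cc]
    rw [Rem, hr, hr0', slope, ← hA, ← hW, ← hc, ← hd, hcos, hVs]
    have : R = δ - A * s := by rw [hδ]; ring
    rw [this]
    push_cast
    ring
  set l := a + B * h / 2 with hl
  have hl0 : 0 ≤ l := by positivity
  have hRb : ‖R‖ ≤ B * s ^ 2 / 2 := hR s hs
  have hδb : ‖δ‖ ≤ l * |s| := by
    calc ‖δ‖ ≤ ‖A * s‖ + ‖R‖ := norm_add_le _ _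
      _ ≤ a * |s| + B * s ^ 2 / 2 := by
          rw [norm_mul, Complex.norm_real, Real.norm_eq_abs]
          gcongr
      _ = a * |s| + B * (|s| * |s|) / 2 := by rw [← hs2]; ring
      _ ≤ a * |s| + B * (h * |s|) / 2 := by gcongr
      _ = l * |s| := by rw [hl]; ring
  have hδh : ‖δ‖ ≤ l * h := hδb.trans (by gcongr)
  have hEV : ‖e - V k s ^ 2‖ ≤ E + 2 * w * l * h + l ^ 2 * h ^ 2 := by
    have : e - V k s ^ 2 = (e - W ^ 2) - 2 * W * δ - δ ^ 2 := by rw [hVs]; ring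
    rw [this]
    calc ‖(e - W ^ 2) - 2 * W * δ - δ ^ 2‖ ≤ ‖e - W ^ 2‖ + ‖2 * W * δ‖ + ‖δ ^ 2‖ :=
          (norm_sub_le _ _).trans (by gcongr; exact norm_sub_le _ _)
      _ = ‖e - W ^ 2‖ + 2 * ‖W‖ * ‖δ‖ + ‖δ‖ ^ 2 := by
          rw [norm_mul, norm_mul, norm_pow]; norm_num
      _ ≤ E + 2 * w * (l * h) + (l * h) ^ 2 := by gcongr
      _ = _ := by ring
  have n1 : ‖(1 - 2 * c * W) * R‖ ≤ F * (B * s ^ 2 / 2) := by
    rw [norm_mul]; gcongr
  have n2 : ‖(c : ℂ) * δ ^ 2‖ ≤ |c| * (l ^ 2 * s ^ 2) := by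
    rw [norm_mul, norm_pow, Complex.norm_real, Real.norm_eq_abs]
    calc |c| * ‖δ‖ ^ 2 ≤ |c| * (l * |s|) ^ 2 := by gcongr
      _ = |c| * (l ^ 2 * s ^ 2) := by rw [mul_pow, hs2]
  have n3 : ‖2 * W * d * s * δ‖ ≤ 2 * w * |d| * (l * s ^ 2) := by
    rw [norm_mul, norm_mul, norm_mul, norm_mul, Complex.norm_real, Complex.norm_real, Real.norm_eq_abs,
      Real.norm_eq_abs, Complex.norm_ofNat]
    calc 2 * ‖W‖ * |d| * |s| * ‖δ‖ ≤ 2 * w * |d| * |s| * (l * |s|) := by gcongr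
      _ = 2 * w * |d| * (l * s ^ 2) := by rw [← hs2]; ring
  have n4 : ‖(d : ℂ) * s * δ ^ 2‖ ≤ |d| * h * (l ^ 2 * s ^ 2) := by
    rw [norm_mul, norm_mul, norm_pow, Complex.norm_real, Complex.norm_real, Real.norm_eq_abs,
      Real.norm_eq_abs]
    calc |d| * |s| * ‖δ‖ ^ 2 ≤ |d| * h * (l * |s|) ^ 2 := by gcongr
      _ = |d| * h * (l ^ 2 * s ^ 2) := by rw [mul_pow, hs2]
  have n5 : ‖(q : ℂ) * (e - V k s ^ 2)‖ ≤ 2 * Real.pi ^ 2 * s ^ 2 * (|c| + 21 / 10 * h) *
      (E + 2 * w * l * h + l ^ 2 * h ^ 2) := by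
    rw [norm_mul, Complex.norm_real, Real.norm_eq_abs]
    gcongr
  rw [hid]
  calc ‖(1 - 2 * c * W) * R - c * δ ^ 2 - 2 * W * d * s * δ - d * s * δ ^ 2 + q * (e - V k s ^ 2)‖
      ≤ ‖(1 - 2 * c * W) * R‖ + ‖(c : ℂ) * δ ^ 2‖ + ‖2 * W * d * s * δ‖ + ‖(d : ℂ) * s * δ ^ 2‖ +
        ‖(q : ℂ) * (e - V k s ^ 2)‖ := by
        refine (norm_add_le _ _).trans ?_
        gcongr
        refine (norm_sub_le _ _).trans ?_
        gcongr
        refine (norm_sub_le _ _).trans ?_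
        gcongr
        exact norm_sub_le _ _
    _ ≤ F * (B * s ^ 2 / 2) + |c| * (l ^ 2 * s ^ 2) + 2 * w * |d| * (l * s ^ 2) +
        |d| * h * (l ^ 2 * s ^ 2) + 2 * Real.pi ^ 2 * s ^ 2 * (|c| + 21 / 10 * h) *
          (E + 2 * w * l * h + l ^ 2 * h ^ 2) := by
        gcongr
    _ = nextC c d F w E l h B * (2 * s) ^ 2 / 2 := by
        unfold nextC; ring

/-- **Bootstrapping**: the second order bound reaches every strict super-solution. -/
theorem RFam.boot3 (hV : RFam e b ρ V) {k₀ : ℕ} {abar wbar F Ebar κ τ : ℕ → ℝ} {τmin τmax θ κmin : ℝ}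
    (hτ : 0 < τmin) (hτmin : ∀ k ≥ k₀, τmin ≤ τ k) (hτmax : ∀ k ≥ k₀, τ k ≤ τmax)
    (hτ2 : ∀ k ≥ k₀, τ (k + 1) ≤ 2 * τ k)
    (hθ0 : 0 ≤ θ) (hθ1 : θ < 1) (hρ : τmax ≤ ρ * 2 ^ k₀)
    (ha : ∀ k ≥ k₀, ‖slope e b V a0 k‖ ≤ abar k) (hw : ∀ k ≥ k₀, ‖V k 0‖ ≤ wbar k)
    (hF : ∀ k ≥ k₀, ‖1 - 2 * cc b k * V k 0‖ ≤ F k) (hE : ∀ k ≥ k₀, ‖e - V k 0 ^ 2‖ ≤ Ebar k)
    (hκ0 : 0 < κmin) (hκ : ∀ k ≥ k₀, κmin ≤ κ k)
    (hsup : ∀ k ≥ k₀, nextC (cc b k) (dd b k) (F k) (wbar k) (Ebar k) (abar k + κ k * τ k / 2) (τ k) (κ k) ≤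
      θ * κ (k + 1))
    (h0 : ∃ B h, 0 ≤ B ∧ 0 < h ∧ ∀ s, |s| ≤ h → ‖Rem e b V a0 0 s‖ ≤ B * s ^ 2 / 2) :
    ∃ k₁ ≥ k₀, ∀ k ≥ k₁, ∀ s, |s| ≤ τ k → ‖Rem e b V a0 k s‖ ≤ κ k * s ^ 2 / 2 := by
  have hρ0 := hV.pos
  -- the step in ratio form
  have hstep : ∀ k ≥ k₀, ∀ r h, 1 ≤ r → 0 < h → r * h ≤ τ k →
      (∀ s, |s| ≤ h → ‖Rem e b V a0 k s‖ ≤ r * κ k * s ^ 2 / 2) →
      ∀ s, |s| ≤ 2 * h → ‖Rem e b V a0 (k + 1) s‖ ≤ (θ * r) * κ (k + 1) * s ^ 2 / 2 := by
    intro k hk r h hr hh hrh hR s hs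
    have hκk := hκ k hk
    have hκk0 : 0 < κ k := by linarith
    have ha0 : 0 ≤ abar k := (norm_nonneg _).trans (ha k hk)
    have hw0 : 0 ≤ wbar k := (norm_nonneg _).trans (hw k hk)
    have hF0 : 0 ≤ F k := (norm_nonneg _).trans (hF k hk)
    have hE0 : 0 ≤ Ebar k := (norm_nonneg _).trans (hE k hk)
    have hτk := hτmin k hk
    have hτk0 : 0 < τ k := by linarith
    have hhτ : h ≤ τ k := by nlinarith
    have hhρ : h ≤ ρ * 2 ^ k := by
      refine hhτ.trans ((hτmax k hk).trans (hρ.trans ?_))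
      gcongr
      · norm_num
    have h1 := hV.step3 (B := r * κ k) (by positivity) (ha k hk) (hw k hk) (hF k hk) (hE k hk) hhρ hR s hs
    refine h1.trans ?_
    have h2 : nextC (cc b k) (dd b k) (F k) (wbar k) (Ebar k) (abar k + r * κ k * h / 2) h (r * κ k) ≤
        nextC (cc b k) (dd b k) (F k) (wbar k) (Ebar k) (abar k + κ k * τ k / 2) (τ k) (r * κ k) := by
      apply nextC_mono hF0 hw0 hE0 (by positivity) hh.le _ hhτ le_rfl
      nlinarith
    have h3 : nextC (cc b k) (dd b k) (F k) (wbar k) (Ebar k) (abar k + κ k * τ k / 2) (τ k) (r * κ k) =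
        nextC (cc b k) (dd b k) (F k) (wbar k) (Ebar k) (abar k + κ k * τ k / 2) (τ k) (κ k) +
          (r - 1) * (F k * κ k / 4) := by
      unfold nextC; ring
    have h4 : F k * κ k / 4 ≤ nextC (cc b k) (dd b k) (F k) (wbar k) (Ebar k) (abar k + κ k * τ k / 2) (τ k) (κ k) := by
      unfold nextC
      have : 0 ≤ |cc b k| * (abar k + κ k * τ k / 2) ^ 2 / 2 + wbar k * |dd b k| * (abar k + κ k * τ k / 2) +
        |dd b k| * τ k * (abar k + κ k * τ k / 2) ^ 2 / 2 +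
        Real.pi ^ 2 * (|cc b k| + 21 / 10 * τ k) * (Ebar k + 2 * wbar k * (abar k + κ k * τ k / 2) * τ k + (abar k + κ k * τ k / 2) ^ 2 * τ k ^ 2) := by
        positivity
      linarith
    have h5 := hsup k hk
    have h6 : (r - 1) * (F k * κ k / 4) ≤ (r - 1) * (θ * κ (k + 1)) :=
      mul_le_mul_of_nonneg_left (h4.trans h5) (by linarith)
    have h7 : nextC (cc b k) (dd b k) (F k) (wbar k) (Ebar k) (abar k + r * κ k * h / 2) h (r * κ k) ≤
        θ * r * κ (k + 1) := by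
      refine h2.trans (h3.le.trans ?_)
      linarith
    have h8 : 0 ≤ s ^ 2 := sq_nonneg s
    have h9 := mul_le_mul_of_nonneg_right h7 h8
    linarith
  -- start
  obtain ⟨B, h, hB, hh, hR⟩ := hV.exists_C11 (a0 := a0) h0 k₀
  set r₀ : ℝ := max 1 (B / κmin) with hr₀
  have hr1 : 1 ≤ r₀ := le_max_left _ _
  have hrB : B ≤ r₀ * κmin := by
    have : B / κmin ≤ r₀ := le_max_right _ _
    rwa [div_le_iff₀ hκ0] at this
  -- first phase
  have hph1 : ∀ n : ℕ, ∃ h, 0 < h ∧ max 1 (θ ^ n * r₀) * h ≤ τmin ∧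
      ∀ s, |s| ≤ h → ‖Rem e b V a0 (k₀ + n) s‖ ≤ max 1 (θ ^ n * r₀) * κ (k₀ + n) * s ^ 2 / 2 := by
    intro n
    induction n with
    | zero =>
      refine ⟨min h (τmin / r₀), lt_min hh (by positivity), ?_, ?_⟩
      · rw [pow_zero, one_mul, max_eq_right hr1]
        have : min h (τmin / r₀) ≤ τmin / r₀ := min_le_right _ _
        rw [le_div_iff₀ (by linarith)] at this
        linarith
      · intro s hs
        rw [pow_zero, one_mul, max_eq_right hr1, add_zero]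
        refine (hR s (hs.trans (min_le_left _ _))).trans ?_
        have h1 : B ≤ r₀ * κ k₀ := hrB.trans (by gcongr; exact hκ k₀ le_rfl)
        have := mul_le_mul_of_nonneg_right h1 (sq_nonneg s)
        linarith
    | succ n ih =>
      obtain ⟨h, hh, hrh, hR⟩ := ih
      have h1 := hstep (k₀ + n) (by omega) _ h (le_max_left _ _) hh (hrh.trans (hτmin _ (by omega))) hR
      have hle : θ * max 1 (θ ^ n * r₀) ≤ max 1 (θ ^ (n + 1) * r₀) := by
        rw [mul_max_of_nonneg _ _ hθ0]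
        apply max_le_max (by linarith) (le_of_eq (by ring))
      have hle2 : max 1 (θ ^ (n + 1) * r₀) ≤ max 1 (θ ^ n * r₀) := by
        apply max_le_max le_rfl
        have : 0 ≤ θ ^ n * r₀ := by positivity
        rw [pow_succ]
        nlinarith
      refine ⟨h, hh, ?_, ?_⟩
      · calc _ ≤ max 1 (θ ^ n * r₀) * h := by gcongr
          _ ≤ τmin := hrh
      · intro s hs
        have h2 := h1 s (by linarith)
        rw [← add_assoc]
        refine h2.trans ?_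
        have hκn := hκ (k₀ + n + 1) (by omega)
        have h3 : θ * max 1 (θ ^ n * r₀) * κ (k₀ + n + 1) ≤ max 1 (θ ^ (n + 1) * r₀) * κ (k₀ + n + 1) := by
          apply mul_le_mul_of_nonneg_right hle; linarith
        have := mul_le_mul_of_nonneg_right h3 (sq_nonneg s)
        linarith
  obtain ⟨n, hn⟩ : ∃ n : ℕ, θ ^ n * r₀ ≤ 1 := by
    have ht : Tendsto (fun n : ℕ => θ ^ n * r₀) atTop (𝓝 (0 * r₀)) :=
      (tendsto_pow_atTop_nhds_zero_of_lt_one hθ0 hθ1).mul_const r₀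
    rw [zero_mul] at ht
    exact ((ht.eventually (Iic_mem_nhds (show (0:ℝ) < 1 by norm_num)))).exists
  obtain ⟨h₁, hh₁, hrh₁, hR₁⟩ := hph1 n
  rw [max_eq_left hn] at hrh₁ hR₁
  -- second phase
  have hh₁τ : ∀ k ≥ k₀, h₁ ≤ τ k := fun k hk => by
    have := hτmin k hk
    linarith
  have hph2 : ∀ m : ℕ, ∀ s, |s| ≤ min (2 ^ m * h₁) (τ (k₀ + n + m)) →
      ‖Rem e b V a0 (k₀ + n + m) s‖ ≤ 1 * κ (k₀ + n + m) * s ^ 2 / 2 := by
    intro m
    induction m with
    | zero =>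
      intro s hs
      apply hR₁
      rw [pow_zero, one_mul] at hs
      exact hs.trans (min_le_left _ _)
    | succ m ih =>
      intro s hs
      have hτm := hτmin (k₀ + n + m) (by omega)
      have h1 := hstep (k₀ + n + m) (by omega) 1 (min (2 ^ m * h₁) (τ (k₀ + n + m))) le_rfl
        (lt_min (by positivity) (by linarith))
        (by rw [one_mul]; exact min_le_right _ _) ih s ?_
      · rw [← add_assoc]
        refine h1.trans ?_
        have hκn := hκ (k₀ + n + m + 1) (by omega)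
        have h3 : θ * 1 * κ (k₀ + n + m + 1) ≤ 1 * κ (k₀ + n + m + 1) := by
          apply mul_le_mul_of_nonneg_right _ (by linarith); linarith
        have := mul_le_mul_of_nonneg_right h3 (sq_nonneg s)
        linarith
      · refine hs.trans ?_
        rw [mul_min_of_nonneg _ _ (by norm_num : (0:ℝ) ≤ 2)]
        apply min_le_min
        · rw [pow_succ]; linarith
        · rw [← add_assoc]
          exact hτ2 _ (by omega)
  obtain ⟨m₀, hm₀⟩ : ∃ m : ℕ, τmax ≤ 2 ^ m * h₁ := by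
    obtain ⟨m, hm⟩ := pow_unbounded_of_one_lt (τmax / h₁) (by norm_num : (1:ℝ) < 2)
    refine ⟨m, ?_⟩
    rw [div_lt_iff₀ hh₁] at hm
    exact hm.le
  refine ⟨k₀ + n + m₀, by omega, fun k hk s hs => ?_⟩
  obtain ⟨m, rfl⟩ := Nat.exists_eq_add_of_le hk
  have h1 := hph2 (m₀ + m) s (by
    rw [← add_assoc]
    refine hs.trans (le_min ?_ le_rfl)
    refine (hτmax _ (by omega)).trans (hm₀.trans ?_)
    gcongr
    · norm_num
    · omega)
  rw [← add_assoc, one_mul] at h1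
  exact h1

end Pool.Agent.W_MP_4481e3_an.Boot
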