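import Pool.Agent.W_4481e3_q59.BootD

/-!
Bootstrapping of the second order bound over blocks of `L` steps, with the actual states inside the
block.
-/

open Filter Topology Set

namespace Pool.Agent.W_MP_4481e3_an.Boot

/-- composition of the one step maps `nextC`, window `2 ^ j * h` after `j` steps -/
noncomputable def compC (c d F w E a : ℕ → ℝ) (h B : ℝ) : ℕ → ℝ
  | 0 => B
  | j + 1 => nextC (c j) (d j) (F j) (w j) (E j) (a j + compC c d F w E a h B j * (2 ^ j * h) / 2) (2 ^ j * h)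
      (compC c d F w E a h B j)

variable {c d F w E a : ℕ → ℝ}

lemma nextC_nonneg {c d F w E l h B : ℝ} (hF : 0 ≤ F) (hw : 0 ≤ w) (hE : 0 ≤ E) (hl : 0 ≤ l) (hh : 0 ≤ h)
    (hB : 0 ≤ B) : 0 ≤ nextC c d F w E l h B := by
  unfold nextC; positivity

lemma compC_nonneg (hF : ∀ j, 0 ≤ F j) (hw : ∀ j, 0 ≤ w j) (hE : ∀ j, 0 ≤ E j) (ha : ∀ j, 0 ≤ a j)
    {h B : ℝ} (hh : 0 ≤ h) (hB : 0 ≤ B) : ∀ j, 0 ≤ compC c d F w E a h B j
  | 0 => hB
  | j + 1 => by
    have ih := compC_nonneg hF hw hE ha hh hB j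
    have := ha j
    exact nextC_nonneg (hF j) (hw j) (hE j) (by positivity) (by positivity) ih

lemma compC_mono (hF : ∀ j, 0 ≤ F j) (hw : ∀ j, 0 ≤ w j) (hE : ∀ j, 0 ≤ E j) (ha : ∀ j, 0 ≤ a j)
    {h B h' B' : ℝ} (hh : 0 ≤ h) (hB : 0 ≤ B) (hhh : h ≤ h') (hBB : B ≤ B') :
    ∀ j, compC c d F w E a h B j ≤ compC c d F w E a h' B' j
  | 0 => hBB
  | j + 1 => by
    have ih := compC_mono hF hw hE ha hh hB hhh hBB j
    have h0 := compC_nonneg (c := c) (d := d) hF hw hE ha hh hB j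
    have := ha j
    have h0' := h0.trans ih
    have hh' := hh.trans hhh
    exact nextC_mono (hF j) (hw j) (hE j) (by positivity) (by positivity) (by gcongr) (by gcongr) ih

lemma nextC_scale {c d F w E l h B M : ℝ} (hF : 0 ≤ F) (hw : 0 ≤ w) (hE : 0 ≤ E) (hl : 0 ≤ l) (hh : 0 ≤ h)
    (hM : 1 ≤ M) : nextC c d F w E l (h / M) (M * B) ≤ M * nextC c d F w E l h B := by
  have hM0 : 0 < M := by linarith
  have h1 : h / M ≤ h := div_le_self hh hM
  have h2 : nextC c d F w E l (h / M) (M * B) ≤ nextC c d F w E l h (M * B) :=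
    nextC_mono hF hw hE hl (by positivity) le_rfl h1 le_rfl
  refine h2.trans ?_
  unfold nextC
  have h3 : 0 ≤ |c| * l ^ 2 / 2 + w * |d| * l + |d| * h * l ^ 2 / 2 +
    Real.pi ^ 2 * (|c| + 21 / 10 * h) * (E + 2 * w * l * h + l ^ 2 * h ^ 2) := by positivity
  have h4 := mul_le_mul_of_nonneg_right hM h3
  linarith

/-- scaling -/
lemma compC_scale (hF : ∀ j, 0 ≤ F j) (hw : ∀ j, 0 ≤ w j) (hE : ∀ j, 0 ≤ E j) (ha : ∀ j, 0 ≤ a j)
    {h B M : ℝ} (hh : 0 ≤ h) (hB : 0 ≤ B) (hM : 1 ≤ M) :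
    ∀ j, compC c d F w E a (h / M) (M * B) j ≤ M * compC c d F w E a h B j
  | 0 => le_rfl
  | j + 1 => by
    have hM0 : 0 < M := by linarith
    have ih := compC_scale hF hw hE ha hh hB hM j
    have h0 := compC_nonneg (c := c) (d := d) hF hw hE ha hh hB j
    have h0' := compC_nonneg (c := c) (d := d) (h := h / M) (B := M * B) hF hw hE ha (by positivity)
      (by positivity) j
    have haj := ha j
    set x := compC c d F w E a h B j with hx
    set y := compC c d F w E a (h / M) (M * B) j with hy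
    show nextC (c j) (d j) (F j) (w j) (E j) (a j + y * (2 ^ j * (h / M)) / 2) (2 ^ j * (h / M)) y ≤
      M * nextC (c j) (d j) (F j) (w j) (E j) (a j + x * (2 ^ j * h) / 2) (2 ^ j * h) x
    have e1 : (2:ℝ) ^ j * (h / M) = 2 ^ j * h / M := by ring
    rw [e1]
    have h1 : nextC (c j) (d j) (F j) (w j) (E j) (a j + y * (2 ^ j * h / M) / 2) (2 ^ j * h / M) y ≤
        nextC (c j) (d j) (F j) (w j) (E j) (a j + x * (2 ^ j * h) / 2) (2 ^ j * h / M) (M * x) := by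
      refine nextC_mono (hF j) (hw j) (hE j) (by positivity) (by positivity) ?_ le_rfl ih
      have h2 : y * (2 ^ j * h / M) ≤ M * x * (2 ^ j * h / M) := by gcongr
      have h3 : M * x * (2 ^ j * h / M) = x * (2 ^ j * h) := by field_simp
      linarith
    exact h1.trans (nextC_scale (hF j) (hw j) (hE j) (by positivity) (by positivity) hM)

variable {e : ℂ} {b : ℕ → ℝ} {ρ : ℝ} {V : ℕ → ℝ → ℂ} {a0 : ℂ}

/-- the composed map along the orbit of the centre starting at time `k` -/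
noncomputable def compK (e : ℂ) (b : ℕ → ℝ) (V : ℕ → ℝ → ℂ) (a0 : ℂ) (k : ℕ) (h B : ℝ) (j : ℕ) : ℝ :=
  compC (fun j => cc b (k + j)) (fun j => dd b (k + j)) (fun j => ‖1 - 2 * cc b (k + j) * V (k + j) 0‖)
    (fun j => ‖V (k + j) 0‖) (fun j => ‖e - V (k + j) 0 ^ 2‖) (fun j => ‖slope e b V a0 (k + j)‖) h B j

/-- the second order bound after `j` steps -/
theorem RFam.stepC (hV : RFam e b ρ V) {k : ℕ} {B h : ℝ} (hB : 0 ≤ B) (hh0 : 0 ≤ h) (hh : h ≤ ρ * 2 ^ k)
    (hR : ∀ s, |s| ≤ h → ‖Rem e b V a0 k s‖ ≤ B * s ^ 2 / 2) :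
    ∀ j, ∀ s, |s| ≤ 2 ^ j * h → ‖Rem e b V a0 (k + j) s‖ ≤ compK e b V a0 k h B j * s ^ 2 / 2
  | 0 => by simpa [compK, compC] using hR
  | j + 1 => by
    have ih := RFam.stepC hV hB hh0 hh hR j
    have h0 : 0 ≤ compK e b V a0 k h B j :=
      compC_nonneg (fun _ => norm_nonneg _) (fun _ => norm_nonneg _) (fun _ => norm_nonneg _)
        (fun _ => norm_nonneg _) hh0 hB j
    intro s hs
    have hw : 2 ^ j * h ≤ ρ * 2 ^ (k + j) := by
      rw [pow_add]
      calc 2 ^ j * h ≤ 2 ^ j * (ρ * 2 ^ k) := by gcongr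
        _ = _ := by ring
    have := hV.step3 (k := k + j) (a0 := a0) h0 le_rfl le_rfl le_rfl le_rfl hw ih s
      (by rw [pow_succ] at hs; linarith)
    exact this

/-- **Block bootstrapping.** -/
theorem RFam.boot_block (hV : RFam e b ρ V) {k₀ L : ℕ} {κ τ θ : ℝ} (hτ : 0 < τ) (hκ : 0 < κ)
    (hL : 0 < L) (hθ0 : 0 ≤ θ) (hθ1 : θ < 1) (hρ : τ ≤ ρ * 2 ^ k₀)
    (hsup : ∀ i, compK e b V a0 (k₀ + L * i) (τ / 2 ^ L) κ L ≤ θ * κ)
    (h0 : ∃ B h, 0 ≤ B ∧ 0 < h ∧ ∀ s, |s| ≤ h → ‖Rem e b V a0 0 s‖ ≤ B * s ^ 2 / 2) :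
    ∃ i₁, ∀ i ≥ i₁, ∀ s, |s| ≤ τ → ‖Rem e b V a0 (k₀ + L * i) s‖ ≤ κ * s ^ 2 / 2 := by
  have hρ0 := hV.pos
  have h2L : (1:ℝ) ≤ 2 ^ L := one_le_pow₀ (by norm_num)
  have h2L' : (2:ℝ) ≤ 2 ^ L := by
    calc (2:ℝ) = 2 ^ 1 := by norm_num
      _ ≤ 2 ^ L := pow_le_pow_right₀ (by norm_num) hL
  have h2L0 : (0:ℝ) < 2 ^ L := by positivity
  -- the step in ratio form
  have hstep : ∀ i, ∀ r h h', 1 ≤ r → 0 < h' → h' ≤ h → r * (2 ^ L * h') ≤ τ →
      (∀ s, |s| ≤ h → ‖Rem e b V a0 (k₀ + L * i) s‖ ≤ r * κ * s ^ 2 / 2) →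
      ∀ s, |s| ≤ 2 ^ L * h' → ‖Rem e b V a0 (k₀ + L * (i + 1)) s‖ ≤ (θ * r) * κ * s ^ 2 / 2 := by
    intro i r h h' hr hh' hhh hrh hR s hs
    have hr0 : 0 < r := by linarith
    have h2 : h' ≤ τ := by
      have h3 : h' ≤ 2 ^ L * h' := by nlinarith
      have h4 : 2 ^ L * h' ≤ r * (2 ^ L * h') := by nlinarith
      linarith
    have hwin : h' ≤ ρ * 2 ^ (k₀ + L * i) := by
      refine h2.trans (hρ.trans ?_)
      gcongr
      · norm_num
      · omega
    have h5 := hV.stepC (a0 := a0) (k := k₀ + L * i) (B := r * κ) (h := h') (by positivity) hh'.le hwin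
      (fun s hs => hR s (hs.trans hhh)) L s hs
    have e1 : k₀ + L * i + L = k₀ + L * (i + 1) := by ring
    rw [e1] at h5
    refine h5.trans ?_
    have h6 : compK e b V a0 (k₀ + L * i) h' (r * κ) L ≤
        compK e b V a0 (k₀ + L * i) (τ / 2 ^ L / r) (r * κ) L := by
      refine compC_mono (fun _ => norm_nonneg _) (fun _ => norm_nonneg _) (fun _ => norm_nonneg _)
        (fun _ => norm_nonneg _) hh'.le (by positivity) ?_ le_rfl L
      rw [le_div_iff₀ hr0, le_div_iff₀ h2L0]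
      linarith
    have h7 : compK e b V a0 (k₀ + L * i) (τ / 2 ^ L / r) (r * κ) L ≤
        r * compK e b V a0 (k₀ + L * i) (τ / 2 ^ L) κ L :=
      compC_scale (fun _ => norm_nonneg _) (fun _ => norm_nonneg _) (fun _ => norm_nonneg _)
        (fun _ => norm_nonneg _) (by positivity) hκ.le hr L
    have h8 := mul_le_mul_of_nonneg_left (hsup i) hr0.le
    have h9 : compK e b V a0 (k₀ + L * i) h' (r * κ) L ≤ θ * r * κ := by linarith
    have h10 := mul_le_mul_of_nonneg_right h9 (sq_nonneg s)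
    linarith
  -- start
  obtain ⟨B, h, hB, hh, hR⟩ := hV.exists_C11 (a0 := a0) h0 k₀
  set r₀ : ℝ := max 1 (B / κ) with hr₀
  have hr1 : 1 ≤ r₀ := le_max_left _ _
  have hrB : B ≤ r₀ * κ := by
    have : B / κ ≤ r₀ := le_max_right _ _
    rwa [div_le_iff₀ hκ] at this
  -- first phase
  have hph1 : ∀ n : ℕ, ∃ h, 0 < h ∧ max 1 (θ ^ n * r₀) * h ≤ τ ∧
      ∀ s, |s| ≤ h → ‖Rem e b V a0 (k₀ + L * n) s‖ ≤ max 1 (θ ^ n * r₀) * κ * s ^ 2 / 2 := by
    intro n
    induction n with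
    | zero =>
      refine ⟨min h (τ / r₀), lt_min hh (by positivity), ?_, ?_⟩
      · rw [pow_zero, one_mul, max_eq_right hr1]
        have : min h (τ / r₀) ≤ τ / r₀ := min_le_right _ _
        rw [le_div_iff₀ (by linarith)] at this
        linarith
      · intro s hs
        rw [pow_zero, one_mul, max_eq_right hr1, mul_zero, add_zero]
        refine (hR s (hs.trans (min_le_left _ _))).trans ?_
        have := mul_le_mul_of_nonneg_right hrB (sq_nonneg s)
        linarith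
    | succ n ih =>
      obtain ⟨h, hh, hrh, hR⟩ := ih
      have h1 := hstep n _ h (h / 2 ^ L) (le_max_left _ _) (by positivity)
        (div_le_self hh.le h2L) (by rw [mul_div_cancel₀ _ h2L0.ne']; exact hrh) hR
      have hle : θ * max 1 (θ ^ n * r₀) ≤ max 1 (θ ^ (n + 1) * r₀) := by
        rw [mul_max_of_nonneg _ _ hθ0]
        apply max_le_max (by linarith) (le_of_eq (by ring))
      have hle2 : max 1 (θ ^ (n + 1) * r₀) ≤ max 1 (θ ^ n * r₀) := by
        apply max_le_max le_rfl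
        have : 0 ≤ θ ^ n * r₀ := by positivity
        rw [pow_succ]
        nlinarith
      refine ⟨h, hh, ?_, ?_⟩
      · calc _ ≤ max 1 (θ ^ n * r₀) * h := by gcongr
          _ ≤ τ := hrh
      · intro s hs
        have h2 := h1 s (by rw [mul_div_cancel₀ _ h2L0.ne']; exact hs)
        refine h2.trans ?_
        have h3 : θ * max 1 (θ ^ n * r₀) * κ ≤ max 1 (θ ^ (n + 1) * r₀) * κ :=
          mul_le_mul_of_nonneg_right hle hκ.le
        have := mul_le_mul_of_nonneg_right h3 (sq_nonneg s)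
        linarith
  obtain ⟨n, hn⟩ : ∃ n : ℕ, θ ^ n * r₀ ≤ 1 := by
    have ht : Tendsto (fun n : ℕ => θ ^ n * r₀) atTop (𝓝 (0 * r₀)) :=
      (tendsto_pow_atTop_nhds_zero_of_lt_one hθ0 hθ1).mul_const r₀
    rw [zero_mul] at ht
    exact ((ht.eventually (Iic_mem_nhds (show (0:ℝ) < 1 by norm_num)))).exists
  obtain ⟨h₁, hh₁, hrh₁, hR₁⟩ := hph1 n
  rw [max_eq_left hn] at hrh₁ hR₁
  rw [one_mul] at hrh₁
  -- second phase
  have hph2 : ∀ m : ℕ, ∀ s, |s| ≤ min (2 ^ m * h₁) τ →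
      ‖Rem e b V a0 (k₀ + L * (n + m)) s‖ ≤ 1 * κ * s ^ 2 / 2 := by
    intro m
    induction m with
    | zero =>
      intro s hs
      apply hR₁
      rw [pow_zero, one_mul] at hs
      exact hs.trans (min_le_left _ _)
    | succ m ih =>
      intro s hs
      have hpos : 0 < min (2 ^ m * h₁) τ := lt_min (by positivity) hτ
      have h1 := hstep (n + m) 1 (min (2 ^ m * h₁) τ) (min (2 ^ m * h₁) (τ / 2 ^ L)) le_rfl
        (lt_min (by positivity) (by positivity))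
        (min_le_min le_rfl (div_le_self hτ.le h2L))
        (by
          rw [one_mul]
          calc 2 ^ L * min (2 ^ m * h₁) (τ / 2 ^ L) ≤ 2 ^ L * (τ / 2 ^ L) := by
                gcongr; exact min_le_right _ _
            _ = τ := mul_div_cancel₀ _ h2L0.ne') ih s ?_
      · rw [← add_assoc]
        refine h1.trans ?_
        have h3 : θ * 1 * κ ≤ 1 * κ := by
          apply mul_le_mul_of_nonneg_right _ hκ.le; linarith
        have := mul_le_mul_of_nonneg_right h3 (sq_nonneg s)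
        linarith
      · refine hs.trans ?_
        rw [mul_min_of_nonneg _ _ h2L0.le]
        apply min_le_min
        · rw [pow_succ]
          have : 0 < (2:ℝ) ^ m * h₁ := by positivity
          nlinarith
        · rw [mul_div_cancel₀ _ h2L0.ne']
  obtain ⟨m₀, hm₀⟩ : ∃ m : ℕ, τ ≤ 2 ^ m * h₁ := by
    obtain ⟨m, hm⟩ := pow_unbounded_of_one_lt (τ / h₁) (by norm_num : (1:ℝ) < 2)
    refine ⟨m, ?_⟩
    rw [div_lt_iff₀ hh₁] at hm
    exact hm.le
  refine ⟨n + m₀, fun i hi s hs => ?_⟩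
  obtain ⟨m, rfl⟩ := Nat.exists_eq_add_of_le hi
  have h1 := hph2 (m₀ + m) s (by
    refine hs.trans (le_min ?_ le_rfl)
    refine hm₀.trans ?_
    gcongr
    · norm_num
    · omega)
  rw [← add_assoc, one_mul] at h1
  exact h1

end Pool.Agent.W_MP_4481e3_an.Boot
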