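import Pool.Agent.W_4481e3_q59.Window

/-!
Choice of the window.
-/

open MeasureTheory Filter Topology Set

namespace Pool.Agent.W_MP_4481e3_an

lemma tendsto_ek : Tendsto ek atTop (𝓝 0) := by
  unfold ek
  apply Real.tendsto_exp_atBot.comp
  apply tendsto_neg_atTop_atBot.comp
  apply Tendsto.const_mul_atTop (by norm_num)
  exact tendsto_pow_atTop_atTop_of_one_lt (by norm_num)

/-- the closeness beats every exponential -/
lemma ek_small (K : ℕ) : ∀ᶠ K' : ℕ in atTop, ek (2 * K' - 5) ≤ Real.exp (-(6 * ((K + K' : ℕ) : ℝ))) := by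
  have h1 : Tendsto (fun n : ℕ => ((n:ℝ)) / (9 / 4 : ℝ) ^ n) atTop (𝓝 0) := by
    have := tendsto_pow_const_div_const_pow_of_one_lt 1 (show (1:ℝ) < 9 / 4 by norm_num)
    simpa using this
  have h2 : Tendsto (fun n : ℕ => ((K:ℝ)) / (9 / 4 : ℝ) ^ n) atTop (𝓝 0) :=
    tendsto_const_nhds.div_atTop (tendsto_pow_atTop_atTop_of_one_lt (by norm_num))
  have h3 := (h1.add h2).eventually (Iio_mem_nhds (show (0:ℝ) + 0 < 1 / 30 by norm_num))
  filter_upwards [h3, eventually_ge_atTop 3] with n hn hn3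
  unfold ek
  apply Real.exp_le_exp.2
  have hp : (0:ℝ) < (9 / 4) ^ n := by positivity
  have h4 : ((n:ℝ) + K) ≤ 1 / 30 * (9 / 4) ^ n := by
    have : ((n:ℝ) + K) / (9 / 4) ^ n ≤ 1 / 30 := by
      rw [add_div]; exact hn.le
    rwa [div_le_iff₀ hp] at this
  have h5 : (9 / 4 : ℝ) ^ n = (3 / 2) ^ (2 * n - 5) * (3 / 2) ^ 5 := by
    rw [← pow_add, show 2 * n - 5 + 5 = 2 * n by omega, pow_mul]; norm_num
  rw [h5] at h4
  have h6 : (0:ℝ) < (3 / 2) ^ (2 * n - 5) := by positivity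
  push_cast
  nlinarith

lemma one_sub_pow_le {m : ℕ} : (1 - 1 / 4 ^ m : ℝ) ^ (8 * m * 4 ^ m) ≤ Real.exp (-(8 * (m:ℝ))) := by
  have h4 : (1:ℝ) ≤ 4 ^ m := one_le_pow₀ (by norm_num)
  have h41 : (0:ℝ) ≤ 1 - 1 / 4 ^ m := by
    have : (1:ℝ) / 4 ^ m ≤ 1 := by rw [div_le_one (by positivity)]; exact h4
    linarith
  have h1 : (1 - 1 / 4 ^ m : ℝ) ≤ Real.exp (-(1 / 4 ^ m)) := by
    have := Real.add_one_le_exp (-(1 / 4 ^ m : ℝ))
    linarith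
  calc (1 - 1 / 4 ^ m : ℝ) ^ (8 * m * 4 ^ m) ≤ (Real.exp (-(1 / 4 ^ m))) ^ (8 * m * 4 ^ m) := by gcongr
    _ = Real.exp (-(8 * (m:ℝ))) := by
        rw [← Real.exp_nat_mul]
        congr 1
        push_cast
        field_simp

/-- **Choice of the window**: the probability that a window of length `T = 2 (K+K') μ` contains no ok
block is much smaller than `1/T`. -/
theorem exists_window (K : ℕ) {E C g : ℝ} (hE : 0 ≤ E) (hC : 0 ≤ C) (hg : 0 < g) :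
    ∃ K' μ : ℕ, 3 ≤ K' ∧ 0 < μ ∧ ∀ M : ℝ, 0 < M → ∃ k₁ : ℕ, M * ek k₁ ≤ 2 / 5 ∧
      volume (NoQ K K' M k₁ μ ∩ Ioc 0 1) ≤
        ENNReal.ofReal (g / (E * ((2 * (K + K') * μ : ℕ) : ℝ) + C + 1)) := by
  -- the limit
  have hlim : Tendsto (fun K' : ℕ => (16 * E + C + 1) * (Real.exp (-(4 * ((K + K' : ℕ) : ℝ))) +
      8 * (2 * K + 1) * 132 * Real.exp (-((K + K' : ℕ) : ℝ)))) atTop (𝓝 0) := by
    have h0 : Tendsto (fun K' : ℕ => ((K + K' : ℕ) : ℝ)) atTop atTop :=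
      tendsto_natCast_atTop_atTop.comp (tendsto_atTop_mono (fun n => Nat.le_add_left n K) tendsto_id)
    have h1 : Tendsto (fun K' : ℕ => Real.exp (-(4 * ((K + K' : ℕ) : ℝ)))) atTop (𝓝 0) :=
      Real.tendsto_exp_atBot.comp (tendsto_neg_atTop_atBot.comp (h0.const_mul_atTop (by norm_num)))
    have h2 : Tendsto (fun K' : ℕ => Real.exp (-((K + K' : ℕ) : ℝ))) atTop (𝓝 0) :=
      Real.tendsto_exp_atBot.comp (tendsto_neg_atTop_atBot.comp h0)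
    have h3 := ((h1.add (h2.const_mul (8 * (2 * (K:ℝ) + 1) * 132))).const_mul (16 * E + C + 1))
    simpa using h3
  have hev := hlim.eventually (Iio_mem_nhds (show (0:ℝ) < g / 2 by linarith))
  obtain ⟨K', h1, h2, h3⟩ := (hev.and ((ek_small K).and (eventually_ge_atTop 3))).exists
  set m := K + K' with hm
  have hm1 : 1 ≤ m := by omega
  have hmR : (1:ℝ) ≤ m := by exact_mod_cast hm1
  have h4 : (0:ℝ) < 4 ^ m := by positivity
  set μ := 8 * m * 4 ^ m with hμ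
  have hμR : (μ : ℝ) = 8 * m * 4 ^ m := by rw [hμ]; push_cast; ring
  set Λ : ℝ := E * ((2 * m * μ : ℕ) : ℝ) + C + 1 with hΛ
  have hΛ0 : 0 < Λ := by positivity
  refine ⟨K', μ, h3, by positivity, fun M hM => ?_⟩
  -- choice of `k₁`
  have hc : Tendsto (fun k => (μ * ((2 * (K:ℝ) + 1) * (33 / 4 ^ m * (2 * (M * ek k)))) * Λ)) atTop (𝓝 0) := by
    have := ((((tendsto_ek.const_mul M).const_mul 2).const_mul ((33:ℝ) / 4 ^ m)).const_mul
      (2 * (K:ℝ) + 1)).const_mul (μ:ℝ) |>.mul_const Λ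
    simpa using this
  have hc2 : Tendsto (fun k => M * ek k) atTop (𝓝 0) := by simpa using tendsto_ek.const_mul M
  obtain ⟨k₁, h5, h6⟩ := ((hc.eventually (Iio_mem_nhds (show (0:ℝ) < g / 2 by linarith))).and
    (hc2.eventually (Iio_mem_nhds (show (0:ℝ) < 2 / 5 by norm_num)))).exists
  refine ⟨k₁, h6.le, (vol_NoQ h3 hM.le h6.le μ).trans ?_⟩
  apply ENNReal.ofReal_le_ofReal
  rw [le_div_iff₀ hΛ0]
  have hek := (ek_pos (2 * K' - 5)).le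
  -- the first part
  have hΛle : Λ ≤ (16 * E + C + 1) * (m ^ 2 * 4 ^ m) := by
    have e1 : ((2 * m * μ : ℕ) : ℝ) = 16 * (m ^ 2 * 4 ^ m) := by
      push_cast; rw [hμR]; ring
    have e2 : (1:ℝ) ≤ m ^ 2 * 4 ^ m := by
      have a1 : (1:ℝ) ≤ m ^ 2 := one_le_pow₀ hmR
      have a2 : (1:ℝ) ≤ 4 ^ m := one_le_pow₀ (by norm_num)
      nlinarith
    rw [hΛ, e1]
    nlinarith [mul_nonneg hC (by linarith : (0:ℝ) ≤ m ^ 2 * 4 ^ m - 1)]
  have hexp1 : (m:ℝ) ≤ Real.exp m := by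
    have := Real.add_one_le_exp (m:ℝ); linarith
  have hexp4 : (4:ℝ) ^ m ≤ Real.exp (2 * m) := by
    have : (4:ℝ) ≤ Real.exp 2 := by
      have := Real.exp_one_gt_d9
      have h4 : Real.exp 2 = Real.exp 1 * Real.exp 1 := by rw [← Real.exp_add]; norm_num
      rw [h4]; nlinarith
    calc (4:ℝ) ^ m ≤ (Real.exp 2) ^ m := by gcongr
      _ = Real.exp (2 * m) := by rw [← Real.exp_nat_mul]; congr 1; ring
  have hA : (m:ℝ) ^ 2 * 4 ^ m * Real.exp (-(8 * (m:ℝ))) ≤ Real.exp (-(4 * (m:ℝ))) := by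
    calc (m:ℝ) ^ 2 * 4 ^ m * Real.exp (-(8 * (m:ℝ))) ≤
        (Real.exp m) ^ 2 * Real.exp (2 * m) * Real.exp (-(8 * (m:ℝ))) := by gcongr
      _ = Real.exp (-(4 * (m:ℝ))) := by
          rw [← Real.exp_nat_mul, ← Real.exp_add, ← Real.exp_add]; congr 1; push_cast; ring
  have hB : (m:ℝ) ^ 2 * 4 ^ m * (m * ek (2 * K' - 5)) ≤ Real.exp (-(m:ℝ)) := by
    calc (m:ℝ) ^ 2 * 4 ^ m * (m * ek (2 * K' - 5)) ≤
        (Real.exp m) ^ 2 * Real.exp (2 * m) * (Real.exp m * Real.exp (-(6 * (m:ℝ)))) := by gcongr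
      _ = Real.exp (-(m:ℝ)) := by
          rw [← Real.exp_nat_mul, ← Real.exp_add, ← Real.exp_add, ← Real.exp_add]
          congr 1; push_cast; ring
  have hfirst : ((1 - 1 / 4 ^ m : ℝ) ^ μ + μ * ((2 * K + 1) * (33 / 4 ^ m * (4 * ek (2 * K' - 5))))) * Λ ≤
      g / 2 := by
    have c1 : (1 - 1 / 4 ^ m : ℝ) ^ μ ≤ Real.exp (-(8 * (m:ℝ))) := one_sub_pow_le
    have c2 : (μ:ℝ) * ((2 * K + 1) * (33 / 4 ^ m * (4 * ek (2 * K' - 5)))) =
        8 * (2 * K + 1) * 132 * (m * ek (2 * K' - 5)) := by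
      rw [hμR]; field_simp; ring
    rw [c2]
    have hcoef : (0:ℝ) ≤ 16 * E + C + 1 := by positivity
    calc ((1 - 1 / 4 ^ m : ℝ) ^ μ + 8 * (2 * K + 1) * 132 * (m * ek (2 * K' - 5))) * Λ ≤
        (Real.exp (-(8 * (m:ℝ))) + 8 * (2 * K + 1) * 132 * (m * ek (2 * K' - 5))) *
          ((16 * E + C + 1) * (m ^ 2 * 4 ^ m)) := by gcongr
      _ = (16 * E + C + 1) * (m ^ 2 * 4 ^ m * Real.exp (-(8 * (m:ℝ))) +
          8 * (2 * K + 1) * 132 * (m ^ 2 * 4 ^ m * (m * ek (2 * K' - 5)))) := by ring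
      _ ≤ (16 * E + C + 1) * (Real.exp (-(4 * (m:ℝ))) + 8 * (2 * K + 1) * 132 * Real.exp (-(m:ℝ))) := by
          gcongr
      _ ≤ g / 2 := h1.le
  have h7 : ((1 - 1 / 4 ^ m : ℝ) ^ μ +
      μ * ((2 * K + 1) * (33 / 4 ^ m * (4 * ek (2 * K' - 5) + 2 * (M * ek k₁))))) * Λ =
      ((1 - 1 / 4 ^ m : ℝ) ^ μ + μ * ((2 * K + 1) * (33 / 4 ^ m * (4 * ek (2 * K' - 5))))) * Λ +
      μ * ((2 * (K:ℝ) + 1) * (33 / 4 ^ m * (2 * (M * ek k₁)))) * Λ := by ring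
  rw [h7]
  have h8 : (μ * ((2 * (K:ℝ) + 1) * (33 / 4 ^ m * (2 * (M * ek k₁)))) * Λ) < g / 2 := h5
  linarith

end Pool.Agent.W_MP_4481e3_an
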