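import Pool.Agent.W_4481e3_q59.AliveP
import Pool.Agent.W_4481e3_q59.BootC

/-!
Consumer of the kill certificate: selection of a time of nearly maximal weighted slope.
-/

open Filter Topology Set

namespace Pool.Agent.W_4481e3_q59

open Pool.Agent.W_4481e3_q42 Pool.Agent.W_4481e3_h1 Pool.Agent.W_MP_4481e3_an
open Pool.Agent.W_MP_4481e3_an.Boot (RFam slope Rem nextB)

/-- **Kill certificate** for the time `0` of phase `p0` with weighted slope exactly `A`, seen from the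
time `-n`; tests are allowed at the times `-n, ..., m - n`. -/
def KillAt (ε : ℂ) (m : ℕ) (Λ : ℝ) (κ τ : ℕ → ℝ → ℝ) (p0 : ℕ) (A : ℝ) (n : ℕ) : Prop :=
  ∀ (p : ℕ) (w a : ℂ), p < 4 → (p + n) % 4 = p0 → Alive ε (2 ^ p / 15) w →
    ‖aa (ε ^ 2) p w a n‖ = A * sig (p + n) →
    (∀ j ≤ m, ‖aa (ε ^ 2) p w a j‖ ≤ Λ * A * sig (p + j)) →
    ∃ j ≤ m, TestDead ε (p + j) (ww (ε ^ 2) p w j) (aa (ε ^ 2) p w a j) (κ (p + j) A) (τ (p + j) A)

lemma sig_pos (p : ℕ) : 0 < sig p := by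
  unfold sig; split_ifs <;> norm_num

lemma sig_le (p : ℕ) : sig p ≤ 2 := by
  unfold sig; split_ifs <;> norm_num

lemma sig_ge (p : ℕ) : 1 / 4 ≤ sig p := by
  unfold sig; split_ifs <;> norm_num

lemma sig_add_four (p : ℕ) : sig (p + 4) = sig p := by
  unfold sig; simp [Nat.add_mod_right]

lemma per_mod {β : Type*} {f : ℕ → β} (h : ∀ p, f (p + 4) = f p) (k j : ℕ) : f (k + j) = f (k % 4 + j) := by
  have key : ∀ q p, f (p + 4 * q) = f p := by
    intro q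
    induction q with
    | zero => intro p; simp
    | succ q ih =>
      intro p
      rw [show p + 4 * (q + 1) = (p + 4 * q) + 4 by ring, h, ih]
  have h1 : k + j = (k % 4 + j) + 4 * (k / 4) := by omega
  rw [h1, key]

lemma two_pow_add_four (p : ℕ) : (2:ℝ) ^ (p + 4) / 15 = 2 ^ p / 15 + ((2 ^ p : ℤ) : ℝ) := by
  push_cast; rw [pow_add]; norm_num; ring

lemma cc_add_four (p : ℕ) : cc (p + 4) = cc p := by
  unfold cc
  rw [two_pow_add_four]
  have : 2 * Real.pi * (2 ^ p / 15 + ((2 ^ p : ℤ) : ℝ)) = 2 * Real.pi * (2 ^ p / 15) +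
      ((2 ^ p : ℤ) : ℝ) * (2 * Real.pi) := by ring
  rw [this, Real.cos_add_int_mul_two_pi]

lemma dd_add_four (p : ℕ) : dd (p + 4) = dd p := by
  unfold dd
  rw [two_pow_add_four]
  have : 2 * Real.pi * (2 ^ p / 15 + ((2 ^ p : ℤ) : ℝ)) = 2 * Real.pi * (2 ^ p / 15) +
      ((2 ^ p : ℤ) : ℝ) * (2 * Real.pi) := by ring
  rw [this, Real.sin_add_int_mul_two_pi]

lemma base_mod (k : ℕ) : ∃ n : ℤ, ((2:ℝ) ^ k / 15) + n = 2 ^ (k % 4) / 15 := by
  have key : ∀ q p : ℕ, ∃ n : ℤ, ((2:ℝ) ^ (p + 4 * q) / 15) + n = 2 ^ p / 15 := by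
    intro q
    induction q with
    | zero => intro p; exact ⟨0, by simp⟩
    | succ q ih =>
      intro p
      obtain ⟨n, hn⟩ := ih p
      refine ⟨n - 2 ^ (p + 4 * q), ?_⟩
      rw [show p + 4 * (q + 1) = (p + 4 * q) + 4 by ring, two_pow_add_four]
      push_cast
      linarith
  obtain ⟨n, hn⟩ := key (k / 4) (k % 4)
  exact ⟨n, by rwa [show k % 4 + 4 * (k / 4) = k by omega] at hn⟩

lemma ww_mod (e : ℂ) (k : ℕ) (w : ℂ) (j : ℕ) : ww e k w j = ww e (k % 4) w j := by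
  induction j with
  | zero => rfl
  | succ j ih => rw [ww, ww, ih, per_mod cc_add_four k j]

lemma aa_mod (e : ℂ) (k : ℕ) (w a : ℂ) (j : ℕ) : aa e k w a j = aa e (k % 4) w a j := by
  induction j with
  | zero => rfl
  | succ j ih => rw [aa, aa, ih, ww_mod, per_mod cc_add_four k j, per_mod dd_add_four k j]

variable {ε : ℂ} {ρ A K : ℝ} {V : ℕ → ℝ → ℂ} {a0 : ℂ}

lemma rfam_of_fam2 (hF : Fam2 ε ρ A K V) : RFam (ε ^ 2) b15 ρ V := ⟨hF.pos, hF.recur⟩

lemma boot_cc (k : ℕ) : Boot.cc b15 k = cc k := by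
  unfold Boot.cc cc b15
  congr 2; ring

lemma boot_dd (k : ℕ) : Boot.dd b15 k = dd k := by
  unfold Boot.dd dd b15
  rw [mul_one_div]

lemma ww_eq (hF : Fam2 ε ρ A K V) (k j : ℕ) : ww (ε ^ 2) k (V k 0) j = V (k + j) 0 := by
  induction j with
  | zero => rfl
  | succ j ih =>
    rw [ww, ih, ← add_assoc]
    have h0 : |(0:ℝ)| ≤ ρ * 2 ^ (k + j) := by
      rw [abs_zero]; have := hF.pos; positivity
    have := hF.recur (k + j) 0 h0
    rw [mul_zero, add_zero, mul_one_div] at this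
    exact this.symm

lemma aa_eq (hF : Fam2 ε ρ A K V) (k j : ℕ) :
    aa (ε ^ 2) k (V k 0) (slope (ε ^ 2) b15 V a0 k) j = slope (ε ^ 2) b15 V a0 (k + j) := by
  induction j with
  | zero => rfl
  | succ j ih =>
    rw [aa, ih, ww_eq hF, ← add_assoc, Boot.slope, boot_cc, boot_dd]

/-- **Consumer theorem.** -/
theorem no_fam2_of (hA : Adm ε) (hF : Fam2 ε ρ A K V) {Λ Alo Ahi : ℝ} {m Nmax : ℕ}
    {κ τ : ℕ → ℝ → ℝ} {wbar Fbar Ebar : ℕ → ℝ} (hΛ : 1 < Λ) (hAlo : 0 < Alo)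
    (hc0 : ∃ B, ∀ t : ℝ, |t| ≤ ρ → ‖V 0 t - V 0 0 - a0 * t‖ ≤ B * t ^ 2)
    -- weighted slopes: finite and explicit upper bound, not too small
    (hhi : ∀ᶠ k in atTop, ‖slope (ε ^ 2) b15 V a0 k‖ ≤ Ahi * sig k)
    (hlo : ∃ᶠ k in atTop, Λ * Alo * sig k ≤ ‖slope (ε ^ 2) b15 V a0 k‖)
    -- bounds of the alive set
    (hbox : ∀ p < 4, ∀ w, Alive ε (2 ^ p / 15) w →
      ‖w‖ ≤ wbar p ∧ ‖1 - 2 * cc p * w‖ ≤ Fbar p ∧ ‖ε ^ 2 - w ^ 2‖ ≤ Ebar p)
    -- periodicity and monotonicity of the constants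
    (hκ4 : ∀ p A, κ (p + 4) A = κ p A) (hτ4 : ∀ p A, τ (p + 4) A = τ p A)
    (hκm : ∀ p A B, Alo ≤ A → A ≤ B → κ p A ≤ κ p B) (hτm : ∀ p A B, Alo ≤ A → A ≤ B → τ p B ≤ τ p A)
    (hκ0 : ∀ p A, Alo ≤ A → 0 < κ p A) (hτ0 : ∀ p A, Alo ≤ A → 0 < τ p A)
    (hτ2 : ∀ p A, Alo ≤ A → τ (p + 1) A ≤ 2 * τ p A)
    -- strict super-solution
    (hsup : ∀ A, Alo ≤ A → A ≤ Ahi → ∃ θ, 0 ≤ θ ∧ θ < 1 ∧ ∀ p < 4,
      nextB (cc p) (dd p) (Fbar p) (wbar p) (Ebar p) (Λ * A * sig p + κ p A * τ p A / 2) (τ p A) (κ p A) ≤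
        θ * κ (p + 1) A)
    -- the kill certificate
    (hkill : ∀ p0 < 4, ∀ A, Alo ≤ A → A ≤ Λ * Ahi → ∃ n ≤ Nmax, KillAt ε m Λ κ τ p0 A n) : False := by
  have hρ := hF.pos
  have hΛ0 : 0 < Λ := by linarith
  set q := Real.sqrt Λ with hq
  have hqq : q * q = Λ := Real.mul_self_sqrt hΛ0.le
  have hq1 : 1 < q := by
    rw [hq, Real.lt_sqrt zero_le_one]; linarith
  have hq0 : 0 < q := by linarith
  -- the weighted slopes
  set S : ℕ → ℝ := fun k => ‖slope (ε ^ 2) b15 V a0 k‖ / sig k with hS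
  have hS0 : ∀ k, 0 ≤ S k := fun k => div_nonneg (norm_nonneg _) (sig_pos k).le
  have hSs : ∀ k, ‖slope (ε ^ 2) b15 V a0 k‖ = S k * sig k := fun k => by
    simp only [hS]; rw [div_mul_cancel₀ _ (sig_pos k).ne']
  have hhi' : ∀ᶠ k in atTop, S k ≤ Ahi := by
    filter_upwards [hhi] with k hk
    simp only [hS]
    rw [div_le_iff₀ (sig_pos k)]; exact hk
  have hlo' : ∃ᶠ k in atTop, Λ * Alo ≤ S k := by
    refine hlo.mono fun k hk => ?_
    simp only [hS]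
    rw [le_div_iff₀ (sig_pos k)]; exact hk
  have hbdd : IsBoundedUnder (· ≤ ·) atTop S := ⟨Ahi, by simpa using hhi'⟩
  have hcobdd : IsCoboundedUnder (· ≤ ·) atTop S :=
    IsCoboundedUnder.of_frequently_ge (Frequently.mono hlo' fun k hk => hk)
  set L := limsup S atTop with hL
  have hLlo : Λ * Alo ≤ L := le_limsup_of_frequently_le hlo' hbdd
  have hLhi : L ≤ Ahi := limsup_le_of_le hcobdd hhi'
  have hL0 : 0 < L := lt_of_lt_of_le (by positivity) hLlo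
  set A₁ := L / q with hA₁
  have hA₁q : A₁ * q = L := by rw [hA₁, div_mul_cancel₀ _ hq0.ne']
  have hA₁0 : 0 < A₁ := by positivity
  have hA₁lo : Alo ≤ A₁ := by
    rw [hA₁, le_div_iff₀ hq0]
    refine le_trans ?_ hLlo
    rw [← hqq]
    nlinarith [mul_pos (mul_pos hAlo hq0) (sub_pos.2 hq1)]
  have hA₁hi : A₁ ≤ Ahi := by
    rw [hA₁, div_le_iff₀ hq0]
    have : 0 < Ahi := lt_of_lt_of_le hL0 hLhi
    nlinarith
  have hΛA₁ : Λ * A₁ = q * L := by rw [← hqq, ← hA₁q]; ring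
  -- eventually below `q L`, frequently above `L / q`
  have hev : ∀ᶠ k in atTop, S k < q * L :=
    eventually_lt_of_limsup_lt (by rw [← hL]; nlinarith) hbdd
  have hfr : ∃ᶠ k in atTop, A₁ < S k :=
    frequently_lt_of_lt_limsup hcobdd (by rw [← hL, ← hA₁q]; nlinarith)
  obtain ⟨k₀', hk₀'⟩ := eventually_atTop.1 hev
  -- periodic extension of the bounds
  set wb : ℕ → ℝ := fun k => wbar (k % 4) with hwb
  set Fb : ℕ → ℝ := fun k => Fbar (k % 4) with hFb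
  set Eb : ℕ → ℝ := fun k => Ebar (k % 4) with hEb
  have hmod : ∀ f : ℕ → ℝ → ℝ, (∀ p A, f (p + 4) A = f p A) → ∀ k A, f k A = f (k % 4) A := by
    intro f hf k A
    have := per_mod (f := fun p => f p A) (fun p => hf p A) k 0
    simpa using this
  -- bounds of the windows
  set τmin := min (min (τ 0 A₁) (τ 1 A₁)) (min (τ 2 A₁) (τ 3 A₁)) with hτmin
  set τmax := max (max (τ 0 A₁) (τ 1 A₁)) (max (τ 2 A₁) (τ 3 A₁)) with hτmax
  set κmin := min (min (κ 0 A₁) (κ 1 A₁)) (min (κ 2 A₁) (κ 3 A₁)) with hκmin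
  have h4 : ∀ k : ℕ, k % 4 = 0 ∨ k % 4 = 1 ∨ k % 4 = 2 ∨ k % 4 = 3 := fun k => by omega
  have hτmin0 : 0 < τmin := by
    simp only [hτmin, lt_min_iff]
    exact ⟨⟨hτ0 _ _ hA₁lo, hτ0 _ _ hA₁lo⟩, hτ0 _ _ hA₁lo, hτ0 _ _ hA₁lo⟩
  have hκmin0 : 0 < κmin := by
    simp only [hκmin, lt_min_iff]
    exact ⟨⟨hκ0 _ _ hA₁lo, hκ0 _ _ hA₁lo⟩, hκ0 _ _ hA₁lo, hκ0 _ _ hA₁lo⟩
  have hτmink : ∀ k, τmin ≤ τ k A₁ := by
    intro k
    rw [hmod τ hτ4 k A₁]
    rcases h4 k with h | h | h | h <;> rw [h, hτmin]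
    · exact (min_le_left _ _).trans (min_le_left _ _)
    · exact (min_le_left _ _).trans (min_le_right _ _)
    · exact (min_le_right _ _).trans (min_le_left _ _)
    · exact (min_le_right _ _).trans (min_le_right _ _)
  have hκmink : ∀ k, κmin ≤ κ k A₁ := by
    intro k
    rw [hmod κ hκ4 k A₁]
    rcases h4 k with h | h | h | h <;> rw [h, hκmin]
    · exact (min_le_left _ _).trans (min_le_left _ _)
    · exact (min_le_left _ _).trans (min_le_right _ _)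
    · exact (min_le_right _ _).trans (min_le_left _ _)
    · exact (min_le_right _ _).trans (min_le_right _ _)
  have hτmaxk : ∀ k, τ k A₁ ≤ τmax := by
    intro k
    rw [hmod τ hτ4 k A₁]
    rcases h4 k with h | h | h | h <;> rw [h, hτmax]
    · exact (le_max_left _ _).trans (le_max_left _ _)
    · exact (le_max_right _ _).trans (le_max_left _ _)
    · exact (le_max_left _ _).trans (le_max_right _ _)
    · exact (le_max_right _ _).trans (le_max_right _ _)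
  -- a time from which the windows fit
  obtain ⟨k₀'', hk₀''⟩ : ∃ k : ℕ, τmax + 1 / 2 ≤ ρ * 2 ^ k := by
    obtain ⟨k, hk⟩ := pow_unbounded_of_one_lt ((τmax + 1 / 2) / ρ) (by norm_num : (1:ℝ) < 2)
    rw [div_lt_iff₀ hρ] at hk
    exact ⟨k, by linarith⟩
  set k₀ := max k₀' k₀'' with hk₀
  have hwin : ∀ k ≥ k₀, τmax + 1 / 2 ≤ ρ * 2 ^ k := by
    intro k hk
    refine hk₀''.trans ?_
    have h1 : (2:ℝ) ^ k₀'' ≤ 2 ^ k := pow_le_pow_right₀ (by norm_num) ((le_max_right _ _).trans hk)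
    nlinarith
  have hτmax0 : 0 < τmax := hτmin0.trans_le ((hτmink 0).trans (hτmaxk 0))
  have halive0 : ∀ k ≥ k₀, Alive ε (2 ^ (k % 4) / 15) (V k 0) := by
    intro k hk
    have hD : Dm ρ k 0 := by
      unfold Dm; rw [abs_zero]; linarith [hwin k hk]
    have h1 := alive_of_fam2 hF hA hD
    rw [add_zero] at h1
    obtain ⟨n, hn⟩ := base_mod k
    rw [← hn]
    exact Pool.Agent.W_4481e3_h1.Alive.add_int h1 n
  -- boot
  obtain ⟨θ, hθ0, hθ1, hθs⟩ := hsup A₁ hA₁lo hA₁hi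
  have hR := rfam_of_fam2 hF
  obtain ⟨k₁, hk₁, hRem⟩ := hR.boot2 (a0 := a0) (k₀ := k₀) (abar := fun k => Λ * A₁ * sig k) (wbar := wb)
    (F := Fb) (Ebar := Eb) (κ := fun k => κ k A₁) (τ := fun k => τ k A₁) (τmin := τmin) (τmax := τmax)
    (θ := θ) (κmin := κmin) hτmin0 (fun k _ => hτmink k) (fun k _ => hτmaxk k)
    (fun k _ => hτ2 k A₁ hA₁lo) hθ0 hθ1 (by linarith [hwin k₀ le_rfl])
    (fun k hk => by
      rw [hSs, hΛA₁]
      have h1 := hk₀' k ((le_max_left _ _).trans hk)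
      have h2 := sig_pos k
      nlinarith)
    (fun k hk => (hbox (k % 4) (by omega) _ (halive0 k hk)).1)
    (fun k hk => by
      have := (hbox (k % 4) (by omega) _ (halive0 k hk)).2.1
      rw [boot_cc]
      have e1 : cc k = cc (k % 4) := by simpa using per_mod cc_add_four k 0
      rw [e1]; exact this)
    (fun k hk => (hbox (k % 4) (by omega) _ (halive0 k hk)).2.2)
    hκmin0 (fun k _ => hκmink k)
    (fun k hk => by
      have h1 := hθs (k % 4) (by omega)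
      have e1 : cc k = cc (k % 4) := by simpa using per_mod cc_add_four k 0
      have e2 : dd k = dd (k % 4) := by simpa using per_mod dd_add_four k 0
      have e3 : sig k = sig (k % 4) := by simpa using per_mod sig_add_four k 0
      have e4 : κ (k + 1) A₁ = κ (k % 4 + 1) A₁ := per_mod (f := fun p => κ p A₁) (fun p => hκ4 p A₁) k 1
      show nextB (Boot.cc b15 k) (Boot.dd b15 k) (Fbar (k % 4)) (wbar (k % 4)) (Ebar (k % 4))
        (Λ * A₁ * sig k + κ k A₁ * τ k A₁ / 2) (τ k A₁) (κ k A₁) ≤ θ * κ (k + 1) A₁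
      rw [boot_cc, boot_dd, e1, e2, e3, e4, hmod κ hκ4 k A₁, hmod τ hτ4 k A₁]
      exact h1)
    (by
      obtain ⟨B, hB⟩ := hc0
      refine ⟨2 * |B|, ρ, by positivity, hρ, fun s hs => ?_⟩
      have h1 := hB s hs
      have e1 : Rem (ε ^ 2) b15 V a0 0 s = V 0 s - V 0 0 - a0 * s := rfl
      rw [e1]
      refine h1.trans ?_
      have h2 := le_abs_self B
      have h3 := sq_nonneg s
      nlinarith)
  -- selection of the time `0`
  obtain ⟨K0, hK0a, hK0⟩ := (hfr.and_eventually (eventually_ge_atTop (k₁ + Nmax))).exists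
  have hK0b : S K0 < q * L := hk₀' K0 (by
    have : k₀' ≤ k₀ := le_max_left _ _
    omega)
  set A' := S K0 with hA'
  have hA'lo : Alo ≤ A' := hA₁lo.trans hK0a.le
  have hA'hi : A' ≤ Λ * Ahi := by
    refine hK0b.le.trans ?_
    rw [← hΛA₁]
    exact mul_le_mul_of_nonneg_left hA₁hi hΛ0.le
  obtain ⟨n, hn, hkill⟩ := hkill (K0 % 4) (by omega) A' hA'lo hA'hi
  obtain ⟨k, hk⟩ : ∃ k, K0 = k + n := ⟨K0 - n, by omega⟩
  have hkk₁ : k₁ ≤ k := by omega
  have hkk₀ : k₀ ≤ k := by omega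
  obtain ⟨j, hj, s, hs, hdead⟩ := hkill (k % 4) (V k 0) (slope (ε ^ 2) b15 V a0 k) (by omega) (by omega)
    (halive0 k hkk₀)
    (by
      rw [← aa_mod, aa_eq hF, ← hk, hSs, ← per_mod sig_add_four k n, ← hk])
    (fun j _ => by
      rw [← aa_mod, aa_eq hF, hSs, ← per_mod sig_add_four k j]
      have h1 := hk₀' (k + j) (by
        have : k₀' ≤ k₀ := le_max_left _ _
        omega)
      have h2 := sig_pos (k + j)
      have h3 : q * L ≤ Λ * A' := by
        rw [← hΛA₁]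
        exact mul_le_mul_of_nonneg_left hK0a.le hΛ0.le
      have h4 : S (k + j) ≤ Λ * A' := h1.le.trans h3
      exact mul_le_mul_of_nonneg_right h4 h2.le)
  rw [← ww_mod, ww_eq hF, ← aa_mod, aa_eq hF] at hdead
  have eκ : κ (k % 4 + j) A' = κ (k + j) A' := (per_mod (f := fun p => κ p A') (fun p => hκ4 p A') k j).symm
  have eτ : τ (k % 4 + j) A' = τ (k + j) A' := (per_mod (f := fun p => τ p A') (fun p => hτ4 p A') k j).symm
  rw [eτ] at hs
  rw [eκ] at hdead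
  have hs1 : |s| ≤ τ (k + j) A₁ := hs.trans (hτm _ _ _ hA₁lo hK0a.le)
  have hrem := hRem (k + j) (by omega) s hs1
  have hD : Dm ρ (k + j) s := by
    unfold Dm
    have := hwin (k + j) (by omega)
    have := hτmaxk (k + j)
    linarith
  have hal := alive_of_fam2 hF hA hD
  -- shift of the base point
  obtain ⟨n', hn'⟩ : ∃ n' : ℤ, ((2:ℝ) ^ (k + j) / 15) + n' = 2 ^ (k % 4 + j) / 15 := by
    obtain ⟨i, hi⟩ := base_mod k
    refine ⟨2 ^ j * i, ?_⟩
    push_cast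
    rw [pow_add, pow_add]
    have : (2:ℝ) ^ j * (2 ^ k / 15 + i) = 2 ^ j * (2 ^ (k % 4) / 15) := by rw [hi]
    linarith
  have hal2 : Alive ε (2 ^ (k % 4 + j) / 15 + s) (V (k + j) s) := by
    have := Pool.Agent.W_4481e3_h1.Alive.add_int hal n'
    rwa [add_right_comm, hn'] at this
  refine hdead (V (k + j) s) ?_ hal2
  have e1 : V (k + j) s - (V (k + j) 0 + slope (ε ^ 2) b15 V a0 (k + j) * s) =
      Rem (ε ^ 2) b15 V a0 (k + j) s := by unfold Rem; ring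
  rw [e1]
  refine hrem.trans ?_
  have h5 := hκm (k + j) A₁ A' hA₁lo hK0a.le
  have h6 := mul_le_mul_of_nonneg_right h5 (sq_nonneg s)
  linarith

end Pool.Agent.W_4481e3_q59
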