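import Pool.Agent.W_4481e3_q59.ConsumerQ

/-!
One phase only: transfer of the slope bound to the other phases.
-/

open Filter Topology Set

namespace Pool.Agent.W_4481e3_q59

open Pool.Agent.W_4481e3_q42 Pool.Agent.W_4481e3_h1 Pool.Agent.W_MP_4481e3_an
open Pool.Agent.W_MP_4481e3_an.Boot (slope)

variable {ε : ℂ} {ρ A K : ℝ} {V : ℕ → ℝ → ℂ} {a0 : ℂ}

/-- **Transfer certificate**: bounds of the slopes `j < 4` steps after the phase `q`. -/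
def TransStmt (ε : ℂ) (q : ℕ) (s o : ℕ → ℝ) : Prop :=
  ∀ w a : ℂ, Alive ε (2 ^ q / 15) w → ∀ j < 4, ‖aa (ε ^ 2) q w a j‖ ≤ s j * ‖a‖ + o j

/-- the slope bounds at all phases, `A` = the bound at the phase `q` before the factor `Λ` -/
noncomputable def βT (q : ℕ) (s o : ℕ → ℝ) (Λ : ℝ) (p : ℕ) (A : ℝ) : ℝ :=
  s ((p + (4 - q)) % 4) * (Λ * A) + o ((p + (4 - q)) % 4)

lemma βT_add_four (q : ℕ) (s o : ℕ → ℝ) (Λ : ℝ) (p : ℕ) (A : ℝ) : βT q s o Λ (p + 4) A = βT q s o Λ p A := by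
  unfold βT
  have : (p + 4 + (4 - q)) % 4 = (p + (4 - q)) % 4 := by omega
  rw [this]

lemma βT_mono {q : ℕ} {s o : ℕ → ℝ} {Λ : ℝ} (hΛ : 0 ≤ Λ) (hs : ∀ j, 0 ≤ s j) (p : ℕ) {A B : ℝ}
    (h : A ≤ B) : βT q s o Λ p A ≤ βT q s o Λ p B := by
  unfold βT
  have := hs ((p + (4 - q)) % 4)
  gcongr

/-- aliveness of the centre at all late times, at the phase base point -/
lemma alive_centre (hA : Adm ε) (hF : Fam2 ε ρ A K V) : ∀ᶠ k in atTop, Alive ε (2 ^ (k % 4) / 15) (V k 0) := by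
  have hρ := hF.pos
  obtain ⟨k₀, hk₀⟩ := pow_unbounded_of_one_lt ((1 / 2) / ρ) (by norm_num : (1:ℝ) < 2)
  rw [div_lt_iff₀ hρ] at hk₀
  filter_upwards [eventually_ge_atTop k₀] with k hk
  have hD : Dm ρ k 0 := by
    unfold Dm
    rw [abs_zero, zero_add]
    have h1 : (2:ℝ) ^ k₀ ≤ 2 ^ k := pow_le_pow_right₀ (by norm_num) hk
    nlinarith
  have h1 := alive_of_fam2 hF hA hD
  rw [add_zero] at h1
  obtain ⟨n, hn⟩ := base_mod k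
  rw [← hn]
  exact Pool.Agent.W_4481e3_h1.Alive.add_int h1 n

/-- **Transfer.** -/
theorem transfer (hA : Adm ε) (hF : Fam2 ε ρ A K V) {q : ℕ} (hq : q < 4) {s o : ℕ → ℝ} {Λ : ℝ}
    (hT : TransStmt ε q s o) (hs : ∀ j, 0 ≤ s j) (A₁ : ℝ)
    (h : ∀ᶠ k in atTop, k % 4 = q → ‖slope (ε ^ 2) b15 V a0 k‖ ≤ Λ * A₁) :
    ∀ᶠ k in atTop, ‖slope (ε ^ 2) b15 V a0 k‖ ≤ βT q s o Λ (k % 4) A₁ := by
  obtain ⟨k₀, hk₀⟩ := eventually_atTop.1 (h.and (alive_centre hA hF))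
  filter_upwards [eventually_ge_atTop (k₀ + 4)] with k hk
  -- `k = k' + j`, `k' % 4 = q`, `j < 4`
  set j := (k + (4 - q)) % 4 with hj
  have hj4 : j < 4 := by omega
  obtain ⟨k', hk'⟩ : ∃ k', k = k' + j := ⟨k - j, by omega⟩
  have hk'q : k' % 4 = q := by omega
  obtain ⟨h1, h2⟩ := hk₀ k' (by omega)
  have h3 := h1 hk'q
  rw [hk'q] at h2
  have h4 := hT (V k' 0) (slope (ε ^ 2) b15 V a0 k') h2 j hj4
  have e1 : aa (ε ^ 2) q (V k' 0) (slope (ε ^ 2) b15 V a0 k') j = slope (ε ^ 2) b15 V a0 k := by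
    rw [← hk'q, ← aa_mod, aa_eq hF, ← hk']
  rw [e1] at h4
  refine h4.trans ?_
  unfold βT
  have e2 : (k % 4 + (4 - q)) % 4 = j := by omega
  rw [e2]
  have := mul_le_mul_of_nonneg_left h3 (hs j)
  linarith

/-- **Consumer theorem for one phase** `q`. -/
theorem no_fam2_one (hA : Adm ε) (hF : Fam2 ε ρ A K V) {q : ℕ} (hq : q < 4) {Λ Alo Ahi : ℝ} {m Nmax : ℕ}
    {s o : ℕ → ℝ} {κ τ : ℕ → ℝ → ℝ} {wbar Fbar Ebar : ℕ → ℝ} (hΛ : 1 < Λ) (hAlo : 0 < Alo)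
    (hc0 : ∃ B, ∀ t : ℝ, |t| ≤ ρ → ‖V 0 t - V 0 0 - a0 * t‖ ≤ B * t ^ 2)
    (hhi : ∀ᶠ k in atTop, k % 4 = q → ‖slope (ε ^ 2) b15 V a0 k‖ ≤ Ahi)
    (hlo : ∃ᶠ k in atTop, k % 4 = q ∧ Λ * Alo ≤ ‖slope (ε ^ 2) b15 V a0 k‖)
    (hT : TransStmt ε q s o) (hs : ∀ j, 0 ≤ s j)
    (hbox : ∀ p < 4, ∀ w, Alive ε (2 ^ p / 15) w →
      ‖w‖ ≤ wbar p ∧ ‖1 - 2 * cc p * w‖ ≤ Fbar p ∧ ‖ε ^ 2 - w ^ 2‖ ≤ Ebar p)
    (hκ4 : ∀ p A, κ (p + 4) A = κ p A) (hτ4 : ∀ p A, τ (p + 4) A = τ p A)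
    (hκm : ∀ p A B, Alo ≤ A → A ≤ B → κ p A ≤ κ p B) (hτm : ∀ p A B, Alo ≤ A → A ≤ B → τ p B ≤ τ p A)
    (hκ0 : ∀ p A, Alo ≤ A → 0 < κ p A) (hτ0 : ∀ p A, Alo ≤ A → 0 < τ p A)
    (hτ2 : ∀ p A, Alo ≤ A → τ (p + 1) A ≤ 2 * τ p A)
    (hsup : ∀ A, Alo ≤ A → A ≤ Ahi → ∃ θ, 0 ≤ θ ∧ θ < 1 ∧ ∀ p < 4,
      Boot.nextC (cc p) (dd p) (Fbar p) (wbar p) (Ebar p) (βT q s o Λ p A + κ p A * τ p A / 2) (τ p A)
        (κ p A) ≤ θ * κ (p + 1) A)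
    (hkill : ∀ A, Alo ≤ A → A ≤ Λ * Ahi → ∃ n ≤ Nmax, KillAtQ ε m (βT q s o Λ) κ τ q A 1 n) : False := by
  have hΛ0 : 0 ≤ Λ := by linarith
  refine no_fam2_gen (Q := fun p => p = q) (sg := fun _ => 1) (β := βT q s o Λ) (m := m) (Nmax := Nmax)
    hA hF hΛ hAlo (fun _ => one_pos) hc0 ?_ ?_ ?_ (βT_add_four q s o Λ)
    (fun p A B _ hAB => βT_mono hΛ0 hs p hAB) hbox hκ4 hτ4 hκm hτm hκ0 hτ0 hτ2 hsup ?_
  · filter_upwards [hhi] with k hk hQ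
    rw [mul_one]; exact hk hQ
  · refine hlo.mono fun k hk => ?_
    rw [mul_one]; exact hk
  · intro A₁ _ _ h
    refine transfer hA hF hq hT hs A₁ ?_
    filter_upwards [h] with k hk hQ
    simpa using hk hQ
  · intro q' _ hQ A h1 h2
    obtain rfl : q' = q := hQ
    exact hkill A h1 h2

end Pool.Agent.W_4481e3_q59
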