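import Pool.Agent.W_4481e3_q59.ConsumerOne
import Pool.Agent.W_4481e3_q59.BootE

/-!
Consumer theorem with the second order constant of a whole period (actual states inside the period,
slope bounds at the times `≡ q` modulo `4` only).
-/

open Filter Topology Set

namespace Pool.Agent.W_4481e3_q59

open Pool.Agent.W_4481e3_q42 Pool.Agent.W_4481e3_h1 Pool.Agent.W_MP_4481e3_an
open Pool.Agent.W_MP_4481e3_an.Boot (RFam slope Rem nextC compC compK)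

variable {ε : ℂ} {ρ A K : ℝ} {V : ℕ → ℝ → ℂ} {a0 : ℂ}

/-- the second order constant after `4 * l` steps from the phase `q`, along the orbit of `w`, started
with `κ` on the window `τ / 2 ^ (4 * l)` -/
noncomputable def perC (ε : ℂ) (q l : ℕ) (w a : ℂ) (κ τ : ℝ) : ℝ :=
  compC (fun j => cc (q + j)) (fun j => dd (q + j)) (fun j => ‖1 - 2 * cc (q + j) * ww (ε ^ 2) q w j‖)
    (fun j => ‖ww (ε ^ 2) q w j‖) (fun j => ‖ε ^ 2 - ww (ε ^ 2) q w j ^ 2‖)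
    (fun j => ‖aa (ε ^ 2) q w a j‖) (τ / 2 ^ (4 * l)) κ (4 * l)

/-- **Period certificate**: `l` periods, the slopes at the times `0, 4, ..., 4 l` are at most `A`. -/
def PerStmt (ε : ℂ) (q l : ℕ) (A κ τ θ : ℝ) : Prop :=
  ∀ w a : ℂ, Alive ε (2 ^ q / 15) w → (∀ i ≤ l, ‖aa (ε ^ 2) q w a (4 * i)‖ ≤ A) →
    perC ε q l w a κ τ ≤ θ * κ

/-- **Kill certificate** with all windows starting at the phase `q`; `4 * n` = time of the nearly
maximal slope `A`. -/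
def KillPer (ε : ℂ) (q m : ℕ) (Λ A κ τ : ℝ) (n : ℕ) : Prop :=
  ∀ w a : ℂ, Alive ε (2 ^ q / 15) w → ‖aa (ε ^ 2) q w a (4 * n)‖ = A →
    (∀ i ≤ m, ‖aa (ε ^ 2) q w a (4 * i)‖ ≤ Λ * A) →
    ∃ i ≤ m, TestDead ε q (ww (ε ^ 2) q w (4 * i)) (aa (ε ^ 2) q w a (4 * i)) κ τ

lemma base_int (q i : ℕ) : ∃ n : ℤ, ((2:ℝ) ^ (q + 4 * i) / 15) + n = 2 ^ q / 15 := by
  obtain ⟨n₁, h1⟩ := base_mod (q + 4 * i)
  obtain ⟨n₂, h2⟩ := base_mod q
  have e : (q + 4 * i) % 4 = q % 4 := by omega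
  rw [e] at h1
  refine ⟨n₁ - n₂, ?_⟩
  push_cast
  linarith

lemma cc_shift (q i j : ℕ) : cc (q + 4 * i + j) = cc (q + j) := by
  rw [per_mod cc_add_four (q + 4 * i) j, per_mod cc_add_four q j]
  congr 2
  omega

lemma dd_shift (q i j : ℕ) : dd (q + 4 * i + j) = dd (q + j) := by
  rw [per_mod dd_add_four (q + 4 * i) j, per_mod dd_add_four q j]
  congr 2
  omega

lemma ww_shift (e : ℂ) (q i : ℕ) (w : ℂ) (j : ℕ) : ww e (q + 4 * i) w j = ww e q w j := by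
  rw [ww_mod e (q + 4 * i), ww_mod e q]
  congr 1
  omega

lemma aa_shift (e : ℂ) (q i : ℕ) (w a : ℂ) (j : ℕ) : aa e (q + 4 * i) w a j = aa e q w a j := by
  rw [aa_mod e (q + 4 * i), aa_mod e q]
  congr 1
  omega

lemma compK_eq_perC (hF : Fam2 ε ρ A K V) (q i l : ℕ) (κ τ : ℝ) :
    compK (ε ^ 2) b15 V a0 (q + 4 * i) (τ / 2 ^ (4 * l)) κ (4 * l) =
      perC ε q l (V (q + 4 * i) 0) (slope (ε ^ 2) b15 V a0 (q + 4 * i)) κ τ := by
  unfold compK perC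
  have e1 : (fun j => Boot.cc b15 (q + 4 * i + j)) = fun j => cc (q + j) := by
    funext j; rw [boot_cc, cc_shift]
  have e2 : (fun j => Boot.dd b15 (q + 4 * i + j)) = fun j => dd (q + j) := by
    funext j; rw [boot_dd, dd_shift]
  have e3 : ∀ j, V (q + 4 * i + j) 0 = ww (ε ^ 2) q (V (q + 4 * i) 0) j := by
    intro j
    rw [← ww_eq hF (q + 4 * i) j, ww_shift]
  have e4 : ∀ j, slope (ε ^ 2) b15 V a0 (q + 4 * i + j) =
      aa (ε ^ 2) q (V (q + 4 * i) 0) (slope (ε ^ 2) b15 V a0 (q + 4 * i)) j := by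
    intro j
    rw [← aa_eq hF (q + 4 * i) j, aa_shift]
  have e5 : ∀ j, Boot.cc b15 (q + 4 * i + j) = cc (q + j) := fun j => congrFun e1 j
  rw [e1, e2]
  congr 1
  · funext j; rw [e5, e3]
  · funext j; rw [e3]
  · funext j; rw [e3]
  · funext j; rw [e4]

/-- **Consumer theorem, one phase, period constants.** -/
theorem no_fam2_per (hA : Adm ε) (hF : Fam2 ε ρ A K V) {q : ℕ} {Λ Alo Ahi : ℝ} {m l Nmax : ℕ}
    {κ τ : ℝ → ℝ} (hΛ : 1 < Λ) (hAlo : 0 < Alo) (hl : 0 < l)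
    (hc0 : ∃ B, ∀ t : ℝ, |t| ≤ ρ → ‖V 0 t - V 0 0 - a0 * t‖ ≤ B * t ^ 2)
    (hhi : ∀ᶠ i in atTop, ‖slope (ε ^ 2) b15 V a0 (q + 4 * i)‖ ≤ Ahi)
    (hlo : ∃ᶠ i in atTop, Λ * Alo ≤ ‖slope (ε ^ 2) b15 V a0 (q + 4 * i)‖)
    (hκm : ∀ A B, Alo ≤ A → A ≤ B → κ A ≤ κ B) (hτm : ∀ A B, Alo ≤ A → A ≤ B → τ B ≤ τ A)
    (hκ0 : ∀ A, Alo ≤ A → 0 < κ A) (hτ0 : ∀ A, Alo ≤ A → 0 < τ A)
    (hper : ∀ A, Alo ≤ A → A ≤ Ahi → ∃ θ, 0 ≤ θ ∧ θ < 1 ∧ PerStmt ε q l (Λ * A) (κ A) (τ A) θ)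
    (hkill : ∀ A, Alo ≤ A → A ≤ Λ * Ahi → ∃ n ≤ Nmax, KillPer ε q m Λ A (κ A) (τ A) n) : False := by
  classical
  have hρ := hF.pos
  have hΛ0 : 0 < Λ := by linarith
  set g := Real.sqrt Λ with hg
  have hgg : g * g = Λ := Real.mul_self_sqrt hΛ0.le
  have hg1 : 1 < g := by
    rw [hg, Real.lt_sqrt zero_le_one]; linarith
  have hg0 : 0 < g := by linarith
  set S : ℕ → ℝ := fun i => ‖slope (ε ^ 2) b15 V a0 (q + 4 * i)‖ with hS
  have hbdd : IsBoundedUnder (· ≤ ·) atTop S := ⟨Ahi, by simpa using hhi⟩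
  have hcobdd : IsCoboundedUnder (· ≤ ·) atTop S :=
    IsCoboundedUnder.of_frequently_ge (Frequently.mono hlo fun k hk => hk)
  set L := limsup S atTop with hL
  have hLlo : Λ * Alo ≤ L := le_limsup_of_frequently_le hlo hbdd
  have hLhi : L ≤ Ahi := limsup_le_of_le hcobdd hhi
  have hL0 : 0 < L := lt_of_lt_of_le (by positivity) hLlo
  set A₁ := L / g with hA₁
  have hA₁g : A₁ * g = L := by rw [hA₁, div_mul_cancel₀ _ hg0.ne']
  have hA₁0 : 0 < A₁ := by positivity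
  have hA₁lo : Alo ≤ A₁ := by
    rw [hA₁, le_div_iff₀ hg0]
    refine le_trans ?_ hLlo
    rw [← hgg]
    nlinarith [mul_pos (mul_pos hAlo hg0) (sub_pos.2 hg1)]
  have hA₁hi : A₁ ≤ Ahi := by
    rw [hA₁, div_le_iff₀ hg0]
    have : 0 < Ahi := lt_of_lt_of_le hL0 hLhi
    nlinarith
  have hΛA₁ : Λ * A₁ = g * L := by rw [← hgg, ← hA₁g]; ring
  -- eventually below `g L`, frequently above `L / g`
  have hev : ∀ᶠ i in atTop, S i < g * L :=
    eventually_lt_of_limsup_lt (by rw [← hL]; nlinarith) hbdd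
  have hfr : ∃ᶠ i in atTop, A₁ < S i :=
    frequently_lt_of_lt_limsup hcobdd (by rw [← hL, ← hA₁g]; nlinarith)
  obtain ⟨i₀', hi₀'⟩ := eventually_atTop.1 hev
  have hτ₁ := hτ0 A₁ hA₁lo
  have hκ₁ := hκ0 A₁ hA₁lo
  -- a time from which the windows fit
  obtain ⟨i₀'', hi₀''⟩ : ∃ i : ℕ, τ A₁ + 1 / 2 ≤ ρ * 2 ^ i := by
    obtain ⟨i, hi⟩ := pow_unbounded_of_one_lt ((τ A₁ + 1 / 2) / ρ) (by norm_num : (1:ℝ) < 2)
    rw [div_lt_iff₀ hρ] at hi
    exact ⟨i, by linarith⟩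
  set i₀ := max i₀' i₀'' with hi₀
  have hwin : ∀ i ≥ i₀, τ A₁ + 1 / 2 ≤ ρ * 2 ^ (q + 4 * i) := by
    intro i hi
    refine hi₀''.trans ?_
    have : i₀'' ≤ i := (le_max_right _ _).trans hi
    have h1 : (2:ℝ) ^ i₀'' ≤ 2 ^ (q + 4 * i) := pow_le_pow_right₀ (by norm_num) (by omega)
    nlinarith
  have halive : ∀ i ≥ i₀, ∀ s : ℝ, |s| ≤ τ A₁ → Alive ε (2 ^ q / 15 + s) (V (q + 4 * i) s) := by
    intro i hi s hs
    have hD : Dm ρ (q + 4 * i) s := by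
      unfold Dm; linarith [hwin i hi]
    have h1 := alive_of_fam2 hF hA hD
    obtain ⟨n, hn⟩ := base_int q i
    have h2 := Pool.Agent.W_4481e3_h1.Alive.add_int h1 n
    rwa [add_right_comm, hn] at h2
  have halive0 : ∀ i ≥ i₀, Alive ε (2 ^ q / 15) (V (q + 4 * i) 0) := by
    intro i hi
    have := halive i hi 0 (by rw [abs_zero]; exact hτ₁.le)
    rwa [add_zero] at this
  -- boot
  obtain ⟨θ, hθ0, hθ1, hθs⟩ := hper A₁ hA₁lo hA₁hi
  have hR := rfam_of_fam2 hF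
  have haa : ∀ i n, aa (ε ^ 2) q (V (q + 4 * i) 0) (slope (ε ^ 2) b15 V a0 (q + 4 * i)) (4 * n) =
      slope (ε ^ 2) b15 V a0 (q + 4 * (i + n)) := by
    intro i n
    rw [← aa_shift (ε ^ 2) q i, aa_eq hF]
    congr 1
    ring
  have hww : ∀ i n, ww (ε ^ 2) q (V (q + 4 * i) 0) (4 * n) = V (q + 4 * (i + n)) 0 := by
    intro i n
    rw [← ww_shift (ε ^ 2) q i, ww_eq hF]
    congr 1
    ring
  have hboot : ∀ r : ℕ, ∃ i₁, ∀ i ≥ i₁, ∀ s, |s| ≤ τ A₁ →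
      ‖Rem (ε ^ 2) b15 V a0 (q + 4 * (i₀ + r + l * i)) s‖ ≤ κ A₁ * s ^ 2 / 2 := by
    intro r
    obtain ⟨i₁, hRem⟩ := hR.boot_block (a0 := a0) (k₀ := q + 4 * (i₀ + r)) (L := 4 * l) (κ := κ A₁)
      (τ := τ A₁) (θ := θ) hτ₁ hκ₁ (by omega) hθ0 hθ1 (by linarith [hwin (i₀ + r) (by omega)])
      (fun i => by
        have e1 : q + 4 * (i₀ + r) + 4 * l * i = q + 4 * (i₀ + r + l * i) := by ring
        rw [e1, compK_eq_perC hF]
        refine hθs _ _ (halive0 _ (by omega)) fun n _ => ?_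
        rw [haa]
        have h1 := hi₀' (i₀ + r + l * i + n) (by
          have : i₀' ≤ i₀ := le_max_left _ _
          omega)
        rw [hΛA₁]
        exact h1.le)
      (by
        obtain ⟨B, hB⟩ := hc0
        refine ⟨2 * |B|, ρ, by positivity, hρ, fun s hs => ?_⟩
        have h1 := hB s hs
        have e1 : Rem (ε ^ 2) b15 V a0 0 s = V 0 s - V 0 0 - a0 * s := rfl
        rw [e1]
        refine h1.trans ?_
        have h2 := le_abs_self B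
        have h3 := sq_nonneg s
        nlinarith)
    refine ⟨i₁, fun i hi s hs => ?_⟩
    have h1 := hRem i hi s hs
    have e1 : q + 4 * (i₀ + r) + 4 * l * i = q + 4 * (i₀ + r + l * i) := by ring
    rwa [e1] at h1
  choose i₁ hRem using hboot
  set I := i₀ + l + l * (Finset.range l).sup i₁ with hI
  have hRem' : ∀ i ≥ I, ∀ s, |s| ≤ τ A₁ →
      ‖Rem (ε ^ 2) b15 V a0 (q + 4 * i) s‖ ≤ κ A₁ * s ^ 2 / 2 := by
    intro i hi s hs
    set r := (i - i₀) % l with hr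
    set t := (i - i₀) / l with ht
    have hrl : r < l := Nat.mod_lt _ hl
    have h1 : l * t + r = i - i₀ := Nat.div_add_mod _ _
    have h2 : i₁ r ≤ (Finset.range l).sup i₁ := Finset.le_sup (f := i₁) (Finset.mem_range.2 hrl)
    have h3 : (Finset.range l).sup i₁ ≤ t := by
      have h4 : l * (Finset.range l).sup i₁ ≤ l * t := by omega
      exact Nat.le_of_mul_le_mul_left h4 hl
    have h5 := hRem r t (h2.trans h3) s hs
    have e2 : i₀ + r + l * t = i := by omega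
    rwa [e2] at h5
  -- selection of the time `0`
  obtain ⟨K0, hK0a, hK0⟩ := (hfr.and_eventually (eventually_ge_atTop (I + Nmax))).exists
  have hK0b : S K0 < g * L := hi₀' K0 (by
    have : i₀' ≤ i₀ := le_max_left _ _
    omega)
  set A' := S K0 with hA'
  have hA'lo : Alo ≤ A' := hA₁lo.trans hK0a.le
  have hA'hi : A' ≤ Λ * Ahi := by
    refine hK0b.le.trans ?_
    rw [← hΛA₁]
    exact mul_le_mul_of_nonneg_left hA₁hi hΛ0.le
  obtain ⟨n, hn, hkill⟩ := hkill A' hA'lo hA'hi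
  obtain ⟨k, hk⟩ : ∃ k, K0 = k + n := ⟨K0 - n, by omega⟩
  have hkI : I ≤ k := by omega
  have hki₀ : i₀ ≤ k := by omega
  obtain ⟨j, hj, s, hs, hdead⟩ := hkill (V (q + 4 * k) 0) (slope (ε ^ 2) b15 V a0 (q + 4 * k))
    (halive0 k hki₀)
    (by rw [haa, ← hk])
    (fun j _ => by
      rw [haa]
      have h1 := hi₀' (k + j) (by
        have : i₀' ≤ i₀ := le_max_left _ _
        omega)
      refine h1.le.trans ?_
      rw [← hΛA₁]
      exact mul_le_mul_of_nonneg_left hK0a.le hΛ0.le)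
  rw [hww, haa] at hdead
  have hs1 : |s| ≤ τ A₁ := hs.trans (hτm _ _ hA₁lo hK0a.le)
  have hrem := hRem' (k + j) (by omega) s hs1
  refine hdead (V (q + 4 * (k + j)) s) ?_ (halive (k + j) (by omega) s hs1)
  have e1 : V (q + 4 * (k + j)) s - (V (q + 4 * (k + j)) 0 + slope (ε ^ 2) b15 V a0 (q + 4 * (k + j)) * s) =
      Rem (ε ^ 2) b15 V a0 (q + 4 * (k + j)) s := by unfold Rem; ring
  rw [e1]
  refine hrem.trans ?_
  have h5 := hκm A₁ A' hA₁lo hK0a.le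
  have h6 := mul_le_mul_of_nonneg_right h5 (sq_nonneg s)
  linarith

end Pool.Agent.W_4481e3_q59
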