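import Pool.Agent.W_4481e3_q59.ConsumerPQ

/-!
Consumer theorem with a finite table of slope ranges: no monotonicity in the slope is needed.
-/

open Filter Topology Set

namespace Pool.Agent.W_4481e3_q59

open Pool.Agent.W_4481e3_q42 Pool.Agent.W_4481e3_h1 Pool.Agent.W_MP_4481e3_an
open Pool.Agent.W_MP_4481e3_an.Boot (RFam slope Rem nextC compC compK)

variable {ε : ℂ} {ρ A K : ℝ} {V : ℕ → ℝ → ℂ} {a0 : ℂ}

/-- some class of a finite table is hit infinitely often -/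
lemma frequently_class {P : ℕ → Prop} {c : ℕ → ℕ} {N : ℕ} (hc : ∀ᶠ k in atTop, P k → c k < N)
    (h : ∃ᶠ k in atTop, P k) : ∃ i < N, ∃ᶠ k in atTop, P k ∧ c k = i := by
  by_contra hcon
  have h1 : ∀ i ∈ Finset.range N, ∀ᶠ k in atTop, ¬ (P k ∧ c k = i) := by
    intro i hi
    by_contra hf
    exact hcon ⟨i, Finset.mem_range.1 hi, hf⟩
  have h2 : ∀ᶠ k in atTop, ∀ i ∈ Finset.range N, ¬ (P k ∧ c k = i) := (Finset.eventually_all _).2 h1
  obtain ⟨k, hk, hk2, hk3⟩ := (h.and_eventually (hc.and h2)).exists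
  exact hk3 (c k) (Finset.mem_range.2 (hk2 hk)) ⟨hk, rfl⟩

/-- **Consumer theorem.** -/
theorem no_fam2_tab (hA : Adm ε) (hF : Fam2 ε ρ A K V) {q : ℕ} (hq : q < 4) {Λ Alo Ahi : ℝ} {m Nmax : ℕ}
    {κ τ β : ℕ → ℝ → ℝ} (hΛ : 1 < Λ) (hAlo : 0 < Alo)
    (hc0 : ∃ B, ∀ t : ℝ, |t| ≤ ρ → ‖V 0 t - V 0 0 - a0 * t‖ ≤ B * t ^ 2)
    (hhi : ∀ᶠ i in atTop, ‖slope (ε ^ 2) b15 V a0 (q + 4 * i)‖ ≤ Ahi)
    (hlo : ∃ᶠ i in atTop, Λ * Alo ≤ ‖slope (ε ^ 2) b15 V a0 (q + 4 * i)‖)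
    (hκ4 : ∀ p A, κ (p + 4) A = κ p A) (hτ4 : ∀ p A, τ (p + 4) A = τ p A) (hβ4 : ∀ p A, β (p + 4) A = β p A)
    {cls : ℝ → ℕ} {N : ℕ} (hcls : ∀ A, Alo ≤ A → A ≤ Λ * Ahi → cls A < N)
    (hκc : ∀ p A B, cls A = cls B → κ p A = κ p B) (hτc : ∀ p A B, cls A = cls B → τ p A = τ p B)
    (hκ0 : ∀ A, Alo ≤ A → A ≤ Λ * Ahi → 0 < κ q A) (hτ0 : ∀ A, Alo ≤ A → A ≤ Λ * Ahi → 0 < τ q A)
    (hper : ∀ A, Alo ≤ A → A ≤ Λ * Ahi → ∃ θ h, 0 ≤ θ ∧ θ < 1 ∧ τ q A = 16 * h ∧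
      (∀ j, 1 ≤ j → j < 4 → τ (q + j) A ≤ 2 ^ j * h) ∧
      PerQ ε q (Λ * A) h θ (fun j => κ (q + j) A) (fun j => β (q + j) A))
    (hkill : ∀ A, Alo ≤ A → A ≤ Λ * Ahi → ∃ n ≤ Nmax, KillAtQ ε m β κ τ q A 1 n) : False := by
  classical
  have hρ := hF.pos
  have hΛ0 : 0 < Λ := by linarith
  set g := Real.sqrt Λ with hg
  have hgg : g * g = Λ := Real.mul_self_sqrt hΛ0.le
  have hg1 : 1 < g := by
    rw [hg, Real.lt_sqrt zero_le_one]; linarith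
  have hg0 : 0 < g := by linarith
  set S : ℕ → ℝ := fun i => ‖slope (ε ^ 2) b15 V a0 (q + 4 * i)‖ with hS
  have hbdd : IsBoundedUnder (· ≤ ·) atTop S := ⟨Ahi, by simpa using hhi⟩
  have hcobdd : IsCoboundedUnder (· ≤ ·) atTop S :=
    IsCoboundedUnder.of_frequently_ge (Frequently.mono hlo fun k hk => hk)
  set L := limsup S atTop with hL
  have hLlo : Λ * Alo ≤ L := le_limsup_of_frequently_le hlo hbdd
  have hLhi : L ≤ Ahi := limsup_le_of_le hcobdd hhi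
  have hL0 : 0 < L := lt_of_lt_of_le (by positivity) hLlo
  set A₁ := L / g with hA₁
  have hA₁g : A₁ * g = L := by rw [hA₁, div_mul_cancel₀ _ hg0.ne']
  have hA₁0 : 0 < A₁ := by positivity
  have hA₁lo : Alo ≤ A₁ := by
    rw [hA₁, le_div_iff₀ hg0]
    refine le_trans ?_ hLlo
    rw [← hgg]
    nlinarith [mul_pos (mul_pos hAlo hg0) (sub_pos.2 hg1)]
  have hA₁hi : A₁ ≤ Ahi := by
    rw [hA₁, div_le_iff₀ hg0]
    have : 0 < Ahi := lt_of_lt_of_le hL0 hLhi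
    nlinarith
  have hΛA₁ : Λ * A₁ = g * L := by rw [← hgg, ← hA₁g]; ring
  -- eventually below `g L`, frequently above `L / g`
  have hev : ∀ᶠ i in atTop, S i < g * L :=
    eventually_lt_of_limsup_lt (by rw [← hL]; nlinarith) hbdd
  have hfr : ∃ᶠ i in atTop, A₁ < S i :=
    frequently_lt_of_lt_limsup hcobdd (by rw [← hL, ← hA₁g]; nlinarith)
  obtain ⟨i₀', hi₀'⟩ := eventually_atTop.1 hev
  have hΛA₁hi : Λ * A₁ ≤ Λ * Ahi := mul_le_mul_of_nonneg_left hA₁hi hΛ0.le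
  have hfr' : ∃ᶠ i in atTop, A₁ < S i ∧ S i < g * L := hfr.and_eventually hev
  obtain ⟨c, hcN, hfc⟩ := frequently_class (c := fun i => cls (S i)) (N := N)
    (Eventually.of_forall fun i hi => hcls (S i) (hA₁lo.trans hi.1.le)
      (by rw [← hΛA₁] at hi; exact hi.2.le.trans hΛA₁hi)) hfr'
  obtain ⟨Ks, ⟨hKs1, hKs2⟩, hKs3⟩ := hfc.exists
  set As := S Ks with hAs
  have hAslo : Alo ≤ As := hA₁lo.trans hKs1.le
  have hAshi : As ≤ Λ * Ahi := by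
    rw [← hΛA₁] at hKs2
    exact hKs2.le.trans hΛA₁hi
  obtain ⟨θ, h, hθ0, hθ1, hτh, hτj, hP⟩ := hper As hAslo hAshi
  have hτ₁ := hτ0 As hAslo hAshi
  have hκ₁ := hκ0 As hAslo hAshi
  have hh0 : 0 < h := by linarith
  -- a time from which the windows fit
  obtain ⟨i₀'', hi₀''⟩ : ∃ i : ℕ, 16 * h + 1 / 2 ≤ ρ * 2 ^ i := by
    obtain ⟨i, hi⟩ := pow_unbounded_of_one_lt ((16 * h + 1 / 2) / ρ) (by norm_num : (1:ℝ) < 2)
    rw [div_lt_iff₀ hρ] at hi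
    exact ⟨i, by linarith⟩
  set i₀ := max i₀' i₀'' with hi₀
  have hi₀l : i₀' ≤ i₀ := le_max_left _ _
  have hi₀r : i₀'' ≤ i₀ := le_max_right _ _
  have hwin : ∀ k ≥ q + 4 * i₀, 16 * h + 1 / 2 ≤ ρ * 2 ^ k := by
    intro k hk
    refine hi₀''.trans ?_
    have h1 : (2:ℝ) ^ i₀'' ≤ 2 ^ k := pow_le_pow_right₀ (by norm_num) (by omega)
    nlinarith
  have halive : ∀ k ≥ q + 4 * i₀, ∀ s : ℝ, |s| ≤ 16 * h → Alive ε (2 ^ k / 15 + s) (V k s) := by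
    intro k hk s hs
    have hD : Dm ρ k s := by
      unfold Dm; linarith [hwin k hk]
    exact alive_of_fam2 hF hA hD
  have halive0 : ∀ k ≥ q + 4 * i₀, Alive ε (2 ^ (k % 4) / 15) (V k 0) := by
    intro k hk
    have h1 := halive k hk 0 (by rw [abs_zero]; positivity)
    rw [add_zero] at h1
    obtain ⟨n, hn⟩ := base_mod k
    rw [← hn]
    exact Pool.Agent.W_4481e3_h1.Alive.add_int h1 n
  have halive4 : ∀ i ≥ i₀, Alive ε (2 ^ q / 15) (V (q + 4 * i) 0) := by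
    intro i hi
    have h1 := halive0 (q + 4 * i) (by omega)
    have e : (q + 4 * i) % 4 = q := by omega
    rwa [e] at h1
  have hR := rfam_of_fam2 hF
  have haa : ∀ i n, aa (ε ^ 2) q (V (q + 4 * i) 0) (slope (ε ^ 2) b15 V a0 (q + 4 * i)) n =
      slope (ε ^ 2) b15 V a0 (q + 4 * i + n) := by
    intro i n
    rw [← aa_shift (ε ^ 2) q i, aa_eq hF]
  have hsl : ∀ i ≥ i₀, ‖slope (ε ^ 2) b15 V a0 (q + 4 * i)‖ ≤ Λ * A₁ := by
    intro i hi
    rw [hΛA₁]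
    exact (hi₀' i (by omega)).le
  have hslB : ∀ {B : ℝ}, A₁ ≤ B → ∀ i ≥ i₀, ‖slope (ε ^ 2) b15 V a0 (q + 4 * i)‖ ≤ Λ * B :=
    fun hB i hi => (hsl i hi).trans (mul_le_mul_of_nonneg_left hB hΛ0.le)
  -- what the period certificate gives at late times
  have hPi : ∀ i ≥ i₀, (∀ j < 4, ‖slope (ε ^ 2) b15 V a0 (q + 4 * i + j)‖ ≤ β (q + j) As) ∧
      (∀ j, 1 ≤ j → j < 4 → compK (ε ^ 2) b15 V a0 (q + 4 * i) h (κ q As) j ≤ κ (q + j) As) ∧
      compK (ε ^ 2) b15 V a0 (q + 4 * i) h (κ q As) 4 ≤ θ * κ q As := by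
    intro i hi
    obtain ⟨p1, p2, p3⟩ := hP (V (q + 4 * i) 0) (slope (ε ^ 2) b15 V a0 (q + 4 * i)) (halive4 i hi)
      (hslB hKs1.le i hi) (by
        rw [haa, show q + 4 * i + 4 = q + 4 * (i + 1) by ring]
        exact hslB hKs1.le (i + 1) (by omega))
    refine ⟨fun j hj => ?_, fun j h1 h2 => ?_, ?_⟩
    · rw [← haa]; exact p1 j hj
    · rw [compK_eq_perK hF]; exact p2 j h1 h2
    · rw [compK_eq_perK hF]; exact p3
  -- boot at the phase `q`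
  obtain ⟨i₁, hRem⟩ := hR.boot_block (a0 := a0) (k₀ := q + 4 * i₀) (L := 4) (κ := κ q As)
    (τ := 16 * h) (θ := θ) (by positivity) hκ₁ (by norm_num) hθ0 hθ1
    (by linarith [hwin (q + 4 * i₀) le_rfl])
    (fun i => by
      have e1 : q + 4 * i₀ + 4 * i = q + 4 * (i₀ + i) := by ring
      have e2 : 16 * h / 2 ^ 4 = h := by norm_num
      rw [e1, e2]
      exact (hPi (i₀ + i) (by omega)).2.2)
    (by
      obtain ⟨B, hB⟩ := hc0
      refine ⟨2 * |B|, ρ, by positivity, hρ, fun s hs => ?_⟩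
      have h1 := hB s hs
      have e1 : Rem (ε ^ 2) b15 V a0 0 s = V 0 s - V 0 0 - a0 * s := rfl
      rw [e1]
      refine h1.trans ?_
      have h2 := le_abs_self B
      have h3 := sq_nonneg s
      nlinarith)
  have hRem0 : ∀ i ≥ i₀ + i₁, ∀ s, |s| ≤ 16 * h →
      ‖Rem (ε ^ 2) b15 V a0 (q + 4 * i) s‖ ≤ κ q As * s ^ 2 / 2 := by
    intro i hi s hs
    obtain ⟨t, rfl⟩ := Nat.exists_eq_add_of_le (show i₀ ≤ i by omega)
    have := hRem t (by omega) s hs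
    rwa [show q + 4 * i₀ + 4 * t = q + 4 * (i₀ + t) by ring] at this
  -- all phases
  have hper4 : ∀ f : ℕ → ℝ → ℝ, (∀ p A, f (p + 4) A = f p A) → ∀ i j A, f (q + 4 * i + j) A = f (q + j) A := by
    intro f hf i j A
    have h1 := per_mod (f := fun p => f p A) (fun p => hf p A) (q + 4 * i) j
    have h2 := per_mod (f := fun p => f p A) (fun p => hf p A) q j
    rw [h1, h2]
    congr 2
    omega
  have hdec : ∀ k ≥ q, ∃ i j, j < 4 ∧ k = q + 4 * i + j := fun k hk =>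
    ⟨(k - q) / 4, (k - q) % 4, Nat.mod_lt _ (by norm_num), by omega⟩
  set I := q + 4 * (i₀ + i₁ + 1) with hI
  have hτk : ∀ k ≥ q, τ k As ≤ 16 * h := by
    intro k hk
    obtain ⟨i, j, hj, rfl⟩ := hdec k hk
    rw [hper4 τ hτ4]
    rcases Nat.eq_zero_or_pos j with rfl | hj0
    · rw [Nat.add_zero, hτh]
    · refine (hτj j hj0 hj).trans ?_
      have : (2:ℝ) ^ j ≤ 2 ^ 4 := pow_le_pow_right₀ (by norm_num) (by omega)
      nlinarith
  have hRemk : ∀ k ≥ I, ∀ s, |s| ≤ τ k As → ‖Rem (ε ^ 2) b15 V a0 k s‖ ≤ κ k As * s ^ 2 / 2 := by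
    intro k hk s hs
    obtain ⟨i, j, hj, rfl⟩ := hdec k (by omega)
    rw [hper4 τ hτ4] at hs
    rw [hper4 κ hκ4]
    rcases Nat.eq_zero_or_pos j with rfl | hj0
    · rw [Nat.add_zero] at hs ⊢
      exact hRem0 i (by omega) s (by rw [← hτh]; exact hs)
    · have h1 := hR.stepC (a0 := a0) (k := q + 4 * i) (B := κ q As) (h := h) hκ₁.le hh0.le
        (by linarith [hwin (q + 4 * i) (by omega)])
        (fun s hs => hRem0 i (by omega) s (by linarith)) j s (hs.trans (hτj j hj0 hj))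
      refine h1.trans ?_
      have h2 := (hPi i (by omega)).2.1 j hj0 hj
      have := mul_le_mul_of_nonneg_right h2 (sq_nonneg s)
      linarith
  -- selection of the time `0`
  obtain ⟨K0, ⟨⟨hK0a, hK0b⟩, hK0c⟩, hK0⟩ := (hfc.and_eventually (eventually_ge_atTop (I + Nmax))).exists
  set A' := S K0 with hA'
  have hA'lo : Alo ≤ A' := hA₁lo.trans hK0a.le
  have hA'hi : A' ≤ Λ * Ahi := by
    refine hK0b.le.trans ?_
    rw [← hΛA₁]
    exact hΛA₁hi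
  have hcl : cls A' = cls As := hK0c.trans hKs3.symm
  have hslk : ∀ k ≥ q + 4 * i₀, ‖slope (ε ^ 2) b15 V a0 k‖ ≤ β k A' := by
    intro k hk
    obtain ⟨i, j, hj, rfl⟩ := hdec k (by omega)
    rw [hper4 β hβ4]
    obtain ⟨θ', h', _, _, _, _, hP'⟩ := hper A' hA'lo hA'hi
    obtain ⟨p1, _⟩ := hP' (V (q + 4 * i) 0) (slope (ε ^ 2) b15 V a0 (q + 4 * i)) (halive4 i (by omega))
      (hslB hK0a.le i (by omega)) (by
        rw [haa, show q + 4 * i + 4 = q + 4 * (i + 1) by ring]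
        exact hslB hK0a.le (i + 1) (by omega))
    rw [← haa]; exact p1 j hj
  obtain ⟨n, hn, hkill⟩ := hkill A' hA'lo hA'hi
  obtain ⟨k, hk⟩ : ∃ k, q + 4 * K0 = k + n := ⟨q + 4 * K0 - n, by omega⟩
  have hkI : I ≤ k := by omega
  have hki₀ : q + 4 * i₀ ≤ k := by omega
  obtain ⟨j, hj, s, hs, hdead⟩ := hkill (k % 4) (V k 0) (slope (ε ^ 2) b15 V a0 k) (by omega) (by omega)
    (halive0 k hki₀)
    (by rw [← aa_mod, aa_eq hF, ← hk, mul_one])
    (fun j _ => by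
      rw [← aa_mod, aa_eq hF]
      have e5 : β (k % 4 + j) A' = β (k + j) A' :=
        (per_mod (f := fun p => β p A') (fun p => hβ4 p A') k j).symm
      rw [e5]
      exact hslk (k + j) (by omega))
  rw [← ww_mod, ww_eq hF, ← aa_mod, aa_eq hF] at hdead
  have eκ : κ (k % 4 + j) A' = κ (k + j) A' := (per_mod (f := fun p => κ p A') (fun p => hκ4 p A') k j).symm
  have eτ : τ (k % 4 + j) A' = τ (k + j) A' := (per_mod (f := fun p => τ p A') (fun p => hτ4 p A') k j).symm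
  rw [eτ, hτc _ _ _ hcl] at hs
  rw [eκ, hκc _ _ _ hcl] at hdead
  have hrem := hRemk (k + j) (by omega) s hs
  have hal := halive (k + j) (by omega) s (hs.trans (hτk _ (by omega)))
  -- shift of the base point
  obtain ⟨n', hn'⟩ : ∃ n' : ℤ, ((2:ℝ) ^ (k + j) / 15) + n' = 2 ^ (k % 4 + j) / 15 := by
    obtain ⟨i, hi⟩ := base_mod k
    refine ⟨2 ^ j * i, ?_⟩
    push_cast
    rw [pow_add, pow_add]
    have : (2:ℝ) ^ j * (2 ^ k / 15 + i) = 2 ^ j * (2 ^ (k % 4) / 15) := by rw [hi]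
    linarith
  have hal2 : Alive ε (2 ^ (k % 4 + j) / 15 + s) (V (k + j) s) := by
    have := Pool.Agent.W_4481e3_h1.Alive.add_int hal n'
    rwa [add_right_comm, hn'] at this
  refine hdead (V (k + j) s) ?_ hal2
  have e1 : V (k + j) s - (V (k + j) 0 + slope (ε ^ 2) b15 V a0 (k + j) * s) =
      Rem (ε ^ 2) b15 V a0 (k + j) s := by unfold Rem; ring
  rw [e1]
  exact hrem

end Pool.Agent.W_4481e3_q59
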