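import Pool.Agent.W_4481e3_h1.NBH

/-!
Dead tests for one sided families: no capture at a frozen base.
-/

open Filter Topology Set

namespace Pool.Agent.W_4481e3_h1

variable {e : ℂ} {ρ A : ℝ} {b : ℕ → ℝ} {V : ℕ → ℝ → ℂ}

lemma cs_lip (k : ℕ) (x t : ℝ) : |cs b k (x + t) - cs b k x| ≤ 2 * Real.pi * |t| := by
  unfold cs
  have h1 := Real.abs_cos_sub_cos_le (2 * Real.pi * (b k + (x + t))) (2 * Real.pi * (b k + x))
  refine h1.trans (le_of_eq ?_)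
  have : 2 * Real.pi * (b k + (x + t)) - 2 * Real.pi * (b k + x) = 2 * Real.pi * t := by ring
  rw [this, abs_mul, abs_of_pos Real.two_pi_pos]

lemma Fam.diff_step (hV : Fam e ρ A b V) {ζ : ℂ} (hζ : ζ ^ 2 = e) {n : ℕ} {y : ℝ} (hy : |y| ≤ ρ * 2 ^ n) :
    V (n + 1) (2 * y) - ζ = (V n y - ζ) * ((1 - 2 * cs b n y * ζ) - cs b n y * (V n y - ζ)) := by
  rw [hV.recur n y hy, ← hζ]
  unfold cs
  ring

/-- one step near the attracting constant -/
lemma Fam.step_small (hV : Fam e ρ A b V) {ζ : ℂ} (hζ : ζ ^ 2 = e) {n : ℕ} {x h δ c₀ θ d : ℝ}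
    (hθ : ‖1 - 2 * (c₀ : ℂ) * ζ‖ + 2 * d ≤ θ) (_ : 0 ≤ d)
    (hc : cs b n x = c₀) (hh : 4 * Real.pi * h * ‖ζ‖ ≤ d) (hδ : δ ≤ d)
    (hw : |x| + h ≤ ρ * 2 ^ n) (hP : ∀ t, |t| ≤ h → ‖V n (x + t) - ζ‖ ≤ δ) :
    ∀ t, |t| ≤ 2 * h → ‖V (n + 1) (2 * x + t) - ζ‖ ≤ θ * δ := by
  intro t' ht'
  obtain ⟨t, rfl⟩ : ∃ t, t' = 2 * t := ⟨t' / 2, by ring⟩
  have ht : |t| ≤ h := by
    rw [abs_mul, abs_two] at ht'; linarith
  have hx : |x + t| ≤ ρ * 2 ^ n := (abs_add_le _ _).trans (by linarith)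
  rw [← mul_add, hV.diff_step hζ hx, norm_mul, mul_comm]
  have hU := hP t ht
  have hU0 := norm_nonneg (V n (x + t) - ζ)
  have hcl := cs_lip (b := b) n x t
  rw [hc] at hcl
  have hfac : ‖(1 - 2 * (cs b n (x + t) : ℂ) * ζ) - cs b n (x + t) * (V n (x + t) - ζ)‖ ≤ θ := by
    have h1 : (1 - 2 * (cs b n (x + t) : ℂ) * ζ) - cs b n (x + t) * (V n (x + t) - ζ) =
        (1 - 2 * (c₀ : ℂ) * ζ) - 2 * ((cs b n (x + t) - c₀ : ℝ) : ℂ) * ζ -
          cs b n (x + t) * (V n (x + t) - ζ) := by push_cast; ring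
    rw [h1]
    refine (norm_sub_le _ _).trans ?_
    refine (add_le_add (norm_sub_le _ _) le_rfl).trans ?_
    rw [norm_mul (2 * _), norm_mul (2:ℂ), norm_mul ((cs b n (x + t) : ℝ) : ℂ), Complex.norm_real,
      Complex.norm_real, Real.norm_eq_abs, Real.norm_eq_abs, Complex.norm_ofNat]
    have h2 : 2 * |cs b n (x + t) - c₀| * ‖ζ‖ ≤ d := by
      calc 2 * |cs b n (x + t) - c₀| * ‖ζ‖ ≤ 2 * (2 * Real.pi * |t|) * ‖ζ‖ := by gcongr
        _ ≤ 2 * (2 * Real.pi * h) * ‖ζ‖ := by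
            have := Real.pi_pos
            gcongr
        _ ≤ d := by linarith
    have h3 : |cs b n (x + t)| * ‖V n (x + t) - ζ‖ ≤ 1 * d := by
      gcongr
      · exact abs_cs_le n _
      · exact hU.trans hδ
    linarith
  have hθ0 : 0 ≤ θ := (norm_nonneg _).trans hfac
  calc _ ≤ θ * ‖V n (x + t) - ζ‖ := by gcongr
    _ ≤ θ * δ := by gcongr

/-- one crude step -/
lemma Fam.step_big (hV : Fam e ρ A b V) {ζ : ℂ} (hζ : ζ ^ 2 = e) {n : ℕ} {x h δ : ℝ}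
    (hδ : δ ≤ 1) (hw : |x| + h ≤ ρ * 2 ^ n) (hP : ∀ t, |t| ≤ h → ‖V n (x + t) - ζ‖ ≤ δ) :
    ∀ t, |t| ≤ 2 * h → ‖V (n + 1) (2 * x + t) - ζ‖ ≤ (2 + 2 * ‖ζ‖) * δ := by
  intro t' ht'
  obtain ⟨t, rfl⟩ : ∃ t, t' = 2 * t := ⟨t' / 2, by ring⟩
  have ht : |t| ≤ h := by
    rw [abs_mul, abs_two] at ht'; linarith
  have hx : |x + t| ≤ ρ * 2 ^ n := (abs_add_le _ _).trans (by linarith)
  rw [← mul_add, hV.diff_step hζ hx, norm_mul, mul_comm]
  have hU := hP t ht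
  have hcs := abs_cs_le (b := b) n (x + t)
  have hfac : ‖(1 - 2 * (cs b n (x + t) : ℂ) * ζ) - cs b n (x + t) * (V n (x + t) - ζ)‖ ≤ 2 + 2 * ‖ζ‖ := by
    refine (norm_sub_le _ _).trans ?_
    refine (add_le_add (norm_sub_le _ _) le_rfl).trans ?_
    rw [norm_one, norm_mul (2 * _), norm_mul (2:ℂ), norm_mul ((cs b n (x + t) : ℝ) : ℂ), Complex.norm_real,
      Real.norm_eq_abs, Complex.norm_ofNat]
    have h2 : 2 * |cs b n (x + t)| * ‖ζ‖ ≤ 2 * 1 * ‖ζ‖ := by gcongr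
    have h3 : |cs b n (x + t)| * ‖V n (x + t) - ζ‖ ≤ 1 * 1 := by
      gcongr
      exact hU.trans hδ
    linarith
  have hδ0 : 0 ≤ δ := (norm_nonneg _).trans hU
  calc _ ≤ (2 + 2 * ‖ζ‖) * ‖V n (x + t) - ζ‖ := by gcongr
    _ ≤ (2 + 2 * ‖ζ‖) * δ := by gcongr

/-- **No capture at a frozen base.** -/
theorem Fam.no_capture (hV : Fam e ρ A b V) {ζ : ℂ} (hζ : ζ ^ 2 = e) {c₀ : ℝ}
    (hmult : ‖1 - 2 * (c₀ : ℂ) * ζ‖ < 1) {R : ℝ} (hR : 0 < R)
    (near : ∀ (k : ℕ) (a : ℝ), -(ρ * 2 ^ k) ≤ a → a + 1 ≤ ρ * 2 ^ k →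
      ∃ t ∈ Icc a (a + 1), R ≤ ‖V k t - ζ‖) {k : ℕ} {s : ℝ} (hs : |s| < ρ * 2 ^ k)
    (hc : ∀ j, cs b (k + j) (2 ^ j * s) = c₀) :
    ¬ Tendsto (fun j => V (k + j) (2 ^ j * s)) atTop (𝓝 ζ) := by
  intro hlim
  have hpi := Real.pi_pos
  set θ₀ := ‖1 - 2 * (c₀ : ℂ) * ζ‖ with hθ₀
  have hθ₀0 : 0 ≤ θ₀ := norm_nonneg _
  set θ := (1 + θ₀) / 2 with hθ
  set d := (1 - θ₀) / 4 with hd
  have hd0 : 0 < d := by rw [hd]; linarith
  have hθ0 : 0 < θ := by rw [hθ]; linarith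
  have hθ1 : θ < 1 := by rw [hθ]; linarith
  have hθd : θ₀ + 2 * d ≤ θ := by rw [hθ, hd]; linarith
  -- the width `h₁ = (1/2)^(M+1)`
  obtain ⟨M, hM⟩ : ∃ M : ℕ, 4 * Real.pi * (1 / 2) ^ (M + 1) * ‖ζ‖ ≤ d := by
    have ht : Tendsto (fun M : ℕ => 4 * Real.pi * (1 / 2 : ℝ) ^ (M + 1) * ‖ζ‖) atTop (𝓝 (4 * Real.pi * 0 * ‖ζ‖)) := by
      apply Tendsto.mul_const
      apply Tendsto.const_mul
      exact (tendsto_pow_atTop_nhds_zero_of_lt_one (by norm_num) (by norm_num)).comp (tendsto_add_atTop_nat 1)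
    rw [mul_zero, zero_mul] at ht
    exact ((ht.eventually (Iic_mem_nhds hd0))).exists
  set h₁ : ℝ := (1 / 2) ^ (M + 1) with hh₁
  have hh₁0 : 0 < h₁ := by positivity
  -- Stage A
  obtain ⟨j₀, hj₀⟩ : ∃ j₀ : ℕ, ‖V (k + j₀) (2 ^ j₀ * s) - ζ‖ < d := by
    have h1 := (Metric.tendsto_nhds.1 hlim d hd0).exists
    obtain ⟨j, hj⟩ := h1
    exact ⟨j, by rwa [dist_eq_norm] at hj⟩
  have hs2 : ∀ j : ℕ, |2 ^ j * s| < ρ * 2 ^ (k + j) := by
    intro j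
    rw [abs_mul, abs_of_pos (by positivity : (0:ℝ) < 2 ^ j), pow_add, ← mul_assoc, mul_comm]
    exact mul_lt_mul_of_pos_right hs (by positivity)
  obtain ⟨h, hh0, hhh, hhw, hhP⟩ : ∃ h, 0 < h ∧ h ≤ h₁ ∧ |2 ^ j₀ * s| + h ≤ ρ * 2 ^ (k + j₀) ∧
      ∀ t, |t| ≤ h → ‖V (k + j₀) (2 ^ j₀ * s + t) - ζ‖ ≤ d := by
    have h1 := hs2 j₀
    have hcont : ContinuousAt (V (k + j₀)) (2 ^ j₀ * s) := by
      apply (hV.cont (k + j₀)).continuousAt
      rw [abs_lt] at h1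
      exact Icc_mem_nhds h1.1 h1.2
    have h2 : ∀ᶠ y in 𝓝 (2 ^ j₀ * s), ‖V (k + j₀) y - ζ‖ < d :=
      (hcont.sub continuousAt_const).norm.eventually_lt continuousAt_const hj₀
    rw [Metric.eventually_nhds_iff] at h2
    obtain ⟨η, hη, h3⟩ := h2
    refine ⟨min (min (η / 2) h₁) (ρ * 2 ^ (k + j₀) - |2 ^ j₀ * s|),
      lt_min (lt_min (by positivity) hh₁0) (by linarith), (min_le_left _ _).trans (min_le_right _ _), ?_, ?_⟩
    · have := min_le_right (min (η / 2) h₁) (ρ * 2 ^ (k + j₀) - |2 ^ j₀ * s|)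
      linarith
    · intro t ht
      apply le_of_lt
      apply h3
      rw [Real.dist_eq, add_sub_cancel_left]
      have := (ht.trans (min_le_left _ _)).trans (min_le_left _ _)
      linarith
  -- Stage B
  have hB : ∀ i : ℕ, ∀ t, |t| ≤ min (2 ^ i * h) h₁ →
      ‖V (k + j₀ + i) (2 ^ (j₀ + i) * s + t) - ζ‖ ≤ θ ^ i * d := by
    intro i
    induction i with
    | zero =>
      intro t ht
      rw [pow_zero, one_mul] at ht
      simpa using hhP t (ht.trans (min_le_left _ _))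
    | succ i ih =>
      intro t ht
      have hci : cs b (k + j₀ + i) (2 ^ (j₀ + i) * s) = c₀ := by
        rw [add_assoc]; exact hc (j₀ + i)
      have hwi : |2 ^ (j₀ + i) * s| + min (2 ^ i * h) h₁ ≤ ρ * 2 ^ (k + j₀ + i) := by
        have h1 : |2 ^ (j₀ + i) * s| = 2 ^ i * |2 ^ j₀ * s| := by
          rw [pow_add, abs_mul, abs_mul, abs_mul, abs_of_pos (by positivity : (0:ℝ) < 2 ^ i)]; ring
        have h2 : min (2 ^ i * h) h₁ ≤ 2 ^ i * h := min_le_left _ _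
        have h3 : ρ * 2 ^ (k + j₀ + i) = 2 ^ i * (ρ * 2 ^ (k + j₀)) := by
          rw [pow_add _ (k + j₀) i]; ring
        rw [h1, h3]
        have h4 : (2:ℝ) ^ i * (|2 ^ j₀ * s| + h) ≤ 2 ^ i * (ρ * 2 ^ (k + j₀)) := by gcongr
        linarith
      have hhi : 4 * Real.pi * min (2 ^ i * h) h₁ * ‖ζ‖ ≤ d := by
        refine le_trans ?_ hM
        gcongr
        exact min_le_right _ _
      have hδi : θ ^ i * d ≤ d := by
        have : θ ^ i ≤ 1 := pow_le_one₀ hθ0.le hθ1.le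
        nlinarith
      have h1 := hV.step_small hζ hθd hd0.le hci hhi hδi hwi ih t ?_
      · have e1 : (2:ℝ) * (2 ^ (j₀ + i) * s) = 2 ^ (j₀ + (i + 1)) * s := by
          rw [← add_assoc, pow_succ]; ring
        rw [e1, ← add_assoc] at h1
        rw [← add_assoc]
        refine h1.trans (le_of_eq ?_)
        rw [pow_succ]; ring
      · refine ht.trans ?_
        rw [mul_min_of_nonneg _ _ (by norm_num : (0:ℝ) ≤ 2)]
        apply min_le_min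
        · rw [pow_succ]; linarith
        · linarith
  -- choice of `i`
  set C := 2 + 2 * ‖ζ‖ with hC
  have hC1 : 1 ≤ C := by
    have := norm_nonneg ζ
    rw [hC]; linarith
  have hev : ∀ᶠ i : ℕ in atTop, h₁ ≤ 2 ^ i * h ∧ C ^ (M + 1) * (θ ^ i * d) < min 1 R ∧
      1 / 2 ≤ (ρ * 2 ^ k - |s|) * 2 ^ i := by
    have t1 : Tendsto (fun i : ℕ => (2:ℝ) ^ i * h) atTop atTop :=
      (tendsto_pow_atTop_atTop_of_one_lt (by norm_num)).atTop_mul_const hh0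
    have t2 : Tendsto (fun i : ℕ => C ^ (M + 1) * (θ ^ i * d)) atTop (𝓝 (C ^ (M + 1) * (0 * d))) :=
      ((tendsto_pow_atTop_nhds_zero_of_lt_one hθ0.le hθ1).mul_const d).const_mul _
    rw [zero_mul, mul_zero] at t2
    have t3 : Tendsto (fun i : ℕ => (ρ * 2 ^ k - |s|) * (2:ℝ) ^ i) atTop atTop :=
      (tendsto_pow_atTop_atTop_of_one_lt (by norm_num)).const_mul_atTop (by linarith)
    filter_upwards [t1.eventually_ge_atTop h₁, t2.eventually (Iio_mem_nhds (lt_min one_pos hR)),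
      t3.eventually_ge_atTop (1 / 2)] with i h1 h2 h3
    exact ⟨h1, h2, h3⟩
  obtain ⟨i, hi1, hi2, hi3⟩ := hev.exists
  -- Stage C
  set n := k + j₀ + i with hn
  set x := 2 ^ (j₀ + i) * s with hx
  have hxw : |x| + 1 / 2 ≤ ρ * 2 ^ n := by
    have h1 : |x| = 2 ^ (j₀ + i) * |s| := by
      rw [hx, abs_mul, abs_of_pos (by positivity)]
    have h2 : ρ * 2 ^ n = 2 ^ (j₀ + i) * (ρ * 2 ^ k) := by
      rw [hn, add_assoc, pow_add]; ring
    rw [h1, h2]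
    have h3 : (ρ * 2 ^ k - |s|) * 2 ^ i ≤ (ρ * 2 ^ k - |s|) * 2 ^ (j₀ + i) := by
      apply mul_le_mul_of_nonneg_left _ (by linarith)
      exact pow_le_pow_right₀ (by norm_num) (by omega)
    linarith
  have hCst : ∀ m ≤ M, ∀ t, |t| ≤ 2 ^ m * h₁ →
      ‖V (n + m) (2 ^ m * x + t) - ζ‖ ≤ C ^ m * (θ ^ i * d) := by
    intro m
    induction m with
    | zero =>
      intro _ t ht
      rw [pow_zero, one_mul] at ht
      have := hB i t (le_min (ht.trans hi1) ht)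
      simpa using this
    | succ m ih =>
      intro hm t ht
      have hδ0 : 0 ≤ θ ^ i * d := by positivity
      have hδm : C ^ m * (θ ^ i * d) ≤ 1 := by
        calc C ^ m * (θ ^ i * d) ≤ C ^ (M + 1) * (θ ^ i * d) := by
              apply mul_le_mul_of_nonneg_right _ hδ0
              exact pow_le_pow_right₀ hC1 (by omega)
          _ ≤ 1 := hi2.le.trans (min_le_left _ _)
      have hwm : |2 ^ m * x| + 2 ^ m * h₁ ≤ ρ * 2 ^ (n + m) := by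
        have h1 : |2 ^ m * x| = 2 ^ m * |x| := by
          rw [abs_mul, abs_of_pos (by positivity : (0:ℝ) < 2 ^ m)]
        have h2 : ρ * 2 ^ (n + m) = 2 ^ m * (ρ * 2 ^ n) := by rw [pow_add]; ring
        have h3 : h₁ ≤ 1 / 2 := by
          rw [hh₁, pow_succ]
          have : (1 / 2 : ℝ) ^ M ≤ 1 := pow_le_one₀ (by norm_num) (by norm_num)
          linarith
        rw [h1, h2, ← mul_add]
        gcongr
        linarith
      have h1 := hV.step_big hζ hδm hwm (ih (by omega)) t (by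
        refine ht.trans (le_of_eq ?_)
        rw [pow_succ]; ring)
      have e1 : (2:ℝ) * (2 ^ m * x) = 2 ^ (m + 1) * x := by rw [pow_succ]; ring
      rw [e1, add_assoc] at h1
      refine h1.trans (le_of_eq ?_)
      rw [pow_succ, hC]; ring
  have hfin := hCst M le_rfl
  have hMh : (2:ℝ) ^ M * h₁ = 1 / 2 := by
    rw [hh₁, pow_succ, one_div_pow]; field_simp
  rw [hMh] at hfin
  have hwM : |2 ^ M * x| + 1 / 2 ≤ ρ * 2 ^ (n + M) := by
    have h1 : |2 ^ M * x| = 2 ^ M * |x| := by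
      rw [abs_mul, abs_of_pos (by positivity : (0:ℝ) < 2 ^ M)]
    have h2 : ρ * 2 ^ (n + M) = 2 ^ M * (ρ * 2 ^ n) := by rw [pow_add]; ring
    rw [h1, h2]
    have h3 : (1:ℝ) ≤ 2 ^ M := one_le_pow₀ (by norm_num)
    have h4 : (2:ℝ) ^ M * (|x| + 1 / 2) ≤ 2 ^ M * (ρ * 2 ^ n) := by gcongr
    linarith
  have hwM' := abs_le.1 (show |2 ^ M * x| ≤ ρ * 2 ^ (n + M) - 1 / 2 by linarith)
  obtain ⟨t, ⟨ht1, ht2⟩, ht3⟩ := near (n + M) (2 ^ M * x - 1 / 2) (by linarith [hwM'.1]) (by linarith [hwM'.2])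
  have h5 := hfin (t - 2 ^ M * x) (by rw [abs_le]; constructor <;> linarith)
  rw [add_sub_cancel] at h5
  have h6 : C ^ M * (θ ^ i * d) ≤ C ^ (M + 1) * (θ ^ i * d) := by
    apply mul_le_mul_of_nonneg_right _ (by positivity)
    exact pow_le_pow_right₀ hC1 (by omega)
  have h7 := hi2.trans_le (min_le_right _ _)
  linarith

end Pool.Agent.W_4481e3_h1
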