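import Pool.Agent.W_4481e3_q59.DeadA

/-!
Dead tests at the frozen base points `0` (cosine `1`) and `1/3`, `2/3` (cosine `-1/2`).
-/

open Filter Topology Set

namespace Pool.Agent.W_4481e3_h1

variable {e : ℂ} {ρ A : ℝ} {b : ℕ → ℝ} {V : ℕ → ℝ → ℂ}

/-- the fibre map with cosine `c` -/
def fc (c : ℝ) (e w : ℂ) : ℂ := w + c * (e - w ^ 2)

/-- escape region of `fc c e` -/
def EscC (c : ℝ) (e w : ℂ) : Prop := ‖1 / 2 - c * w‖ + ‖1 / 4 - c ^ 2 * e‖ < ‖1 / 2 - c * w‖ ^ 2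

/-- Apollonius trap of `fc c (ε ^ 2)`, `c > 0`, around `ε` -/
def TrapC (c : ℝ) (ε w : ℂ) : Prop :=
  ‖w - ε‖ * (ε.re + c * ‖ε‖ ^ 2) < ‖w + ε‖ * (ε.re - c * ‖ε‖ ^ 2)

/-- dead at the frozen base `0` -/
def Dead0 (ε w : ℂ) : Prop :=
  ∃ j : ℕ, EscC 1 (ε ^ 2) ((fc 1 (ε ^ 2))^[j] w) ∨ TrapC 1 ε ((fc 1 (ε ^ 2))^[j] w)

/-- dead at the frozen base `1/3` -/
def Dead3 (ε w : ℂ) : Prop :=
  ∃ j : ℕ, EscC (-1 / 2) (ε ^ 2) ((fc (-1 / 2) (ε ^ 2))^[j] w) ∨
    TrapC (1 / 2) ε (-((fc (-1 / 2) (ε ^ 2))^[j] w))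

lemma fc_conj (c : ℝ) (e w : ℂ) : 1 / 2 - c * fc c e w = (1 / 2 - c * w) ^ 2 + (1 / 4 - c ^ 2 * e) := by
  unfold fc; ring

/-- escape -/
lemma esc_gen {c : ℝ} {e w : ℂ} (h : EscC c e w) (B : ℝ) :
    ∃ j : ℕ, B ≤ ‖(fc c e)^[j] w‖ := by
  unfold EscC at h
  set r := ‖1 / 2 - c * w‖ with hr
  set κ := ‖1 / 4 - c ^ 2 * e‖ with hκ
  have hκ0 : 0 ≤ κ := norm_nonneg _
  have hr0 : 0 ≤ r := norm_nonneg _
  have hr1 : 1 < r := by
    by_contra hc
    push Not at hc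
    nlinarith
  set g := r ^ 2 - r - κ with hg
  have hg0 : 0 < g := by rw [hg]; linarith
  have key : ∀ j : ℕ, r + j * g ≤ ‖1 / 2 - c * (fc c e)^[j] w‖ := by
    intro j
    induction j with
    | zero => simp [hr]
    | succ j ih =>
      rw [Function.iterate_succ_apply', fc_conj]
      set y := 1 / 2 - c * (fc c e)^[j] w with hy
      have h1 : ‖y‖ ^ 2 - κ ≤ ‖y ^ 2 + (1 / 4 - c ^ 2 * e)‖ := by
        have := norm_sub_norm_le (y ^ 2) (-(1 / 4 - c ^ 2 * e))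
        rwa [norm_neg, sub_neg_eq_add, norm_pow] at this
      have h2 : r ≤ ‖y‖ := by
        have : 0 ≤ (j:ℝ) * g := by positivity
        linarith only [ih, this]
      have h3 : ‖y‖ + g ≤ ‖y‖ ^ 2 - κ := by
        rw [hg]
        nlinarith only [h2, hr1]
      push_cast
      linarith
  -- choose `j` large
  obtain ⟨j, hj⟩ := exists_nat_gt ((1 + |c| * |B|) / g)
  rw [div_lt_iff₀ hg0] at hj
  refine ⟨j, ?_⟩
  by_contra hlt
  push Not at hlt
  have h1 := key j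
  have h2 : ‖1 / 2 - c * (fc c e)^[j] w‖ ≤ 1 / 2 + |c| * ‖(fc c e)^[j] w‖ := by
    refine (norm_sub_le _ _).trans ?_
    rw [norm_mul, Complex.norm_real, Real.norm_eq_abs]
    norm_num
  have h3 : |c| * ‖(fc c e)^[j] w‖ ≤ |c| * |B| := by
    gcongr
    exact hlt.le.trans (le_abs_self B)
  linarith

/-- **Apollonius trap** -/
lemma trap_gen {c : ℝ} (hc : 0 < c) {ε v : ℂ} (hq : c * ‖ε‖ ^ 2 < ε.re) (hv : TrapC c ε v) :
    Tendsto (fun j : ℕ => (fc c (ε ^ 2))^[j] v) atTop (𝓝 ε) := by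
  unfold TrapC at hv
  set x := ε.re with hx
  set q := ‖ε‖ ^ 2 with hq2
  have hq0 : 0 ≤ q := by positivity
  have hcq : 0 ≤ c * q := by positivity
  have hxp : 0 < x + c * q := by linarith
  have hxm : 0 < x - c * q := by linarith
  have hY0 : 0 < ‖v + ε‖ := by
    by_contra hcon
    have h0 : ‖v + ε‖ = 0 := le_antisymm (not_lt.1 hcon) (norm_nonneg _)
    rw [h0, zero_mul] at hv
    have : 0 ≤ ‖v - ε‖ * (x + c * q) := by positivity
    linarith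
  -- the ratio
  set N := ‖v - ε‖ / ‖v + ε‖ with hN
  have hN0 : 0 ≤ N := by positivity
  have hNk : N * (x + c * q) < x - c * q := by
    rw [hN, div_mul_eq_mul_div, div_lt_iff₀ hY0]
    linarith
  have hN1 : N < 1 := by
    by_contra hcon
    push Not at hcon
    nlinarith only [hNk, hq, hcon, hcq, hN0]
  have h1N : 0 < 1 - N := by linarith
  set r := ‖ε‖ * (1 + N) / (1 - N) with hr
  have hε0 : 0 ≤ ‖ε‖ := norm_nonneg _
  have hr0 : 0 ≤ r := by positivity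
  -- geometry of the closed Apollonius disc
  have hbd : ∀ u : ℂ, ‖u - ε‖ ≤ N * ‖u + ε‖ → ‖u‖ ≤ r := by
    intro u hu
    rw [hr, le_div_iff₀ h1N]
    have h1 : ‖u‖ - ‖ε‖ ≤ ‖u - ε‖ := norm_sub_norm_le _ _
    have h2 : ‖u + ε‖ ≤ ‖u‖ + ‖ε‖ := norm_add_le _ _
    nlinarith only [hu, h1, hN0, h2]
  have hgap : 0 < x - c * (‖ε‖ * r) := by
    have e1 : ‖ε‖ * r = q * (1 + N) / (1 - N) := by rw [hr, hq2]; ring
    rw [e1, sub_pos, mul_div_assoc', div_lt_iff₀ h1N]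
    linarith
  set g := 4 * c * (x - c * (‖ε‖ * r)) with hg
  have hg0 : 0 < g := by positivity
  set B := (1 + c * (r + ‖ε‖)) ^ 2 with hB
  have hB0 : 0 < B := by positivity
  -- contraction of the ratio
  have hcon : ∀ u : ℂ, ‖u - ε‖ ≤ N * ‖u + ε‖ → ‖1 - c * (u + ε)‖ ^ 2 ≤ ‖1 - c * (u - ε)‖ ^ 2 * (1 - g / B) ∧
      ‖1 - c * (u - ε)‖ ^ 2 ≤ B := by
    intro u hu
    have hur := hbd u hu
    have h1 : ‖1 - c * (u - ε)‖ ^ 2 ≤ B := by
      rw [hB]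
      gcongr
      refine (norm_sub_le _ _).trans ?_
      rw [norm_one, norm_mul, Complex.norm_real, Real.norm_eq_abs, abs_of_pos hc]
      gcongr
      exact (norm_sub_le _ _).trans (by linarith)
    have h2 : ‖1 - c * (u - ε)‖ ^ 2 - ‖1 - c * (u + ε)‖ ^ 2 = 4 * c * (x - c * (ε.re * u.re + ε.im * u.im)) := by
      rw [Complex.sq_norm, Complex.sq_norm, Complex.normSq_apply, Complex.normSq_apply]
      simp only [Complex.sub_re, Complex.sub_im, Complex.add_re, Complex.add_im, Complex.mul_re,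
        Complex.mul_im, Complex.ofReal_re, Complex.ofReal_im, Complex.one_re, Complex.one_im]
      rw [hx]
      ring
    have h3 : ε.re * u.re + ε.im * u.im ≤ ‖ε‖ * r := by
      have h4 : ε.re * u.re + ε.im * u.im = ((starRingEnd ℂ) ε * u).re := by
        simp [Complex.mul_re]
      rw [h4]
      refine (Complex.re_le_norm _).trans ?_
      rw [norm_mul, RCLike.norm_conj]
      gcongr
    have h5 : g ≤ ‖1 - c * (u - ε)‖ ^ 2 - ‖1 - c * (u + ε)‖ ^ 2 := by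
      rw [h2, hg]
      have : c * (ε.re * u.re + ε.im * u.im) ≤ c * (‖ε‖ * r) := by gcongr
      nlinarith only [hc, this]
    refine ⟨?_, h1⟩
    have h6 : ‖1 - c * (u - ε)‖ ^ 2 * (g / B) ≤ g := by
      rw [mul_div_assoc', div_le_iff₀ hB0]
      nlinarith only [hg0, h1]
    nlinarith only [h5, h6]
  have hv0 : ‖v - ε‖ ≤ N * ‖v + ε‖ := by
    rw [hN, div_mul_cancel₀ _ hY0.ne']
  have hθ0 : 0 ≤ 1 - g / B := by
    have h1 := hcon v hv0
    have h2 : 0 ≤ ‖1 - c * (v + ε)‖ ^ 2 := by positivity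
    by_contra hneg
    push Not at hneg
    have h3 : ‖1 - c * (v - ε)‖ ^ 2 * (1 - g / B) ≤ 0 :=
      mul_nonpos_of_nonneg_of_nonpos (by positivity) hneg.le
    have h4 : ‖1 - c * (v + ε)‖ ^ 2 = 0 := le_antisymm (h1.1.trans h3) h2
    -- then `1 - g/B < 0` forces `‖1 - c (v-ε)‖ = 0`, but the difference is at least `g > 0`
    have h5 : ‖1 - c * (v - ε)‖ ^ 2 ≤ 0 := by
      by_contra h6
      push Not at h6
      nlinarith only [h1, hneg, h6, h1.1]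
    have h7 : ‖1 - c * (v - ε)‖ ^ 2 - ‖1 - c * (v + ε)‖ ^ 2 = 4 * c * (x - c * (ε.re * v.re + ε.im * v.im)) := by
      rw [Complex.sq_norm, Complex.sq_norm, Complex.normSq_apply, Complex.normSq_apply]
      simp only [Complex.sub_re, Complex.sub_im, Complex.add_re, Complex.add_im, Complex.mul_re,
        Complex.mul_im, Complex.ofReal_re, Complex.ofReal_im, Complex.one_re, Complex.one_im]
      rw [hx]
      ring
    have h8 : ε.re * v.re + ε.im * v.im ≤ ‖ε‖ * r := by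
      have h4 : ε.re * v.re + ε.im * v.im = ((starRingEnd ℂ) ε * v).re := by
        simp [Complex.mul_re]
      rw [h4]
      refine (Complex.re_le_norm _).trans ?_
      rw [norm_mul, RCLike.norm_conj]
      have := hbd v hv0
      gcongr
    have h9 : c * (ε.re * v.re + ε.im * v.im) ≤ c * (‖ε‖ * r) := by gcongr
    nlinarith only [h5, h7, hc, hgap, h9]
  set θ := Real.sqrt (1 - g / B) with hθ
  have hθ00 : 0 ≤ θ := Real.sqrt_nonneg _
  have hθ1 : θ < 1 := by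
    rw [hθ, Real.sqrt_lt' one_pos]
    have : 0 < g / B := by positivity
    linarith
  have hcon2 : ∀ u : ℂ, ‖u - ε‖ ≤ N * ‖u + ε‖ → ‖1 - c * (u + ε)‖ ≤ θ * ‖1 - c * (u - ε)‖ := by
    intro u hu
    apply le_of_sq_le_sq _ (by positivity)
    rw [mul_pow, hθ, Real.sq_sqrt hθ0]
    linarith [(hcon u hu).1]
  -- induction
  have hind : ∀ j : ℕ, ‖(fc c (ε ^ 2))^[j] v - ε‖ ≤ θ ^ j * N * ‖(fc c (ε ^ 2))^[j] v + ε‖ := by
    intro j
    induction j with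
    | zero => simpa using hv0
    | succ j ih =>
      rw [Function.iterate_succ_apply']
      set u := (fc c (ε ^ 2))^[j] v with hu
      have hθj : θ ^ j ≤ 1 := pow_le_one₀ hθ00 hθ1.le
      have hu1 : ‖u - ε‖ ≤ N * ‖u + ε‖ := by
        refine ih.trans ?_
        have : 0 ≤ N * ‖u + ε‖ := by positivity
        nlinarith only [hθj, this]
      have e1 : fc c (ε ^ 2) u - ε = (u - ε) * (1 - c * (u + ε)) := by unfold fc; ring
      have e2 : fc c (ε ^ 2) u + ε = (u + ε) * (1 - c * (u - ε)) := by unfold fc; ring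
      rw [e1, e2, norm_mul, norm_mul]
      calc ‖u - ε‖ * ‖1 - c * (u + ε)‖ ≤ (θ ^ j * N * ‖u + ε‖) * (θ * ‖1 - c * (u - ε)‖) := by
            gcongr
            exact hcon2 u hu1
        _ = θ ^ (j + 1) * N * (‖u + ε‖ * ‖1 - c * (u - ε)‖) := by rw [pow_succ]; ring
  have hind2 : ∀ j : ℕ, ‖(fc c (ε ^ 2))^[j] v - ε‖ ≤ θ ^ j * (N * (r + ‖ε‖)) := by
    intro j
    have h1 := hind j
    have hθj : θ ^ j ≤ 1 := pow_le_one₀ hθ00 hθ1.le
    have hu1 : ‖(fc c (ε ^ 2))^[j] v - ε‖ ≤ N * ‖(fc c (ε ^ 2))^[j] v + ε‖ := by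
      refine h1.trans ?_
      have : 0 ≤ N * ‖(fc c (ε ^ 2))^[j] v + ε‖ := by positivity
      nlinarith only [hθj, this]
    have h2 := hbd _ hu1
    calc _ ≤ θ ^ j * N * ‖(fc c (ε ^ 2))^[j] v + ε‖ := h1
      _ ≤ θ ^ j * N * (r + ‖ε‖) := by
          gcongr
          exact (norm_add_le _ _).trans (by linarith)
      _ = _ := by ring
  rw [tendsto_iff_norm_sub_tendsto_zero]
  have hlim : Tendsto (fun j : ℕ => θ ^ j * (N * (r + ‖ε‖))) atTop (𝓝 0) := by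
    have := (tendsto_pow_atTop_nhds_zero_of_lt_one hθ00 hθ1).mul_const (N * (r + ‖ε‖))
    rwa [zero_mul] at this
  exact squeeze_zero (fun j => norm_nonneg _) hind2 hlim

/-- orbits over a frozen base -/
lemma Fam.frozen (hV : Fam e ρ A b V) {c₀ : ℝ} (hc₀ : 2 * c₀ ^ 2 - 1 = c₀) {k : ℕ} {s : ℝ}
    (hs : Dm ρ k s) (hc : cs b k s = c₀) (j : ℕ) :
    cs b (k + j) (2 ^ j * s) = c₀ ∧ Dm ρ (k + j) (2 ^ j * s) ∧ V (k + j) (2 ^ j * s) = (fc c₀ e)^[j] (V k s) := by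
  induction j with
  | zero => simpa using ⟨hc, hs⟩
  | succ j ih =>
    obtain ⟨h1, h2, h3⟩ := ih
    have e1 : (2:ℝ) ^ (j + 1) * s = 2 * (2 ^ j * s) := by rw [pow_succ]; ring
    refine ⟨?_, ?_, ?_⟩
    · rw [← add_assoc, e1, hV.cs_succ, h1, hc₀]
    · rw [← add_assoc, e1]
      exact h2.succ
    · rw [← add_assoc, e1, hV.recur _ _ h2.ok.mem, Function.iterate_succ_apply', ← h3]
      have : Real.cos (2 * Real.pi * (b (k + j) + 2 ^ j * s)) = c₀ := h1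
      rw [this]
      rfl

lemma Dm.lt {k : ℕ} {t : ℝ} (h : Dm ρ k t) : |t| < ρ * 2 ^ k := by
  unfold Dm at h; linarith

/-- the recurrence property (output of the compactness half) -/
def NearP (ε : ℂ) (ρ : ℝ) (V : ℕ → ℝ → ℂ) : Prop :=
  ∀ ℓ > (0:ℝ), ∃ R > (0:ℝ), ∀ (k : ℕ) (a : ℝ), -(ρ * 2 ^ k) ≤ a → a + ℓ ≤ ρ * 2 ^ k →
    (∃ t ∈ Icc a (a + ℓ), R ≤ ‖V k t - ε‖) ∧ (∃ t ∈ Icc a (a + ℓ), R ≤ ‖V k t + ε‖)

/-- **Dead test at base `0`.** -/
theorem Fam.not_dead0 {ε : ℂ} (hV : Fam (ε ^ 2) ρ A b V) (hN : NearP ε ρ V) (he : ‖ε‖ ≤ 1 / 2)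
    (hq : ‖ε‖ ^ 2 < ε.re) {k : ℕ} {s : ℝ} (hs : Dm ρ k s) (hc : cs b k s = 1) : ¬ Dead0 ε (V k s) := by
  have he2 : ‖ε ^ 2‖ ≤ 1 / 4 := by rw [norm_pow]; nlinarith [norm_nonneg ε]
  rintro ⟨j, hj⟩
  obtain ⟨h1, h2, h3⟩ := hV.frozen (c₀ := 1) (by norm_num) hs hc j
  rw [← h3] at hj
  rcases hj with hj | hj
  · obtain ⟨i, hi⟩ := esc_gen hj 30
    obtain ⟨-, h5, h6⟩ := hV.frozen (c₀ := 1) (by norm_num) h2 h1 i
    rw [← h6] at hi
    exact absurd (hV.bd he2 h5) (not_lt.2 hi)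
  · obtain ⟨R, hR, hnear⟩ := hN 1 one_pos
    have hmult : ‖1 - 2 * ((1:ℝ) : ℂ) * ε‖ < 1 := by
      apply lt_of_pow_lt_pow_left₀ 2 zero_le_one
      rw [Complex.sq_norm, Complex.normSq_apply] at hq ⊢
      simp only [Complex.sub_re, Complex.sub_im, Complex.mul_re, Complex.mul_im, Complex.ofReal_one,
        Complex.one_re, Complex.one_im, Complex.re_ofNat, Complex.im_ofNat]
      nlinarith only [hq]
    refine hV.no_capture rfl hmult hR (fun k a h1 h2 => (hnear k a h1 h2).1) h2.lt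
      (fun i => (hV.frozen (c₀ := 1) (by norm_num) h2 h1 i).1) ?_
    have := trap_gen (c := 1) one_pos (by rwa [one_mul]) hj
    refine this.congr fun i => ?_
    exact (hV.frozen (c₀ := 1) (by norm_num) h2 h1 i).2.2.symm

/-- **Dead test at base `1/3`.** -/
theorem Fam.not_dead3 {ε : ℂ} (hV : Fam (ε ^ 2) ρ A b V) (hN : NearP ε ρ V) (he : ‖ε‖ ≤ 1 / 2)
    (hq : ‖ε‖ ^ 2 < ε.re) {k : ℕ} {s : ℝ} (hs : Dm ρ k s) (hc : cs b k s = -1 / 2) : ¬ Dead3 ε (V k s) := by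
  have he2 : ‖ε ^ 2‖ ≤ 1 / 4 := by rw [norm_pow]; nlinarith only [he, norm_nonneg ε]
  have hq0 : 0 ≤ ‖ε‖ ^ 2 := by positivity
  rintro ⟨j, hj⟩
  obtain ⟨h1, h2, h3⟩ := hV.frozen (c₀ := -1 / 2) (by norm_num) hs hc j
  rw [← h3] at hj
  rcases hj with hj | hj
  · obtain ⟨i, hi⟩ := esc_gen hj 30
    obtain ⟨-, h5, h6⟩ := hV.frozen (c₀ := -1 / 2) (by norm_num) h2 h1 i
    rw [← h6] at hi
    exact absurd (hV.bd he2 h5) (not_lt.2 hi)
  · obtain ⟨R, hR, hnear⟩ := hN 1 one_pos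
    have hmult : ‖1 - 2 * ((-1 / 2 : ℝ) : ℂ) * (-ε)‖ < 1 := by
      apply lt_of_pow_lt_pow_left₀ 2 zero_le_one
      rw [Complex.sq_norm, Complex.normSq_apply] at hq ⊢
      push_cast
      have e1 : (1 : ℂ) - 2 * (-1 / 2) * (-ε) = 1 - ε := by ring
      rw [e1]
      simp only [Complex.sub_re, Complex.sub_im, Complex.one_re, Complex.one_im]
      nlinarith only [hq]
    refine hV.no_capture (by ring) hmult hR (fun k a h1 h2 => by
      obtain ⟨t, ht, h⟩ := (hnear k a h1 h2).2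
      exact ⟨t, ht, by rwa [sub_neg_eq_add]⟩) h2.lt
      (fun i => (hV.frozen (c₀ := -1 / 2) (by norm_num) h2 h1 i).1) ?_
    have h4 := trap_gen (c := 1 / 2) (by norm_num) (by linarith) hj
    have h5 : ∀ (i : ℕ) (w : ℂ), (fc (-1 / 2) (ε ^ 2))^[i] w = -((fc (1 / 2) (ε ^ 2))^[i] (-w)) := by
      intro i
      induction i with
      | zero => intro w; simp
      | succ i ih =>
        intro w
        rw [Function.iterate_succ_apply', Function.iterate_succ_apply', ih]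
        unfold fc
        push_cast
        ring
    have h6 := h4.neg
    refine h6.congr fun i => ?_
    rw [(hV.frozen (c₀ := -1 / 2) (by norm_num) h2 h1 i).2.2, h5]

end Pool.Agent.W_4481e3_h1
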