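import Pool.Agent.W_4481e3_q59.DeadB

/-!
No capture at a frozen base also by a repelling constant of multiplier `< 2`.
-/

open Filter Topology Set

namespace Pool.Agent.W_4481e3_h1

variable {e : ℂ} {ρ A : ℝ} {b : ℕ → ℝ} {V : ℕ → ℝ → ℂ}

/-- the family is never very near to `ζ` on a window of a fixed width -/
lemma Fam.finish (hV : Fam e ρ A b V) {ζ : ℂ} (hζ : ζ ^ 2 = e) {R : ℝ}
    (near : ∀ (k : ℕ) (a : ℝ), -(ρ * 2 ^ k) ≤ a → a + 1 ≤ ρ * 2 ^ k →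
      ∃ t ∈ Icc a (a + 1), R ≤ ‖V k t - ζ‖) {M : ℕ} {n : ℕ} {x δ : ℝ}
    (hδ0 : 0 ≤ δ) (hδ : (2 + 2 * ‖ζ‖) ^ M * δ < min 1 R) (hxw : |x| + 1 / 2 ≤ ρ * 2 ^ n)
    (hP : ∀ t, |t| ≤ (1 / 2) ^ (M + 1) → ‖V n (x + t) - ζ‖ ≤ δ) : False := by
  set C := 2 + 2 * ‖ζ‖ with hC
  have hC1 : 1 ≤ C := by
    have := norm_nonneg ζ
    rw [hC]; linarith
  set h₁ : ℝ := (1 / 2) ^ (M + 1) with hh₁
  have hh₁0 : 0 < h₁ := by positivity
  have hCst : ∀ m ≤ M, ∀ t, |t| ≤ 2 ^ m * h₁ → ‖V (n + m) (2 ^ m * x + t) - ζ‖ ≤ C ^ m * δ := by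
    intro m
    induction m with
    | zero =>
      intro _ t ht
      rw [pow_zero, one_mul] at ht
      simpa using hP t ht
    | succ m ih =>
      intro hm t ht
      have hδm : C ^ m * δ ≤ 1 := by
        calc C ^ m * δ ≤ C ^ M * δ := by
              apply mul_le_mul_of_nonneg_right _ hδ0
              exact pow_le_pow_right₀ hC1 (by omega)
          _ ≤ 1 := hδ.le.trans (min_le_left _ _)
      have hwm : |2 ^ m * x| + 2 ^ m * h₁ ≤ ρ * 2 ^ (n + m) := by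
        have h1 : |2 ^ m * x| = 2 ^ m * |x| := by
          rw [abs_mul, abs_of_pos (by positivity : (0:ℝ) < 2 ^ m)]
        have h2 : ρ * 2 ^ (n + m) = 2 ^ m * (ρ * 2 ^ n) := by rw [pow_add]; ring
        have h3 : h₁ ≤ 1 / 2 := by
          rw [hh₁, pow_succ]
          have : (1 / 2 : ℝ) ^ M ≤ 1 := pow_le_one₀ (by norm_num) (by norm_num)
          linarith
        rw [h1, h2, ← mul_add]
        gcongr
        linarith
      have h1 := hV.step_big hζ hδm hwm (ih (by omega)) t (by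
        refine ht.trans (le_of_eq ?_)
        rw [pow_succ]; ring)
      have e1 : (2:ℝ) * (2 ^ m * x) = 2 ^ (m + 1) * x := by rw [pow_succ]; ring
      rw [e1, add_assoc] at h1
      refine h1.trans (le_of_eq ?_)
      rw [pow_succ, hC]; ring
  have hfin := hCst M le_rfl
  have hMh : (2:ℝ) ^ M * h₁ = 1 / 2 := by
    rw [hh₁, pow_succ, one_div_pow]; field_simp
  rw [hMh] at hfin
  have hwM : |2 ^ M * x| + 1 / 2 ≤ ρ * 2 ^ (n + M) := by
    have h1 : |2 ^ M * x| = 2 ^ M * |x| := by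
      rw [abs_mul, abs_of_pos (by positivity : (0:ℝ) < 2 ^ M)]
    have h2 : ρ * 2 ^ (n + M) = 2 ^ M * (ρ * 2 ^ n) := by rw [pow_add]; ring
    rw [h1, h2]
    have h3 : (1:ℝ) ≤ 2 ^ M := one_le_pow₀ (by norm_num)
    have h4 : (2:ℝ) ^ M * (|x| + 1 / 2) ≤ 2 ^ M * (ρ * 2 ^ n) := by gcongr
    linarith
  have hwM' := abs_le.1 (show |2 ^ M * x| ≤ ρ * 2 ^ (n + M) - 1 / 2 by linarith)
  obtain ⟨t, ⟨ht1, ht2⟩, ht3⟩ := near (n + M) (2 ^ M * x - 1 / 2) (by linarith [hwM'.1]) (by linarith [hwM'.2])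
  have h5 := hfin (t - 2 ^ M * x) (by rw [abs_le]; constructor <;> linarith)
  rw [add_sub_cancel] at h5
  have h7 := hδ.trans_le (min_le_right _ _)
  linarith

/-- **No capture by a weakly repelling constant at a frozen base.** -/
theorem Fam.no_capture_rep (hV : Fam e ρ A b V) {ζ : ℂ} (hζ : ζ ^ 2 = e) {c₀ : ℝ}
    (hm1 : 1 < ‖1 - 2 * (c₀ : ℂ) * ζ‖) (hm2 : ‖1 - 2 * (c₀ : ℂ) * ζ‖ < 2) {R : ℝ} (hR : 0 < R)
    (near : ∀ (k : ℕ) (a : ℝ), -(ρ * 2 ^ k) ≤ a → a + 1 ≤ ρ * 2 ^ k →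
      ∃ t ∈ Icc a (a + 1), R ≤ ‖V k t - ζ‖) {k : ℕ} {s : ℝ} (hs : |s| < ρ * 2 ^ k)
    (hc : ∀ j, cs b (k + j) (2 ^ j * s) = c₀)
    (hlip : ∀ j, ∃ L h, 0 < L ∧ 0 < h ∧ ∀ t, |t| ≤ h →
      ‖V (k + j) (2 ^ j * s + t) - V (k + j) (2 ^ j * s)‖ ≤ L * |t|) :
    ¬ Tendsto (fun j => V (k + j) (2 ^ j * s)) atTop (𝓝 ζ) := by
  intro hlim
  have hpi := Real.pi_pos
  set m := ‖1 - 2 * (c₀ : ℂ) * ζ‖ with hm
  have hs2 : ∀ j : ℕ, |2 ^ j * s| < ρ * 2 ^ (k + j) := by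
    intro j
    rw [abs_mul, abs_of_pos (by positivity : (0:ℝ) < 2 ^ j), pow_add, ← mul_assoc, mul_comm]
    exact mul_lt_mul_of_pos_right hs (by positivity)
  have hstep : ∀ j, V (k + j + 1) (2 ^ (j + 1) * s) - ζ = (V (k + j) (2 ^ j * s) - ζ) *
      ((1 - 2 * c₀ * ζ) - c₀ * (V (k + j) (2 ^ j * s) - ζ)) := by
    intro j
    have e1 : (2:ℝ) ^ (j + 1) * s = 2 * (2 ^ j * s) := by rw [pow_succ]; ring
    rw [e1, hV.diff_step hζ (hs2 j).le, hc j]
  -- eventually exactly `ζ`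
  obtain ⟨j₀, hj₀⟩ : ∃ j₀ : ℕ, V (k + j₀) (2 ^ j₀ * s) = ζ := by
    have hd : 0 < (m - 1) / (1 + |c₀|) := by
      apply div_pos (by linarith) (by positivity)
    obtain ⟨J, hJ⟩ := (Metric.tendsto_atTop.1 hlim) _ hd
    have hmono : ∀ j ≥ J, ‖V (k + j) (2 ^ j * s) - ζ‖ ≤ ‖V (k + (j + 1)) (2 ^ (j + 1) * s) - ζ‖ := by
      intro j hj
      have h1 := hJ j hj
      rw [dist_eq_norm, lt_div_iff₀ (by positivity)] at h1
      rw [← add_assoc, hstep j, norm_mul]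
      have h2 : 1 ≤ ‖(1 - 2 * (c₀ : ℂ) * ζ) - c₀ * (V (k + j) (2 ^ j * s) - ζ)‖ := by
        have h3 := norm_sub_norm_le (1 - 2 * (c₀ : ℂ) * ζ) (c₀ * (V (k + j) (2 ^ j * s) - ζ))
        rw [norm_mul, Complex.norm_real, Real.norm_eq_abs, ← hm] at h3
        have h4 : |c₀| * ‖V (k + j) (2 ^ j * s) - ζ‖ ≤ ‖V (k + j) (2 ^ j * s) - ζ‖ * (1 + |c₀|) := by
          have := norm_nonneg (V (k + j) (2 ^ j * s) - ζ)
          nlinarith
        linarith
      have := norm_nonneg (V (k + j) (2 ^ j * s) - ζ)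
      nlinarith
    have hmono2 : ∀ i, ‖V (k + J) (2 ^ J * s) - ζ‖ ≤ ‖V (k + (J + i)) (2 ^ (J + i) * s) - ζ‖ := by
      intro i
      induction i with
      | zero => simp
      | succ i ih => exact ih.trans (hmono (J + i) (by omega))
    refine ⟨J, ?_⟩
    have h5 : Tendsto (fun i => ‖V (k + (J + i)) (2 ^ (J + i) * s) - ζ‖) atTop (𝓝 0) := by
      have h6 : Tendsto (fun j => ‖V (k + j) (2 ^ j * s) - ζ‖) atTop (𝓝 0) :=
        tendsto_iff_norm_sub_tendsto_zero.1 hlim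
      have h7 : Tendsto (fun i : ℕ => J + i) atTop atTop :=
        tendsto_atTop_mono (fun i => Nat.le_add_left i J) tendsto_id
      exact h6.comp h7
    have h8 : ‖V (k + J) (2 ^ J * s) - ζ‖ ≤ 0 := ge_of_tendsto' h5 hmono2
    have h9 := norm_le_zero_iff.1 h8
    exact sub_eq_zero.1 h9
  -- constants
  set d := (2 - m) / 4 with hd
  have hd0 : 0 < d := by rw [hd]; linarith
  set q := (m + 2 * d) / 2 with hq
  have hq0 : 0 < q := by rw [hq]; linarith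
  have hq1 : q < 1 := by rw [hq, hd]; linarith
  obtain ⟨L, h, hL, hh, hLip⟩ := hlip j₀
  rw [hj₀] at hLip
  obtain ⟨M, hM1, hM2⟩ : ∃ M : ℕ, 4 * Real.pi * (1 / 2) ^ (M + 1) * ‖ζ‖ ≤ d ∧ L * (1 / 2) ^ (M + 1) ≤ d := by
    have t0 : Tendsto (fun M : ℕ => (1 / 2 : ℝ) ^ (M + 1)) atTop (𝓝 0) :=
      (tendsto_pow_atTop_nhds_zero_of_lt_one (by norm_num) (by norm_num)).comp (tendsto_add_atTop_nat 1)
    have t1 : Tendsto (fun M : ℕ => 4 * Real.pi * (1 / 2 : ℝ) ^ (M + 1) * ‖ζ‖) atTop (𝓝 (4 * Real.pi * 0 * ‖ζ‖)) :=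
      (t0.const_mul _).mul_const _
    have t2 : Tendsto (fun M : ℕ => L * (1 / 2 : ℝ) ^ (M + 1)) atTop (𝓝 (L * 0)) := t0.const_mul _
    rw [mul_zero, zero_mul] at t1
    rw [mul_zero] at t2
    exact ((t1.eventually (Iic_mem_nhds hd0)).and (t2.eventually (Iic_mem_nhds hd0))).exists
  set h₁ : ℝ := (1 / 2) ^ (M + 1) with hh₁
  have hh₁0 : 0 < h₁ := by positivity
  -- shrink `h` to the window
  set h' := min h (ρ * 2 ^ (k + j₀) - |2 ^ j₀ * s|) with hh'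
  have hh'0 : 0 < h' := lt_min hh (by linarith [hs2 j₀])
  have hhw : |2 ^ j₀ * s| + h' ≤ ρ * 2 ^ (k + j₀) := by
    have := min_le_right h (ρ * 2 ^ (k + j₀) - |2 ^ j₀ * s|)
    linarith
  have hB : ∀ i : ℕ, ∀ t, |t| ≤ min (2 ^ i * h') h₁ →
      ‖V (k + j₀ + i) (2 ^ (j₀ + i) * s + t) - ζ‖ ≤ q ^ i * L * |t| := by
    intro i
    induction i with
    | zero =>
      intro t ht
      rw [pow_zero, one_mul] at ht
      have := hLip t ((ht.trans (min_le_left _ _)).trans (min_le_left _ _))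
      simpa using this
    | succ i ih =>
      intro t' ht'
      obtain ⟨t, rfl⟩ : ∃ t, t' = 2 * t := ⟨t' / 2, by ring⟩
      have ht1 : |t| ≤ min (2 ^ i * h') h₁ := by
        rw [abs_mul, abs_two, pow_succ] at ht'
        apply le_min
        · have := ht'.trans (min_le_left _ _); linarith
        · have := ht'.trans (min_le_right _ _)
          have := abs_nonneg t
          linarith
      have hci : cs b (k + j₀ + i) (2 ^ (j₀ + i) * s) = c₀ := by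
        rw [add_assoc]; exact hc (j₀ + i)
      have hwi : |2 ^ (j₀ + i) * s + t| ≤ ρ * 2 ^ (k + j₀ + i) := by
        have h1 : |2 ^ (j₀ + i) * s| = 2 ^ i * |2 ^ j₀ * s| := by
          rw [pow_add, abs_mul, abs_mul, abs_mul, abs_of_pos (by positivity : (0:ℝ) < 2 ^ i)]; ring
        have h2 : |t| ≤ 2 ^ i * h' := ht1.trans (min_le_left _ _)
        have h3 : ρ * 2 ^ (k + j₀ + i) = 2 ^ i * (ρ * 2 ^ (k + j₀)) := by
          rw [pow_add _ (k + j₀) i]; ring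
        have h4 : (2:ℝ) ^ i * (|2 ^ j₀ * s| + h') ≤ 2 ^ i * (ρ * 2 ^ (k + j₀)) := by gcongr
        refine (abs_add_le _ _).trans ?_
        rw [h1, h3]
        linarith
      have hU := ih t ht1
      set n := k + j₀ + i with hn
      set x := 2 ^ (j₀ + i) * s with hx
      have e1 : (2:ℝ) ^ (j₀ + (i + 1)) * s + 2 * t = 2 * (x + t) := by
        rw [hx, ← add_assoc, pow_succ]; ring
      rw [← add_assoc, e1, hV.diff_step hζ hwi, norm_mul]
      have hcl := cs_lip (b := b) n x t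
      rw [hci] at hcl
      have ht2 : |t| ≤ h₁ := ht1.trans (min_le_right _ _)
      have hfac : ‖(1 - 2 * (cs b n (x + t) : ℂ) * ζ) - cs b n (x + t) * (V n (x + t) - ζ)‖ ≤ m + 2 * d := by
        have h1 : (1 - 2 * (cs b n (x + t) : ℂ) * ζ) - cs b n (x + t) * (V n (x + t) - ζ) =
            (1 - 2 * (c₀ : ℂ) * ζ) - 2 * ((cs b n (x + t) - c₀ : ℝ) : ℂ) * ζ -
              cs b n (x + t) * (V n (x + t) - ζ) := by push_cast; ring
        rw [h1]
        refine (norm_sub_le _ _).trans ?_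
        refine (add_le_add (norm_sub_le _ _) le_rfl).trans ?_
        rw [norm_mul (2 * _), norm_mul (2:ℂ), norm_mul ((cs b n (x + t) : ℝ) : ℂ), Complex.norm_real,
          Complex.norm_real, Real.norm_eq_abs, Real.norm_eq_abs, Complex.norm_ofNat]
        have h2 : 2 * |cs b n (x + t) - c₀| * ‖ζ‖ ≤ d := by
          calc 2 * |cs b n (x + t) - c₀| * ‖ζ‖ ≤ 2 * (2 * Real.pi * |t|) * ‖ζ‖ := by gcongr
            _ ≤ 2 * (2 * Real.pi * h₁) * ‖ζ‖ := by gcongr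
            _ ≤ d := by linarith
        have h3 : |cs b n (x + t)| * ‖V n (x + t) - ζ‖ ≤ 1 * d := by
          gcongr
          · exact abs_cs_le n _
          · refine hU.trans ?_
            have : q ^ i ≤ 1 := pow_le_one₀ hq0.le hq1.le
            calc q ^ i * L * |t| ≤ 1 * L * h₁ := by gcongr
              _ ≤ d := by linarith
        linarith
      calc ‖V n (x + t) - ζ‖ * ‖(1 - 2 * (cs b n (x + t) : ℂ) * ζ) - cs b n (x + t) * (V n (x + t) - ζ)‖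
          ≤ (q ^ i * L * |t|) * (m + 2 * d) := by gcongr
        _ = q ^ (i + 1) * L * |2 * t| := by
            rw [abs_mul, abs_two, pow_succ, hq]; ring
  -- finish
  set C := 2 + 2 * ‖ζ‖ with hC
  have hev : ∀ᶠ i : ℕ in atTop, h₁ ≤ 2 ^ i * h' ∧ C ^ M * (q ^ i * d) < min 1 R ∧
      1 / 2 ≤ (ρ * 2 ^ k - |s|) * 2 ^ i := by
    have t1 : Tendsto (fun i : ℕ => (2:ℝ) ^ i * h') atTop atTop :=
      (tendsto_pow_atTop_atTop_of_one_lt (by norm_num)).atTop_mul_const hh'0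
    have t2 : Tendsto (fun i : ℕ => C ^ M * (q ^ i * d)) atTop (𝓝 (C ^ M * (0 * d))) :=
      ((tendsto_pow_atTop_nhds_zero_of_lt_one hq0.le hq1).mul_const d).const_mul _
    rw [zero_mul, mul_zero] at t2
    have t3 : Tendsto (fun i : ℕ => (ρ * 2 ^ k - |s|) * (2:ℝ) ^ i) atTop atTop :=
      (tendsto_pow_atTop_atTop_of_one_lt (by norm_num)).const_mul_atTop (by linarith)
    filter_upwards [t1.eventually_ge_atTop h₁, t2.eventually (Iio_mem_nhds (lt_min one_pos hR)),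
      t3.eventually_ge_atTop (1 / 2)] with i h1 h2 h3
    exact ⟨h1, h2, h3⟩
  obtain ⟨i, hi1, hi2, hi3⟩ := hev.exists
  refine hV.finish (M := M) (n := k + j₀ + i) (x := 2 ^ (j₀ + i) * s) (δ := q ^ i * d) hζ near
    (by positivity) hi2 ?_ ?_
  · have h1 : |2 ^ (j₀ + i) * s| = 2 ^ (j₀ + i) * |s| := by
      rw [abs_mul, abs_of_pos (by positivity)]
    have h2 : ρ * 2 ^ (k + j₀ + i) = 2 ^ (j₀ + i) * (ρ * 2 ^ k) := by
      rw [add_assoc, pow_add]; ring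
    rw [h1, h2]
    have h3 : (ρ * 2 ^ k - |s|) * 2 ^ i ≤ (ρ * 2 ^ k - |s|) * 2 ^ (j₀ + i) := by
      apply mul_le_mul_of_nonneg_left _ (by linarith)
      exact pow_le_pow_right₀ (by norm_num) (by omega)
    linarith
  · intro t ht
    refine (hB i t (le_min (ht.trans hi1) ht)).trans ?_
    calc q ^ i * L * |t| ≤ q ^ i * L * h₁ := by gcongr
      _ ≤ q ^ i * d := by
          rw [mul_assoc]
          gcongr

end Pool.Agent.W_4481e3_h1
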