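import Pool.Agent.W_4481e3_q59.Esc

/-!
Local density of the exceptional set at good base points.
-/

open MeasureTheory Filter Topology Set

namespace Pool.Agent.W_MP_4481e3_an

/-- `|cos (2 π 2^k b)|` -/
noncomputable def ck (k : ℕ) (b : ℝ) : ℝ := |Real.cos (2 * Real.pi * (2 ^ k * b))|

lemma ck_add (j k : ℕ) (b : ℝ) : ck (j + k) b = ck j (2 ^ k * b) := by
  unfold ck
  congr 2
  rw [pow_add]; ring

lemma ck_lip (k : ℕ) (x b : ℝ) : |ck k x - ck k b| ≤ 2 * Real.pi * 2 ^ k * |x - b| := by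
  unfold ck
  refine (abs_abs_sub_abs_le _ _).trans ?_
  refine (Real.abs_cos_sub_cos_le _ _).trans ?_
  have : 2 * Real.pi * (2 ^ k * x) - 2 * Real.pi * (2 ^ k * b) = 2 * Real.pi * 2 ^ k * (x - b) := by
    ring
  rw [this, abs_mul, abs_of_pos (by positivity)]

lemma ek_half (k i : ℕ) : ek (k + i) ≤ ek k * (1 / 2) ^ i := by
  induction i with
  | zero => simp
  | succ i ih =>
    have h1 : ek (k + i + 1) ≤ ek (k + i) * (1 / 2) := by
      unfold ek
      have h2 : (3 / 2 : ℝ) ^ (k + i + 1) = (3 / 2 : ℝ) ^ (k + i) + (1 / 2) * (3 / 2 : ℝ) ^ (k + i) := by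
        rw [pow_succ]; ring
      have h3 : (1:ℝ) ≤ (3 / 2 : ℝ) ^ (k + i) := one_le_pow₀ (by norm_num)
      rw [h2, show -(2 * ((3 / 2 : ℝ) ^ (k + i) + (1 / 2) * (3 / 2 : ℝ) ^ (k + i))) =
        -(2 * (3 / 2 : ℝ) ^ (k + i)) + -(3 / 2 : ℝ) ^ (k + i) by ring, Real.exp_add]
      apply mul_le_mul_of_nonneg_left _ (Real.exp_pos _).le
      have h4 : Real.exp (-(3 / 2 : ℝ) ^ (k + i)) ≤ Real.exp (-1) := Real.exp_le_exp.2 (by linarith)
      have h5 : Real.exp (-1) ≤ 1 / 2 := by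
        rw [Real.exp_neg, inv_le_comm₀ (Real.exp_pos _) (by norm_num)]
        have := Real.add_one_le_exp (1:ℝ)
        norm_num at this ⊢
        linarith
      linarith
    calc ek (k + (i + 1)) ≤ ek (k + i) * (1 / 2) := h1
      _ ≤ ek k * (1 / 2) ^ i * (1 / 2) := by gcongr
      _ = ek k * (1 / 2) ^ (i + 1) := by rw [pow_succ]; ring

/-- good base points -/
structure GoodB (M : ℝ) (k₁ : ℕ) (b : ℝ) : Prop where
  lo : ∀ k, k < k₁ → 2 * ek k ≤ ck k b
  hi : ∀ k, k₁ ≤ k → M * ek k ≤ ck k b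

lemma smallCos_vol_nat {η : ℝ} (hη : 0 ≤ η) (a : ℝ) (n : ℕ) :
    volume (smallCos η ∩ Ioc a (a + n)) ≤ ENNReal.ofReal (η * n) := by
  induction n with
  | zero => simp
  | succ n ih =>
    have hsub : smallCos η ∩ Ioc a (a + (n + 1 : ℕ)) ⊆ (smallCos η ∩ Ioc a (a + n)) ∪
        (smallCos η ∩ Ioc (a + n) (a + n + 1)) := by
      rintro x ⟨hx, h1, h2⟩
      push_cast at h2
      rcases le_or_gt x (a + n) with h | h
      · left; exact ⟨hx, h1, h⟩
      · right; exact ⟨hx, h, by linarith⟩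
    refine (measure_mono hsub).trans ((measure_union_le _ _).trans ?_)
    have h3 : volume (smallCos η ∩ Ioc (a + n) (a + n + 1)) ≤ ENNReal.ofReal η := by
      rw [(smallCos_per η).vol_Ioc (smallCos_measurable η) (a + n) 0, zero_add]
      exact smallCos_vol hη
    refine (add_le_add ih h3).trans ?_
    rw [← ENNReal.ofReal_add (by positivity) hη]
    apply ENNReal.ofReal_le_ofReal
    push_cast; linarith

lemma smallCos_vol_Icc {η : ℝ} (hη : 0 ≤ η) (a : ℝ) {l : ℝ} (hl : 0 ≤ l) :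
    volume (smallCos η ∩ Icc a (a + l)) ≤ ENNReal.ofReal (η * (l + 1)) := by
  have hsub : smallCos η ∩ Icc a (a + l) ⊆ ({a} : Set ℝ) ∪ (smallCos η ∩ Ioc a (a + ⌈l⌉₊)) := by
    rintro x ⟨hx, h1, h2⟩
    rcases eq_or_lt_of_le h1 with h | h
    · left; exact h.symm
    · right; exact ⟨hx, h, h2.trans (by have := Nat.le_ceil l; linarith)⟩
  refine (measure_mono hsub).trans ((measure_union_le _ _).trans ?_)
  rw [Real.volume_singleton, zero_add]
  refine (smallCos_vol_nat hη a _).trans ?_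
  apply ENNReal.ofReal_le_ofReal
  have := (Nat.ceil_lt_add_one hl).le
  gcongr

lemma vol_scaled {η : ℝ} (hη : 0 ≤ η) (k : ℕ) (b : ℝ) {ρ : ℝ} (hρ : 0 ≤ ρ) :
    volume ({x | (2:ℝ) ^ k * x ∈ smallCos η} ∩ Icc (b - ρ) (b + ρ)) ≤
      ENNReal.ofReal (η * (2 * ρ + (1 / 2) ^ k)) := by
  have h2 : (0:ℝ) < 2 ^ k := by positivity
  have hset : {x | (2:ℝ) ^ k * x ∈ smallCos η} ∩ Icc (b - ρ) (b + ρ) =
      (fun t : ℝ => 0 + 2 ^ k * t) ⁻¹' (smallCos η ∩ Icc (2 ^ k * (b - ρ)) (2 ^ k * (b - ρ) + 2 ^ k * (2 * ρ))) := by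
    ext x
    simp only [mem_inter_iff, mem_ofPred_eq, mem_Icc, mem_preimage, zero_add]
    constructor
    · rintro ⟨h1, h3, h4⟩
      exact ⟨h1, by gcongr, by nlinarith⟩
    · rintro ⟨h1, h3, h4⟩
      refine ⟨h1, le_of_mul_le_mul_left h3 h2, ?_⟩
      have : 2 ^ k * x ≤ 2 ^ k * (b + ρ) := by linarith
      exact le_of_mul_le_mul_left this h2
  rw [hset, vol_affine _ h2]
  refine (mul_le_mul_right (smallCos_vol_Icc hη _ (by positivity)) _).trans ?_
  rw [← ENNReal.ofReal_mul (by positivity)]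
  apply ENNReal.ofReal_le_ofReal
  apply le_of_eq
  rw [one_div, inv_pow]
  field_simp

/-- **Local density** of the exceptional set at a good base point, at all small scales. -/
theorem GoodB.density {M : ℝ} {k₁ : ℕ} {b : ℝ} (h : GoodB M k₁ b) (hM : 2 ≤ M)
    (hk : ek k₁ ≤ 1 / (2 * M)) {ρ : ℝ} (hρ : 0 < ρ) (hρ' : ρ ≤ ek k₁ / (2 * Real.pi * 2 ^ k₁)) :
    volume (badE 2 ∩ Icc (b - ρ) (b + ρ)) ≤ ENNReal.ofReal (28 / M * ρ) := by
  have hpi := Real.pi_pos
  have hρk : 2 * Real.pi * 2 ^ k₁ * ρ ≤ ek k₁ := by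
    rw [le_div_iff₀ (by positivity)] at hρ'
    linarith
  -- the events
  set E : ℕ → Set ℝ := fun k => {x | (2:ℝ) ^ k * x ∈ smallCos (ek k)} ∩ Icc (b - ρ) (b + ρ) with hE
  -- empty if not active
  have hempty : ∀ k, 2 * Real.pi * 2 ^ k * ρ ≤ ck k b - ek k → E k = ∅ := by
    intro k hk'
    rw [eq_empty_iff_forall_notMem]
    rintro x ⟨hx, h1, h2⟩
    have h3 : ck k x < ek k := hx
    have h4 := ck_lip k x b
    have h5 : |x - b| ≤ ρ := by rw [abs_le]; constructor <;> linarith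
    have h6 : 2 * Real.pi * 2 ^ k * |x - b| ≤ 2 * Real.pi * 2 ^ k * ρ := by gcongr
    have h7 := (abs_le.1 h4).1
    linarith
  have hlow : ∀ k, k < k₁ → E k = ∅ := by
    intro k hkk
    apply hempty
    have h1 := h.lo k hkk
    have h2 := ek_anti hkk.le
    have h3 : 2 * Real.pi * 2 ^ k * ρ ≤ 2 * Real.pi * 2 ^ k₁ * ρ := by
      have : (2:ℝ) ^ k ≤ 2 ^ k₁ := pow_le_pow_right₀ (by norm_num) hkk.le
      gcongr
    linarith
  have hunion : badE 2 ∩ Icc (b - ρ) (b + ρ) = ⋃ k, E k := by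
    ext x
    simp only [badE, hE, mem_inter_iff, mem_ofPred_eq, mem_iUnion, Nat.cast_ofNat]
    constructor
    · rintro ⟨⟨k, hk⟩, h⟩; exact ⟨k, hk, h⟩
    · rintro ⟨k, hk, h⟩; exact ⟨⟨k, hk⟩, h⟩
  by_cases hact : ∃ k, k₁ ≤ k ∧ ck k b - ek k < 2 * Real.pi * 2 ^ k * ρ
  · classical
    set ka := Nat.find hact with hka
    obtain ⟨hka1, hka2⟩ := Nat.find_spec hact
    rw [← hka] at hka1 hka2
    have hmin : ∀ k, k < ka → E k = ∅ := by
      intro k hkk
      rcases lt_or_ge k k₁ with h1 | h1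
      · exact hlow k h1
      · apply hempty
        have := Nat.find_min hact hkk
        push Not at this
        exact this h1
    have hsub : (⋃ k, E k) ⊆ ⋃ i, E (ka + i) := by
      intro x hx
      rw [mem_iUnion] at hx ⊢
      obtain ⟨k, hk⟩ := hx
      rcases lt_or_ge k ka with h1 | h1
      · rw [hmin k h1] at hk; exact absurd hk (notMem_empty _)
      · exact ⟨k - ka, by rwa [Nat.add_sub_cancel' h1]⟩
    -- the bound at the first active time
    have hB : ek ka * (1 / 2) ^ ka ≤ 4 * Real.pi * ρ / M := by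
      have h1 := h.hi ka hka1
      have h2 : (M - 1) * ek ka < 2 * Real.pi * 2 ^ ka * ρ := by linarith
      have h3 : M / 2 * ek ka ≤ 2 * Real.pi * 2 ^ ka * ρ := by
        have := ek_pos ka
        nlinarith
      rw [le_div_iff₀ (by linarith), one_div, inv_pow, mul_assoc, mul_comm _ M, ← mul_assoc]
      rw [mul_inv_le_iff₀ (by positivity)]
      linarith
    rw [hunion]
    refine (measure_mono hsub).trans ((measure_iUnion_le _).trans ?_)
    have hterm : ∀ i : ℕ, volume (E (ka + i)) ≤ ENNReal.ofReal ((14 / M * ρ) * (1 / 2) ^ i) := by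
      intro i
      refine (vol_scaled (ek_pos _).le (ka + i) b hρ.le).trans ?_
      apply ENNReal.ofReal_le_ofReal
      have h1 := ek_half ka i
      have h2 : ek ka ≤ 1 / (2 * M) := (ek_anti hka1).trans hk
      have h3 : (0:ℝ) < (1 / 2) ^ i := by positivity
      have h4 : ek (ka + i) * (2 * ρ) ≤ (1 / M * ρ) * (1 / 2) ^ i := by
        calc ek (ka + i) * (2 * ρ) ≤ (1 / (2 * M) * (1 / 2) ^ i) * (2 * ρ) := by
              have : ek (ka + i) ≤ 1 / (2 * M) * (1 / 2) ^ i := h1.trans (by gcongr)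
              gcongr
          _ = (1 / M * ρ) * (1 / 2) ^ i := by field_simp
      have h5 : ek (ka + i) * (1 / 2) ^ (ka + i) ≤ (4 * Real.pi * ρ / M) * (1 / 2) ^ i := by
        have h6 : ek (ka + i) ≤ ek ka := ek_anti (Nat.le_add_right _ _)
        calc ek (ka + i) * (1 / 2) ^ (ka + i) ≤ ek ka * (1 / 2) ^ (ka + i) := by gcongr
          _ = (ek ka * (1 / 2) ^ ka) * (1 / 2) ^ i := by rw [pow_add]; ring
          _ ≤ _ := by gcongr
      have h7 : 1 / M * ρ + 4 * Real.pi * ρ / M ≤ 14 / M * ρ := by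
        have hpi2 := Real.pi_lt_d2
        rw [show 1 / M * ρ + 4 * Real.pi * ρ / M = (1 + 4 * Real.pi) * ρ / M by ring,
          show 14 / M * ρ = 14 * ρ / M by ring]
        gcongr
        linarith
      calc ek (ka + i) * (2 * ρ + (1 / 2) ^ (ka + i)) =
          ek (ka + i) * (2 * ρ) + ek (ka + i) * (1 / 2) ^ (ka + i) := by ring
        _ ≤ (1 / M * ρ) * (1 / 2) ^ i + (4 * Real.pi * ρ / M) * (1 / 2) ^ i := add_le_add h4 h5
        _ = (1 / M * ρ + 4 * Real.pi * ρ / M) * (1 / 2) ^ i := by ring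
        _ ≤ _ := by gcongr
    refine (ENNReal.tsum_le_tsum hterm).trans ?_
    have hsum : HasSum (fun i : ℕ => (14 / M * ρ) * (1 / 2 : ℝ) ^ i) ((14 / M * ρ) * 2) :=
      hasSum_geometric_two.mul_left _
    rw [← ENNReal.ofReal_tsum_of_nonneg (fun i => by positivity) hsum.summable, hsum.tsum_eq]
    apply ENNReal.ofReal_le_ofReal
    apply le_of_eq; ring
  · push Not at hact
    have : (⋃ k, E k) = ∅ := by
      rw [iUnion_eq_empty]
      intro k
      rcases lt_or_ge k k₁ with h1 | h1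
      · exact hlow k h1
      · exact hempty k (hact k h1)
    rw [hunion, this, measure_empty]
    exact bot_le

end Pool.Agent.W_MP_4481e3_an
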