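import Pool.Agent.W_4481e3_q59.Freq

/-!
Pathwise drift.
-/

open MeasureTheory Filter Topology Set

namespace Pool.Agent.W_MP_4481e3_an

open Classical in
/-- number of empty blocks of length `T` among the first `N` -/
noncomputable def emptyCnt (T : ℕ) (ok : ℕ → Prop) (N : ℕ) : ℕ :=
  ((Finset.range N).filter (fun i => ∀ n, i * T ≤ n → n < (i + 1) * T → ¬ ok n)).card

lemma emptyCnt_succ_of_empty {T : ℕ} {ok : ℕ → Prop} {N : ℕ}
    (h : ∀ n, N * T ≤ n → n < (N + 1) * T → ¬ ok n) : emptyCnt T ok (N + 1) = emptyCnt T ok N + 1 := by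
  classical
  unfold emptyCnt
  rw [Finset.range_add_one, Finset.filter_insert, if_pos h, Finset.card_insert_of_notMem (by simp)]

lemma emptyCnt_succ_of_not {T : ℕ} {ok : ℕ → Prop} {N : ℕ}
    (h : ¬ ∀ n, N * T ≤ n → n < (N + 1) * T → ¬ ok n) : emptyCnt T ok (N + 1) = emptyCnt T ok N := by
  classical
  unfold emptyCnt
  rw [Finset.range_add_one, Finset.filter_insert, if_neg h]

/-- **Pathwise drift.** -/
theorem drift {T : ℕ} {E C : ℝ} (hE : 0 ≤ E) (hC : 0 ≤ C) {ok : ℕ → Prop} {Tame : ℕ → ℝ → Prop} {n₀ : ℕ}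
    {r₀ : ℝ} (hr₀ : 0 < r₀) (mono : ∀ n r r', 0 < r' → r' ≤ r → Tame n r → Tame n r')
    (S1 : ∀ n, n₀ ≤ n → ok n → ∃ r, 0 < r ∧ Tame n r)
    (S2 : ∀ n n' r, n₀ ≤ n → ok n → ok n' → n < n' → n' ≤ n + 2 * T → 0 < r → r ≤ r₀ → Tame n r →
      Tame n' (Real.exp 1 * r))
    (S3 : ∀ n n' r, n₀ ≤ n → ok n → ok n' → n < n' → 0 < r → r ≤ r₀ → Tame n r →
      Tame n' (Real.exp (-(E * ((n' - n : ℕ) : ℝ) + C)) * r))
    {θ : ℝ} (hθ0 : 0 ≤ θ) (hθ : θ * (3 * E * T + C + 2) < 1)
    (freq : ∃ᶠ N : ℕ in atTop, (emptyCnt T ok N : ℝ) ≤ θ * N) :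
    ∀ N₀, ∃ n, N₀ ≤ n ∧ ok n ∧ Tame n r₀ := by
  classical
  by_contra hcon
  push Not at hcon
  obtain ⟨N₀, hN₀⟩ := hcon
  have hθ2 : 2 * θ < 1 := by
    have : 0 ≤ θ * (3 * E * T + C) := by positivity
    nlinarith
  -- `T` is positive
  have hT : 0 < T := by
    by_contra hT0
    have hT0 : T = 0 := by omega
    have h1 : ∀ N, emptyCnt T ok N = N := by
      intro N
      induction N with
      | zero => simp [emptyCnt]
      | succ N ih =>
        rw [emptyCnt_succ_of_empty, ih]
        intro n _ h2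
        simp [hT0] at h2
    obtain ⟨N, hN, hN1⟩ := (freq.and_eventually (eventually_gt_atTop 0)).exists
    rw [h1] at hN
    have : (0:ℝ) < N := by exact_mod_cast hN1
    nlinarith
  set N₁ := max N₀ n₀ with hN₁
  -- a first non-empty block
  have hex : ∃ i, N₁ ≤ i ∧ ¬ ∀ n, i * T ≤ n → n < (i + 1) * T → ¬ ok n := by
    by_contra hno
    push Not at hno
    have h1 : ∀ N, N ≤ emptyCnt T ok N + N₁ := by
      intro N
      induction N with
      | zero => omega
      | succ N ih =>
        by_cases hN : N₁ ≤ N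
        · rw [emptyCnt_succ_of_empty (hno N hN)]; omega
        · omega
    obtain ⟨N, hN, hN1⟩ := (freq.and_eventually (eventually_gt_atTop (2 * N₁))).exists
    have h2 : (N:ℝ) ≤ emptyCnt T ok N + N₁ := by exact_mod_cast h1 N
    have h3 : (2 * N₁ : ℝ) < N := by exact_mod_cast hN1
    have h4 : (0:ℝ) ≤ N := by positivity
    nlinarith
  obtain ⟨i₀, hi₀, hb₀⟩ := hex
  push Not at hb₀
  obtain ⟨m₀, hm1, hm2, hm3⟩ := hb₀
  have hm0 : N₁ ≤ m₀ := hi₀.trans ((Nat.le_mul_of_pos_right _ hT).trans hm1)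
  obtain ⟨rs, hrs, hTrs⟩ := S1 m₀ ((le_max_right _ _).trans hm0) hm3
  set Λ : ℝ := 3 * E * T + C + 1 with hΛ
  have hΛ0 : 0 ≤ Λ := by positivity
  set D : ℕ → ℝ := fun i => (i:ℝ) - (Λ + 1) * emptyCnt T ok (i + 1) with hD
  have key : ∀ i, i₀ ≤ i → ∃ a n s, a ≤ i ∧ a * T ≤ n ∧ n < (a + 1) * T ∧ N₁ ≤ n ∧ ok n ∧
      Tame n (rs * Real.exp s) ∧ D i + Λ * ((i:ℝ) - a) ≤ s + D i₀ := by
    intro i hi
    induction i, hi using Nat.le_induction with
    | base => exact ⟨i₀, m₀, 0, le_rfl, hm1, hm2, hm0, hm3, by simpa using hTrs, by simp⟩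
    | succ i hi ih =>
      obtain ⟨a, n, s, ha, hn1, hn2, hn3, hok, htame, hs⟩ := ih
      have haR : (a:ℝ) ≤ i := by exact_mod_cast ha
      by_cases hem : ∀ n, (i + 1) * T ≤ n → n < (i + 1 + 1) * T → ¬ ok n
      · refine ⟨a, n, s, by omega, hn1, hn2, hn3, hok, htame, ?_⟩
        have : D (i + 1) = D i - Λ := by
          simp only [hD]
          rw [emptyCnt_succ_of_empty hem]
          push_cast; ring
        rw [this]
        push_cast
        linarith
      · have hDi : D (i + 1) = D i + 1 := by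
          simp only [hD]
          rw [emptyCnt_succ_of_not hem]
          push_cast; ring
        push Not at hem
        obtain ⟨n', h1, h2, h3⟩ := hem
        have hnn' : n < n' := by
          have : (a + 1) * T ≤ (i + 1) * T := Nat.mul_le_mul_right _ (by omega)
          omega
        have hn0 : n₀ ≤ n := (le_max_right _ _).trans hn3
        have hlt : rs * Real.exp s < r₀ := by
          by_contra hge
          exact hN₀ n ((le_max_left _ _).trans hn3) hok (mono n _ r₀ hr₀ (not_lt.1 hge) htame)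
        have hpos : 0 < rs * Real.exp s := by positivity
        by_cases hclose : n' ≤ n + 2 * T
        · refine ⟨i + 1, n', s + 1, le_rfl, h1, h2, by omega, h3, ?_, ?_⟩
          · have := S2 n n' _ hn0 hok h3 hnn' hclose hpos hlt.le htame
            rw [Real.exp_add]
            convert this using 1
            ring
          · rw [hDi]
            push_cast
            have := mul_nonneg hΛ0 (sub_nonneg.2 haR)
            linarith
        · refine ⟨i + 1, n', s - (E * ((n' - n : ℕ) : ℝ) + C), le_rfl, h1, h2, by omega, h3, ?_, ?_⟩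
          · have := S3 n n' _ hn0 hok h3 hnn' hpos hlt.le htame
            rw [Real.exp_sub, mul_div_assoc']
            convert this using 1
            rw [Real.exp_neg]
            field_simp
          · have hai : a < i := by
              by_contra hge
              have : a = i := by omega
              subst this
              have h5 : (a + 1 + 1) * T = a * T + 2 * T := by ring
              omega
            have hai1 : (1:ℝ) ≤ (i:ℝ) - a := by
              have : (a:ℝ) + 1 ≤ i := by exact_mod_cast hai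
              linarith
            have h6 : ((n' - n : ℕ) : ℝ) ≤ ((i:ℝ) - a + 2) * T := by
              rw [Nat.cast_sub hnn'.le]
              have h7 : (n':ℝ) ≤ ((i:ℝ) + 1 + 1) * T := by exact_mod_cast h2.le
              have h8 : (a:ℝ) * T ≤ n := by exact_mod_cast hn1
              nlinarith
            have hT0 : (0:ℝ) ≤ T := by positivity
            have h9 : E * ((n' - n : ℕ) : ℝ) ≤ E * (3 * ((i:ℝ) - a) * T) := by
              apply mul_le_mul_of_nonneg_left _ hE
              refine h6.trans ?_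
              apply mul_le_mul_of_nonneg_right _ hT0
              linarith
            rw [hDi]
            have h10 : C ≤ C * ((i:ℝ) - a) := by nlinarith
            have h11 : Λ * ((i:ℝ) - a) = E * (3 * ((i:ℝ) - a) * T) + C * ((i:ℝ) - a) + ((i:ℝ) - a) := by
              rw [hΛ]; ring
            push_cast at hs ⊢
            linarith
  -- conclusion
  have hbound : ∀ i, i₀ ≤ i → D i ≤ Real.log (r₀ / rs) + D i₀ := by
    intro i hi
    obtain ⟨a, n, s, ha, hn1, hn2, hn3, hok, htame, hs⟩ := key i hi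
    have haR : (a:ℝ) ≤ i := by exact_mod_cast ha
    have hlt : rs * Real.exp s < r₀ := by
      by_contra hge
      exact hN₀ n ((le_max_left _ _).trans hn3) hok (mono n _ r₀ hr₀ (not_lt.1 hge) htame)
    have h1 : s ≤ Real.log (r₀ / rs) := by
      rw [Real.le_log_iff_exp_le (by positivity), le_div_iff₀ hrs]
      linarith [mul_comm rs (Real.exp s)]
    have := mul_nonneg hΛ0 (sub_nonneg.2 haR)
    linarith
  set κ : ℝ := 1 - θ * (Λ + 1) with hκ
  have hκ0 : 0 < κ := by
    rw [hκ, hΛ]; linarith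
  obtain ⟨N₂, hN₂⟩ := exists_nat_gt ((Real.log (r₀ / rs) + D i₀ + 1) / κ)
  obtain ⟨N, hN, hN1⟩ := (freq.and_eventually (eventually_gt_atTop (max N₂ (i₀ + 1)))).exists
  obtain ⟨i, rfl⟩ : ∃ i, N = i + 1 := ⟨N - 1, by omega⟩
  have h1 := hbound i (by omega)
  have h2 : (N₂:ℝ) ≤ ((i + 1 : ℕ) : ℝ) := by exact_mod_cast (by omega : N₂ ≤ i + 1)
  rw [div_lt_iff₀ hκ0] at hN₂
  simp only [hD] at h1 hN₂
  have h3 : (Λ + 1) * (emptyCnt T ok (i + 1) : ℝ) ≤ (Λ + 1) * (θ * ((i + 1 : ℕ) : ℝ)) :=
    mul_le_mul_of_nonneg_left hN (by linarith)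
  have h4 : (N₂:ℝ) * κ ≤ ((i + 1 : ℕ) : ℝ) * κ := mul_le_mul_of_nonneg_right h2 hκ0.le
  rw [hκ] at h4 hN₂
  push_cast at *
  linarith

end Pool.Agent.W_MP_4481e3_an
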