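import Pool.Agent.W_4481e3_q59.Choice

/-!
Frequencies by Fatou's lemma.
-/

open MeasureTheory Filter Topology Set

namespace Pool.Agent.W_MP_4481e3_an

open Classical in
/-- number of visits of the orbit `2^(iT) u`, `i < N`, in `A` -/
noncomputable def cnt (A : Set ℝ) (T N : ℕ) (u : ℝ) : ℕ :=
  ((Finset.range N).filter (fun i => ((2 ^ (i * T) : ℕ) : ℝ) * u ∈ A)).card

lemma cnt_eq_sum (A : Set ℝ) (T N : ℕ) (u : ℝ) :
    ((cnt A T N u : ℕ) : ENNReal) =
      ∑ i ∈ Finset.range N, {x : ℝ | ((2 ^ (i * T) : ℕ) : ℝ) * x ∈ A}.indicator (fun _ => (1 : ENNReal)) u := by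
  classical
  unfold cnt
  rw [Finset.card_filter]
  push_cast
  refine Finset.sum_congr rfl fun i _ => ?_
  simp only [Set.indicator_apply, Set.mem_ofPred_eq]

lemma cnt_measurable {A : Set ℝ} (hAm : MeasurableSet A) (T N : ℕ) :
    Measurable (fun u => ((cnt A T N u : ℕ) : ENNReal)) := by
  simp_rw [cnt_eq_sum]
  apply Finset.measurable_sum
  intro i _
  exact measurable_const.indicator (hAm.preimage (by fun_prop))

lemma lint_cnt {A : Set ℝ} (hA : Per A) (hAm : MeasurableSet A) (T N : ℕ) :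
    ∫⁻ u in Ioc (0:ℝ) 1, ((cnt A T N u : ℕ) : ENNReal) = N * volume (A ∩ Ioc 0 1) := by
  simp_rw [cnt_eq_sum]
  have hmeas : ∀ i, MeasurableSet {x : ℝ | ((2 ^ (i * T) : ℕ) : ℝ) * x ∈ A} :=
    fun i => hAm.preimage (by fun_prop)
  rw [lintegral_finsetSum _ (fun i _ => measurable_const.indicator (hmeas i))]
  have : ∀ i ∈ Finset.range N, ∫⁻ u in Ioc (0:ℝ) 1,
      {x : ℝ | ((2 ^ (i * T) : ℕ) : ℝ) * x ∈ A}.indicator (fun _ => (1 : ENNReal)) u =
      volume (A ∩ Ioc 0 1) := by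
    intro i _
    have hm : MeasurableSet {x : ℝ | ((2 ^ (i * T) : ℕ) : ℝ) * x ∈ A} := hAm.preimage (by fun_prop)
    rw [lintegral_indicator hm, lintegral_const, Measure.restrict_restrict hm, one_mul,
      Measure.restrict_apply MeasurableSet.univ, univ_inter]
    have := hA.vol_scale hAm (N := 2 ^ (i * T)) (by positivity) 0
    simpa using this
  rw [Finset.sum_congr rfl this]
  simp

/-- points with eventually many visits are few -/
lemma vol_often {A : Set ℝ} (hA : Per A) (hAm : MeasurableSet A) (T : ℕ) {θ : ℝ} (hθ : 0 < θ) :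
    volume ({u | ∀ᶠ N : ℕ in atTop, θ * N < cnt A T N u} ∩ Ioc 0 1) ≤
      volume (A ∩ Ioc 0 1) / ENNReal.ofReal θ := by
  set g : ℕ → ℝ → ENNReal := fun N u => ((cnt A T N u : ℕ) : ENNReal) / (ENNReal.ofReal θ * N) with hg
  have hgm : ∀ N, Measurable (g N) := fun N => (cnt_measurable hAm T N).div_const _
  have hsub : {u | ∀ᶠ N : ℕ in atTop, θ * N < cnt A T N u} ⊆ {u | 1 ≤ liminf (fun N => g N u) atTop} := by
    intro u hu
    simp only [mem_ofPred_eq] at hu ⊢
    apply le_liminf_of_le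
    · isBoundedDefault
    · filter_upwards [hu, eventually_gt_atTop 0] with N hN hN0
      simp only [hg]
      rw [ENNReal.le_div_iff_mul_le (Or.inl (by simp [hθ, hN0.ne'])) (Or.inl (by finiteness)), one_mul]
      rw [← ENNReal.ofReal_natCast, ← ENNReal.ofReal_natCast, ← ENNReal.ofReal_mul hθ.le]
      exact ENNReal.ofReal_le_ofReal hN.le
  calc volume ({u | ∀ᶠ N : ℕ in atTop, θ * N < cnt A T N u} ∩ Ioc 0 1) ≤
      volume ({u | 1 ≤ liminf (fun N => g N u) atTop} ∩ Ioc 0 1) :=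
        measure_mono (inter_subset_inter_left _ hsub)
    _ = (volume.restrict (Ioc (0:ℝ) 1)) {u | 1 ≤ liminf (fun N => g N u) atTop} := by
        rw [Measure.restrict_apply' measurableSet_Ioc]
    _ ≤ ∫⁻ u in Ioc (0:ℝ) 1, liminf (fun N => g N u) atTop := by
        have := mul_meas_ge_le_lintegral (μ := volume.restrict (Ioc (0:ℝ) 1))
          (f := fun u => liminf (fun N => g N u) atTop) (Measurable.liminf hgm) 1
        simpa using this
    _ ≤ liminf (fun N => ∫⁻ u in Ioc (0:ℝ) 1, g N u) atTop := lintegral_liminf_le hgm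
    _ ≤ volume (A ∩ Ioc 0 1) / ENNReal.ofReal θ := by
        apply liminf_le_of_frequently_le'
        apply Eventually.frequently
        filter_upwards [eventually_gt_atTop 0] with N hN0
        simp only [hg]
        simp_rw [ENNReal.div_eq_inv_mul]
        rw [lintegral_const_mul _ (cnt_measurable hAm T N), lint_cnt hA hAm]
        rw [ENNReal.mul_inv (Or.inl (by simp [hθ])) (Or.inl (by finiteness))]
        have hN0' : (N : ENNReal) ≠ 0 := by exact_mod_cast hN0.ne'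
        calc (ENNReal.ofReal θ)⁻¹ * (N : ENNReal)⁻¹ * (N * volume (A ∩ Ioc 0 1)) =
            (ENNReal.ofReal θ)⁻¹ * ((N : ENNReal)⁻¹ * N) * volume (A ∩ Ioc 0 1) := by ring
          _ ≤ (ENNReal.ofReal θ)⁻¹ * volume (A ∩ Ioc 0 1) := by
              rw [ENNReal.inv_mul_cancel hN0' (by finiteness), mul_one]

/-- **Frequencies**: if `A` is small compared with `G` then positively many points of `G` visit `A` rarely
along a subsequence. -/
theorem exists_freq {A : Set ℝ} (hA : Per A) (hAm : MeasurableSet A) (T : ℕ) {θ : ℝ} (hθ : 0 < θ)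
    {G : Set ℝ} (hG : volume (A ∩ Ioc 0 1) < ENNReal.ofReal θ * volume (G ∩ Ioc 0 1)) :
    0 < volume ({u ∈ G | ∃ᶠ N : ℕ in atTop, (cnt A T N u : ℝ) ≤ θ * N} ∩ Ioc 0 1) := by
  have h1 := vol_often hA hAm T hθ
  have h2 : volume (A ∩ Ioc 0 1) / ENNReal.ofReal θ < volume (G ∩ Ioc 0 1) := by
    rw [ENNReal.div_lt_iff (Or.inl (by simp [hθ])) (Or.inl (by finiteness))]
    rwa [mul_comm]
  have h3 : G ∩ Ioc 0 1 ⊆ ({u ∈ G | ∃ᶠ N : ℕ in atTop, (cnt A T N u : ℝ) ≤ θ * N} ∩ Ioc 0 1) ∪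
      ({u | ∀ᶠ N : ℕ in atTop, θ * N < cnt A T N u} ∩ Ioc 0 1) := by
    rintro u ⟨hu, hu1⟩
    by_cases h : ∀ᶠ N : ℕ in atTop, θ * N < cnt A T N u
    · exact Or.inr ⟨h, hu1⟩
    · left
      refine ⟨⟨hu, ?_⟩, hu1⟩
      rw [Filter.Frequently]
      simpa only [not_le] using h
  by_contra h0
  have h0' : volume ({u ∈ G | ∃ᶠ N : ℕ in atTop, (cnt A T N u : ℝ) ≤ θ * N} ∩ Ioc 0 1) = 0 := by
    simpa using h0
  have h4 := (measure_mono (μ := volume) h3).trans (measure_union_le _ _)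
  rw [h0', zero_add] at h4
  exact absurd (h4.trans h1) (not_le.2 h2)

end Pool.Agent.W_MP_4481e3_an
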