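import Pool.Agent.W_4481e3_q59.Tame
import Pool.Agent.W_4481e3_h6.CDefs

/-!
Density points and sparsity at good times.
-/

open MeasureTheory Filter Topology Set

namespace Pool.Agent.W_MP_4481e3_an

variable {α : ℂ}

/-- density point of the non-falling set, explicit form -/
def DensPt (α z : ℂ) (u : ℝ) : Prop :=
  ∀ δ > (0:ℝ), ∃ ρ > (0:ℝ), ∀ r, 0 < r → r ≤ ρ →
    volume (Fall α 2 z ∩ Metric.closedBall u r) ≤ ENNReal.ofReal (δ * r)

lemma ae_densPt (α z : ℂ) : ∀ᵐ u : ℝ, u ∉ Fall α 2 z → DensPt α z u := by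
  have hdens := Besicovitch.ae_tendsto_measure_inter_div_of_measurableSet (volume : Measure ℝ)
    (Fall_measurable (α := α) (L := 2) z)
  filter_upwards [hdens] with u hlim hu δ hδ
  have hind : (Fall α 2 z).indicator (1 : ℝ → ENNReal) u = 0 := Set.indicator_of_notMem hu 1
  rw [hind] at hlim
  have hev := hlim.eventually (Iic_mem_nhds (show (0:ENNReal) < ENNReal.ofReal (δ / 2) by
    rw [ENNReal.ofReal_pos]; positivity))
  rw [eventually_nhdsWithin_iff, Metric.eventually_nhds_iff] at hev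
  obtain ⟨ε, hε, h⟩ := hev
  refine ⟨ε / 2, by positivity, fun r hr hr' => ?_⟩
  have h3 := @h r (by simp [abs_of_pos hr]; linarith) hr
  rw [Real.volume_closedBall, ENNReal.div_le_iff (by
      rw [ne_eq, ENNReal.ofReal_eq_zero, not_le]; linarith) ENNReal.ofReal_ne_top,
    ← ENNReal.ofReal_mul (by positivity)] at h3
  refine h3.trans (le_of_eq ?_)
  congr 1
  ring

lemma DensPt.scaled {z : ℂ} {u : ℝ} (h : DensPt α z u) {T δ : ℝ} (_ : 0 < T) (hδ : 0 < δ) :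
    ∃ n₀ : ℕ, ∀ n ≥ n₀, ∀ x, 0 < x → x ≤ T →
      volume (Fall α 2 z ∩ Metric.closedBall u (x / 2 ^ n)) ≤ ENNReal.ofReal (δ * x / 2 ^ n) := by
  obtain ⟨ρ, hρ, h1⟩ := h δ hδ
  have hr : Tendsto (fun n : ℕ => T / (2:ℝ) ^ n) atTop (𝓝 0) :=
    tendsto_const_nhds.div_atTop (tendsto_pow_atTop_atTop_of_one_lt (by norm_num))
  have hev := hr.eventually (Iio_mem_nhds hρ)
  rw [eventually_atTop] at hev
  obtain ⟨n₀, hn₀⟩ := hev
  refine ⟨n₀, fun n hn x hx hxT => ?_⟩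
  have h2 : x / 2 ^ n ≤ ρ := by
    refine le_trans ?_ (le_of_lt (hn₀ n hn))
    gcongr
  have h3 := h1 (x / 2 ^ n) (by positivity) h2
  refine h3.trans (le_of_eq ?_)
  congr 1
  ring

lemma GoodB.notMem {M : ℝ} {k₁ : ℕ} {b : ℝ} (h : GoodB M k₁ b) (hM : 1 ≤ M) : b ∉ badE 2 := by
  rintro ⟨k, hk⟩
  have h1 : ck k b < ek k := hk
  have hek := ek_pos k
  rcases lt_or_ge k k₁ with h2 | h2
  · have := h.1 k h2
    linarith
  · have := h.2 k h2
    nlinarith

/-- scaling of sets on the line -/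
lemma vol_scaled_set (S : Set ℝ) (u : ℝ) (n : ℕ) (x : ℝ) :
    volume {t : ℝ | |t| ≤ x ∧ u + t / 2 ^ n ∈ S} =
      ENNReal.ofReal (2 ^ n) * volume (S ∩ Metric.closedBall u (x / 2 ^ n)) := by
  have hp : (0:ℝ) < 2 ^ n := by positivity
  have h1 : {t : ℝ | |t| ≤ x ∧ u + t / 2 ^ n ∈ S} =
      (fun t : ℝ => u + 1 / 2 ^ n * t) ⁻¹' (S ∩ Metric.closedBall u (x / 2 ^ n)) := by
    ext t
    simp only [mem_ofPred_eq, mem_preimage, mem_inter_iff, Metric.mem_closedBall, Real.dist_eq]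
    have e1 : u + 1 / 2 ^ n * t = u + t / 2 ^ n := by ring
    have e2 : |u + t / 2 ^ n - u| ≤ x / 2 ^ n ↔ |t| ≤ x := by
      rw [add_sub_cancel_left, abs_div, abs_of_pos hp, div_le_div_iff_of_pos_right hp]
    rw [e1, e2, and_comm]
  rw [h1]
  have h2 : (fun t : ℝ => u + 1 / 2 ^ n * t) ⁻¹' (S ∩ Metric.closedBall u (x / 2 ^ n)) =
      (fun t : ℝ => 1 / 2 ^ n * t) ⁻¹' ((fun t => u + t) ⁻¹' (S ∩ Metric.closedBall u (x / 2 ^ n))) := by
    rfl
  rw [h2, Real.volume_preimage_mul_left (by positivity), measure_preimage_add]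
  congr 2
  rw [one_div, inv_inv, abs_of_pos hp]

/-- **Sparsity at good times** -/
lemma DensPt.spars {z : ℂ} {u : ℝ} (h : DensPt α z u) (hα0 : α ≠ 0) (hα : ‖α‖ ≤ 1) {M : ℝ} {k₁ : ℕ}
    (hM : 2 ≤ M) (hk : ek k₁ ≤ 1 / (2 * M)) {δ : ℝ} (hδ : 0 < δ) :
    ∃ n₀ : ℕ, ∀ n ≥ n₀, GoodB M k₁ (2 ^ n * u) → ∀ x, 0 < x → x ≤ ek k₁ / (2 * Real.pi * 2 ^ k₁) →
      Spars α (leafV α z u n) (28 / M + δ) x := by
  have hpi := Real.pi_pos
  have hek := ek_pos k₁
  obtain ⟨n₀, h1⟩ := h.scaled (T := ek k₁ / (2 * Real.pi * 2 ^ k₁)) (by positivity) hδ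
  refine ⟨n₀, fun n hn hg x hx hx' => ?_⟩
  unfold Spars
  have hp : (0:ℝ) < 2 ^ n := by positivity
  have hsub : {t : ℝ | |t| ≤ x ∧ Rp α < ‖leafV α z u n t‖} ⊆
      {t : ℝ | t + 2 ^ n * u ∈ badE 2 ∩ Icc (2 ^ n * u - x) (2 ^ n * u + x)} ∪
        {t : ℝ | |t| ≤ x ∧ u + t / 2 ^ n ∈ Fall α 2 z} := by
    rintro t ⟨ht, hV⟩
    by_cases hb : t + 2 ^ n * u ∈ badE 2
    · left
      refine ⟨hb, ?_⟩
      rw [abs_le] at ht
      constructor <;> linarith
    · right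
      refine ⟨ht, ?_⟩
      have e1 : (2:ℝ) ^ n * (u + t / 2 ^ n) = t + 2 ^ n * u := by field_simp; ring
      apply fall_infE hα0 hα (n := n)
      · push_cast
        rw [e1]; exact hb
      · have : leafV α z u n t = O α 2 n ((u + t / 2 ^ n : ℝ) : ℂ) z := by
          simp [leafV]
        rw [← this]
        exact hV.le
  refine (measure_mono hsub).trans ((measure_union_le _ _).trans ?_)
  have h2 : volume {t : ℝ | t + 2 ^ n * u ∈ badE 2 ∩ Icc (2 ^ n * u - x) (2 ^ n * u + x)} ≤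
      ENNReal.ofReal (28 / M * x) := by
    have := hg.density hM hk hx hx'
    rw [← measure_preimage_add_right volume (2 ^ n * u)] at this
    exact this
  have h3 : volume {t : ℝ | |t| ≤ x ∧ u + t / 2 ^ n ∈ Fall α 2 z} ≤ ENNReal.ofReal (δ * x) := by
    rw [vol_scaled_set]
    refine (mul_le_mul_right (h1 n hn x hx hx') _).trans ?_
    rw [← ENNReal.ofReal_mul hp.le]
    apply ENNReal.ofReal_le_ofReal
    apply le_of_eq
    field_simp
  refine (add_le_add h2 h3).trans ?_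
  rw [← ENNReal.ofReal_add (by positivity) (by positivity)]
  apply ENNReal.ofReal_le_ofReal
  apply le_of_eq
  ring

/-- S1: at a good time the leaf is tame on some disc -/
lemma exists_tame_disc {z : ℂ} {u : ℝ} (hα0 : α ≠ 0) (hα : ‖α‖ < 1) (hu : u ∉ Fall α 2 z) {n : ℕ}
    (hb : (2:ℝ) ^ n * u ∉ badE 2) : ∃ r, 0 < r ∧ Tame α (leafV α z u n) r := by
  have hαpos : 0 < ‖α‖ := norm_pos_iff.2 hα0
  have h1 : ‖leafV α z u n 0‖ < Rp α := by
    by_contra hc
    push Not at hc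
    apply hu
    apply fall_infE hα0 hα.le (n := n)
    · push_cast; exact hb
    · have : leafV α z u n 0 = O α 2 n (u : ℂ) z := by simp [leafV]
      rw [← this]; exact hc
  have hRp : 1 ≤ Rp α := by
    unfold Rp
    rw [le_div_iff₀ hαpos]
    have := Real.add_one_le_exp (4:ℝ)
    linarith
  have h2 : Rp α ≤ Ct α := by
    unfold Ct
    have : 1 ≤ Real.exp Real.pi := Real.one_le_exp Real.pi_pos.le
    nlinarith
  have hc := (leafV_diff α z u n).continuous.norm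
  have h3 : ∀ᶠ s : ℂ in 𝓝 0, ‖leafV α z u n s‖ < Ct α :=
    hc.continuousAt.eventually_lt continuousAt_const (h1.trans_le h2)
  rw [Metric.eventually_nhds_iff] at h3
  obtain ⟨ε, hε, h4⟩ := h3
  refine ⟨ε / 2, by positivity, fun s hs => ?_⟩
  apply le_of_lt
  apply @h4 s
  rw [dist_zero_right]
  linarith

end Pool.Agent.W_MP_4481e3_an
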