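import Pool.Agent.W_4481e3_q12.Ev

/-!
Period certificate: evaluator.  Start phase `2/15`, arithmetic of `W_4481e3_q12.Ev` (scale `2 ^ 24`).
-/

namespace Pool.Agent.W_4481e3_q59.PEv

open Pool.Agent.W_MP_4481e3_an.Ev (gd)
open Pool.Agent.W_4481e3_q12.Ev (ds nrm st fid neg s0 s1 s2 s3 fg esc out)

/-- minimum -/
def mn (x y : ℕ) : ℕ := Nat.sub x (Nat.sub x y)

/-- upper bound of the norm of the centre -/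
def nz (A B : ℕ) : ℕ :=
  nrm (ds A 536870912) (ds B 536870912)
    (Nat.add (Nat.mul (ds A 536870912) (ds A 536870912)) (Nat.mul (ds B 536870912) (ds B 536870912)))

/-- upper bound of the norm of the centre of `e - w ^ 2`; `aa = a ^ 2`, `bb = b ^ 2`, `ss = (a ± b) ^ 2` -/
def ne3 (u v : ℕ) : ℕ := nrm u v (Nat.add (Nat.mul u u) (Nat.mul v v))

def ne2 (X Y aa bb ss : ℕ) : ℕ :=
  ne3 (ds (Nat.add (Nat.div (Nat.sub (Nat.add bb 9007199254740992) aa) 16777216) X) 536870912)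
    (ds (Nat.add (Nat.div (Nat.sub (Nat.add (Nat.add aa bb) 9007199254740992) ss) 16777216) Y) 536870912)

def ne1 (X Y a b s : ℕ) : ℕ := ne2 X Y (Nat.mul a a) (Nat.mul b b) (Nat.mul s s)

def ne (X Y A B : ℕ) : ℕ :=
  ne1 X Y (ds A 536870912) (ds B 536870912) (ds (Nat.add A B) 1073741824)

/-- upper bound of `‖w‖` -/
def wn (A B r : ℕ) : ℕ := Nat.add (nz A B) r

/-- upper bound of `‖e - w ^ 2‖` -/
def en (X Y t A B r : ℕ) : ℕ :=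
  Nat.add (Nat.add (ne X Y A B) t)
    (Nat.add (Nat.div (Nat.mul (Nat.add (Nat.mul 2 (nz A B)) r) r) 16777216) 4)

/-- lower bound of `‖1 - 2 c w‖` -/
def lo2 (C r G m n : ℕ) : ℕ :=
  Nat.sub (Nat.div (Nat.add (Nat.mul m m) (Nat.mul n n)) G)
    (Nat.add (Nat.div (Nat.mul (Nat.mul 2 C) r) 16777216) 45)

def lo (f : ℕ → ℕ) (C D A B r G : ℕ) : ℕ :=
  lo2 C r G
    (Nat.add (Nat.div (ds (Nat.mul (Nat.mul 2 C) (f A)) (Nat.add 281474976710656 (Nat.mul 2 D)))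
        16777216) 1)
    (Nat.add (Nat.div (Nat.mul (Nat.mul 2 C) (ds B 536870912)) 16777216) 1)

/-- upper bound of `‖1 - 2 c w‖` -/
def fu (C r G : ℕ) : ℕ :=
  Nat.add (Nat.add G (Nat.div (Nat.mul (Nat.mul 2 C) r) 16777216)) 40

/-- forward slope bound -/
def fw (F D e a : ℕ) : ℕ :=
  Nat.add (Nat.div (Nat.add (Nat.mul F a) (Nat.mul D e)) 33554432) 1

/-- backward slope bound, minimum with `f` -/
noncomputable def bm (L D e a f : ℕ) : ℕ :=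
  Bool.rec f (mn f (Nat.add (Nat.div (Nat.add (Nat.mul 33554432 a) (Nat.mul D e)) L) 1)) (Nat.ble 1 L)

def dv (x : ℕ) : ℕ := Nat.add (Nat.div x 16777216) 1
def dv2 (x : ℕ) : ℕ := Nat.add (Nat.div x 33554432) 1

/-- one step of the second order constant -/
def nx2 (C D F w e l h B l2 : ℕ) : ℕ :=
  Nat.add (Nat.add (Nat.add (Nat.add (Nat.div (Nat.mul F B) 67108864) 1) (dv2 (Nat.mul C l2)))
    (Nat.add (dv (Nat.mul (dv (Nat.mul w D)) l)) (dv2 (Nat.mul (dv (Nat.mul D h)) l2))))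
    (dv (Nat.mul 165585260
      (dv (Nat.mul (Nat.add (Nat.add C (Nat.div (Nat.mul 21 h) 10)) 1)
        (Nat.add (Nat.add e (Nat.mul 2 (dv (Nat.mul (dv (Nat.mul w l)) h))))
          (dv (Nat.mul (dv (Nat.mul l2 h)) h)))))))

def nx1 (C D F w e h B l : ℕ) : ℕ := nx2 C D F w e l h B (dv (Nat.mul l l))

def nx (C D F w e a h B : ℕ) : ℕ :=
  nx1 C D F w e h B (Nat.add a (dv2 (Nat.mul B h)))

/-- the final comparison, all quantities known: `F j`, `w j`, `e j`, slopes `a j` -/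
noncomputable def fin4 (F3 w3 e3 a3 h B k0 : ℕ) : Bool :=
  Nat.ble (Nat.mul 100 (nx 15326750 42876300 F3 w3 e3 a3 (Nat.mul 8 h) B)) (Nat.mul 99 k0)

noncomputable def fin3 (F2 w2 e2 a2 F3 w3 e3 a3 h k0 k3 B : ℕ) : Bool :=
  gd (Nat.ble (nx 16410595 21917200 F2 w2 e2 a2 (Nat.mul 4 h) B) k3)
    (fin4 F3 w3 e3 a3 h (nx 16410595 21917200 F2 w2 e2 a2 (Nat.mul 4 h) B) k0)

noncomputable def fin2 (F1 w1 e1 a1 F2 w2 e2 a2 F3 w3 e3 a3 h k0 k2 k3 B : ℕ) : Bool :=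
  gd (Nat.ble (nx 1753698 104837500 F1 w1 e1 a1 (Nat.mul 2 h) B) k2)
    (fin3 F2 w2 e2 a2 F3 w3 e3 a3 h k0 k3 (nx 1753698 104837500 F1 w1 e1 a1 (Nat.mul 2 h) B))

noncomputable def fin1 (F0 w0 e0 a0 F1 w1 e1 a1 F2 w2 e2 a2 F3 w3 e3 a3 h k0 k1 k2 k3 : ℕ) : Bool :=
  gd (Nat.ble (nx 11226150 78338600 F0 w0 e0 a0 h k0) k1)
    (fin2 F1 w1 e1 a1 F2 w2 e2 a2 F3 w3 e3 a3 h k0 k2 k3 (nx 11226150 78338600 F0 w0 e0 a0 h k0))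

/-- checks of the slopes -/
noncomputable def sl1 (F0 w0 e0 F1 w1 e1 F2 w2 e2 F3 w3 e3 a0 a1 a2 a3 h k0 k1 k2 k3 b1 b2 b3 : ℕ) : Bool :=
  gd (Nat.ble a1 b1) (gd (Nat.ble a2 b2) (gd (Nat.ble a3 b3)
    (fin1 F0 w0 e0 a0 F1 w1 e1 a1 F2 w2 e2 a2 F3 w3 e3 a3 h k0 k1 k2 k3)))


/-- backward pass, then one forward improvement -/
noncomputable def sl2 (F0 w0 e0 F1 w1 e1 F2 w2 e2 F3 w3 e3 a0 a1 a2 a3 h k0 k1 k2 k3 b1 b2 b3 : ℕ) : Bool :=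
  sl1 F0 w0 e0 F1 w1 e1 F2 w2 e2 F3 w3 e3 a0 a1 a2 (mn a3 (fw F2 21917200 e2 a2)) h k0 k1 k2 k3 b1 b2 b3

noncomputable def sl3 (L1 F0 w0 e0 F1 w1 e1 F2 w2 e2 F3 w3 e3 a0 f1 a2 a3 h k0 k1 k2 k3 b1 b2 b3 : ℕ) : Bool :=
  sl2 F0 w0 e0 F1 w1 e1 F2 w2 e2 F3 w3 e3 a0 (bm L1 104837500 e1 a2 f1)
    (mn a2 (fw F1 104837500 e1 (bm L1 104837500 e1 a2 f1))) a3 h k0 k1 k2 k3 b1 b2 b3

noncomputable def sl4 (L1 L2 F0 w0 e0 F1 w1 e1 F2 w2 e2 F3 w3 e3 a0 f1 f2 a3 h k0 k1 k2 k3 b1 b2 b3 : ℕ) : Bool :=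
  sl3 L1 F0 w0 e0 F1 w1 e1 F2 w2 e2 F3 w3 e3 a0 f1 (bm L2 21917200 e2 a3 f2) a3 h k0 k1 k2 k3 b1 b2 b3

noncomputable def sl5 (L1 L2 L3 F0 w0 e0 F1 w1 e1 F2 w2 e2 F3 w3 e3 a0 f1 f2 f3 h k0 k1 k2 k3 b1 b2 b3 : ℕ) : Bool :=
  sl4 L1 L2 F0 w0 e0 F1 w1 e1 F2 w2 e2 F3 w3 e3 a0 f1 f2 (bm L3 42876300 e3 a0 f3) h k0 k1 k2 k3 b1 b2 b3

noncomputable def sl6 (L1 L2 L3 F0 w0 e0 F1 w1 e1 F2 w2 e2 F3 w3 e3 a0 f1 f2 h k0 k1 k2 k3 b1 b2 b3 : ℕ) : Bool :=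
  sl5 L1 L2 L3 F0 w0 e0 F1 w1 e1 F2 w2 e2 F3 w3 e3 a0 f1 f2 (fw F2 21917200 e2 f2) h k0 k1 k2 k3 b1 b2 b3

noncomputable def sl7 (L1 L2 L3 F0 w0 e0 F1 w1 e1 F2 w2 e2 F3 w3 e3 a0 f1 h k0 k1 k2 k3 b1 b2 b3 : ℕ) : Bool :=
  sl6 L1 L2 L3 F0 w0 e0 F1 w1 e1 F2 w2 e2 F3 w3 e3 a0 f1 (fw F1 104837500 e1 f1) h k0 k1 k2 k3 b1 b2 b3

noncomputable def sl8 (L1 L2 L3 F0 w0 e0 F1 w1 e1 F2 w2 e2 F3 w3 e3 a0 h k0 k1 k2 k3 b1 b2 b3 : ℕ) : Bool :=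
  sl7 L1 L2 L3 F0 w0 e0 F1 w1 e1 F2 w2 e2 F3 w3 e3 a0 (fw F0 78338600 e0 a0) h k0 k1 k2 k3 b1 b2 b3

/-- the four steps -/
noncomputable def pr4 (X Y t a0 h k0 k1 k2 k3 b1 b2 b3 A B r G0 A1 B1 r1 G1 A2 B2 r2 G2 A3 B3 r3 : ℕ)
    (_A4 _B4 _r4 G3 : ℕ) : Bool :=
  sl8 (lo neg 1753697 941508907761664 A1 B1 r1 G1) (lo neg 16410594 8810370567241728 A2 B2 r2 G2)
    (lo fid 15326749 8228485713625088 A3 B3 r3 G3)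
    (fu 11226149 r G0) (wn A B r) (en X Y t A B r)
    (fu 1753697 r1 G1) (wn A1 B1 r1) (en X Y t A1 B1 r1)
    (fu 16410594 r2 G2) (wn A2 B2 r2) (en X Y t A2 B2 r2)
    (fu 15326749 r3 G3) (wn A3 B3 r3) (en X Y t A3 B3 r3)
    a0 h k0 k1 k2 k3 b1 b2 b3

noncomputable def pr3 (X Y t a0 h k0 k1 k2 k3 b1 b2 b3 A B r G0 A1 B1 r1 G1 A2 B2 r2 : ℕ)
    (A3 B3 r3 G2 : ℕ) : Bool :=
  s0 X Y t (pr4 X Y t a0 h k0 k1 k2 k3 b1 b2 b3 A B r G0 A1 B1 r1 G1 A2 B2 r2 G2 A3 B3 r3) A3 B3 r3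

noncomputable def pr2 (X Y t a0 h k0 k1 k2 k3 b1 b2 b3 A B r G0 A1 B1 r1 : ℕ) (A2 B2 r2 G1 : ℕ) : Bool :=
  s3 X Y t (pr3 X Y t a0 h k0 k1 k2 k3 b1 b2 b3 A B r G0 A1 B1 r1 G1 A2 B2 r2) A2 B2 r2

noncomputable def pr1 (X Y t a0 h k0 k1 k2 k3 b1 b2 b3 A B r : ℕ) (A1 B1 r1 G0 : ℕ) : Bool :=
  s2 X Y t (pr2 X Y t a0 h k0 k1 k2 k3 b1 b2 b3 A B r G0 A1 B1 r1) A1 B1 r1

/-- period leaf -/
noncomputable def pr (X Y t a0 h k0 k1 k2 k3 b1 b2 b3 A B r : ℕ) : Bool :=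
  s1 X Y t (pr1 X Y t a0 h k0 k1 k2 k3 b1 b2 b3 A B r) A B r

/-- escape from the phase `1` -/
noncomputable def per (X Y t : ℕ) (k : ℕ → ℕ → ℕ → Bool) : ℕ → ℕ → ℕ → Bool :=
  s1 X Y t (fg (s2 X Y t (fg (s3 X Y t (fg (s0 X Y t (fg k)))))))

noncomputable def tail (X Y t b : ℕ) : ℕ → ℕ → ℕ → Bool :=
  Nat.rec (esc 57378078) (fun b _ => Nat.rec (s1 X Y t (fg (esc 70967623)))
    (fun b _ => Nat.rec (s1 X Y t (fg (s2 X Y t (fg (esc 38587597)))))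
      (fun _ _ => s1 X Y t (fg (s2 X Y t (fg (s3 X Y t (fg (esc 43956305))))))) b) b) b

noncomputable def escj (X Y t j : ℕ) : ℕ → ℕ → ℕ → Bool :=
  Nat.rec (tail X Y t (Nat.mod j 4)) (fun _ ih => per X Y t ih) (Nat.div j 4)

/-- leaf; `cl` is the special closer -/
noncomputable def chk3 (cl : ℕ → ℕ → ℕ → ℕ → ℕ → ℕ → Bool) (m X Y H t A B r : ℕ) : Bool :=
  Bool.rec (escj X Y t m A B r) (Bool.rec (out X Y H) (cl X Y t A B r) (Nat.ble 13 m)) (Nat.ble 12 m)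

noncomputable def chk (cl : ℕ → ℕ → ℕ → ℕ → ℕ → ℕ → Bool) (m X Y H A B h : ℕ) : Bool :=
  chk3 cl m X Y H (Nat.add (Nat.div (Nat.mul H 1449) 1024) 1) A B (Nat.add (Nat.div (Nat.mul h 1449) 1024) 1)

noncomputable def leaf (cl : ℕ → ℕ → ℕ → ℕ → ℕ → ℕ → Bool) (m X Y H A B h n : ℕ) : ℕ :=
  Bool.rec 0 n (chk cl m X Y H A B h)

noncomputable def spe (go : ℕ → ℕ → ℕ → ℕ → ℕ → ℕ → ℕ → ℕ) (X Y H A B h n : ℕ) : ℕ :=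
  go (Nat.add X H) (Nat.add Y H) H A B h (go (Nat.add X H) (Nat.sub Y H) H A B h
    (go (Nat.sub X H) (Nat.add Y H) H A B h (go (Nat.sub X H) (Nat.sub Y H) H A B h n)))

noncomputable def spw (go : ℕ → ℕ → ℕ → ℕ → ℕ → ℕ → ℕ → ℕ) (X Y H A B h n : ℕ) : ℕ :=
  go X Y H (Nat.add A h) (Nat.add B h) h (go X Y H (Nat.add A h) (Nat.sub B h) h
    (go X Y H (Nat.sub A h) (Nat.add B h) h (go X Y H (Nat.sub A h) (Nat.sub B h) h n)))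

noncomputable def nd (cl : ℕ → ℕ → ℕ → ℕ → ℕ → ℕ → Bool)
    (go : ℕ → ℕ → ℕ → ℕ → ℕ → ℕ → ℕ → ℕ) (m X Y H A B h n : ℕ) : ℕ :=
  Bool.rec (leaf cl m X Y H A B h n)
    (Bool.rec (spe go X Y (Nat.div (Nat.add H 1) 2) A B h n)
      (spw go X Y H A B (Nat.div (Nat.add h 1) 2) n) (Nat.ble 15 m)) (Nat.ble 14 m)

/-- the tree -/
noncomputable def go (cl : ℕ → ℕ → ℕ → ℕ → ℕ → ℕ → Bool) (d : ℕ) : ℕ → ℕ → ℕ → ℕ → ℕ → ℕ → ℕ → ℕ :=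
  Nat.rec (fun X Y H A B h n => leaf cl (Nat.mod n 16) X Y H A B h (Nat.div n 16))
    (fun _ ih X Y H A B h n => nd cl ih (Nat.mod n 16) X Y H A B h (Nat.div n 16)) d

/-- the period closer -/
noncomputable def clp (a0 h k0 k1 k2 k3 b1 b2 b3 : ℕ) (X Y t A B r : ℕ) : Bool :=
  pr X Y t a0 h k0 k1 k2 k3 b1 b2 b3 A B r

end Pool.Agent.W_4481e3_q59.PEv
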