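import Pool.Agent.W_4481e3_q59.PerSndE
import Pool.Agent.W_4481e3_q59.ConsumerPQ
import Pool.Agent.W_4481e3_q12.Contr

/-!
From the period tree to the period certificate.
-/

namespace Pool.Agent.W_4481e3_q59.PEv

open Complex
open Pool.Agent.W_4481e3_q12 (Good zz zz_add cph_mod)
open Pool.Agent.W_4481e3_q12.Ev (Al Rg BxE BxW cph cph_add)
open Pool.Agent.W_4481e3_q42 Pool.Agent.W_4481e3_q59 Pool.Agent.W_MP_4481e3_an
open Pool.Agent.W_MP_4481e3_an.Boot (compC)

/-- the data of a period tree -/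
structure PD where
  a0 : ℕ
  h : ℕ
  k0 : ℕ
  k1 : ℕ
  k2 : ℕ
  k3 : ℕ
  b1 : ℕ
  b2 : ℕ
  b3 : ℕ

/-- the statement of the root cell -/
def PD.Root (D : PD) : Prop :=
  Cov (PP D.a0 D.h D.k0 D.k1 D.k2 D.k3 D.b1 D.b2 D.b3) 2097152 2097152 2097152 536870912 536870912 57671680

/-- second order constants -/
noncomputable def PD.κ (D : PD) (j : ℕ) : ℝ :=
  (if j = 0 then (D.k0 : ℝ) else if j = 1 then (D.k1 : ℝ) else if j = 2 then (D.k2 : ℝ) else (D.k3 : ℝ)) / 16777216

/-- slope bounds -/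
noncomputable def PD.β (D : PD) (j : ℕ) : ℝ :=
  (if j = 0 then (D.a0 : ℝ) else if j = 1 then (D.b1 : ℝ) else if j = 2 then (D.b2 : ℝ) else (D.b3 : ℝ)) / 16777216

/-- alive points are good -/
theorem good_of_alive {ε : ℂ} {p : ℕ} {w : ℂ} (h : Alive ε (2 ^ p / 15) w) : Good (ε ^ 2) p w := by
  have horb : ∀ j, orb (ε ^ 2) (2 ^ p / 15) w j = zz (ε ^ 2) p j w := by
    intro j
    induction j with
    | zero => rfl
    | succ j ih =>
      have h1 : zz (ε ^ 2) p (j + 1) w = zz (ε ^ 2) p j w + (cph (p + j) : ℂ) * (ε ^ 2 - zz (ε ^ 2) p j w ^ 2) := by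
        rw [zz_add]; rfl
      rw [h1, ← ih]
      show orb (ε ^ 2) (2 ^ p / 15) w j + (Real.cos (2 * Real.pi * (2 ^ j * (2 ^ p / 15))) : ℂ) * _ = _
      congr 2
      unfold cph
      congr 2
      rw [pow_add]
      ring
  refine ⟨fun j => ?_, fun j hj => ?_⟩
  · rw [← horb]; exact h.bd j
  · rw [← horb]
    have hx : (2:ℝ) ^ j * (2 ^ p / 15) = 2 ^ (p + j) / 15 := by rw [pow_add]; ring
    obtain ⟨n, hn⟩ : ∃ n : ℤ, (2:ℤ) ^ (p + j) = 15 * n + 4 := by
      have h1 : (2:ℤ) ^ (p + j) ≡ 4 [ZMOD 15] := by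
        obtain ⟨m, hm⟩ : ∃ m, p + j = 4 * m + 2 := ⟨(p + j) / 4, by omega⟩
        rw [hm, pow_add, pow_mul]
        have h2 : ((2:ℤ) ^ 4) ^ m ≡ 1 ^ m [ZMOD 15] := Int.ModEq.pow m (by decide)
        rw [one_pow] at h2
        have h3 := h2.mul_right (2 ^ 2)
        norm_num at h3 ⊢
        exact h3
      obtain ⟨k, hk⟩ := h1.symm.dvd
      exact ⟨k, by linarith⟩
    have hn' : (2:ℝ) ^ (p + j) = 15 * n + 4 := by exact_mod_cast hn
    have h4 := h.half j n (by rw [hx, hn']; linarith) (by rw [hx, hn']; linarith)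
    rw [hx] at h4
    exact h4

/-- **From the root to the period certificate.** -/
theorem PD.perQ {D : PD} (hD : D.Root) {ε : ℂ} (hn : ‖ε‖ < 1 / 2)
    (hreg : 3 * ‖ε ^ 2‖ ^ 2 < 2 * (ε ^ 2).re + ‖ε ^ 2‖ ^ 4) (him : 0 ≤ (ε ^ 2).im) {A : ℝ}
    (hA : A * 16777216 ≤ D.a0) : PerQ ε 1 A (D.h / 16777216) (99 / 100) D.κ D.β := by
  intro w a hal ha ha4
  set e := ε ^ 2 with he
  have h16 : ‖(16777216 : ℂ)‖ = 16777216 := by simp
  have hen : ‖e‖ < 1 / 4 := by
    rw [he, norm_pow]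
    have := norm_nonneg ε
    nlinarith
  have hreg' : 47 * ‖e‖ ^ 2 < 32 * e.re := by
    have h4 : ‖e‖ ^ 4 ≤ ‖e‖ ^ 2 / 16 := by
      have : ‖e‖ ^ 2 ≤ 1 / 16 := by nlinarith [norm_nonneg e]
      nlinarith [sq_nonneg ‖e‖]
    linarith
  have hg := good_of_alive hal
  rw [← he] at hg
  have hAl := hg.al hen.le
  have hre := Complex.abs_re_le_norm e
  have him' := Complex.abs_im_le_norm e
  have hre0 : 0 ≤ e.re := by nlinarith [norm_nonneg e]
  have c_re : ∀ z : ℂ, ((16777216 : ℂ) * z).re = 16777216 * z.re := by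
    intro z
    have : (16777216 : ℂ) = ((16777216 : ℝ) : ℂ) := by norm_num
    rw [this, Complex.re_ofReal_mul]
  have c_im : ∀ z : ℂ, ((16777216 : ℂ) * z).im = 16777216 * z.im := by
    intro z
    have : (16777216 : ℂ) = ((16777216 : ℝ) : ℂ) := by norm_num
    rw [this, Complex.im_ofReal_mul]
  have hw1 := hg.one hen.le rfl
  have hwr := (Complex.abs_re_le_norm w).trans hw1
  have hwi := (Complex.abs_im_le_norm w).trans hw1
  have hE : BxE 2097152 2097152 2097152 (16777216 * e) := by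
    unfold BxE
    rw [c_re, c_im]
    have a1 := abs_le.1 hre
    have a2 := abs_le.1 him'
    constructor <;> (rw [abs_le]; push_cast; constructor <;> linarith)
  have hW : BxW 536870912 536870912 57671680 (16777216 * w) := by
    unfold BxW
    rw [c_re, c_im]
    rw [abs_le] at hwr hwi
    constructor <;> (rw [abs_le]; push_cast; constructor <;> linarith)
  have hR : Rg (16777216 * e) := by
    unfold Rg
    rw [c_re, norm_mul, h16]
    constructor
    · linarith
    · nlinarith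
  have hP := hD _ _ hE hW hR hAl
  unfold PP at hP
  have e1 : (16777216 : ℂ) * e / 16777216 = e := by field_simp
  have e2 : (16777216 : ℂ) * w / 16777216 = w := by field_simp
  rw [e1, e2] at hP
  have hle : ∀ {x : ℝ}, x ≤ A → Le x D.a0 := fun hx => by
    unfold Le
    linarith
  obtain ⟨⟨s1, s2, s3⟩, hk⟩ := hP a (hle ha) (hle ha4)
  obtain ⟨k1, k2, k3, k4⟩ := hk _ rfl
  have hdiv : ∀ {x : ℝ} {n : ℕ}, Le x n → x ≤ n / 16777216 := fun hx => by
    unfold Le at hx
    rw [le_div_iff₀ (by norm_num)]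
    exact hx
  have hκ0 : D.κ 0 = D.k0 / 16777216 := by simp [PD.κ]
  have hper : ∀ j, perK ε 1 w a (D.h / 16777216) (D.κ 0) j =
      compC (fun j => cc (1 + j)) (fun j => dd (1 + j))
        (fun j => ‖1 - 2 * cc (1 + j) * ww e 1 w j‖) (fun j => ‖ww e 1 w j‖)
        (fun j => ‖e - ww e 1 w j ^ 2‖) (fun j => ‖aa e 1 w a j‖) ((D.h:ℝ) / 16777216)
        ((D.k0:ℝ) / 16777216) j := by
    intro j
    rw [hκ0]
    rfl
  refine ⟨fun j hj => ?_, fun j hj0 hj => ?_, ?_⟩
  · interval_cases j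
    · show ‖a‖ ≤ _
      have := hdiv (hle ha)
      simpa [PD.β] using this
    · have := hdiv s1
      simpa [PD.β] using this
    · have := hdiv s2
      simpa [PD.β] using this
    · have := hdiv s3
      simpa [PD.β] using this
  · rw [hper]
    interval_cases j
    · have := hdiv k1
      simpa [PD.κ] using this
    · have := hdiv k2
      simpa [PD.κ] using this
    · have := hdiv k3
      simpa [PD.κ] using this
  · rw [hper, hκ0]
    linarith

end Pool.Agent.W_4481e3_q59.PEv
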