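import Pool.Agent.W_4481e3_q59.PerEv
import Pool.Agent.W_4481e3_q59.ConsumerPQ
import Pool.Agent.W_4481e3_q12.SndT

/-!
Period certificate: soundness of the real part of the leaves.
-/

namespace Pool.Agent.W_4481e3_q59.PEv

open Pool.Agent.W_MP_4481e3_an.Ev (gd gd_true div_lower div_upper ndiv_eq)
open Pool.Agent.W_4481e3_q42 Pool.Agent.W_MP_4481e3_an
open Pool.Agent.W_MP_4481e3_an.Boot (nextC compC)

lemma dv_sound {x : ℝ} {n : ℕ} (h : x ≤ n) : x / 16777216 ≤ dv n := by
  unfold dv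
  simp only [Nat.add_eq, ndiv_eq]
  have h1 := div_lower n 16777216 (by norm_num)
  push_cast at h1 ⊢
  have : x / 16777216 ≤ n / 16777216 := div_le_div_of_nonneg_right h (by norm_num)
  linarith

lemma dv2_sound {x : ℝ} {n : ℕ} (h : x ≤ n) : x / 33554432 ≤ dv2 n := by
  unfold dv2
  simp only [Nat.add_eq, ndiv_eq]
  have h1 := div_lower n 33554432 (by norm_num)
  push_cast at h1 ⊢
  have : x / 33554432 ≤ n / 33554432 := div_le_div_of_nonneg_right h (by norm_num)
  linarith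

lemma mn_eq (x y : ℕ) : mn x y = min x y := by
  unfold mn
  simp only [Nat.sub_eq]
  omega

/-- one step, scaled -/
lemma nx_sound {c d F w E a h B : ℝ} {C D F' w' E' a' h' B' : ℕ}
    (hC : |c| * 16777216 ≤ C) (hD : |d| * 16777216 ≤ D) (hF0 : 0 ≤ F) (hF : F * 16777216 ≤ F')
    (hw0 : 0 ≤ w) (hw : w * 16777216 ≤ w') (hE0 : 0 ≤ E) (hE : E * 16777216 ≤ E')
    (ha0 : 0 ≤ a) (ha : a * 16777216 ≤ a') (hh0 : 0 ≤ h) (hh : h * 16777216 ≤ h')
    (hB0 : 0 ≤ B) (hB : B * 16777216 ≤ B') :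
    nextC c d F w E (a + B * h / 2) h B * 16777216 ≤ nx C D F' w' E' a' h' B' := by
  have pc : 0 ≤ |c| := abs_nonneg _
  have pd : 0 ≤ |d| := abs_nonneg _
  set l : ℝ := a + B * h / 2 with hl
  have hl0 : 0 ≤ l := by positivity
  have mulS : ∀ {x y : ℝ} {m n : ℕ}, 0 ≤ x → 0 ≤ y → x * 16777216 ≤ m → y * 16777216 ≤ n →
      x * y * 16777216 ≤ dv (m * n) := by
    intro x y m n hx hy h1 h2
    have h3 : (x * 16777216) * (y * 16777216) ≤ (m:ℝ) * n := mul_le_mul h1 h2 (by positivity) (Nat.cast_nonneg _)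
    have h4 : (x * 16777216) * (y * 16777216) ≤ ((m * n : ℕ) : ℝ) := by push_cast; exact h3
    have h5 := dv_sound h4
    have e : (x * 16777216) * (y * 16777216) / 16777216 = x * y * 16777216 := by ring
    rwa [e] at h5
  have mulS2 : ∀ {x y : ℝ} {m n : ℕ}, 0 ≤ x → 0 ≤ y → x * 16777216 ≤ m → y * 16777216 ≤ n →
      x * y / 2 * 16777216 ≤ dv2 (m * n) := by
    intro x y m n hx hy h1 h2
    have h3 : (x * 16777216) * (y * 16777216) ≤ (m:ℝ) * n := mul_le_mul h1 h2 (by positivity) (Nat.cast_nonneg _)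
    have h4 : (x * 16777216) * (y * 16777216) ≤ ((m * n : ℕ) : ℝ) := by push_cast; exact h3
    have h5 := dv2_sound h4
    have e : (x * 16777216) * (y * 16777216) / 33554432 = x * y / 2 * 16777216 := by ring
    rwa [e] at h5
  unfold nx nx1 nx2
  simp only [Nat.add_eq, Nat.mul_eq, ndiv_eq]
  set l' := a' + dv2 (B' * h') with hl'
  have hll : l * 16777216 ≤ l' := by
    have h1 := mulS2 hB0 hh0 hB hh
    rw [hl', hl]
    push_cast
    linarith
  clear_value l' l
  have hl2 : l * l * 16777216 ≤ dv (l' * l') := mulS hl0 hl0 hll hll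
  have hl20 : 0 ≤ l * l := by positivity
  set l2 := dv (l' * l') with hl2d
  clear_value l2
  -- the pieces
  have t1 : F * B / 4 * 16777216 ≤ ((F' * B' / 67108864 : ℕ) : ℝ) + 1 := by
    have h1 := div_lower (F' * B') 67108864 (by norm_num)
    push_cast at h1
    have h3 : (F * 16777216) * (B * 16777216) ≤ (F':ℝ) * B' := mul_le_mul hF hB (by positivity) (Nat.cast_nonneg _)
    have h4 : (F * 16777216) * (B * 16777216) / 67108864 ≤ (F':ℝ) * B' / 67108864 :=
      div_le_div_of_nonneg_right h3 (by norm_num)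
    have e : (F * 16777216) * (B * 16777216) / 67108864 = F * B / 4 * 16777216 := by ring
    linarith
  have t2 : |c| * (l * l) / 2 * 16777216 ≤ dv2 (C * l2) := mulS2 pc hl20 hC hl2
  have t3 : w * |d| * l * 16777216 ≤ dv (dv (w' * D) * l') :=
    mulS (by positivity) hl0 (mulS hw0 pd hw hD) hll
  have t4 : |d| * h * (l * l) / 2 * 16777216 ≤ dv2 (dv (D * h') * l2) :=
    mulS2 (by positivity) hl20 (mulS pd hh0 hD hh) hl2
  have u1 : w * l * h * 16777216 ≤ dv (dv (w' * l') * h') := mulS (by positivity) hh0 (mulS hw0 hl0 hw hll) hh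
  have u2 : l * l * h * h * 16777216 ≤ dv (dv (l2 * h') * h') := mulS (by positivity) hh0 (mulS hl20 hh0 hl2 hh) hh
  have u3 : (|c| + 21 / 10 * h) * 16777216 ≤ ((C + 21 * h' / 10 + 1 : ℕ) : ℝ) := by
    have h1 := div_lower (21 * h') 10 (by norm_num)
    push_cast at h1 ⊢
    linarith
  have u4 : (E + 2 * (w * l * h) + l * l * h * h) * 16777216 ≤
      ((E' + 2 * dv (dv (w' * l') * h') + dv (dv (l2 * h') * h') : ℕ) : ℝ) := by
    push_cast
    linarith
  have u5 := mulS (by positivity) (by positivity) u3 u4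
  have hpi : Real.pi ^ 2 * 16777216 ≤ ((165585260 : ℕ) : ℝ) := by
    have h1 := Real.pi_lt_d4
    have h0 := Real.pi_pos
    push_cast
    nlinarith
  have t5 := mulS (by positivity) (by positivity) hpi u5
  push_cast at t1 t2 t3 t4 t5 ⊢
  unfold nextC
  have e : (F * B / 4 + |c| * l ^ 2 / 2 + w * |d| * l + |d| * h * l ^ 2 / 2 +
      Real.pi ^ 2 * (|c| + 21 / 10 * h) * (E + 2 * w * l * h + l ^ 2 * h ^ 2)) * 16777216 =
    F * B / 4 * 16777216 + |c| * (l * l) / 2 * 16777216 + w * |d| * l * 16777216 +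
      |d| * h * (l * l) / 2 * 16777216 +
      Real.pi ^ 2 * ((|c| + 21 / 10 * h) * (E + 2 * (w * l * h) + l * l * h * h)) * 16777216 := by ring
  rw [e]
  linarith

lemma fw_sound {F d E a : ℝ} {F' D E' a' : ℕ} (hF0 : 0 ≤ F) (hF : F * 16777216 ≤ F')
    (hd0 : 0 ≤ d) (hD : d * 16777216 ≤ D) (hE0 : 0 ≤ E) (hE : E * 16777216 ≤ E') (ha0 : 0 ≤ a)
    (ha : a * 16777216 ≤ a') : (F * a + d * E) / 2 * 16777216 ≤ fw F' D E' a' := by
  unfold fw
  simp only [Nat.add_eq, Nat.mul_eq, ndiv_eq]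
  have h1 := div_lower (F' * a' + D * E') 33554432 (by norm_num)
  have h2 : (F * 16777216) * (a * 16777216) ≤ (F':ℝ) * a' := mul_le_mul hF ha (by positivity) (Nat.cast_nonneg _)
  have h3 : (d * 16777216) * (E * 16777216) ≤ (D:ℝ) * E' := mul_le_mul hD hE (by positivity) (Nat.cast_nonneg _)
  push_cast at h1 ⊢
  have h4 : ((F * 16777216) * (a * 16777216) + (d * 16777216) * (E * 16777216)) / 33554432 ≤
      ((F':ℝ) * a' + D * E') / 33554432 := div_le_div_of_nonneg_right (add_le_add h2 h3) (by norm_num)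
  have e : ((F * 16777216) * (a * 16777216) + (d * 16777216) * (E * 16777216)) / 33554432 =
    (F * a + d * E) / 2 * 16777216 := by ring
  linarith

lemma bm_sound {U d E x y : ℝ} {L D E' y' f : ℕ} (hL : (L:ℝ) ≤ U * 16777216)
    (hd0 : 0 ≤ d) (hD : d * 16777216 ≤ D) (hE0 : 0 ≤ E) (hE : E * 16777216 ≤ E')
    (hy : y * 16777216 ≤ y') (hx0 : 0 ≤ x) (hx : U * x ≤ 2 * y + d * E) (hf : x * 16777216 ≤ f) :
    x * 16777216 ≤ bm L D E' y' f := by
  unfold bm
  simp only [Nat.add_eq, Nat.mul_eq, ndiv_eq]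
  cases hb : Nat.ble 1 L with
  | false => exact hf
  | true =>
    have hL1 : 1 ≤ L := Nat.le_of_ble_eq_true hb
    have hL0 : (0:ℝ) < L := by exact_mod_cast hL1
    show x * 16777216 ≤ ((mn f ((33554432 * y' + D * E') / L + 1) : ℕ) : ℝ)
    rw [mn_eq]
    push_cast
    refine le_min hf ?_
    have h1 := div_lower (33554432 * y' + D * E') L hL1
    push_cast at h1
    have h3 : (d * 16777216) * (E * 16777216) ≤ (D:ℝ) * E' := mul_le_mul hD hE (by positivity) (Nat.cast_nonneg _)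
    have h4 : x * 16777216 ≤ (33554432 * (y':ℝ) + D * E') / L := by
      rw [le_div_iff₀ hL0]
      calc x * 16777216 * L ≤ x * 16777216 * (U * 16777216) := by gcongr
        _ = (U * x) * (16777216 * 16777216) := by ring
        _ ≤ (2 * y + d * E) * (16777216 * 16777216) := by gcongr
        _ = 33554432 * (y * 16777216) + (d * 16777216) * (E * 16777216) := by ring
        _ ≤ _ := by linarith
    linarith

end Pool.Agent.W_4481e3_q59.PEv
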