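import Pool.Agent.W_4481e3_q59.PerSndA

/-!
Period certificate: soundness of the leaves (real part): constants and slopes.
-/

namespace Pool.Agent.W_4481e3_q59.PEv

open Pool.Agent.W_MP_4481e3_an.Ev (gd gd_true div_lower div_upper ndiv_eq)
open Pool.Agent.W_4481e3_q42 Pool.Agent.W_MP_4481e3_an
open Pool.Agent.W_MP_4481e3_an.Boot (nextC compC)
open Pool.Agent.W_4481e3_q12.Ev (cph chk0 chk1 chk2 chk3')

lemma cc_cph (p : ℕ) : cc p = cph p := rfl

lemma c0_abs : |cc 4| * 16777216 ≤ ((15326750 : ℕ) : ℝ) := by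
  rw [show (4:ℕ) = 0 + 4 by rfl, cc_add_four, cc_cph, abs_of_nonneg (by have := abs_le.1 chk0; linarith [this.2])]
  have := abs_le.1 chk0
  push_cast; linarith [this.1]

lemma c1_abs : |cc 1| * 16777216 ≤ ((11226150 : ℕ) : ℝ) := by
  rw [cc_cph, abs_of_nonneg (by have := abs_le.1 chk1; linarith [this.2])]
  have := abs_le.1 chk1
  push_cast; linarith [this.1]

lemma c2_abs : |cc 2| * 16777216 ≤ ((1753698 : ℕ) : ℝ) := by
  rw [cc_cph, abs_of_nonpos (by have := abs_le.1 chk2; linarith [this.1])]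
  have := abs_le.1 chk2
  push_cast; linarith [this.2]

lemma c3_abs : |cc 3| * 16777216 ≤ ((16410595 : ℕ) : ℝ) := by
  rw [cc_cph, abs_of_nonpos (by have := abs_le.1 chk3'; linarith [this.1])]
  have := abs_le.1 chk3'
  push_cast; linarith [this.2]

lemma dd_abs {p : ℕ} {v D : ℝ} (hv : 0 ≤ v) (h : 1 - cc p ^ 2 ≤ v ^ 2) (hD : 2 * 3.1416 * v ≤ D) : |dd p| ≤ D := by
  have h1 : Real.sin (2 * Real.pi * (2 ^ p / 15)) ^ 2 ≤ v ^ 2 := by
    have := Real.sin_sq_add_cos_sq (2 * Real.pi * (2 ^ p / 15))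
    unfold cc at h
    linarith
  have h2 := abs_le_of_sq_le_sq h1 hv
  unfold dd
  rw [abs_neg, abs_mul, abs_of_pos (by positivity : (0:ℝ) < 2 * Real.pi)]
  have h3 := Real.pi_lt_d4
  have h4 := Real.pi_pos
  have h5 : 2 * Real.pi * |Real.sin (2 * Real.pi * (2 ^ p / 15))| ≤ 2 * 3.1416 * v := by
    apply mul_le_mul _ h2 (abs_nonneg _) (by norm_num)
    linarith
  linarith

lemma d0_abs : |dd 4| * 16777216 ≤ ((42876300 : ℕ) : ℝ) := by
  rw [show (4:ℕ) = 0 + 4 by rfl, dd_add_four]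
  have h := abs_le.1 chk0
  have h1 : (15326748 / 16777216 : ℝ) ≤ cc 0 := by rw [cc_cph]; linarith [h.2]
  have := dd_abs (p := 0) (v := 406738 / 1000000) (D := 42876300 / 16777216) (by norm_num) (by nlinarith) (by norm_num)
  push_cast
  linarith

lemma d1_abs : |dd 1| * 16777216 ≤ ((78338600 : ℕ) : ℝ) := by
  have h := abs_le.1 chk1
  have h1 : (11226148 / 16777216 : ℝ) ≤ cc 1 := by rw [cc_cph]; linarith [h.2]
  have := dd_abs (p := 1) (v := 7431450 / 10000000) (D := 78338600 / 16777216) (by norm_num) (by nlinarith) (by norm_num)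
  push_cast
  linarith

lemma d2_abs : |dd 2| * 16777216 ≤ ((104837500 : ℕ) : ℝ) := by
  have h := abs_le.1 chk2
  have h1 : cc 2 ≤ (-1753696 / 16777216 : ℝ) := by rw [cc_cph]; linarith [h.1]
  have := dd_abs (p := 2) (v := 9945220 / 10000000) (D := 104837500 / 16777216) (by norm_num) (by nlinarith) (by norm_num)
  push_cast
  linarith

lemma d3_abs : |dd 3| * 16777216 ≤ ((21917200 : ℕ) : ℝ) := by
  have h := abs_le.1 chk3'
  have h1 : cc 3 ≤ (-16410593 / 16777216 : ℝ) := by rw [cc_cph]; linarith [h.1]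
  have := dd_abs (p := 3) (v := 2079120 / 10000000) (D := 21917200 / 16777216) (by norm_num) (by nlinarith) (by norm_num)
  push_cast
  linarith

end Pool.Agent.W_4481e3_q59.PEv
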