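import Pool.Agent.W_4481e3_q59.PerSndB

/-!
Period certificate: soundness of the leaves (real part).
-/

namespace Pool.Agent.W_4481e3_q59.PEv

open Pool.Agent.W_MP_4481e3_an.Ev (gd gd_true div_lower div_upper ndiv_eq)
open Pool.Agent.W_4481e3_q42 Pool.Agent.W_MP_4481e3_an
open Pool.Agent.W_MP_4481e3_an.Boot (nextC compC nextC_nonneg compC_nonneg)

/-- scaled inequality -/
def Le (x : ℝ) (n : ℕ) : Prop := x * 16777216 ≤ n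

/-- the conclusion at a point of a leaf; slope bound `a0`, window `h`, constants `k`, bounds `b` -/
def Per (e w : ℂ) (a0 h k0 k1 k2 k3 b1 b2 b3 : ℕ) : Prop :=
  ∀ a : ℂ, Le ‖a‖ a0 → Le ‖aa e 1 w a 4‖ a0 →
    (Le ‖aa e 1 w a 1‖ b1 ∧ Le ‖aa e 1 w a 2‖ b2 ∧ Le ‖aa e 1 w a 3‖ b3) ∧
    ∀ g : ℕ → ℝ, g = (fun j => compC (fun j => cc (1 + j)) (fun j => dd (1 + j))
        (fun j => ‖1 - 2 * cc (1 + j) * ww e 1 w j‖) (fun j => ‖ww e 1 w j‖)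
        (fun j => ‖e - ww e 1 w j ^ 2‖) (fun j => ‖aa e 1 w a j‖) ((h:ℝ) / 16777216) ((k0:ℝ) / 16777216) j) →
      Le (g 1) k1 ∧ Le (g 2) k2 ∧ Le (g 3) k3 ∧ 100 * (g 4 * 16777216) ≤ 99 * (k0:ℝ)

/-- numerical data of the four steps -/
structure Dat (e w : ℂ) (F L W E : ℕ → ℕ) : Prop where
  F : ∀ j < 4, Le ‖1 - 2 * cc (1 + j) * ww e 1 w j‖ (F j)
  L : ∀ j < 4, (L j : ℝ) ≤ ‖1 - 2 * cc (1 + j) * ww e 1 w j‖ * 16777216
  W : ∀ j < 4, Le ‖ww e 1 w j‖ (W j)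
  E : ∀ j < 4, Le ‖e - ww e 1 w j ^ 2‖ (E j)

variable {e w : ℂ}

lemma aa_fwd (a : ℂ) (j : ℕ) : ‖aa e 1 w a (j + 1)‖ ≤
    (‖1 - 2 * cc (1 + j) * ww e 1 w j‖ * ‖aa e 1 w a j‖ + |dd (1 + j)| * ‖e - ww e 1 w j ^ 2‖) / 2 := by
  show ‖((1 - 2 * cc (1 + j) * ww e 1 w j) * aa e 1 w a j + dd (1 + j) * (e - ww e 1 w j ^ 2)) / 2‖ ≤ _
  rw [norm_div]
  have h2 : ‖(2:ℂ)‖ = 2 := by simp
  rw [h2]
  apply div_le_div_of_nonneg_right _ (by norm_num)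
  refine (norm_add_le _ _).trans ?_
  rw [norm_mul, norm_mul, Complex.norm_real, Real.norm_eq_abs]

lemma aa_bwd (a : ℂ) (j : ℕ) : ‖1 - 2 * cc (1 + j) * ww e 1 w j‖ * ‖aa e 1 w a j‖ ≤
    2 * ‖aa e 1 w a (j + 1)‖ + |dd (1 + j)| * ‖e - ww e 1 w j ^ 2‖ := by
  have h : (1 - 2 * cc (1 + j) * ww e 1 w j) * aa e 1 w a j =
      2 * aa e 1 w a (j + 1) - dd (1 + j) * (e - ww e 1 w j ^ 2) := by
    have : aa e 1 w a (j + 1) =
      ((1 - 2 * cc (1 + j) * ww e 1 w j) * aa e 1 w a j + dd (1 + j) * (e - ww e 1 w j ^ 2)) / 2 := rfl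
    rw [this]; ring
  rw [← norm_mul, h]
  refine (norm_sub_le _ _).trans ?_
  rw [norm_mul, norm_mul, Complex.norm_real, Real.norm_eq_abs]
  have h2 : ‖(2:ℂ)‖ = 2 := by simp
  rw [h2]

lemma gd2 {c x : Bool} (h : gd c x = true) : c = true ∧ x = true := by
  rw [gd_true] at h; exact h

/-- **Period leaf.** -/
theorem sl8_sound {F L W E : ℕ → ℕ} (hd : Dat e w F L W E) {a0 h k0 k1 k2 k3 b1 b2 b3 : ℕ}
    (hs : sl8 (L 1) (L 2) (L 3) (F 0) (W 0) (E 0) (F 1) (W 1) (E 1) (F 2) (W 2) (E 2) (F 3) (W 3) (E 3)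
      a0 h k0 k1 k2 k3 b1 b2 b3 = true) : Per e w a0 h k0 k1 k2 k3 b1 b2 b3 := by
  intro a ha ha4
  have nn : ∀ z : ℂ, 0 ≤ ‖z‖ := norm_nonneg
  have hF0 := hd.F 0 (by norm_num)
  have hF1 := hd.F 1 (by norm_num)
  have hF2 := hd.F 2 (by norm_num)
  have hF3 := hd.F 3 (by norm_num)
  have hW0 := hd.W 0 (by norm_num)
  have hW1 := hd.W 1 (by norm_num)
  have hW2 := hd.W 2 (by norm_num)
  have hW3 := hd.W 3 (by norm_num)
  have hE0 := hd.E 0 (by norm_num)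
  have hE1 := hd.E 1 (by norm_num)
  have hE2 := hd.E 2 (by norm_num)
  have hE3 := hd.E 3 (by norm_num)
  have hL1 := hd.L 1 (by norm_num)
  have hL2 := hd.L 2 (by norm_num)
  have hL3 := hd.L 3 (by norm_num)
  have d1 : |dd (1 + 0)| * 16777216 ≤ ((78338600 : ℕ) : ℝ) := d1_abs
  have d2 : |dd (1 + 1)| * 16777216 ≤ ((104837500 : ℕ) : ℝ) := d2_abs
  have d3 : |dd (1 + 2)| * 16777216 ≤ ((21917200 : ℕ) : ℝ) := d3_abs
  have d4 : |dd (1 + 3)| * 16777216 ≤ ((42876300 : ℕ) : ℝ) := d0_abs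
  have c1 : |cc (1 + 0)| * 16777216 ≤ ((11226150 : ℕ) : ℝ) := c1_abs
  have c2 : |cc (1 + 1)| * 16777216 ≤ ((1753698 : ℕ) : ℝ) := c2_abs
  have c3 : |cc (1 + 2)| * 16777216 ≤ ((16410595 : ℕ) : ℝ) := c3_abs
  have c4 : |cc (1 + 3)| * 16777216 ≤ ((15326750 : ℕ) : ℝ) := c0_abs
  have ha0 : Le ‖aa e 1 w a 0‖ a0 := ha
  unfold Le at *
  -- forward bounds
  unfold sl8 sl7 sl6 sl5 sl4 sl3 sl2 sl1 at hs
  have f1 := (mul_le_mul_of_nonneg_right (aa_fwd (e := e) (w := w) a 0) (by norm_num : (0:ℝ) ≤ 16777216)).trans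
    (fw_sound (nn _) hF0 (abs_nonneg _) d1 (nn _) hE0 (nn _) ha0)
  set n1 := fw (F 0) 78338600 (E 0) a0
  have f2 := (mul_le_mul_of_nonneg_right (aa_fwd (e := e) (w := w) a 1) (by norm_num : (0:ℝ) ≤ 16777216)).trans
    (fw_sound (nn _) hF1 (abs_nonneg _) d2 (nn _) hE1 (nn _) f1)
  set n2 := fw (F 1) 104837500 (E 1) n1
  have f3 := (mul_le_mul_of_nonneg_right (aa_fwd (e := e) (w := w) a 2) (by norm_num : (0:ℝ) ≤ 16777216)).trans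
    (fw_sound (nn _) hF2 (abs_nonneg _) d3 (nn _) hE2 (nn _) f2)
  set n3 := fw (F 2) 21917200 (E 2) n2
  -- backward bounds
  have g3 := bm_sound hL3 (abs_nonneg _) d4 (nn _) hE3 ha4 (nn _) (aa_bwd (e := e) (w := w) a 3) f3
  set m3 := bm (L 3) 42876300 (E 3) a0 n3
  have g2 := bm_sound hL2 (abs_nonneg _) d3 (nn _) hE2 g3 (nn _) (aa_bwd (e := e) (w := w) a 2) f2
  set m2 := bm (L 2) 21917200 (E 2) m3 n2
  have g1 := bm_sound hL1 (abs_nonneg _) d2 (nn _) hE1 g2 (nn _) (aa_bwd (e := e) (w := w) a 1) f1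
  set m1 := bm (L 1) 104837500 (E 1) m2 n1
  -- forward again
  have q2 := (mul_le_mul_of_nonneg_right (aa_fwd (e := e) (w := w) a 1) (by norm_num : (0:ℝ) ≤ 16777216)).trans
    (fw_sound (nn _) hF1 (abs_nonneg _) d2 (nn _) hE1 (nn _) g1)
  have g2' : ‖aa e 1 w a 2‖ * 16777216 ≤ ((mn m2 (fw (F 1) 104837500 (E 1) m1) : ℕ) : ℝ) := by
    rw [mn_eq]; push_cast; exact le_min g2 q2
  set m2' := mn m2 (fw (F 1) 104837500 (E 1) m1)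
  have q3 := (mul_le_mul_of_nonneg_right (aa_fwd (e := e) (w := w) a 2) (by norm_num : (0:ℝ) ≤ 16777216)).trans
    (fw_sound (nn _) hF2 (abs_nonneg _) d3 (nn _) hE2 (nn _) g2')
  have g3' : ‖aa e 1 w a 3‖ * 16777216 ≤ ((mn m3 (fw (F 2) 21917200 (E 2) m2') : ℕ) : ℝ) := by
    rw [mn_eq]; push_cast; exact le_min g3 q3
  set m3' := mn m3 (fw (F 2) 21917200 (E 2) m2')
  obtain ⟨s1, hs⟩ := gd2 hs
  obtain ⟨s2, hs⟩ := gd2 hs
  obtain ⟨s3, hs⟩ := gd2 hs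
  have s1' : (m1:ℝ) ≤ b1 := by exact_mod_cast Nat.le_of_ble_eq_true s1
  have s2' : (m2':ℝ) ≤ b2 := by exact_mod_cast Nat.le_of_ble_eq_true s2
  have s3' : (m3':ℝ) ≤ b3 := by exact_mod_cast Nat.le_of_ble_eq_true s3
  refine ⟨⟨g1.trans s1', g2'.trans s2', g3'.trans s3'⟩, ?_⟩
  intro g hg
  unfold fin1 at hs
  obtain ⟨t1, hs⟩ := gd2 hs
  unfold fin2 at hs
  obtain ⟨t2, hs⟩ := gd2 hs
  unfold fin3 at hs
  obtain ⟨t3, hs⟩ := gd2 hs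
  unfold fin4 at hs
  have t4 := Nat.le_of_ble_eq_true hs
  have t1' := Nat.le_of_ble_eq_true t1
  have t2' := Nat.le_of_ble_eq_true t2
  have t3' := Nat.le_of_ble_eq_true t3
  clear hs t1 t2 t3
  set C : ℕ → ℝ := fun j => cc (1 + j) with hC
  set D : ℕ → ℝ := fun j => dd (1 + j) with hD
  set Fr : ℕ → ℝ := fun j => ‖1 - 2 * cc (1 + j) * ww e 1 w j‖ with hFr
  set Wr : ℕ → ℝ := fun j => ‖ww e 1 w j‖ with hWr
  set Er : ℕ → ℝ := fun j => ‖e - ww e 1 w j ^ 2‖ with hEr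
  set Ar : ℕ → ℝ := fun j => ‖aa e 1 w a j‖ with hAr
  have hh0 : (0:ℝ) ≤ (h:ℝ) / 16777216 := by positivity
  have hk0 : (0:ℝ) ≤ (k0:ℝ) / 16777216 := by positivity
  have hnn : ∀ j, 0 ≤ g j := by
    intro j
    rw [hg]
    exact compC_nonneg (fun _ => nn _) (fun _ => nn _) (fun _ => nn _) (fun _ => nn _) hh0 hk0 j
  have hg0 : g 0 = (k0:ℝ) / 16777216 := by rw [hg]; rfl
  have hgs : ∀ j, g (j + 1) = nextC (C j) (D j) (Fr j) (Wr j) (Er j)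
      (Ar j + g j * (2 ^ j * ((h:ℝ) / 16777216)) / 2) (2 ^ j * ((h:ℝ) / 16777216)) (g j) := by
    intro j; rw [hg]; rfl
  have hsc : ∀ n : ℕ, (n:ℝ) / 16777216 * 16777216 ≤ (n:ℝ) := fun n => by
    rw [div_mul_cancel₀ _ (by norm_num)]
  have hwin : ∀ (j m : ℕ), 2 ^ j = m → 2 ^ j * ((h:ℝ) / 16777216) * 16777216 ≤ ((m * h : ℕ) : ℝ) := by
    intro j m hm
    rw [← hm]
    push_cast
    have := hsc h
    have h2 : (0:ℝ) ≤ 2 ^ j := by positivity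
    calc 2 ^ j * ((h:ℝ) / 16777216) * 16777216 = 2 ^ j * ((h:ℝ) / 16777216 * 16777216) := by ring
      _ ≤ _ := by gcongr
  have hwin0 : 2 ^ 0 * ((h:ℝ) / 16777216) * 16777216 ≤ (h:ℝ) := by
    rw [pow_zero, one_mul]; exact hsc h
  have x1 := nx_sound c1 d1 (nn _) hF0 (nn _) hW0 (nn _) hE0 (nn _) ha0
    (by positivity : (0:ℝ) ≤ 2 ^ 0 * ((h:ℝ) / 16777216)) hwin0 (hnn 0) (by rw [hg0]; exact hsc k0)
  rw [← hgs 0] at x1
  have x2 := nx_sound c2 d2 (nn _) hF1 (nn _) hW1 (nn _) hE1 (nn _) g1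
    (by positivity : (0:ℝ) ≤ 2 ^ 1 * ((h:ℝ) / 16777216)) (hwin 1 2 rfl) (hnn 1) x1
  rw [← hgs 1] at x2
  have x3 := nx_sound c3 d3 (nn _) hF2 (nn _) hW2 (nn _) hE2 (nn _) g2'
    (by positivity : (0:ℝ) ≤ 2 ^ 2 * ((h:ℝ) / 16777216)) (hwin 2 4 rfl) (hnn 2) x2
  rw [← hgs 2] at x3
  have x4 := nx_sound c4 d4 (nn _) hF3 (nn _) hW3 (nn _) hE3 (nn _) g3'
    (by positivity : (0:ℝ) ≤ 2 ^ 3 * ((h:ℝ) / 16777216)) (hwin 3 8 rfl) (hnn 3) x3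
  rw [← hgs 3] at x4
  refine ⟨x1.trans (by exact_mod_cast t1'), x2.trans (by exact_mod_cast t2'), x3.trans (by exact_mod_cast t3'), ?_⟩
  have t4' : (100:ℝ) * (nx 15326750 42876300 (F 3) (W 3) (E 3) m3' (8 * h) (nx 16410595 21917200 (F 2) (W 2) (E 2) m2' (4 * h)
    (nx 1753698 104837500 (F 1) (W 1) (E 1) m1 (2 * h) (nx 11226150 78338600 (F 0) (W 0) (E 0) a0 h k0))) : ℕ) ≤
      99 * k0 := by exact_mod_cast t4
  linarith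

end Pool.Agent.W_4481e3_q59.PEv
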