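import Pool.Agent.W_4481e3_q59.PerSndC

/-!
Period certificate: soundness of the ball bounds.
-/

namespace Pool.Agent.W_4481e3_q59.PEv

open Complex
open Pool.Agent.W_MP_4481e3_an.Ev (gd gd_true div_lower div_upper ndiv_eq pt InB nrm1_sound norm_pt_sq
  norm_le_sqrt_two)
open Pool.Agent.W_4481e3_q12.Ev (ds nrm st st1 st2 st3 st4 st5 fid neg s0 s1 s2 s3 fg esc out stp InE Ph
  st_sound centre ds_cast nrm_sound)

/-- the bound `G` of the factor delivered by `st` -/
def gm (f : ℕ → ℕ) (C D A : ℕ) : ℕ :=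
  ds (2 * C * f A) (281474976710656 + 2 * D) / 16777216 + 1
def gn (C B : ℕ) : ℕ := 2 * C * ds B 536870912 / 16777216 + 1
def gg (f : ℕ → ℕ) (C D A B : ℕ) : ℕ :=
  nrm (gm f C D A) (gn C B) (gm f C D A * gm f C D A + gn C B * gn C B)

theorem st_sound2 {f : ℕ → ℕ} {C D : ℕ} {c : ℝ} (hp : Ph f C D c) {X Y t A B r : ℕ} {E W : ℂ}
    {k : ℕ → ℕ → ℕ → ℕ → Bool}
    (hX : X ≤ 4194304) (hY : Y ≤ 4194304) (ht : t ≤ 16777216) (hE : InE X Y t E) (hW : InB A B r W)
    (h : st f C D X Y t A B r k = true) :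
    ∃ A' B' r' : ℕ, k A' B' r' (gg f C D A B) = true ∧ InB A' B' r' (stp c E W) ∧
      ds A 536870912 * ds A 536870912 + ds B 536870912 * ds B 536870912 ≤ 7318349394477056 ∧
      r ≤ 218103808 ∧ ‖pt A B‖ ≤ 86000000 ∧
      ‖16777216 - 2 * (c:ℂ) * W‖ ≤ gg f C D A B + 2 * C * r / 16777216 + 37 := by
  have hg : ds A 536870912 * ds A 536870912 + ds B 536870912 * ds B 536870912 + 33554432 * r ≤
      7318349394477056 := by
    have h' := h
    unfold st st1 st2 st3 at h'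
    rw [gd_true] at h'
    exact Nat.le_of_ble_eq_true h'.1
  have h2 : st f C D X Y t A B r (fun A' B' r' G => k A' B' r' G && Nat.beq G (gg f C D A B)) = true := by
    have h' := h
    unfold st st1 st2 st3 st4 st5 at h' ⊢
    rw [gd_true] at h' ⊢
    refine ⟨h'.1, ?_⟩
    rw [Bool.and_eq_true]
    exact ⟨h'.2, Nat.beq_refl _⟩
  obtain ⟨A', B', r', G, h3, h4, h5, h6, h7⟩ := st_sound hp hX hY ht hE hW h2
  rw [Bool.and_eq_true] at h3
  have hG := Nat.eq_of_beq_eq_true h3.2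
  rw [hG] at h3 h7
  exact ⟨A', B', r', h3.1, h4, by omega, h5, h6, h7⟩

lemma nz_sound {A B : ℕ} : ‖pt A B‖ ≤ nz A B := by
  unfold nz
  simp only [Nat.add_eq, Nat.mul_eq]
  apply nrm_sound
  rw [norm_pt_sq]
  push_cast
  rw [ds_cast, ds_cast]
  push_cast
  rw [abs_mul_abs_self, abs_mul_abs_self]
  apply le_of_eq; ring

lemma wn_sound {A B r : ℕ} {W : ℂ} (hW : InB A B r W) : ‖W‖ ≤ wn A B r := by
  unfold wn
  simp only [Nat.add_eq]
  have h1 := nz_sound (A := A) (B := B)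
  unfold InB at hW
  have h2 := norm_add_le (W - pt A B) (pt A B)
  rw [sub_add_cancel] at h2
  push_cast
  linarith

lemma ne_sound {A B X Y : ℕ}
    (hN : (ds A 536870912) * (ds A 536870912) + (ds B 536870912) * (ds B 536870912) ≤
      7318349394477056) :
    ‖(⟨(X : ℝ), (Y : ℝ)⟩ : ℂ) - (pt A B) ^ 2 / 16777216‖ ≤ ne X Y A B + 3 / 2 := by
  have h1 := centre (A := A) (B := B) (X := X) (Y := Y) hN
  unfold ne ne1 ne2 ne3
  simp only [Nat.add_eq, Nat.mul_eq, Nat.sub_eq, ndiv_eq]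
  set U := ((ds B 536870912) * (ds B 536870912) + 9007199254740992 -
        (ds A 536870912) * (ds A 536870912)) / 16777216 + X with hU
  set V := ((ds A 536870912) * (ds A 536870912) + (ds B 536870912) * (ds B 536870912) +
        9007199254740992 - (ds (A + B) 1073741824) * (ds (A + B) 1073741824)) / 16777216 + Y with hV
  have h2 := nz_sound (A := U) (B := V)
  unfold nz at h2
  simp only [Nat.add_eq, Nat.mul_eq] at h2
  have h3 := norm_add_le (((⟨(X : ℝ), (Y : ℝ)⟩ : ℂ) - (pt A B) ^ 2 / 16777216) - pt U V) (pt U V)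
  rw [sub_add_cancel] at h3
  linarith

lemma en_sound {A B X Y t r : ℕ} {E W : ℂ} (hE : InE X Y t E) (hW : InB A B r W)
    (hN : (ds A 536870912) * (ds A 536870912) + (ds B 536870912) * (ds B 536870912) ≤
      7318349394477056) : ‖E - W ^ 2 / 16777216‖ ≤ en X Y t A B r := by
  have h1 := ne_sound (X := X) (Y := Y) hN
  have h2 := nz_sound (A := A) (B := B)
  unfold en
  simp only [Nat.add_eq, Nat.mul_eq, ndiv_eq]
  unfold InE at hE
  unfold InB at hW
  set z := pt A B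
  set k0 : ℂ := (⟨(X : ℝ), (Y : ℝ)⟩ : ℂ)
  have h16 : ‖(16777216 : ℂ)‖ = 16777216 := by simp
  have hd := div_lower ((2 * nz A B + r) * r) 16777216 (by norm_num)
  have hr0 : (0:ℝ) ≤ r := Nat.cast_nonneg _
  have n1 : ‖(2 * z + (W - z)) * (W - z) / 16777216‖ ≤ (2 * (nz A B : ℝ) + r) * r / 16777216 := by
    rw [norm_div, norm_mul, h16]
    apply div_le_div_of_nonneg_right _ (by norm_num)
    apply mul_le_mul _ hW (norm_nonneg _) (by positivity)
    refine (norm_add_le _ _).trans ?_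
    rw [norm_mul]
    have h22 : ‖(2:ℂ)‖ = 2 := by simp
    rw [h22]
    linarith
  have e : E - W ^ 2 / 16777216 = ((k0 - z ^ 2 / 16777216) + (E - k0)) - (2 * z + (W - z)) * (W - z) / 16777216 := by
    ring
  rw [e]
  refine (norm_sub_le _ _).trans ?_
  have n2 := norm_add_le (k0 - z ^ 2 / 16777216) (E - k0)
  push_cast at hd ⊢
  linarith

lemma nrm_ge (m n : ℕ) : Real.sqrt ((m:ℝ) ^ 2 + (n:ℝ) ^ 2) ≤ nrm m n (m * m + n * n) := by
  apply nrm_sound
  rw [Real.sq_sqrt (by positivity)]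
  push_cast
  apply le_of_eq; ring

lemma lo_sound {f : ℕ → ℕ} {C D : ℕ} {c : ℝ} (hp : Ph f C D c) {A B r : ℕ} {W : ℂ} (hW : InB A B r W)
    (hr : r ≤ 218103808) (hz : ‖pt A B‖ ≤ 86000000) :
    (lo f C D A B r (gg f C D A B) : ℝ) ≤ ‖16777216 - 2 * (c:ℂ) * W‖ := by
  obtain ⟨⟨σ, hσ, hf, hcC⟩, hD, hC, hc⟩ := hp
  have hσ1 : |σ| = 1 := by rcases hσ with h | h <;> rw [h] <;> simp
  unfold InB at hW
  have e0 : lo f C D A B r (gg f C D A B) =
      (gm f C D A * gm f C D A + gn C B * gn C B) / gg f C D A B - (2 * C * r / 16777216 + 45) := rfl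
  rw [e0]
  set z := pt A B with hzd
  have habs1 : |(A:ℝ) - 536870912| ≤ 86000000 := (Complex.abs_re_le_norm z).trans hz
  have hCr : (C:ℝ) ≤ 16777216 := by exact_mod_cast hC
  have hC0 : (0:ℝ) ≤ C := Nat.cast_nonneg _
  set q : ℝ := σ * (C / 16777216) with hq
  have hqabs : |q| = (C:ℝ) / 16777216 := by
    rw [hq, abs_mul, hσ1, one_mul, abs_of_nonneg (by positivity)]
  have hcq : |c - q| ≤ 1 / 16777216 := by
    have : c - q = (16777216 * c - σ * C) / 16777216 := by rw [hq]; ring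
    rw [this, abs_div, abs_of_pos (show (0:ℝ) < 16777216 by norm_num)]
    exact div_le_div_of_nonneg_right hcC (by norm_num)
  have hA2 : A ≤ 1073741824 := by
    have : (A:ℝ) ≤ 1073741824 := by have := (abs_le.1 habs1).2; linarith
    exact_mod_cast this
  have hfA := hf A hA2
  set F : ℂ := (16777216 - 2 * (q:ℂ) * z) with hF
  have hFre : F.re = 16777216 - 2 * q * ((A:ℝ) - 536870912) := by
    rw [hF, Complex.sub_re]
    have : 2 * (q:ℂ) * z = ((2 * q : ℝ) : ℂ) * z := by push_cast; ring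
    have h0 : (16777216 : ℂ).re = 16777216 := by norm_num
    rw [this, Complex.re_ofReal_mul, h0]
    rfl
  have hFim : F.im = - (2 * q * ((B:ℝ) - 536870912)) := by
    rw [hF, Complex.sub_im]
    have : 2 * (q:ℂ) * z = ((2 * q : ℝ) : ℂ) * z := by push_cast; ring
    have h0 : (16777216 : ℂ).im = 0 := by norm_num
    rw [this, Complex.im_ofReal_mul, h0, zero_sub]
    rfl
  have hbb : ((ds B 536870912 : ℕ) : ℝ) = |(B:ℝ) - 536870912| := by rw [ds_cast]; norm_num
  have hX12 : ((2 * C * f A : ℕ) : ℝ) - ((281474976710656 + 2 * D : ℕ) : ℝ) = - (16777216 * F.re) := by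
    rw [hFre, hq, hD]
    push_cast
    have : (f A : ℝ) = σ * ((A:ℝ) - 536870912) + 536870912 := by linarith
    rw [this]
    ring
  have hmre : (gm f C D A : ℝ) - 1 ≤ |F.re| := by
    unfold gm
    have e3 := div_upper (ds (2 * C * f A) (281474976710656 + 2 * D)) 16777216
    rw [ds_cast, hX12, abs_neg, abs_mul, abs_of_pos (show (0:ℝ) < 16777216 by norm_num)] at e3
    push_cast at e3 ⊢
    linarith
  have hnim : (gn C B : ℝ) - 1 ≤ |F.im| := by
    unfold gn
    have e3 := div_upper (2 * C * ds B 536870912) 16777216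
    push_cast at e3 ⊢
    rw [hFim, abs_neg, abs_mul, abs_mul, hqabs, ← hbb, abs_of_pos (show (0:ℝ) < 2 by norm_num)]
    have e4 : 2 * ((C:ℝ) / 16777216) * (ds B 536870912 : ℕ) = 2 * (C:ℝ) * (ds B 536870912 : ℕ) / 16777216 := by ring
    rw [e4]
    linarith
  have hm1 : (1:ℝ) ≤ gm f C D A := by
    have : 1 ≤ gm f C D A := by unfold gm; exact Nat.le_add_left _ _
    exact Nat.one_le_cast.2 this
  have hn1 : (1:ℝ) ≤ gn C B := by
    have : 1 ≤ gn C B := by unfold gn; exact Nat.le_add_left _ _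
    exact Nat.one_le_cast.2 this
  have hG : Real.sqrt ((gm f C D A:ℝ) ^ 2 + (gn C B:ℝ) ^ 2) ≤ gg f C D A B := by
    exact nrm_ge _ _
  generalize gm f C D A = m at hmre hm1 hG ⊢
  generalize gn C B = n at hnim hn1 hG ⊢
  generalize gg f C D A B = G at hG ⊢
  set R := Real.sqrt ((m:ℝ) ^ 2 + (n:ℝ) ^ 2) with hR
  have hR0 : 0 < R := Real.sqrt_pos.2 (by positivity)
  have hR2 : R ^ 2 = (m:ℝ) ^ 2 + (n:ℝ) ^ 2 := Real.sq_sqrt (by positivity)
  have hG0 : (0:ℝ) < G := hR0.trans_le hG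
  have hdiv : (((m * m + n * n) / G : ℕ) : ℝ) ≤ R := by
    refine (div_upper _ _).trans ?_
    rw [div_le_iff₀ hG0]
    push_cast
    nlinarith
  have hFR : R - 2 ≤ ‖F‖ := by
    have h1 : ‖F‖ ^ 2 = |F.re| ^ 2 + |F.im| ^ 2 := by
      rw [Complex.sq_norm, Complex.normSq_apply, sq_abs, sq_abs]; ring
    have h2 : R ^ 2 ≤ (‖F‖ + 2) ^ 2 := by
      rw [hR2]
      have a1 : |F.re| ≤ ‖F‖ := Complex.abs_re_le_norm F
      have a2 : |F.im| ≤ ‖F‖ := Complex.abs_im_le_norm F
      have b1 : (m:ℝ) ^ 2 ≤ (|F.re| + 1) ^ 2 := pow_le_pow_left₀ (by positivity) (by linarith) 2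
      have b2 : (n:ℝ) ^ 2 ≤ (|F.im| + 1) ^ 2 := pow_le_pow_left₀ (by positivity) (by linarith) 2
      nlinarith [norm_nonneg F]
    have h3 := abs_le_of_sq_le_sq h2 (by positivity)
    have := (abs_le.1 h3).2
    linarith [h3, le_abs_self R]
  have hfin : R - 2 - 11 - (2 * C * r / 16777216 + 26) ≤ ‖16777216 - 2 * (c:ℂ) * W‖ := by
    have hdec : (16777216 - 2 * (c:ℂ) * W : ℂ) = F - (2 * ((c - q : ℝ) : ℂ) * z + 2 * (c:ℂ) * (W - z)) := by
      rw [hF]; push_cast; ring
    rw [hdec]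
    have h2 : ‖(2:ℂ)‖ = 2 := by simp
    have d1 : ‖2 * ((c - q : ℝ) : ℂ) * z‖ ≤ 11 := by
      rw [norm_mul, norm_mul, h2, Complex.norm_real, Real.norm_eq_abs]
      calc 2 * |c - q| * ‖z‖ ≤ 2 * (1 / 16777216) * 86000000 := by
            apply mul_le_mul _ hz (norm_nonneg _) (by norm_num)
            linarith
        _ ≤ 11 := by norm_num
    have hcC2 : |c| ≤ (C:ℝ) / 16777216 + 1 / 16777216 := by
      have : c = q + (c - q) := by ring
      rw [this]
      refine (abs_add_le _ _).trans ?_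
      rw [hqabs]
      linarith
    have hr' : (r:ℝ) ≤ 218103808 := by exact_mod_cast hr
    have hr0 : (0:ℝ) ≤ r := Nat.cast_nonneg _
    have d2 : ‖2 * (c:ℂ) * (W - z)‖ ≤ 2 * C * r / 16777216 + 26 := by
      rw [norm_mul, norm_mul, h2, Complex.norm_real, Real.norm_eq_abs]
      calc 2 * |c| * ‖W - z‖ ≤ 2 * ((C:ℝ) / 16777216 + 1 / 16777216) * r := by
            apply mul_le_mul _ hW (norm_nonneg _) (by positivity)
            linarith
        _ = 2 * C * r / 16777216 + 2 * r / 16777216 := by ring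
        _ ≤ 2 * C * r / 16777216 + 26 := by
          have : 2 * (r:ℝ) / 16777216 ≤ 26 := by
            rw [div_le_iff₀ (by norm_num)]; linarith
          linarith
    have d3 := norm_add_le (2 * ((c - q : ℝ) : ℂ) * z) (2 * (c:ℂ) * (W - z))
    have d4 := norm_sub_norm_le F (2 * ((c - q : ℝ) : ℂ) * z + 2 * (c:ℂ) * (W - z))
    linarith
  have e5 := div_lower (2 * C * r) 16777216 (by norm_num)
  push_cast at e5
  rcases le_total ((m * m + n * n) / G) (2 * C * r / 16777216 + 45) with hle | hle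
  · rw [Nat.sub_eq_zero_of_le hle]
    push_cast
    exact norm_nonneg _
  · rw [Nat.cast_sub hle]
    push_cast at hdiv ⊢
    linarith

end Pool.Agent.W_4481e3_q59.PEv
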