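import Pool.Agent.W_4481e3_q59.Drift

/-!
The measure package, final form.
-/

open MeasureTheory Filter Topology Set

namespace Pool.Agent.W_MP_4481e3_an

/-- `n` is the end of the first `2K` steps of an ok block at an aligned position -/
def Target (K K' : ℕ) (M : ℝ) (k₁ : ℕ) (u : ℝ) (n : ℕ) : Prop :=
  ∃ p, n = p + 2 * K ∧ 2 * (K + K') ∣ p ∧ 2 ^ p * u ∈ Q K K' M k₁

lemma emptyCnt_le {K K' : ℕ} (hK' : 3 ≤ K') {M : ℝ} {k₁ μ : ℕ} (u : ℝ) (N : ℕ) :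
    emptyCnt (2 * (K + K') * μ) (Target K K' M k₁ u) N ≤
      cnt (NoQ K K' M k₁ μ) (2 * (K + K') * μ) N u := by
  classical
  unfold emptyCnt cnt
  apply Finset.card_le_card
  intro i hi
  simp only [Finset.mem_filter] at hi ⊢
  refine ⟨hi.1, ?_⟩
  intro j hj hQ
  set m := K + K' with hm
  refine hi.2 (i * (2 * m * μ) + 2 * m * j + 2 * K) (by omega) ?_ ⟨i * (2 * m * μ) + 2 * m * j, rfl, ?_, ?_⟩
  · have h1 : 2 * m * (j + 1) ≤ 2 * m * μ := Nat.mul_le_mul_left _ hj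
    have h2 : (i + 1) * (2 * m * μ) = i * (2 * m * μ) + 2 * m * μ := by ring
    have h3 : 2 * m * (j + 1) = 2 * m * j + 2 * m := by ring
    omega
  · exact ⟨i * μ + j, by ring⟩
  · have : (2:ℝ) ^ (i * (2 * m * μ) + 2 * m * j) * u =
        (((4 ^ m) ^ j : ℕ) : ℝ) * (((2 ^ (i * (2 * m * μ)) : ℕ) : ℝ) * u) := by
      push_cast
      rw [pow_add, show (4:ℝ) = 2 ^ 2 by norm_num, ← pow_mul, ← pow_mul]
      ring
    rw [this]
    exact hQ

/-- **The measure package.**  `K`, `E`, `C` are given first; then `K'`, `μ` (the window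
`T = 2 (K+K') μ`), then `M` is arbitrary, then `k₁`. -/
theorem exists_tame (K : ℕ) {E C : ℝ} (hE : 0 ≤ E) (hC : 0 ≤ C) {G : Set ℝ}
    (hG : 0 < volume (G ∩ Ioc 0 1)) :
    ∃ K' μ : ℕ, 3 ≤ K' ∧ 0 < μ ∧ ∀ M : ℝ, 0 < M → ∃ k₁ : ℕ, M * ek k₁ ≤ 2 / 5 ∧
      ∀ (r₀ : ℝ) (_ : 0 < r₀) (Tame : ℝ → ℕ → ℝ → Prop)
        (_ : ∀ u n r r', 0 < r' → r' ≤ r → Tame u n r → Tame u n r')
        (G' : Set ℝ) (_ : G' ⊆ G) (_ : volume (G \ G') = 0)
        (_ : ∀ u ∈ G', ∃ n₀ : ℕ,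
          (∀ n, n₀ ≤ n → Target K K' M k₁ u n → ∃ r, 0 < r ∧ Tame u n r) ∧
          (∀ n n' r, n₀ ≤ n → Target K K' M k₁ u n → Target K K' M k₁ u n' → n < n' →
            n' ≤ n + 2 * (2 * (K + K') * μ) → 0 < r → r ≤ r₀ → Tame u n r → Tame u n' (Real.exp 1 * r)) ∧
          (∀ n n' r, n₀ ≤ n → Target K K' M k₁ u n → Target K K' M k₁ u n' → n < n' →
            0 < r → r ≤ r₀ → Tame u n r →
            Tame u n' (Real.exp (-(E * ((n' - n : ℕ) : ℝ) + C)) * r))),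
        0 < volume ({u ∈ G' | ∀ N₀, ∃ n, N₀ ≤ n ∧ Target K K' M k₁ u n ∧ Tame u n r₀} ∩ Ioc 0 1) := by
  have hfin : volume (G ∩ Ioc 0 1) ≠ ⊤ := by
    refine ne_top_of_le_ne_top ?_ (measure_mono (inter_subset_right (s := G) (t := Ioc (0:ℝ) 1)))
    simp
  set g := (volume (G ∩ Ioc 0 1)).toReal with hg
  have hg0 : 0 < g := ENNReal.toReal_pos hG.ne' hfin
  obtain ⟨K', μ, hK', hμ, hw⟩ := exists_window K (E := 3 * E) (C := C + 1) (g := g / 4) (by positivity)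
    (by positivity) (by positivity)
  refine ⟨K', μ, hK', hμ, fun M hM => ?_⟩
  obtain ⟨k₁, hk₁, hvol⟩ := hw M hM
  refine ⟨k₁, hk₁, fun r₀ hr₀ Tame mono G' hG' hGG' hS => ?_⟩
  set T := 2 * (K + K') * μ with hT
  set Λ : ℝ := 3 * E * (T : ℝ) + C + 2 with hΛ
  have hΛ0 : 0 < Λ := by positivity
  have hGv : volume (G' ∩ Ioc 0 1) = ENNReal.ofReal g := by
    rw [hg, ENNReal.ofReal_toReal hfin]
    apply le_antisymm (measure_mono (inter_subset_inter_left _ hG'))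
    have hsub : G ∩ Ioc 0 1 ⊆ (G' ∩ Ioc 0 1) ∪ (G \ G') := by
      rintro x ⟨h1, h2⟩
      by_cases h : x ∈ G'
      · exact Or.inl ⟨h, h2⟩
      · exact Or.inr ⟨h1, h⟩
    have := (measure_mono (μ := volume) hsub).trans (measure_union_le _ _)
    rwa [hGG', add_zero] at this
  have hlt : volume (NoQ K K' M k₁ μ ∩ Ioc 0 1) <
      ENNReal.ofReal (1 / (2 * Λ)) * volume (G' ∩ Ioc 0 1) := by
    rw [hGv, ← ENNReal.ofReal_mul (by positivity)]
    refine hvol.trans_lt ?_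
    rw [ENNReal.ofReal_lt_ofReal_iff (by positivity)]
    have h1 : 3 * E * (T:ℝ) + (C + 1) + 1 = Λ := by rw [hΛ]; ring
    rw [h1]
    rw [div_mul_eq_mul_div, one_mul, div_div, div_lt_div_iff₀ (by positivity) (by positivity)]
    nlinarith [mul_pos hg0 hΛ0]
  have hfreq := exists_freq (NoQ_per K K' M k₁ μ) (NoQ_measurable K K' M k₁ μ) T
    (θ := 1 / (2 * Λ)) (by positivity) hlt
  refine hfreq.trans_le (measure_mono ?_)
  rintro u ⟨⟨hu, hfr⟩, hu1⟩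
  refine ⟨⟨hu, ?_⟩, hu1⟩
  obtain ⟨n₀, S1, S2, S3⟩ := hS u hu
  refine drift (T := T) hE hC hr₀ (mono u) S1 S2 S3 (θ := 1 / (2 * Λ)) (by positivity) ?_ ?_
  · rw [← hΛ, div_mul_eq_mul_div, one_mul, div_lt_one (by positivity)]
    linarith
  · refine hfr.mono fun N hN => le_trans ?_ hN
    exact_mod_cast emptyCnt_le hK' u N

end Pool.Agent.W_MP_4481e3_an
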