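import Pool.Agent.W_4481e3_q59.Block

/-!
Measure of the set of base points without an ok block in a long window.
-/

open MeasureTheory Filter Topology Set

namespace Pool.Agent.W_MP_4481e3_an

lemma NoPat_succ (m μ : ℕ) : NoPat m (μ + 1) = {b | ((4 ^ m : ℕ) : ℝ) * b ∈ NoPat m μ} \ Pat m := by
  ext b
  simp only [NoPat, mem_ofPred_eq, Set.mem_sdiff]
  constructor
  · intro h
    refine ⟨fun i hi => ?_, ?_⟩
    · have := h (i + 1) (by omega)
      rw [pow_succ] at this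
      push_cast at this ⊢
      rwa [← mul_assoc]
    · have := h 0 (by omega)
      simpa using this
  · rintro ⟨h1, h2⟩ i hi
    rcases i with _ | i
    · simpa using h2
    · have := h1 i (by omega)
      rw [pow_succ]
      push_cast at this ⊢
      rwa [← mul_assoc] at this

/-- the block of length `2m` is independent of the later digits -/
lemma vol_Pat_inter {m : ℕ} (hm : 1 ≤ m) {N : Set ℝ} (hN : Per N) (hNm : MeasurableSet N) :
    volume (({b | ((4 ^ m : ℕ) : ℝ) * b ∈ N} ∩ Pat m) ∩ Ioc 0 1) =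
      ENNReal.ofReal (1 / 4 ^ m) * volume (N ∩ Ioc 0 1) := by
  have h4 : (0:ℝ) < 4 ^ m := by positivity
  -- the integer `a = (4^m - 1)/3`
  obtain ⟨a, ha⟩ : ∃ a : ℤ, (3:ℝ) * a + 1 = 4 ^ m := by
    have : ∀ m : ℕ, ∃ a : ℤ, (3:ℤ) * a + 1 = 4 ^ m := by
      intro m
      induction m with
      | zero => exact ⟨0, by norm_num⟩
      | succ m ih =>
        obtain ⟨a, ha⟩ := ih
        exact ⟨4 * a + 1, by rw [pow_succ, ← ha]; ring⟩
    obtain ⟨a, ha⟩ := this m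
    exact ⟨a, by exact_mod_cast ha⟩
  rw [inter_assoc, Pat_inter_subset m hm]
  have hset : {b | ((4 ^ m : ℕ) : ℝ) * b ∈ N} ∩ Ico (1 / 3 - 1 / 3 / 4 ^ m : ℝ) (1 / 3 + 2 / 3 / 4 ^ m) =
      (fun t : ℝ => 0 + (4:ℝ) ^ m * t) ⁻¹' (N ∩ Ico (a:ℝ) (a + 1)) := by
    ext x
    simp only [mem_inter_iff, mem_ofPred_eq, mem_preimage, mem_Ico, zero_add]
    push_cast
    have e1 : (1 / 3 - 1 / 3 / 4 ^ m : ℝ) ≤ x ↔ (a:ℝ) ≤ 4 ^ m * x := by
      have : (1 / 3 - 1 / 3 / 4 ^ m : ℝ) = a / 4 ^ m := by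
        field_simp; linarith
      rw [this, div_le_iff₀ h4, mul_comm x]
    have e2 : x < (1 / 3 + 2 / 3 / 4 ^ m : ℝ) ↔ 4 ^ m * x < (a:ℝ) + 1 := by
      have : (1 / 3 + 2 / 3 / 4 ^ m : ℝ) = (a + 1) / 4 ^ m := by
        field_simp; linarith
      rw [this, lt_div_iff₀ h4, mul_comm x]
    rw [e1, e2]
  rw [hset, vol_affine _ h4, one_div]
  congr 1
  have h5 : volume (N ∩ Ico (a:ℝ) (a + 1)) = volume (N ∩ Ioc (a:ℝ) (a + 1)) := by
    apply measure_congr
    exact (ae_eq_refl N).inter Ico_ae_eq_Ioc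
  rw [h5, hN.vol_Ioc hNm (a:ℝ) 0, zero_add]

lemma vol_NoPat {m : ℕ} (hm : 1 ≤ m) (μ : ℕ) :
    volume (NoPat m μ ∩ Ioc 0 1) = ENNReal.ofReal ((1 - 1 / 4 ^ m) ^ μ) := by
  have h4 : (1:ℝ) ≤ 4 ^ m := one_le_pow₀ (by norm_num)
  have h41 : (0:ℝ) ≤ 1 - 1 / 4 ^ m := by
    have : (1:ℝ) / 4 ^ m ≤ 1 := by rw [div_le_one (by positivity)]; exact h4
    linarith
  induction μ with
  | zero => simp [NoPat]
  | succ μ ih =>
    rw [NoPat_succ]
    set N := NoPat m μ with hN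
    have hNper := NoPat_per m μ
    have hNm := NoPat_measurable m μ
    set S := {b | ((4 ^ m : ℕ) : ℝ) * b ∈ N} with hS
    have hSm : MeasurableSet S := (measurable_const_mul _) hNm
    have h1 : volume (S ∩ Ioc 0 1) = volume (N ∩ Ioc 0 1) := by
      have := hNper.vol_scale hNm (N := 4 ^ m) (by positivity) 0
      rw [zero_add] at this
      exact this
    have h2 := vol_Pat_inter hm hNper hNm
    have h3 : volume (S ∩ Ioc 0 1) = volume ((S ∩ Pat m) ∩ Ioc 0 1) + volume ((S \ Pat m) ∩ Ioc 0 1) := by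
      rw [← measure_union]
      · congr 1
        rw [← union_inter_distrib_right, inter_union_sdiff]
      · refine Disjoint.mono inter_subset_left inter_subset_left ?_
        exact disjoint_sdiff_right.mono_left inter_subset_right
      · exact (hSm.diff (Pat_measurable m)).inter measurableSet_Ioc
    rw [h1, h2, ih] at h3
    have h6 : ENNReal.ofReal ((1 - 1 / 4 ^ m) ^ μ) =
        ENNReal.ofReal (1 / 4 ^ m) * ENNReal.ofReal ((1 - 1 / 4 ^ m) ^ μ) +
        ENNReal.ofReal ((1 - 1 / 4 ^ m) ^ (μ + 1)) := by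
      rw [← ENNReal.ofReal_mul (by positivity), ← ENNReal.ofReal_add (by positivity) (by positivity)]
      congr 1
      rw [pow_succ]; ring
    have h3' := h6.symm.trans h3
    have h7 : ENNReal.ofReal (1 / 4 ^ m) * ENNReal.ofReal ((1 - 1 / 4 ^ m) ^ μ) ≠ ⊤ :=
      ENNReal.mul_ne_top ENNReal.ofReal_ne_top ENNReal.ofReal_ne_top
    exact ((ENNReal.add_right_inj h7).1 h3').symm

/-- base points without an ok block at the aligned positions `2(K+K') i`, `i < μ` -/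
def NoQ (K K' : ℕ) (M : ℝ) (k₁ μ : ℕ) : Set ℝ :=
  {b | ∀ i < μ, (((4 ^ (K + K')) ^ i : ℕ) : ℝ) * b ∉ Q K K' M k₁}

lemma NoQ_per (K K' : ℕ) (M : ℝ) (k₁ μ : ℕ) : Per (NoQ K K' M k₁ μ) := by
  intro x k
  simp only [NoQ, mem_ofPred_eq]
  exact forall_congr' fun i => forall_congr' fun _ => not_congr ((Q_per K K' M k₁).scale _ x k)

lemma NoQ_measurable (K K' : ℕ) (M : ℝ) (k₁ μ : ℕ) : MeasurableSet (NoQ K K' M k₁ μ) := by
  have : NoQ K K' M k₁ μ = ⋂ i, ⋂ (_ : i < μ), {b | (((4 ^ (K + K')) ^ i : ℕ) : ℝ) * b ∈ Q K K' M k₁}ᶜ := by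
    ext b; simp [NoQ]
  rw [this]
  exact MeasurableSet.iInter fun i => MeasurableSet.iInter fun _ =>
    ((measurable_const_mul _) (Q_measurable K K' M k₁)).compl

lemma vol_NoQ {K K' : ℕ} (hK' : 3 ≤ K') {M : ℝ} (hM : 0 ≤ M) {k₁ : ℕ} (hk : M * ek k₁ ≤ 2 / 5) (μ : ℕ) :
    volume (NoQ K K' M k₁ μ ∩ Ioc 0 1) ≤ ENNReal.ofReal ((1 - 1 / 4 ^ (K + K')) ^ μ +
      μ * ((2 * K + 1) * (33 / 4 ^ (K + K') * (4 * ek (2 * K' - 5) + 2 * (M * ek k₁))))) := by
  set m := K + K' with hm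
  set X := (2 * K + 1) * (33 / 4 ^ m * (4 * ek (2 * K' - 5) + 2 * (M * ek k₁))) with hX
  have hX0 : 0 ≤ X := by
    have h1 := (ek_pos (2 * K' - 5)).le
    have h2 := (ek_pos k₁).le
    positivity
  have h4 : (1:ℝ) ≤ 4 ^ m := one_le_pow₀ (by norm_num)
  have h41 : (0:ℝ) ≤ 1 - 1 / 4 ^ m := by
    have : (1:ℝ) / 4 ^ m ≤ 1 := by rw [div_le_one (by positivity)]; exact h4
    linarith
  have hsub : NoQ K K' M k₁ μ ∩ Ioc 0 1 ⊆ (NoPat m μ ∩ Ioc 0 1) ∪
      ⋃ i ∈ Finset.range μ, ({b | (((4 ^ m) ^ i : ℕ) : ℝ) * b ∈ Pat m \ Q K K' M k₁} ∩ Ioc 0 1) := by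
    rintro b ⟨h1, h2⟩
    by_cases h3 : b ∈ NoPat m μ
    · left; exact ⟨h3, h2⟩
    · right
      simp only [NoPat, mem_ofPred_eq, not_forall, not_not] at h3
      obtain ⟨i, hi, h5⟩ := h3
      rw [mem_iUnion₂]
      exact ⟨i, Finset.mem_range.2 hi, ⟨h5, h1 i hi⟩, h2⟩
  refine (measure_mono hsub).trans ((measure_union_le _ _).trans ?_)
  rw [vol_NoPat (by omega), ENNReal.ofReal_add (by positivity) (by positivity)]
  gcongr
  refine (measure_biUnion_finset_le _ _).trans ?_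
  have hper : Per (Pat m \ Q K K' M k₁) := by
    intro x k
    simp only [Set.mem_sdiff]
    rw [Pat_per m x k, Q_per K K' M k₁ x k]
  have hmeas : MeasurableSet (Pat m \ Q K K' M k₁) := (Pat_measurable m).diff (Q_measurable _ _ _ _)
  have h6 : ∀ i ∈ Finset.range μ, volume ({b | (((4 ^ m) ^ i : ℕ) : ℝ) * b ∈ Pat m \ Q K K' M k₁} ∩ Ioc 0 1) ≤
      ENNReal.ofReal X := by
    intro i _
    have := hper.vol_scale hmeas (N := (4 ^ m) ^ i) (by positivity) 0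
    rw [zero_add] at this
    rw [this]
    exact vol_Pat_diff_Q hK' hM hk
  refine (Finset.sum_le_sum h6).trans ?_
  rw [Finset.sum_const, Finset.card_range, nsmul_eq_mul, ← ENNReal.ofReal_natCast,
    ← ENNReal.ofReal_mul (by positivity)]

end Pool.Agent.W_MP_4481e3_an
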